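import Pool.Agent.helper98.SUD.D1

/-!
# A small connected net
-/

namespace Pool.H98.Sud

open Finset
open scoped Classical

namespace D2

variable {V : Type*} [Fintype V] {G : SimpleGraph V}

lemma mem_ball_iff {v w : V} {s : ℕ} : w ∈ ball G v s ↔ ∃ p : G.Walk v w, p.length ≤ s := by
  constructor
  · intro h
    induction s generalizing w with
    | zero =>
      simp [ball] at h
      subst h
      exact ⟨SimpleGraph.Walk.nil, le_rfl⟩
    | succ s ih =>
      rcases D1.mem_succ.1 h with h1 | ⟨u, hu, hau⟩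
      · obtain ⟨p, hp⟩ := ih h1
        exact ⟨p, by omega⟩
      · obtain ⟨p, hp⟩ := ih hu
        exact ⟨p.concat hau, by rw [SimpleGraph.Walk.length_concat]; omega⟩
  · rintro ⟨p, hp⟩
    have key : ∀ (n : ℕ) (w : V) (p : G.Walk v w), p.length = n → w ∈ ball G v n := by
      intro n
      induction n with
      | zero =>
        intro w p hp
        have := SimpleGraph.Walk.eq_of_length_eq_zero hp
        subst this
        exact D1.self_mem _ _
      | succ n ih =>
        intro w p hp
        obtain ⟨u, q, h, hq⟩ : ∃ (u : V) (q : G.Walk v u) (h : G.Adj u w), p = q.concat h := by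
          cases p with
          | nil => simp at hp
          | cons h p =>
            obtain ⟨x, q, h', hq'⟩ := SimpleGraph.Walk.exists_cons_eq_concat h p
            exact ⟨x, q, h', hq'⟩
        subst hq
        rw [SimpleGraph.Walk.length_concat] at hp
        exact D1.mem_succ.2 (Or.inr ⟨u, ih u q (by omega), h⟩)
    exact D1.mono v hp (key p.length w p rfl)

lemma ball_symm {v w : V} {s : ℕ} (h : w ∈ ball G v s) : v ∈ ball G w s := by
  obtain ⟨p, hp⟩ := mem_ball_iff.1 h
  exact mem_ball_iff.2 ⟨p.reverse, by simpa using hp⟩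

lemma ball_trans {u v w : V} {s t : ℕ} (h : v ∈ ball G u s) (h' : w ∈ ball G v t) :
    w ∈ ball G u (s + t) := by
  obtain ⟨p, hp⟩ := mem_ball_iff.1 h
  obtain ⟨q, hq⟩ := mem_ball_iff.1 h'
  exact mem_ball_iff.2 ⟨p.append q, by rw [SimpleGraph.Walk.length_append]; omega⟩

/-- a path as a connected set -/
lemma exists_path {v w : V} {s : ℕ} (h : w ∈ ball G v s) :
    ∃ P : Finset V, v ∈ P ∧ w ∈ P ∧ P.card ≤ s + 1 ∧ (G.induce (P : Set V)).Connected := by
  obtain ⟨p, hp⟩ := mem_ball_iff.1 h
  refine ⟨p.support.toFinset, by simp, by simp, ?_, ?_⟩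
  · refine (List.toFinset_card_le _).trans ?_
    rw [SimpleGraph.Walk.length_support]
    omega
  · have := p.connected_induce_support
    have he : {x | x ∈ p.support} = ((p.support.toFinset : Finset V) : Set V) := by
      ext x
      simp
    rw [he] at this
    exact this

lemma conn_union {A B : Finset V} (hA : (G.induce (A : Set V)).Connected)
    (hB : (G.induce (B : Set V)).Connected) {x : V} (h1 : x ∈ A) (h2 : x ∈ B) :
    (G.induce ((A ∪ B : Finset V) : Set V)).Connected := by
  rw [Finset.coe_union]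
  exact SimpleGraph.induce_union_connected hA.preconnected hB.preconnected
    ⟨x, by simpa using h1, by simpa using h2⟩

/-- adding a short path between a connected set and a point at distance `≤ s` of one of its
points -/
lemma add_path {C : Finset V} (hC : (G.induce (C : Set V)).Connected) {x y : V} {s : ℕ}
    (hx : x ∈ C) (h : y ∈ ball G x s) :
    ∃ C' : Finset V, C ⊆ C' ∧ y ∈ C' ∧ C'.card ≤ C.card + s ∧
      (G.induce (C' : Set V)).Connected := by
  obtain ⟨P, h1, h2, h3, h4⟩ := exists_path h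
  refine ⟨C ∪ P, subset_union_left, mem_union_right _ h2, ?_, conn_union hC h4 hx h1⟩
  have hu : C ∪ P = C ∪ (P.erase x) := by
    ext z
    simp only [mem_union, mem_erase]
    constructor
    · rintro (h | h)
      · exact Or.inl h
      · by_cases hz : z = x
        · left; rw [hz]; exact hx
        · exact Or.inr ⟨hz, h⟩
    · rintro (h | h)
      · exact Or.inl h
      · exact Or.inr h.2
  rw [hu]
  refine (Finset.card_union_le _ _).trans ?_
  rw [Finset.card_erase_of_mem h1]
  omega

/-- a connected set which contains the net -/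
lemma net_conn (hG : G.Connected) (s : ℕ) (N : Finset V)
    (hN : ∀ v, ∃ u ∈ N, v ∈ ball G u s) (hne : N.Nonempty) :
    ∃ C : Finset V, N ⊆ C ∧ (G.induce (C : Set V)).Connected ∧
      C.card ≤ (2 * s + 1) * N.card := by
  obtain ⟨z, hz⟩ := hne
  -- the family of admissible sets
  set F : Finset (Finset V) := univ.filter (fun C =>
    (G.induce (C : Set V)).Connected ∧ (C ∩ N).Nonempty ∧ C.card ≤ (2 * s + 1) * (C ∩ N).card)
    with hF
  have hFne : F.Nonempty := by
    refine ⟨{z}, ?_⟩
    rw [hF, mem_filter]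
    refine ⟨mem_univ _, ?_, ⟨z, by simp [hz]⟩, ?_⟩
    · rw [Finset.coe_singleton]
      have : Subsingleton ({z} : Set V) := by infer_instance
      have : Nonempty ({z} : Set V) := ⟨⟨z, rfl⟩⟩
      exact (SimpleGraph.connected_iff _).2 ⟨fun a b => by
        rw [Subsingleton.elim a b], this⟩
    · have : ({z} : Finset V) ∩ N = {z} := by
        rw [Finset.inter_eq_left, Finset.singleton_subset_iff]
        exact hz
      rw [this]
      simp
  obtain ⟨C, hCF, hmax⟩ := Finset.exists_max_image F (fun C => (C ∩ N).card) hFne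
  rw [hF, mem_filter] at hCF
  obtain ⟨-, hC, hCN, hcard⟩ := hCF
  by_cases hsub : N ⊆ C
  · refine ⟨C, hsub, hC, ?_⟩
    rwa [Finset.inter_eq_right.2 hsub] at hcard
  exfalso
  obtain ⟨y, hyN, hyC⟩ := Finset.not_subset.1 hsub
  obtain ⟨x0, hx0⟩ := hCN
  rw [mem_inter] at hx0
  -- the two parts
  set A : Set V := {v | ∃ u ∈ C ∩ N, v ∈ ball G u s} with hA
  -- an edge from A to a vertex outside or y ∈ A
  have hstep : ∃ a ∈ C ∩ N, ∃ b ∈ N, b ∉ C ∧ b ∈ ball G a (2 * s + 1) := by
    by_cases hAuniv : ∀ v, v ∈ A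
    · obtain ⟨u, hu, hyu⟩ := hAuniv y
      exact ⟨u, hu, y, hyN, hyC, D1.mono _ (by omega) hyu⟩
    · push Not at hAuniv
      obtain ⟨t, ht⟩ := hAuniv
      -- walk from x0 to t
      obtain ⟨p⟩ := hG.preconnected x0 t
      have hx0A : x0 ∈ A := ⟨x0, mem_inter.2 hx0, D1.self_mem _ _⟩
      obtain ⟨d, hd, hd1, hd2⟩ := p.exists_boundary_dart A hx0A ht
      obtain ⟨u, hu, hdu⟩ := hd1
      obtain ⟨w, hw, hdw⟩ := hN d.snd
      have hwC : w ∉ C := by
        intro hwC
        exact hd2 ⟨w, mem_inter.2 ⟨hwC, hw⟩, hdw⟩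
      refine ⟨u, hu, w, hw, hwC, ?_⟩
      have e1 : d.snd ∈ ball G u (s + 1) :=
        D1.mem_succ.2 (Or.inr ⟨d.fst, hdu, d.adj⟩)
      have := ball_trans e1 (ball_symm hdw)
      exact D1.mono _ (by omega) this
  obtain ⟨a, ha, b, hb, hbC, hab⟩ := hstep
  obtain ⟨C', h1, h2, h3, h4⟩ := add_path hC (mem_inter.1 ha).1 hab
  have hlt : (C ∩ N).card + 1 ≤ (C' ∩ N).card := by
    have : insert b (C ∩ N) ⊆ C' ∩ N := by
      intro x hx
      rw [mem_insert, mem_inter] at hx
      rw [mem_inter]
      rcases hx with rfl | ⟨hx1, hx2⟩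
      · exact ⟨h2, hb⟩
      · exact ⟨h1 hx1, hx2⟩
    have h5 := Finset.card_le_card this
    rw [Finset.card_insert_of_notMem (by rw [mem_inter]; tauto)] at h5
    exact h5
  have hF' : C' ∈ F := by
    rw [hF, mem_filter]
    refine ⟨mem_univ _, h4, ⟨b, mem_inter.2 ⟨h2, hb⟩⟩, ?_⟩
    calc C'.card ≤ C.card + (2 * s + 1) := h3
      _ ≤ (2 * s + 1) * (C ∩ N).card + (2 * s + 1) := by omega
      _ = (2 * s + 1) * ((C ∩ N).card + 1) := by ring
      _ ≤ (2 * s + 1) * (C' ∩ N).card := Nat.mul_le_mul_left _ hlt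
  have := hmax C' hF'
  omega

end D2

theorem D2 {V : Type*} [Fintype V] (G : SimpleGraph V) (hG : G.Connected) (r B : ℕ) (hB : 0 < B)
    (Q D : Finset V) (hball : ∀ v, v ∉ Q → B ≤ (ball G v r).card) :
    ∃ R : Finset V, D ⊆ R ∧ Q ⊆ R ∧ R.Nonempty ∧ (G.induce (R : Set V)).Connected ∧
      (∀ v, ∃ u ∈ R, v ∈ ball G u (2 * r)) ∧
      B * R.card ≤ (Fintype.card V + B * Q.card) * (4 * r + 1) + B * (D.card * (2 * r)) := by
  -- a maximal packing
  set F : Finset (Finset V) := univ.filter (fun Z =>
    (∀ z ∈ Z, z ∉ Q) ∧ ∀ z ∈ Z, ∀ z' ∈ Z, z ≠ z' → Disjoint (ball G z r) (ball G z' r)) with hF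
  have hFne : F.Nonempty := ⟨∅, by simp [hF]⟩
  obtain ⟨Z, hZF, hmax⟩ := Finset.exists_max_image F Finset.card hFne
  rw [hF, mem_filter] at hZF
  obtain ⟨-, hZQ, hZd⟩ := hZF
  have hZc : B * Z.card ≤ Fintype.card V := by
    have h1 : (Z.biUnion (fun z => ball G z r)).card = ∑ z ∈ Z, (ball G z r).card :=
      Finset.card_biUnion (fun z hz z' hz' hne => hZd z hz z' hz' hne)
    have h2 : Z.card * B ≤ ∑ z ∈ Z, (ball G z r).card := by
      rw [← smul_eq_mul]
      exact Finset.card_nsmul_le_sum Z _ B (fun z hz => hball z (hZQ z hz))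
    have h3 := Finset.card_le_univ (Z.biUnion (fun z => ball G z r))
    rw [mul_comm]
    omega
  have hN : ∀ v, ∃ u ∈ Z ∪ Q, v ∈ ball G u (2 * r) := by
    intro v
    by_cases hvQ : v ∈ Q
    · exact ⟨v, mem_union_right _ hvQ, D1.self_mem _ _⟩
    by_cases hvZ : v ∈ Z
    · exact ⟨v, mem_union_left _ hvZ, D1.self_mem _ _⟩
    by_contra hcon
    push Not at hcon
    have hnew : insert v Z ∈ F := by
      rw [hF, mem_filter]
      refine ⟨mem_univ _, ?_, ?_⟩
      · intro z hz
        rcases mem_insert.1 hz with rfl | hz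
        · exact hvQ
        · exact hZQ z hz
      · have hdis : ∀ z ∈ Z, Disjoint (ball G v r) (ball G z r) := by
          intro z hz
          rw [Finset.disjoint_left]
          intro x hx hx'
          apply hcon z (mem_union_left _ hz)
          have := D2.ball_trans hx' (D2.ball_symm hx)
          rwa [← two_mul] at this
        intro z hz z' hz' hne
        rcases mem_insert.1 hz with hz1 | hz1
        · rcases mem_insert.1 hz' with hz2 | hz2
          · exact absurd (hz1.trans hz2.symm) hne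
          · rw [hz1]
            exact hdis z' hz2
        · rcases mem_insert.1 hz' with hz2 | hz2
          · rw [hz2]
            exact (hdis z hz1).symm
          · exact hZd z hz1 z' hz2 hne
    have := hmax _ hnew
    rw [Finset.card_insert_of_notMem hvZ] at this
    omega
  have hne : (Z ∪ Q).Nonempty := by
    obtain ⟨v⟩ := hG.nonempty
    obtain ⟨u, hu, _⟩ := hN v
    exact ⟨u, hu⟩
  obtain ⟨C, hNC, hC, hCcard⟩ := D2.net_conn hG (2 * r) (Z ∪ Q) hN hne
  -- add the points of D
  have hadd : ∀ D' : Finset V, ∃ R : Finset V, C ⊆ R ∧ D' ⊆ R ∧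
      (G.induce (R : Set V)).Connected ∧ R.card ≤ C.card + D'.card * (2 * r) := by
    intro D'
    induction D' using Finset.induction_on with
    | empty => exact ⟨C, Subset.refl _, by simp, hC, by simp⟩
    | insert d D' hd ih =>
      obtain ⟨R, h1, h2, h3, h4⟩ := ih
      obtain ⟨u, hu, hdu⟩ := hN d
      obtain ⟨R', g1, g2, g3, g4⟩ := D2.add_path h3 (h1 (hNC hu)) hdu
      refine ⟨R', h1.trans g1, ?_, g4, ?_⟩
      · intro x hx
        rcases mem_insert.1 hx with rfl | hx
        · exact g2
        · exact g1 (h2 hx)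
      · rw [Finset.card_insert_of_notMem hd]
        rw [add_mul]
        omega
  obtain ⟨R, h1, h2, h3, h4⟩ := hadd D
  refine ⟨R, h2, (subset_union_right.trans hNC).trans h1, hne.mono (hNC.trans h1), h3, ?_, ?_⟩
  · intro v
    obtain ⟨u, hu, hv⟩ := hN v
    exact ⟨u, h1 (hNC hu), hv⟩
  · have e1 : (Z ∪ Q).card ≤ Z.card + Q.card := Finset.card_union_le _ _
    calc B * R.card ≤ B * (C.card + D.card * (2 * r)) := Nat.mul_le_mul_left _ h4
      _ ≤ B * ((2 * (2 * r) + 1) * (Z.card + Q.card) + D.card * (2 * r)) := by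
          apply Nat.mul_le_mul_left
          have := Nat.mul_le_mul_left (2 * (2 * r) + 1) e1
          omega
      _ = (B * Z.card + B * Q.card) * (4 * r + 1) + B * (D.card * (2 * r)) := by ring
      _ ≤ _ := by
          have : (B * Z.card + B * Q.card) * (4 * r + 1) ≤
            (Fintype.card V + B * Q.card) * (4 * r + 1) := by
            apply Nat.mul_le_mul_right
            omega
          omega

end Pool.H98.Sud
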