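import Pool.Agent.helper98.SUD.Defs2

/-!
# Module D4: greedy recolouring of a connected region
-/

namespace Pool.H98.Sud

open Finset
open scoped Classical

namespace D4

lemma exists_free {V : Type*} (c : V → Fin 3) (A : Finset V) (hA : A.card ≤ 2) :
    ∃ k : Fin 3, ∀ x ∈ A, c x ≠ k := by
  by_contra h
  push Not at h
  have h1 : (univ : Finset (Fin 3)) ⊆ A.image c := by
    intro k _
    obtain ⟨x, hx, hk⟩ := h k
    exact mem_image.2 ⟨x, hx, hk⟩
  have h2 := card_le_card h1
  have h3 := card_image_le (s := A) (f := c)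
  simp at h2
  omega

lemma aux {V : Type*} [Fintype V] (G : SimpleGraph V) (h3 : Cubic G) (w y z : V) (hyz : y ≠ z)
    (hwy : G.Adj w y) (hwz : G.Adj w z) (d : V → ℕ) (n : ℕ) :
    ∀ (R : Finset V) (c : V → Fin 3), R.card = n + 1 → w ∈ R →
      (∀ v ∈ R, v ≠ w → ∃ v' ∈ R, G.Adj v v' ∧ d v' < d v) →
      (∀ v w, v ∉ R → w ∉ R → G.Adj v w → c v ≠ c w) → y ∉ R → z ∉ R → c y = c z →
      ∃ c' : V → Fin 3, (∀ v, v ∉ R → c' v = c v) ∧ ∀ v w, G.Adj v w → c' v ≠ c' w := by
  induction n with
  | zero =>
    intro R c hR hw hd hc hy hz hcyz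
    have hRw : R = {w} := by
      obtain ⟨a, ha⟩ := card_eq_one.1 hR
      rw [ha] at hw ⊢
      rw [mem_singleton.1 hw]
    obtain ⟨k, hk⟩ := exists_free c ((univ.filter (fun x => G.Adj w x)).erase z) (by
      rw [card_erase_of_mem (by simp [hwz])]
      rw [h3 w])
    refine ⟨Function.update c w k, ?_, ?_⟩
    · intro v hv
      rw [Function.update_of_ne]
      rintro rfl
      exact hv hw
    · have key : ∀ x, G.Adj w x → c x ≠ k := by
        intro x hx
        by_cases hxz : x = z
        · rw [hxz, ← hcyz]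
          exact hk y (by simp [hyz, hwy])
        · exact hk x (by simp [hxz, hx])
      intro a b hab
      by_cases ha : a = w
      · subst ha
        have hb : b ≠ a := hab.ne'
        rw [Function.update_self, Function.update_of_ne hb]
        exact (key b hab).symm
      · by_cases hb : b = w
        · subst hb
          rw [Function.update_self, Function.update_of_ne ha]
          exact key a hab.symm
        · rw [Function.update_of_ne ha, Function.update_of_ne hb]
          exact hc a b (by simp [hRw, ha]) (by simp [hRw, hb]) hab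
  | succ n ih =>
    intro R c hR hw hd hc hy hz hcyz
    have hne : (R.erase w).Nonempty := by
      rw [← card_pos, card_erase_of_mem hw]
      omega
    obtain ⟨u, hu, hmax⟩ := exists_max_image (R.erase w) d hne
    have huw : u ≠ w := (mem_erase.1 hu).1
    have huR : u ∈ R := (mem_erase.1 hu).2
    obtain ⟨u', hu'R, huu', -⟩ := hd u huR huw
    obtain ⟨k, hk⟩ := exists_free c ((univ.filter (fun x => G.Adj u x)).erase u') (by
      rw [card_erase_of_mem (by simp [huu'])]
      rw [h3 u])
    have hkey : ∀ x, x ∉ R → G.Adj u x → c x ≠ k := by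
      intro x hx hux
      refine hk x (mem_erase.2 ⟨?_, by simp [hux]⟩)
      rintro rfl
      exact hx hu'R
    obtain ⟨c', h1, h2⟩ := ih (R.erase u) (Function.update c u k)
      (by rw [card_erase_of_mem huR]; omega)
      (mem_erase.2 ⟨huw.symm, hw⟩)
      (by
        intro v hv hvw
        obtain ⟨hvu, hvR⟩ := mem_erase.1 hv
        obtain ⟨v', hv'R, hvv', hlt⟩ := hd v hvR hvw
        refine ⟨v', mem_erase.2 ⟨?_, hv'R⟩, hvv', hlt⟩
        rintro rfl
        have := hmax v (mem_erase.2 ⟨hvw, hvR⟩)
        omega)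
      (by
        intro a b ha hb hab
        by_cases hau : a = u
        · subst hau
          have hba : b ≠ a := hab.ne'
          rw [Function.update_self, Function.update_of_ne hba]
          have hbR : b ∉ R := fun h => hb (mem_erase.2 ⟨hba, h⟩)
          exact (hkey b hbR hab).symm
        · by_cases hbu : b = u
          · subst hbu
            rw [Function.update_self, Function.update_of_ne hau]
            have haR : a ∉ R := fun h => ha (mem_erase.2 ⟨hau, h⟩)
            exact hkey a haR hab.symm
          · rw [Function.update_of_ne hau, Function.update_of_ne hbu]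
            exact hc a b (fun h => ha (mem_erase.2 ⟨hau, h⟩))
              (fun h => hb (mem_erase.2 ⟨hbu, h⟩)) hab)
      (fun h => hy (mem_of_mem_erase h)) (fun h => hz (mem_of_mem_erase h))
      (by
        have hyu : y ≠ u := by
          rintro rfl
          exact hy huR
        have hzu : z ≠ u := by
          rintro rfl
          exact hz huR
        rw [Function.update_of_ne hyu, Function.update_of_ne hzu, hcyz])
    refine ⟨c', ?_, h2⟩
    intro v hv
    rw [h1 v (fun h => hv (mem_of_mem_erase h)), Function.update_of_ne]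
    rintro rfl
    exact hv huR

lemma exists_closer {W : Type*} (H : SimpleGraph W) (hH : H.Connected) (a b : W) (hab : a ≠ b) :
    ∃ x, H.Adj a x ∧ H.dist x b < H.dist a b := by
  obtain ⟨p, hp⟩ := (hH.preconnected a b).exists_walk_length_eq_dist
  cases p with
  | nil => exact absurd rfl hab
  | @cons _ x _ hadj q =>
    refine ⟨x, hadj, ?_⟩
    rw [← hp, SimpleGraph.Walk.length_cons]
    have := SimpleGraph.dist_le q
    omega

end D4

theorem D4 {V : Type*} [Fintype V] (G : SimpleGraph V) (h3 : Cubic G) (R : Finset V)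
    (hRc : (G.induce (R : Set V)).Connected) (c : V → Fin 3)
    (hc : ∀ v w, v ∉ R → w ∉ R → G.Adj v w → c v ≠ c w) (w y z : V) (hw : w ∈ R) (hyz : y ≠ z)
    (hwy : G.Adj w y) (hwz : G.Adj w z) (hy : y ∉ R) (hz : z ∉ R) (hcyz : c y = c z) :
    ∃ c' : V → Fin 3, (∀ v, v ∉ R → c' v = c v) ∧ ∀ v w, G.Adj v w → c' v ≠ c' w := by
  set H := G.induce (R : Set V) with hH
  let w0 : (R : Set V) := ⟨w, hw⟩
  let d : V → ℕ := fun v => if h : v ∈ (R : Set V) then H.dist ⟨v, h⟩ w0 else 0
  have hpos : 0 < R.card := card_pos.2 ⟨w, hw⟩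
  refine D4.aux G h3 w y z hyz hwy hwz d (R.card - 1) R c (by omega) hw ?_ hc hy hz hcyz
  intro v hv hvw
  have hv' : v ∈ (R : Set V) := hv
  obtain ⟨x, hadj, hlt⟩ := D4.exists_closer H hRc ⟨v, hv'⟩ w0 (by
    intro h
    exact hvw (congrArg Subtype.val h))
  refine ⟨x.1, x.2, hadj, ?_⟩
  have h1 : d v = H.dist ⟨v, hv'⟩ w0 := by simp only [d]; rw [dif_pos hv']
  have h2 : d x.1 = H.dist x w0 := by simp only [d]; rw [dif_pos x.2]
  rw [h1, h2]
  exact hlt

end Pool.H98.Sud
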