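import Pool.Agent.helper98.SUD.Defs2

/-!
# D6: few vertices meet all directed cycles of rainbow vertices
-/

namespace Pool.H98.Sud

open Finset
open scoped Classical

namespace D6

variable {V : Type*} [Fintype V] {G : SimpleGraph V}

/-- the out-neighbour of a rainbow vertex -/
noncomputable def out (T : Typing G) (v : V) : V :=
  if h : T.Rainbow v then h.1.choose else v

lemma out_eq (T : Typing G) {v w : V} (h : T.Rainbow v) (h1 : G.Adj v w) (h2 : T.out v w) :
    out T v = w := by
  rw [out, dif_pos h]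
  exact (h.1.choose_spec.2 w ⟨h1, h2⟩).symm

/-- a directed cycle of rainbow vertices is a periodic orbit of `out` -/
lemma iter (T : Typing G) {W : Finset V} (hW : ∀ v ∈ W, T.Rainbow v) {k : ℕ} {u : ℕ → V}
    (h : T.DirCycle W k u) : ∀ i < k, (out T)^[i] (u 0) = u i := by
  intro i
  induction i with
  | zero => exact fun _ => rfl
  | succ i ih =>
    intro hi
    rw [Function.iterate_succ_apply', ih (by omega)]
    obtain ⟨h0, h1, h2, h3, h4⟩ := h
    exact out_eq T (hW _ (h1 i (by omega))) (h3 i hi).1 (h3 i hi).2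

lemma iter_k (T : Typing G) {W : Finset V} (hW : ∀ v ∈ W, T.Rainbow v) {k : ℕ} {u : ℕ → V}
    (h : T.DirCycle W k u) : (out T)^[k] (u 0) = u 0 := by
  have h5 := iter T hW h (k - 1) (by have := h.1; omega)
  obtain ⟨h0, h1, h2, h3, h4⟩ := h
  have h6 : k = (k - 1) + 1 := by omega
  rw [h6, Function.iterate_succ_apply', h5]
  exact out_eq T (hW _ (h1 (k - 1) (by omega))) h4.1 h4.2

lemma period (T : Typing G) {W : Finset V} (hW : ∀ v ∈ W, T.Rainbow v) {k : ℕ} {u : ℕ → V}
    (h : T.DirCycle W k u) : Function.minimalPeriod (out T) (u 0) = k := by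
  have hk := h.1
  have hp : Function.IsPeriodicPt (out T) k (u 0) := iter_k T hW h
  have hle := hp.minimalPeriod_le hk
  rcases hle.lt_or_eq with hlt | heq
  · exfalso
    have hpos : 0 < Function.minimalPeriod (out T) (u 0) := hp.minimalPeriod_pos hk
    have h1 : (out T)^[Function.minimalPeriod (out T) (u 0)] (u 0) = u 0 :=
      Function.isPeriodicPt_minimalPeriod _ _
    rw [iter T hW h _ hlt] at h1
    have := h.2.2.1 _ hlt 0 hk h1
    omega
  · exact heq

/-- a chosen element of an orbit -/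
noncomputable def ch {V : Type*} (C : Cycle V) (h : ∃ w, w ∈ C) : V := h.choose

lemma ch_congr {V : Type*} {C C' : Cycle V} (h : ∃ w, w ∈ C) (h' : ∃ w, w ∈ C') (e : C = C') :
    ch C h = ch C' h' := by
  subst e
  rfl

/-- representatives of the periodic orbits -/
noncomputable def rep (f : V → V) (v : V) : V :=
  if h : ∃ w, w ∈ Function.periodicOrbit f v then ch _ h else v

lemma rep_mem (f : V → V) {v : V} (hv : v ∈ Function.periodicPts f) :
    rep f v ∈ Function.periodicOrbit f v := by
  have h : ∃ w, w ∈ Function.periodicOrbit f v := ⟨v, Function.self_mem_periodicOrbit hv⟩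
  rw [rep, dif_pos h]
  exact h.choose_spec

lemma rep_congr (f : V → V) {v w : V} (hv : v ∈ Function.periodicPts f)
    (hw : w ∈ Function.periodicPts f)
    (h : Function.periodicOrbit f v = Function.periodicOrbit f w) : rep f v = rep f w := by
  have h1 : ∃ x, x ∈ Function.periodicOrbit f v := ⟨v, Function.self_mem_periodicOrbit hv⟩
  have h2 : ∃ x, x ∈ Function.periodicOrbit f w := ⟨w, Function.self_mem_periodicOrbit hw⟩
  rw [rep, rep, dif_pos h1, dif_pos h2]
  exact ch_congr _ _ h

lemma rep_iter (f : V → V) {v : V} (hv : v ∈ Function.periodicPts f) :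
    ∃ i, f^[i] v = rep f v := (Function.mem_periodicOrbit_iff hv).1 (rep_mem f hv)

lemma iter_mem (f : V → V) {v : V} (hv : v ∈ Function.periodicPts f) (i : ℕ) :
    f^[i] v ∈ Function.periodicPts f := by
  rw [← Function.minimalPeriod_pos_iff_mem_periodicPts, Function.minimalPeriod_apply_iterate hv]
  exact Function.minimalPeriod_pos_of_mem_periodicPts hv

lemma rep_mem_pts (f : V → V) {v : V} (hv : v ∈ Function.periodicPts f) :
    rep f v ∈ Function.periodicPts f := by
  obtain ⟨i, hi⟩ := rep_iter f hv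
  rw [← hi]
  exact iter_mem f hv i

lemma rep_rep (f : V → V) {v : V} (hv : v ∈ Function.periodicPts f) (j : ℕ) :
    rep f (f^[j] (rep f v)) = rep f v := by
  obtain ⟨i, hi⟩ := rep_iter f hv
  refine rep_congr f (iter_mem f (rep_mem_pts f hv) j) hv ?_
  rw [Function.periodicOrbit_apply_iterate_eq (rep_mem_pts f hv), ← hi,
    Function.periodicOrbit_apply_iterate_eq hv]

/-- few representatives of the long orbits -/
lemma few (f : V → V) (L : ℕ) (Z : Finset V)
    (hZ : ∀ v ∈ Z, v ∈ Function.periodicPts f ∧ L < Function.minimalPeriod f v) :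
    (L + 1) * (Z.image (rep f)).card ≤ Fintype.card V := by
  rw [mul_comm, ← card_range (L + 1), ← card_product, ← card_univ]
  refine card_le_card_of_injOn (fun p => f^[p.2] p.1) (fun _ _ => mem_coe.2 (mem_univ _)) ?_
  rintro ⟨y, i⟩ hy ⟨y', i'⟩ hy' h
  rw [mem_coe, mem_product, mem_image, mem_range] at hy hy'
  simp only at hy hy' h
  obtain ⟨⟨z, hz, rfl⟩, hi⟩ := hy
  obtain ⟨⟨z', hz', rfl⟩, hi'⟩ := hy'
  have h1 : rep f z = rep f z' := by
    rw [← rep_rep f (hZ z hz).1 i, h, rep_rep f (hZ z' hz').1 i']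
  have h2 : Function.minimalPeriod f (rep f z) = Function.minimalPeriod f z := by
    obtain ⟨j, hj⟩ := rep_iter f (hZ z hz).1
    rw [← hj, Function.minimalPeriod_apply_iterate (hZ z hz).1]
  rw [← h1] at h
  have h3 : i = i' := by
    have h4 := (hZ z hz).2
    rw [← h2] at h4
    exact (Function.iterate_eq_iterate_iff_of_lt_minimalPeriod (by omega) (by omega)).1 h
  rw [h1, h3]

end D6

open D6

theorem D6 {V : Type*} [Fintype V] (G : SimpleGraph V) (T : Typing G) (L : ℕ) :
    ∃ Y : Finset V, (∀ k u, ¬ T.DirCycle ((univ.filter (fun v => T.Rainbow v)) \ Y) k u) ∧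
      (L + 1) * Y.card ≤ Fintype.card V + (L + 1) *
        (univ.filter (fun v => ∃ k ≤ L, ∃ u : ℕ → V,
          T.DirCycle (univ.filter (fun v => T.Rainbow v)) k u ∧ u 0 = v)).card := by
  set W : Finset V := univ.filter (fun v => T.Rainbow v) with hW
  have hWr : ∀ v ∈ W, T.Rainbow v := fun v hv => (mem_filter.1 hv).2
  set A : Finset V := univ.filter (fun v => ∃ k ≤ L, ∃ u : ℕ → V, T.DirCycle W k u ∧ u 0 = v)
    with hA
  set Z : Finset V := univ.filter (fun v => ∃ k, L < k ∧ ∃ u : ℕ → V, T.DirCycle W k u ∧ u 0 = v)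
    with hZ
  have hZ' : ∀ v ∈ Z, v ∈ Function.periodicPts (D6.out T) ∧
      L < Function.minimalPeriod (D6.out T) v := by
    intro v hv
    obtain ⟨_, k, hk, u, hu, rfl⟩ := mem_filter.1 hv
    rw [period T hWr hu]
    exact ⟨Function.mk_mem_periodicPts hu.1 (iter_k T hWr hu), hk⟩
  refine ⟨A ∪ Z.image (rep (D6.out T)), ?_, ?_⟩
  · intro k u hu
    have hu' : T.DirCycle W k u :=
      ⟨hu.1, fun i hi => (mem_sdiff.1 (hu.2.1 i hi)).1, hu.2.2.1, hu.2.2.2.1, hu.2.2.2.2⟩
    rcases le_or_gt k L with hk | hk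
    · refine (mem_sdiff.1 (hu.2.1 0 hu.1)).2 (mem_union_left _ ?_)
      rw [hA, mem_filter]
      exact ⟨mem_univ _, k, hk, u, hu', rfl⟩
    · have hz : u 0 ∈ Z := mem_filter.2 ⟨mem_univ _, k, hk, u, hu', rfl⟩
      obtain ⟨i, hi⟩ := rep_iter (D6.out T) (hZ' _ hz).1
      have h1 : (D6.out T)^[i % k] (u 0) = rep (D6.out T) (u 0) := by
        rw [← hi]
        conv_rhs => rw [← Function.iterate_mod_minimalPeriod_eq]
        rw [period T hWr hu']
      have h2 : i % k < k := Nat.mod_lt _ hu.1
      rw [iter T hWr hu' _ h2] at h1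
      refine (mem_sdiff.1 (hu.2.1 _ h2)).2 (mem_union_right _ ?_)
      rw [h1]
      exact mem_image_of_mem _ hz
  · have h1 := card_union_le A (Z.image (rep (D6.out T)))
    have h2 := few (D6.out T) L Z hZ'
    calc (L + 1) * (A ∪ Z.image (rep (D6.out T))).card ≤
        (L + 1) * (A.card + (Z.image (rep (D6.out T))).card) := Nat.mul_le_mul_left _ h1
      _ = (L + 1) * (Z.image (rep (D6.out T))).card + (L + 1) * A.card := by ring
      _ ≤ _ := Nat.add_le_add_right h2 _

end Pool.H98.Sud
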