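import Pool.Agent.helper98.SUD.D0
import Pool.Agent.helper98.SUD.D2
import Pool.Agent.helper98.SUD.D4
import Pool.Agent.helper98.SUD.D6
import Pool.Agent.helper28.SUD.D3
import Pool.Agent.helper28.SUD.D5

/-!
# Assembly of the deterministic part
-/

namespace Pool.H98.Sud

open Finset Filter
open scoped Classical Topology Nat

namespace D9

variable {V : Type*} [Fintype V] {G : SimpleGraph V}

/-- a graph with a proper 3-colouring and no proper 2-colouring has chromatic number 3 -/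
lemma chi_eq (h2 : ¬ G.Colorable 2) (c : V → Fin 3) (hc : ∀ v w, G.Adj v w → c v ≠ c w) :
    chi G = 3 := by
  have h3 : G.Colorable 3 := ⟨SimpleGraph.Coloring.mk c (fun {v w} h => hc v w h)⟩
  have hle : G.chromaticNumber ≤ 3 := h3.chromaticNumber_le
  have hge : ¬ G.chromaticNumber ≤ 2 := by
    intro h
    exact h2 (SimpleGraph.chromaticNumber_le_iff_colorable.1 h)
  unfold chi
  have hne : G.chromaticNumber ≠ ⊤ := fun h => by rw [h] at hle; exact absurd hle (by simp)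
  obtain ⟨n, hn⟩ := ENat.ne_top_iff_exists.1 hne
  rw [← hn] at hle hge ⊢
  have h4 : n ≤ 3 := by exact_mod_cast hle
  have h5 : ¬ n ≤ 2 := fun h => hge (by exact_mod_cast h)
  rw [ENat.toNat_coe]
  omega

lemma nbhd_card (h3 : Cubic G) (R : Finset V) :
    (R ∪ univ.filter (fun v => ∃ u ∈ R, G.Adj u v)).card ≤ 4 * R.card := by
  have h1 : univ.filter (fun v => ∃ u ∈ R, G.Adj u v) =
      R.biUnion (fun u => univ.filter (fun w => G.Adj u w)) := by
    ext v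
    simp
  have h2 : (R.biUnion (fun u => univ.filter (fun w => G.Adj u w))).card ≤ R.card * 3 :=
    Finset.card_biUnion_le_card_mul _ _ _ (fun u _ => (h3 u).le)
  rw [h1]
  refine (Finset.card_union_le _ _).trans ?_
  omega

end D9

theorem D9 {V : Type*} [Fintype V] (G : SimpleGraph V) (h3 : Cubic G) (hG : G.Connected)
    (h2 : ¬ G.Colorable 2) (T : Typing G) (r d q : ℕ) (hr : 1 ≤ r)
    (hd : (univ.filter (fun v => T.Bad v)).card ≤ d) (hq : nd G r ≤ q)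
    (hsmall : 4 * ((Fintype.card V + 2 ^ r * q) * (4 * r + 1) + 2 ^ r * (d * (2 * r))) <
      2 ^ r * Fintype.card V) :
    chi G = 3 ∧ ∃ S : Finset V, IsSudoku G S ∧
      4 * 2 ^ r * (r + 1) * S.card ≤ 2 ^ r * (r + 1) * Fintype.card V + 2 ^ r * (r + 1) * (2 * d) +
        16 * (r + 1) * ((Fintype.card V + 2 ^ r * q) * (4 * r + 1) + 2 ^ r * (d * (2 * r)) +
          2 ^ r * (2 * r + 1)) + 4 * 2 ^ r * Fintype.card V + 4 * 2 ^ r * (r + 1) * q := by
  obtain ⟨c, hc⟩ := D0' T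
  set Q : Finset V := univ.filter (fun v => Dense G r v) with hQ
  set D : Finset V := univ.filter (fun v => T.Bad v) with hD
  have hQq : Q.card ≤ q := hq
  obtain ⟨R0, hDR, hQR, hRne, hRconn, hRnet, hRcard⟩ :=
    D2 G hG r (2 ^ r) (by positivity) Q D (fun v hv => by
      refine D1 G h3 v r ?_
      simpa [hQ] using hv)
  have hRcard' : 2 ^ r * R0.card ≤ (Fintype.card V + 2 ^ r * q) * (4 * r + 1) +
      2 ^ r * (d * (2 * r)) := by
    refine hRcard.trans ?_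
    gcongr
  have hR4 : 4 * R0.card < Fintype.card V := by
    have h5 : 2 ^ r * (4 * R0.card) < 2 ^ r * Fintype.card V := by
      calc 2 ^ r * (4 * R0.card) = 4 * (2 ^ r * R0.card) := by ring
        _ ≤ _ := Nat.mul_le_mul_left 4 hRcard'
        _ < _ := hsmall
    exact Nat.lt_of_mul_lt_mul_left h5
  have hbadR0 : ∀ v, v ∉ R0 → ¬ T.Bad v := by
    intro v hv hb
    exact hv (hDR (by simpa [hD] using hb))
  have hcprop : ∀ v w, v ∉ R0 → w ∉ R0 → G.Adj v w → c v ≠ c w := by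
    intro v w hv hw hvw
    exact D0 h3 T c v w (hbadR0 v hv) (hbadR0 w hw) (hc v (hbadR0 v hv)) (hc w (hbadR0 w hw)) hvw
  have htri : ∀ u v w, G.Adj u v → G.Adj v w → G.Adj u w → u ∈ R0 := by
    intro u v w h4 h5 h6
    apply hQR
    have := D8' G h3 r hr u v w h4 h5 h6
    simpa [hQ] using this
  obtain ⟨R, hR0R, hRconn', hRcard'', w, hwR, y, z, hyz, hwy, hwz, hyR, hzR, hcyz⟩ :=
    D3 G hG h3 R0 hRne hRconn (2 * r) hRnet hR4 htri c hcprop
  obtain ⟨c', hc'c, hc'p⟩ := D4 G h3 R hRconn' c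
    (fun v w hv hw h => hcprop v w (fun h' => hv (hR0R h')) (fun h' => hw (hR0R h')) h)
    w y z hwR hyz hwy hwz hyR hzR hcyz
  have hchi : chi G = 3 := D9.chi_eq h2 c' hc'p
  refine ⟨hchi, ?_⟩
  obtain ⟨Y, hY, hYcard⟩ := D6 G T r
  have hshort : (univ.filter (fun v => ∃ k ≤ r, ∃ u : ℕ → V,
      T.DirCycle (univ.filter (fun v => T.Rainbow v)) k u ∧ u 0 = v)).card ≤ q := by
    refine le_trans (Finset.card_le_card ?_) hQq
    intro v hv
    simp only [mem_filter, mem_univ, true_and] at hv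
    obtain ⟨k, hk, u, hu, huv⟩ := hv
    rw [hQ, mem_filter]
    refine ⟨mem_univ _, ?_⟩
    rw [← huv]
    refine D8 G T r k hk u ?_
    obtain ⟨a1, a2, a3, a4⟩ := hu
    exact ⟨a1, fun i _ => mem_univ _, a3, a4⟩
  refine ⟨_, D5 G h3 hchi T R Y (fun v hv => hR0R (hDR (by simpa [hD] using hv))) c' hc'p
    (fun v hv w hvw how => by
      rw [hc'c v hv]
      exact hc v (hbadR0 v (fun h => hv (hR0R h))) w hvw how) hY, ?_⟩
  set S1 := R ∪ univ.filter (fun v => ∃ u ∈ R, G.Adj u v) with hS1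
  set So := univ.filter (fun v => T.Source v) with hSo
  have e1 : (S1 ∪ So ∪ Y).card ≤ 4 * R.card + So.card + Y.card := by
    have a1 := Finset.card_union_le (S1 ∪ So) Y
    have a2 := Finset.card_union_le S1 So
    have a3 := D9.nbhd_card h3 R
    rw [← hS1] at a3
    omega
  have e2 : 4 * So.card ≤ Fintype.card V + 2 * d := by
    have := D7 G h3 T
    rw [← hD, ← hSo] at this
    omega
  have e3 : (r + 1) * Y.card ≤ Fintype.card V + (r + 1) * q := by
    refine hYcard.trans ?_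
    gcongr
  have e4 : 2 ^ r * R.card ≤ (Fintype.card V + 2 ^ r * q) * (4 * r + 1) +
      2 ^ r * (d * (2 * r)) + 2 ^ r * (2 * r + 1) := by
    calc 2 ^ r * R.card ≤ 2 ^ r * (R0.card + 2 * r + 1) := Nat.mul_le_mul_left _ hRcard''
      _ = 2 ^ r * R0.card + 2 ^ r * (2 * r + 1) := by ring
      _ ≤ _ := by omega
  calc 4 * 2 ^ r * (r + 1) * (S1 ∪ So ∪ Y).card
      ≤ 4 * 2 ^ r * (r + 1) * (4 * R.card + So.card + Y.card) := Nat.mul_le_mul_left _ e1
    _ = 16 * (r + 1) * (2 ^ r * R.card) + 2 ^ r * (r + 1) * (4 * So.card) +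
          4 * 2 ^ r * ((r + 1) * Y.card) := by ring
    _ ≤ 16 * (r + 1) * ((Fintype.card V + 2 ^ r * q) * (4 * r + 1) +
          2 ^ r * (d * (2 * r)) + 2 ^ r * (2 * r + 1)) +
          2 ^ r * (r + 1) * (Fintype.card V + 2 * d) +
          4 * 2 ^ r * (Fintype.card V + (r + 1) * q) := by gcongr
    _ = _ := by ring

namespace D11

lemma sudoku_le {V : Type*} [Fintype V] (G : SimpleGraph V) (S : Finset V) (hS : IsSudoku G S) :
    sudokuNumber G ≤ S.card := Nat.sInf_le ⟨S, rfl, hS⟩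

/-- choice of the radius -/
lemma exists_r (δ : ℝ) (hδ : 0 < δ) : ∃ r : ℕ, 1 ≤ r ∧
    8 * (4 * (r : ℝ) + 1) / 2 ^ r ≤ δ / 4 ∧ 2 / ((r : ℝ) + 1) ≤ δ / 4 ∧
    4 * (4 * (r : ℝ) + 1) / 2 ^ r ≤ 1 / 4 := by
  have t1 : Tendsto (fun r : ℕ => (4 * (r : ℝ) + 1) / 2 ^ r) atTop (𝓝 0) := by
    have a1 : Tendsto (fun r : ℕ => (r : ℝ) ^ 1 / (2 : ℝ) ^ r) atTop (𝓝 0) :=
      tendsto_pow_const_div_const_pow_of_one_lt 1 (by norm_num)
    have a2 : Tendsto (fun r : ℕ => (r : ℝ) ^ 0 / (2 : ℝ) ^ r) atTop (𝓝 0) :=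
      tendsto_pow_const_div_const_pow_of_one_lt 0 (by norm_num)
    have a3 := (a1.const_mul 4).add a2
    simp only [pow_one, pow_zero, mul_zero, add_zero] at a3
    refine a3.congr (fun r => ?_)
    ring
  have t2 : Tendsto (fun r : ℕ => 1 / ((r : ℝ) + 1)) atTop (𝓝 0) :=
    tendsto_one_div_add_atTop_nhds_zero_nat
  have t3 : 0 < min (δ / 32) (1 / 16) := by positivity
  have ev1 := t1.eventually (gt_mem_nhds t3)
  have ev2 := t2.eventually (gt_mem_nhds (show (0 : ℝ) < δ / 8 by positivity))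
  obtain ⟨r, ⟨h1, h2⟩, h3⟩ := ((ev1.and ev2).and (eventually_ge_atTop 1)).exists
  refine ⟨r, h3, ?_, ?_, ?_⟩
  · have := h1.le.trans (min_le_left _ _)
    rw [mul_div_assoc]
    linarith
  · rw [show (2 : ℝ) / ((r : ℝ) + 1) = 2 * (1 / ((r : ℝ) + 1)) by ring]
    linarith
  · have := h1.le.trans (min_le_right _ _)
    rw [mul_div_assoc]
    linarith

end D11

namespace D11

lemma cubic {E V : Type*} [Fintype E] [Fintype V] (f : Conf E V) (hf : Simp f) :
    Cubic (gr f) := by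
  intro v
  obtain ⟨h1, h2⟩ := hf
  have h1' : ∀ e b, (f (e, b)).1 ≠ (f (e, !b)).1 := by
    intro e b
    cases b
    · exact h1 e
    · exact (h1 e).symm
  have himg : univ.filter (fun w => (gr f).Adj v w) =
      univ.image (fun k : Fin 3 => (f ((f.symm (v, k)).1, !(f.symm (v, k)).2)).1) := by
    ext w
    simp only [mem_filter, mem_univ, true_and, mem_image]
    constructor
    · rintro ⟨-, e, b, h3, h4⟩
      refine ⟨(f (e, b)).2, ?_⟩
      have : f.symm (v, (f (e, b)).2) = (e, b) := by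
        rw [← h3]
        simp
      rw [this]
      exact h4
    · rintro ⟨k, rfl⟩
      have h5 : (f ((f.symm (v, k)).1, (f.symm (v, k)).2)).1 = v := by simp
      refine ⟨?_, (f.symm (v, k)).1, (f.symm (v, k)).2, h5, rfl⟩
      have := h1' (f.symm (v, k)).1 (f.symm (v, k)).2
      rw [h5] at this
      exact this
  rw [himg, Finset.card_image_of_injective]
  · simp
  · intro k k' hkk
    have h5 : (f ((f.symm (v, k)).1, (f.symm (v, k)).2)).1 = v := by simp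
    have h5' : (f ((f.symm (v, k')).1, (f.symm (v, k')).2)).1 = v := by simp
    have he := h2 _ _ _ _ (h5.trans h5'.symm) hkk
    have hb : (f.symm (v, k)).2 = (f.symm (v, k')).2 := by
      by_contra hne
      have hb' : (f.symm (v, k')).2 = !(f.symm (v, k)).2 := by
        revert hne
        cases (f.symm (v, k)).2 <;> cases (f.symm (v, k')).2 <;> simp
      rw [← he, hb'] at h5'
      exact h1' _ _ (h5.trans h5'.symm)
    have : f.symm (v, k) = f.symm (v, k') := Prod.ext he hb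
    have := f.symm.injective this
    exact (Prod.mk.inj this).2

end D11

/-- from `D9`, `D10` -/
theorem D11 (δ : ℝ) (hδ : 0 < δ) : ∃ ε > 0, ∃ r m0 : ℕ, ∀ m ≥ m0,
    ∀ f : Conf (Fin (3 * m)) (Fin (2 * m)), Simp f → (gr f).Connected → ¬ (gr f).Colorable 2 →
      (X f : ℝ) ≤ ε * m → (nd (gr f) r : ℝ) ≤ ε * m →
      chi (gr f) = 3 ∧ (sudokuNumber (gr f) : ℝ) ≤ (1 / 2 + δ) * m := by
  obtain ⟨r, hr, hr1, hr2, hr3⟩ := D11.exists_r δ hδ
  have hR : (0 : ℝ) ≤ r := Nat.cast_nonneg r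
  set K : ℝ := 24 * r + 6 with hK
  have hK0 : 0 < K := by positivity
  refine ⟨min (δ / 4) (1 / 4) / K, by positivity, r, ⌈16 * (2 * (r : ℝ) + 1) / δ⌉₊ + 1, ?_⟩
  intro m hm f hf hconn h2 hX hnd
  have hεK : min (δ / 4) (1 / 4) / K * K = min (δ / 4) (1 / 4) := by
    field_simp
  have hε1 : min (δ / 4) (1 / 4) ≤ δ / 4 := min_le_left _ _
  have hε2 : min (δ / 4) (1 / 4) ≤ 1 / 4 := min_le_right _ _
  generalize min (δ / 4) (1 / 4) / K = ε at *
  have hm0 : 16 * (2 * (r : ℝ) + 1) / δ ≤ m := by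
    refine (Nat.le_ceil _).trans ?_
    exact_mod_cast (Nat.le_succ _).trans hm
  have hm1 : (1 : ℝ) ≤ m := by
    have : 1 ≤ m := by omega
    exact_mod_cast this
  have hmδ : 4 * (2 * (r : ℝ) + 1) ≤ δ / 4 * m := by
    rw [div_le_iff₀ hδ] at hm0
    linarith
  -- the typing
  obtain ⟨l, hl⟩ : ∃ l : Fin (3 * m) → Ty, (badSet f l).card = X f :=
    Nat.sInf_mem (Set.range_nonempty (fun l : Fin (3 * m) → Ty => (badSet f l).card))
  obtain ⟨T, hT⟩ := D10 f hf l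
  have hd : (univ.filter (fun v => T.Bad v)).card ≤ X f := by
    rw [← hl]
    refine Finset.card_le_card ?_
    intro v hv
    rw [mem_filter] at hv
    exact hT v hv.2
  have hp : (0 : ℝ) < 2 ^ r := by positivity
  have hcardV : Fintype.card (Fin (2 * m)) = 2 * m := Fintype.card_fin _
  set d := X f with hd_def
  set q := nd (gr f) r with hq_def
  have hXr : (0 : ℝ) ≤ d := Nat.cast_nonneg _
  have hqr : (0 : ℝ) ≤ q := Nat.cast_nonneg _
  -- the first bound: `4 (4r+1)/2^r ≤ 1/4`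
  have b1 : 4 * (4 * (r : ℝ) + 1) ≤ 1 / 4 * 2 ^ r := by
    rwa [div_le_iff₀ hp] at hr3
  have b2 : 8 * (4 * (r : ℝ) + 1) ≤ δ / 4 * 2 ^ r := by
    rwa [div_le_iff₀ hp] at hr1
  have b3 : 2 ≤ δ / 4 * ((r : ℝ) + 1) := by
    rwa [div_le_iff₀ (by positivity)] at hr2
  have hsmall : 4 * ((Fintype.card (Fin (2 * m)) + 2 ^ r * q) * (4 * r + 1) +
      2 ^ r * (d * (2 * r))) < 2 ^ r * Fintype.card (Fin (2 * m)) := by
    rw [hcardV]
    have : (4 * (((2 * m : ℕ) + 2 ^ r * q) * (4 * r + 1) + 2 ^ r * (d * (2 * r))) : ℝ) <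
        2 ^ r * (2 * m : ℕ) := by
      push_cast
      have c1 : (q : ℝ) * (4 * r + 1) ≤ ε * m * (4 * r + 1) := by gcongr
      have c2 : (d : ℝ) * (2 * r) ≤ ε * m * (2 * r) := by gcongr
      have c3 : 4 * (4 * (r : ℝ) + 1) * m ≤ 1 / 4 * 2 ^ r * m := by gcongr
      have c4 : ε * (24 * r + 6) * m ≤ 1 / 4 * m := by
        rw [← hK, hεK]
        gcongr
      have hε0 : 0 ≤ ε * m := hqr.trans hnd
      have c5 : 4 * (ε * m * (4 * r + 1)) + 4 * (ε * m * (2 * r)) ≤ 1 / 4 * m := by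
        nlinarith
      have c6 : 2 ^ r * (4 * ((q : ℝ) * (4 * r + 1)) + 4 * ((d : ℝ) * (2 * r))) ≤
          2 ^ r * (1 / 4 * m) := by
        gcongr
        linarith
      nlinarith
    exact_mod_cast this
  obtain ⟨hchi, S, hS, hScard⟩ := D9 (gr f) (D11.cubic f hf) hconn h2 T r d q hr hd le_rfl hsmall
  refine ⟨hchi, ?_⟩
  have hle : (sudokuNumber (gr f) : ℝ) ≤ S.card := by exact_mod_cast D11.sudoku_le _ S hS
  refine hle.trans ?_
  rw [hcardV] at hScard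
  have hScard' : (4 * 2 ^ r * (r + 1) * S.card : ℝ) ≤ 2 ^ r * (r + 1) * (2 * m) +
        2 ^ r * (r + 1) * (2 * d) +
        16 * (r + 1) * ((2 * m + 2 ^ r * q) * (4 * r + 1) + 2 ^ r * (d * (2 * r)) +
          2 ^ r * (2 * r + 1)) + 4 * 2 ^ r * (2 * m) + 4 * 2 ^ r * (r + 1) * q := by
    exact_mod_cast hScard
  have hpos : (0 : ℝ) < 4 * 2 ^ r * (r + 1) := by positivity
  refine le_of_mul_le_mul_left (hScard'.trans ?_) hpos
  -- divide by `4 * 2^r * (r+1)`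
  have hε0 : 0 ≤ ε * m := hqr.trans hnd
  have e1 : 16 * ((r : ℝ) + 1) * ((2 * m) * (4 * r + 1)) ≤
      4 * ((r : ℝ) + 1) * (δ / 4 * 2 ^ r * m) := by
    have : 8 * (4 * (r : ℝ) + 1) * m ≤ δ / 4 * 2 ^ r * m := by gcongr
    have h4 : (0 : ℝ) ≤ 4 * ((r : ℝ) + 1) := by positivity
    calc 16 * ((r : ℝ) + 1) * ((2 * m) * (4 * r + 1))
        = 4 * ((r : ℝ) + 1) * (8 * (4 * (r : ℝ) + 1) * m) := by ring
      _ ≤ _ := mul_le_mul_of_nonneg_left this h4
  have e2 : 4 * 2 ^ r * (2 * (m : ℝ)) ≤ 4 * 2 ^ r * (δ / 4 * (r + 1) * m) := by gcongr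
  have hW : (0 : ℝ) ≤ 4 * 2 ^ r * (r + 1) := hpos.le
  have e3 : (d : ℝ) / 2 + 4 * (q * (4 * r + 1)) + 4 * (d * (2 * r)) + q ≤ δ / 4 * m := by
    have c1 : (q : ℝ) * (4 * r + 1) ≤ ε * m * (4 * r + 1) := by gcongr
    have c2 : (d : ℝ) * (2 * r) ≤ ε * m * (2 * r) := by gcongr
    have c4 : ε * (24 * r + 6) * m ≤ δ / 4 * m := by
      rw [← hK, hεK]
      gcongr
    nlinarith
  have e4 : (4 * 2 ^ r * (r + 1)) *
      ((d : ℝ) / 2 + 4 * (q * (4 * r + 1)) + 4 * (d * (2 * r)) + q + 4 * (2 * r + 1)) ≤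
      (4 * 2 ^ r * (r + 1)) * (δ / 4 * m + δ / 4 * m) := by
    refine mul_le_mul_of_nonneg_left ?_ hW
    linarith
  calc (2 : ℝ) ^ r * (r + 1) * (2 * m) + 2 ^ r * (r + 1) * (2 * d) +
        16 * (r + 1) * ((2 * m + 2 ^ r * q) * (4 * r + 1) + 2 ^ r * (d * (2 * r)) +
          2 ^ r * (2 * r + 1)) + 4 * 2 ^ r * (2 * m) + 4 * 2 ^ r * (r + 1) * q
      = (4 * 2 ^ r * (r + 1)) * (1 / 2 * m) + 16 * ((r : ℝ) + 1) * ((2 * m) * (4 * r + 1)) +
        4 * 2 ^ r * (2 * (m : ℝ)) + (4 * 2 ^ r * (r + 1)) *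
      ((d : ℝ) / 2 + 4 * (q * (4 * r + 1)) + 4 * (d * (2 * r)) + q + 4 * (2 * r + 1)) := by
        ring
    _ ≤ (4 * 2 ^ r * (r + 1)) * (1 / 2 * m) + 4 * ((r : ℝ) + 1) * (δ / 4 * 2 ^ r * m) +
        4 * 2 ^ r * (δ / 4 * (r + 1) * m) +
        (4 * 2 ^ r * (r + 1)) * (δ / 4 * m + δ / 4 * m) := by
        linarith
    _ = 4 * 2 ^ r * (r + 1) * ((1 / 2 + δ) * m) := by ring

end Pool.H98.Sud
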