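import Pool.Agent.helper98.SUD.E

/-!
# Module G0: the number of bad vertices is Lipschitz (`F1`), and `G1` from `M3`
-/

namespace Pool.H98.Sud

open Finset Filter
open scoped Classical Topology Nat

namespace G

lemma exists_min {E V : Type*} [Fintype V] (f : Conf E V) :
    ∃ l : E → Ty, (badSet f l).card = X f :=
  Nat.sInf_mem (Set.range_nonempty _)

lemma X_le {E V : Type*} [Fintype V] (f : Conf E V) (l : E → Ty) :
    X f ≤ (badSet f l).card := Nat.sInf_le ⟨l, rfl⟩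

lemma state_swap {E V : Type*} (f : Conf E V) (p p' : E × Bool) (l : E → Ty) (v : V)
    (h1 : v ≠ (f p).1) (h2 : v ≠ (f p').1) :
    state ((Equiv.swap p p').trans f) flip l v = state f flip l v := by
  funext k
  have : ((Equiv.swap p p').trans f).symm (v, k) = f.symm (v, k) := by
    rw [Equiv.symm_trans_apply, Equiv.symm_swap]
    apply Equiv.swap_apply_of_ne_of_ne
    · rintro h
      apply h1
      rw [← h]
      simp
    · rintro h
      apply h2
      rw [← h]
      simp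
  simp only [state, this]

end G

theorem F1 {E V : Type*} [Fintype E] [Fintype V] (f : Conf E V) (p p' : E × Bool) :
    X ((Equiv.swap p p').trans f) ≤ X f + 2 := by
  obtain ⟨l, hl⟩ := G.exists_min f
  rw [← hl]
  refine (G.X_le _ l).trans ?_
  have hsub : badSet ((Equiv.swap p p').trans f) l ⊆ badSet f l ∪ {(f p).1, (f p').1} := by
    intro v hv
    rw [badSet, Finset.mem_filter] at hv
    rw [Finset.mem_union, badSet, Finset.mem_filter]
    by_cases h1 : v = (f p).1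
    · right
      simp [h1]
    by_cases h2 : v = (f p').1
    · right
      simp [h2]
    left
    refine ⟨Finset.mem_univ _, ?_⟩
    rw [← G.state_swap f p p' l v h1 h2]
    exact hv.2
  refine (Finset.card_le_card hsub).trans ((Finset.card_union_le _ _).trans ?_)
  exact Nat.add_le_add_left Finset.card_le_two _

namespace G

lemma swap_lip {E V : Type*} [Fintype E] [Fintype V] [d : DecidableEq (E × Bool)] (f : Conf E V)
    (p p' : E × Bool) :
    |(X ((Equiv.swap p p').trans f) : ℝ) - (X f : ℝ)| ≤ 2 := by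
  have hd : d = instDecidableEqProd := Subsingleton.elim _ _
  subst hd
  have h1 := F1 f p p'
  have h2 := F1 ((Equiv.swap p p').trans f) p p'
  have h3 : (Equiv.swap p p').trans ((Equiv.swap p p').trans f) = f := by
    ext x
    · simp
    · simp
  rw [h3] at h2
  have h1' : (X ((Equiv.swap p p').trans f) : ℝ) ≤ X f + 2 := by exact_mod_cast h1
  have h2' : (X f : ℝ) ≤ X ((Equiv.swap p p').trans f) + 2 := by exact_mod_cast h2
  rw [abs_le]
  constructor <;> linarith

lemma card_ends (m : ℕ) : Fintype.card (Fin (3 * m) × Bool) = 6 * m := by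
  simp [Fintype.card_prod]
  ring

/-- exponentials beat polynomials -/
lemma eventually_small (A : ℕ) (δ : ℝ) (hδ : 0 < δ) :
    ∃ m0 : ℕ, ∀ m ≥ m0, A * ((m : ℝ) + 1) ^ A * Real.exp (-(δ * m)) < 1 := by
  have h1 : Tendsto (fun x : ℝ => x ^ A * Real.exp (-δ * x)) atTop (𝓝 0) := by
    have := Real.tendsto_pow_mul_exp_neg_atTop_nhds_zero A
    have h2 : Tendsto (fun x : ℝ => (1 / δ) ^ A * ((δ * x) ^ A * Real.exp (-(δ * x)))) atTop
        (𝓝 ((1 / δ) ^ A * 0)) :=
      (this.comp (tendsto_id.const_mul_atTop hδ)).const_mul _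
    rw [mul_zero] at h2
    refine h2.congr fun x => ?_
    rw [mul_pow, ← mul_assoc, ← mul_assoc, ← mul_pow, one_div_mul_cancel hδ.ne', one_pow, one_mul]
    congr 2
    ring
  have h3 : Tendsto (fun m : ℕ => (A : ℝ) * Real.exp δ *
      (((m : ℝ) + 1) ^ A * Real.exp (-δ * ((m : ℝ) + 1)))) atTop (𝓝 ((A : ℝ) * Real.exp δ * 0)) :=
    (h1.comp (tendsto_atTop_add_const_right _ _ tendsto_natCast_atTop_atTop)).const_mul _
  rw [mul_zero] at h3
  obtain ⟨m0, hm0⟩ := Filter.eventually_atTop.mp (h3.eventually (gt_mem_nhds zero_lt_one))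
  refine ⟨m0, fun m hm => ?_⟩
  refine lt_of_eq_of_lt ?_ (hm0 m hm)
  have : Real.exp (-(δ * m)) = Real.exp δ * Real.exp (-δ * ((m : ℝ) + 1)) := by
    rw [← Real.exp_add]
    congr 1
    ring
  rw [this]
  ring

/-- `G1` from `M3` -/
theorem of_M3 (hM3 : ∃ A : ℕ, ∀ m : ℕ, 1 ≤ m →
    ((6 * m)! : ℝ) ≤ A * ((m : ℝ) + 1) ^ A *
      ((univ.filter (fun f : Conf (Fin (3 * m)) (Fin (2 * m)) => X f ≤ 24)).card : ℝ))
    (ε : ℝ) (hε : 0 < ε) : ∃ c > 0, ∃ m0 : ℕ, ∀ m ≥ m0,
    ((univ.filter (fun f : Conf (Fin (3 * m)) (Fin (2 * m)) => ε * m < X f)).card : ℝ) ≤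
      Real.exp (-(c * m)) * ((6 * m)! : ℝ) := by
  obtain ⟨A, hA⟩ := hM3
  have hc0 : (0 : ℝ) < ε ^ 2 / 6144 := by positivity
  obtain ⟨m1, hm1⟩ := eventually_small A (ε ^ 2 / 6144) hc0
  refine ⟨ε ^ 2 / 6144, hc0, max (max m1 1) ⌈48 / ε⌉₊, fun m hm => ?_⟩
  have hmm1 : m1 ≤ m := (le_max_left _ _).trans ((le_max_left _ _).trans hm)
  have hm1' : 1 ≤ m := (le_max_right _ _).trans ((le_max_left _ _).trans hm)
  have hm2 : 48 / ε ≤ m := (Nat.le_ceil _).trans (by exact_mod_cast (le_max_right _ _).trans hm)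
  have hmpos : (0 : ℝ) < m := by exact_mod_cast hm1'
  have : Nonempty (Conf (Fin (3 * m)) (Fin (2 * m))) := nonempty_conf m
  have : Nonempty (Fin (3 * m) × Bool) := ⟨(⟨0, by omega⟩, true)⟩
  have hfact : ((Fintype.card (Conf (Fin (3 * m)) (Fin (2 * m))) : ℕ) : ℝ) = ((6 * m)! : ℝ) := by
    rw [card_conf]
  have hends : ((Fintype.card (Fin (3 * m) × Bool) : ℕ) : ℝ) = 6 * m := by
    rw [card_ends]
    push_cast
    ring
  have h24 : (univ.filter (fun f : Conf (Fin (3 * m)) (Fin (2 * m)) => X f ≤ 24)) =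
      univ.filter (fun f : Conf (Fin (3 * m)) (Fin (2 * m)) => (X f : ℝ) ≤ 24) := by
    refine Finset.filter_congr fun f _ => ?_
    constructor
    · intro h
      exact_mod_cast h
    · intro h
      exact_mod_cast h
  have hAm := hA m hm1'
  have hApos : (0 : ℝ) < A * ((m : ℝ) + 1) ^ A := by
    by_contra hcon
    have h0 : (A : ℝ) * ((m : ℝ) + 1) ^ A = 0 :=
      le_antisymm (not_lt.mp hcon) (by positivity)
    rw [h0, zero_mul] at hAm
    have : (0 : ℝ) < ((6 * m)! : ℝ) := by exact_mod_cast Nat.factorial_pos _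
    linarith
  have hexp : (ε * m / 4) ^ 2 / (16 * (2 : ℝ) ^ 2 * ((Fintype.card (Fin (3 * m) × Bool) : ℕ) : ℝ)) =
      ε ^ 2 / 6144 * m := by
    rw [hends]
    field_simp
    ring
  have hAm' : ((Fintype.card (Conf (Fin (3 * m)) (Fin (2 * m))) : ℕ) : ℝ) ≤
      A * ((m : ℝ) + 1) ^ A *
      ((univ.filter (fun f : Conf (Fin (3 * m)) (Fin (2 * m)) => (X f : ℝ) ≤ 24)).card : ℝ) := by
    rw [hfact, ← h24]
    exact hAm
  have hsm : A * ((m : ℝ) + 1) ^ A * Real.exp (-((ε * m / 4) ^ 2 /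
      (16 * (2 : ℝ) ^ 2 * ((Fintype.card (Fin (3 * m) × Bool) : ℕ) : ℝ)))) < 1 := by
    rw [hexp]
    exact hm1 m hmm1
  have hE := E2' (P := Fin (3 * m) × Bool) (Q := Fin (2 * m) × Fin 3)
    (fun f => (X f : ℝ)) 2 two_pos (fun f p p' => swap_lip f p p') 24 (ε * m / 4)
    (A * ((m : ℝ) + 1) ^ A) (by positivity) hApos hAm' hsm
  rw [hexp] at hE
  have h3 : 24 + 2 * (ε * m / 4) ≤ ε * m := by
    have : 48 ≤ ε * m := by
      rw [div_le_iff₀ hε] at hm2
      linarith
    linarith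
  have hsub : (univ.filter (fun f : Conf (Fin (3 * m)) (Fin (2 * m)) => ε * m < (X f : ℝ))).card ≤
      (univ.filter (fun f : Conf (Fin (3 * m)) (Fin (2 * m)) =>
        24 + 2 * (ε * m / 4) < (X f : ℝ))).card :=
    Finset.card_le_card (Finset.monotone_filter_right _ fun f _ hf => lt_of_le_of_lt h3 hf)
  have hsub' : ((univ.filter (fun f : Conf (Fin (3 * m)) (Fin (2 * m)) =>
      ε * m < (X f : ℝ))).card : ℝ) ≤ ((univ.filter (fun f : Conf (Fin (3 * m)) (Fin (2 * m)) =>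
        24 + 2 * (ε * m / 4) < (X f : ℝ))).card : ℝ) := Nat.cast_le.mpr hsub
  calc ((univ.filter (fun f : Conf (Fin (3 * m)) (Fin (2 * m)) =>
      ε * m < (X f : ℝ))).card : ℝ) ≤ _ := hsub'
    _ ≤ Real.exp (-(ε ^ 2 / 6144 * m)) *
        ((Fintype.card (Conf (Fin (3 * m)) (Fin (2 * m))) : ℕ) : ℝ) := hE
    _ = _ := by rw [hfact]

end G

end Pool.H98.Sud
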