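import Pool.Agent.helper98.SUD.Defs2

/-!
# Sudoku number of a random cubic graph: modules K0, K1

The number of simple configurations with a disconnected graph is at most `20 (6m)! / m^2`.
-/

namespace Pool.H98.Sud

open Finset Filter
open scoped Classical Topology Nat

namespace K1

/-- bijections respecting a predicate split -/
noncomputable def splitEquiv {P Q : Type*} (s : P → Prop) (t : Q → Prop) :
    {f : P ≃ Q // ∀ p, s p ↔ t (f p)} ≃
      ({p // s p} ≃ {q // t q}) × ({p // ¬ s p} ≃ {q // ¬ t q}) where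
  toFun f := (f.1.subtypeEquiv f.2, f.1.subtypeEquiv (fun p => not_congr (f.2 p)))
  invFun g := ⟨(Equiv.sumCompl s).symm.trans ((g.1.sumCongr g.2).trans (Equiv.sumCompl t)), by
    intro p
    by_cases hp : s p
    · simp [hp, Equiv.sumCompl_symm_apply_of_pos, (g.1 ⟨p, hp⟩).2]
    · simp [hp, Equiv.sumCompl_symm_apply_of_neg, (g.2 ⟨p, hp⟩).2]⟩
  left_inv f := by
    apply Subtype.ext
    ext p
    by_cases hp : s p
    · simp [hp, Equiv.sumCompl_symm_apply_of_pos]
    · simp [hp, Equiv.sumCompl_symm_apply_of_neg]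
  right_inv g := by
    ext ⟨p, hp⟩
    · simp [hp, Equiv.sumCompl_symm_apply_of_pos]
    · simp [hp, Equiv.sumCompl_symm_apply_of_neg]

end K1

theorem K0 {P Q : Type*} [Fintype P] [Fintype Q] (hPQ : Fintype.card P = Fintype.card Q)
    (J : Finset P) (A : Finset Q) (hJA : J.card = A.card) :
    (univ.filter (fun f : P ≃ Q => ∀ p, p ∈ J ↔ f p ∈ A)).card =
      A.card ! * (Fintype.card P - A.card)! := by
  have h1 : (univ.filter (fun f : P ≃ Q => ∀ p, p ∈ J ↔ f p ∈ A)).card =
      Fintype.card {f : P ≃ Q // ∀ p, p ∈ J ↔ f p ∈ A} := by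
    rw [Fintype.card_subtype]
  rw [h1, Fintype.card_congr (K1.splitEquiv (fun p => p ∈ J) (fun q => q ∈ A)), Fintype.card_prod]
  have c1 : Fintype.card {p // p ∈ J} = Fintype.card {q // q ∈ A} := by
    simp [hJA]
  have c2 : Fintype.card {p // ¬ p ∈ J} = Fintype.card {q // ¬ q ∈ A} := by
    rw [Fintype.card_subtype_compl, Fintype.card_subtype_compl, c1, hPQ]
  rw [Fintype.card_equiv (Fintype.equivOfCardEq c1), Fintype.card_equiv (Fintype.equivOfCardEq c2),
    Fintype.card_subtype_compl, c1]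
  simp

namespace K1

/-! ### numbers -/

theorem choose_mul_le (a b c d : ℕ) : a.choose c * b.choose d ≤ (a + b).choose (c + d) := by
  rw [Nat.add_choose_eq]
  exact Finset.single_le_sum (f := fun ij : ℕ × ℕ => a.choose ij.1 * b.choose ij.2)
    (fun _ _ => Nat.zero_le _) (a := (c, d)) (Finset.HasAntidiagonal.mem_antidiagonal.2 rfl)

/-- the number of pairs (set of `2j` vertices, set of `3j` edges) times the number of
configurations with this closed pair -/
def term (m j : ℕ) : ℕ := (2 * m).choose (2 * j) * (3 * m).choose (3 * j) *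
  ((6 * j)! * (6 * m - 6 * j)!)

theorem term_choose (m j : ℕ) (hj : j ≤ m) : term m j * m.choose j ≤ (6 * m)! := by
  have h1 : (6 * m)! = (6 * m).choose (6 * j) * (6 * j)! * (6 * m - 6 * j)! :=
    (Nat.choose_mul_factorial_mul_factorial (by omega)).symm
  have h2 : (3 * m).choose (3 * j) * (3 * m).choose (3 * j) ≤ (6 * m).choose (6 * j) := by
    have := choose_mul_le (3 * m) (3 * m) (3 * j) (3 * j)
    rwa [show 3 * m + 3 * m = 6 * m by ring, show 3 * j + 3 * j = 6 * j by ring] at this
  have h3 : (2 * m).choose (2 * j) * m.choose j ≤ (3 * m).choose (3 * j) := by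
    have := choose_mul_le (2 * m) m (2 * j) j
    rwa [show 2 * m + m = 3 * m by ring, show 2 * j + j = 3 * j by ring] at this
  calc term m j * m.choose j = ((2 * m).choose (2 * j) * m.choose j) * (3 * m).choose (3 * j) *
        ((6 * j)! * (6 * m - 6 * j)!) := by unfold term; ring
    _ ≤ (3 * m).choose (3 * j) * (3 * m).choose (3 * j) * ((6 * j)! * (6 * m - 6 * j)!) := by
        gcongr
    _ ≤ (6 * m).choose (6 * j) * ((6 * j)! * (6 * m - 6 * j)!) := by gcongr
    _ = (6 * m)! := by rw [h1]; ring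

theorem choose_mono_aux (m a : ℕ) : ∀ j, a ≤ j → 2 * j ≤ m → m.choose a ≤ m.choose j := by
  intro j hj
  induction j, hj using Nat.le_induction with
  | base => intro _; exact le_rfl
  | succ j hj ih =>
    intro h
    exact (ih (by omega)).trans (Nat.choose_le_succ_of_lt_half_left (by omega))

theorem choose_ge (m a j : ℕ) (h1 : a ≤ j) (h2 : j + a ≤ m) : m.choose a ≤ m.choose j := by
  by_cases h : 2 * j ≤ m
  · exact choose_mono_aux m a j h1 h
  · rw [← Nat.choose_symm (by omega : j ≤ m)]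
    exact choose_mono_aux m a (m - j) (by omega) (by omega)

theorem sum_term (m : ℕ) (hm : 4 ≤ m) :
    m ^ 2 * ∑ j ∈ Finset.Icc 2 (m - 2), term m j ≤ 20 * (6 * m)! := by
  have hm' : (4 : ℝ) ≤ m := by exact_mod_cast hm
  set F : ℝ := (((6 * m)! : ℕ) : ℝ) with hF
  have hF0 : 0 ≤ F := by positivity
  have key2 : ∀ j ∈ Finset.Icc 2 (m - 2), (m : ℝ) * (m - 1) * (term m j : ℝ) ≤ 2 * F := by
    intro j hj
    rw [Finset.mem_Icc] at hj
    have h1 : term m j * m.choose 2 ≤ (6 * m)! :=
      (Nat.mul_le_mul_left _ (choose_ge m 2 j (by omega) (by omega))).trans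
        (term_choose m j (by omega))
    have h2 : (term m j : ℝ) * (m.choose 2 : ℕ) ≤ F := by
      rw [hF]
      exact_mod_cast h1
    rw [Nat.cast_choose_two] at h2
    nlinarith
  have key3 : ∀ j ∈ Finset.Icc 3 (m - 3), (m : ℝ) * (m - 1) * (m - 2) * (term m j : ℝ) ≤ 6 * F := by
    intro j hj
    rw [Finset.mem_Icc] at hj
    have h1 : term m j * m.choose 3 ≤ (6 * m)! :=
      (Nat.mul_le_mul_left _ (choose_ge m 3 j (by omega) (by omega))).trans
        (term_choose m j (by omega))
    have h2 : (term m j : ℝ) * (m.choose 3 : ℕ) ≤ F := by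
      rw [hF]
      exact_mod_cast h1
    have h3 : (m.choose 3 : ℝ) = m * (m - 1) * (m - 2) / 6 := by
      have h4 := Nat.descFactorial_eq_factorial_mul_choose m 3
      have h5 : (m.descFactorial 3 : ℝ) = m * (m - 1) * (m - 2) := by
        obtain ⟨k, rfl⟩ : ∃ k, m = k + 3 := ⟨m - 3, by omega⟩
        simp only [Nat.descFactorial]
        push_cast [show k + 3 - 2 = k + 1 by omega, show k + 3 - 1 = k + 2 by omega]
        ring
      rw [h4] at h5
      have h6 : (3 ! : ℕ) = 6 := rfl
      rw [h6] at h5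
      push_cast at h5
      linarith
    rw [h3] at h2
    nlinarith
  have hsub : ∑ j ∈ Finset.Icc 2 (m - 2), (term m j : ℝ) ≤
      (term m 2 : ℝ) + (term m (m - 2) : ℝ) + ∑ j ∈ Finset.Icc 3 (m - 3), (term m j : ℝ) := by
    have : Finset.Icc 2 (m - 2) ⊆ {2} ∪ ({m - 2} ∪ Finset.Icc 3 (m - 3)) := by
      intro j hj
      rw [Finset.mem_Icc] at hj
      simp only [Finset.mem_union, Finset.mem_singleton, Finset.mem_Icc]
      omega
    refine (Finset.sum_le_sum_of_subset_of_nonneg this (fun _ _ _ => Nat.cast_nonneg _)).trans ?_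
    have hun : ∀ (s t : Finset ℕ), ∑ j ∈ s ∪ t, (term m j : ℝ) ≤ ∑ j ∈ s, (term m j : ℝ) +
        ∑ j ∈ t, (term m j : ℝ) := by
      intro s t
      rw [← Finset.sum_union_inter]
      exact le_add_of_nonneg_right (Finset.sum_nonneg (fun _ _ => Nat.cast_nonneg _))
    have h1 := hun {2} ({m - 2} ∪ Finset.Icc 3 (m - 3))
    have h2 := hun {m - 2} (Finset.Icc 3 (m - 3))
    rw [Finset.sum_singleton] at h1 h2
    linarith
  have hs3 : (m : ℝ) * (m - 1) * (m - 2) * ∑ j ∈ Finset.Icc 3 (m - 3), (term m j : ℝ) ≤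
      (m - 2) * (6 * F) := by
    rw [Finset.mul_sum]
    refine (Finset.sum_le_sum key3).trans ?_
    rw [Finset.sum_const, Nat.card_Icc, nsmul_eq_mul]
    have : ((m - 3 + 1 - 3 : ℕ) : ℝ) ≤ (m : ℝ) - 2 := by
      rw [le_sub_iff_add_le]
      have : m - 3 + 1 - 3 + 2 ≤ m := by omega
      exact_mod_cast this
    have h6 : 0 ≤ 6 * F := by linarith
    exact mul_le_mul_of_nonneg_right this h6
  have hs3' : (m : ℝ) * (m - 1) * ∑ j ∈ Finset.Icc 3 (m - 3), (term m j : ℝ) ≤ 6 * F := by
    have hpos : (0 : ℝ) < m - 2 := by linarith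
    refine le_of_mul_le_mul_left ?_ hpos
    calc _ = (m : ℝ) * (m - 1) * (m - 2) * ∑ j ∈ Finset.Icc 3 (m - 3), (term m j : ℝ) := by ring
      _ ≤ _ := hs3
  have ht2 := key2 2 (by rw [Finset.mem_Icc]; omega)
  have ht3 := key2 (m - 2) (by rw [Finset.mem_Icc]; omega)
  have hmm : (0 : ℝ) ≤ m * (m - 1) := by nlinarith
  have htot : (m : ℝ) * (m - 1) * ∑ j ∈ Finset.Icc 2 (m - 2), (term m j : ℝ) ≤ 10 * F := by
    have := mul_le_mul_of_nonneg_left hsub hmm
    linarith
  have hS0 : 0 ≤ ∑ j ∈ Finset.Icc 2 (m - 2), (term m j : ℝ) :=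
    Finset.sum_nonneg (fun _ _ => Nat.cast_nonneg _)
  have hfin : (m : ℝ) ^ 2 * ∑ j ∈ Finset.Icc 2 (m - 2), (term m j : ℝ) ≤ 20 * F := by
    have : (m : ℝ) ^ 2 ≤ 2 * (m * (m - 1)) := by nlinarith
    have := mul_le_mul_of_nonneg_right this hS0
    linarith
  have : ((m ^ 2 * ∑ j ∈ Finset.Icc 2 (m - 2), term m j : ℕ) : ℝ) ≤ ((20 * (6 * m)! : ℕ) : ℝ) := by
    push_cast
    exact hfin
  exact_mod_cast this

/-! ### a closed set of vertices -/

section graph

variable {E V : Type*}

/-- the other end of the edge at a half-edge -/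
def nb (f : Conf E V) (v : V) (k : Fin 3) : V :=
  (f ((f.symm (v, k)).1, !(f.symm (v, k)).2)).1

theorem nb_adj {f : Conf E V} (hf : Simp f) (v : V) (k : Fin 3) : (gr f).Adj v (nb f v k) := by
  have h0 : (f ((f.symm (v, k)).1, (f.symm (v, k)).2)).1 = v := by simp
  refine ⟨?_, (f.symm (v, k)).1, (f.symm (v, k)).2, h0, rfl⟩
  intro h
  have h1 := hf.1 (f.symm (v, k)).1
  unfold nb at h
  cases hb : (f.symm (v, k)).2 with
  | false =>
    rw [hb] at h h0
    exact h1 (h0.trans h)
  | true =>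
    rw [hb] at h h0
    exact h1 (h0.trans h).symm

theorem nb_inj {f : Conf E V} (hf : Simp f) (v : V) : Function.Injective (nb f v) := by
  intro k k' h
  have h0 : ∀ k, (f ((f.symm (v, k)).1, (f.symm (v, k)).2)).1 = v := by simp
  have he := hf.2 (f.symm (v, k)).1 (f.symm (v, k')).1 (f.symm (v, k)).2 (f.symm (v, k')).2
    ((h0 k).trans (h0 k').symm) h
  have hb : (f.symm (v, k)).2 = (f.symm (v, k')).2 := by
    by_contra hne
    have hb' : (f.symm (v, k')).2 = !(f.symm (v, k)).2 := by
      cases h1 : (f.symm (v, k)).2 <;> cases h2 : (f.symm (v, k')).2 <;> simp_all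
    have h3 := (nb_adj hf v k).1
    apply h3
    unfold nb
    rw [← hb', he]
    exact (h0 k').symm
  have : f.symm (v, k) = f.symm (v, k') := Prod.ext he hb
  have := f.symm.injective this
  simpa using this

theorem card_closed [Fintype V] {f : Conf E V} (hf : Simp f) (A : Finset V) (v : V) (hv : v ∈ A)
    (hA : ∀ v w, v ∈ A → (gr f).Adj v w → w ∈ A) : 4 ≤ A.card := by
  have h1 : insert v (univ.image (nb f v)) ⊆ A := by
    intro w hw
    rw [Finset.mem_insert, Finset.mem_image] at hw
    rcases hw with rfl | ⟨k, -, rfl⟩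
    · exact hv
    · exact hA v _ hv (nb_adj hf v k)
  have h2 : (insert v (univ.image (nb f v))).card = 4 := by
    rw [Finset.card_insert_of_notMem, Finset.card_image_of_injective _ (nb_inj hf v)]
    · simp
    · rw [Finset.mem_image]
      rintro ⟨k, -, hk⟩
      exact (nb_adj hf v k).1 hk.symm
  rw [← h2]
  exact Finset.card_le_card h1

theorem exists_closed [Fintype E] [Fintype V] {f : Conf E V} (hf : Simp f) (hne : Nonempty V)
    (hc : ¬ (gr f).Connected) : ∃ A : Finset V, ∃ S : Finset E, 4 ≤ A.card ∧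
      A.card + 4 ≤ Fintype.card V ∧ 2 * S.card = 3 * A.card ∧
        ∀ p : E × Bool, p.1 ∈ S ↔ (f p).1 ∈ A := by
  have h1 : ¬ (gr f).Preconnected := fun h => hc ⟨h⟩
  unfold SimpleGraph.Preconnected at h1
  push Not at h1
  obtain ⟨u, v, huv⟩ := h1
  set A : Finset V := univ.filter (fun w => (gr f).Reachable u w) with hAdef
  have hA : ∀ v w, v ∈ A → (gr f).Adj v w → w ∈ A := by
    intro v w hv hvw
    rw [hAdef, Finset.mem_filter] at hv ⊢
    exact ⟨Finset.mem_univ _, hv.2.trans hvw.reachable⟩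
  have hAc : ∀ v w, v ∈ Aᶜ → (gr f).Adj v w → w ∈ Aᶜ := by
    intro v w hv hvw
    rw [Finset.mem_compl] at hv ⊢
    exact fun hw => hv (hA w v hw hvw.symm)
  have hu : u ∈ A := by
    rw [hAdef, Finset.mem_filter]
    exact ⟨Finset.mem_univ _, SimpleGraph.Reachable.refl u⟩
  have hv : v ∈ Aᶜ := by
    rw [Finset.mem_compl, hAdef, Finset.mem_filter]
    exact fun h => huv h.2
  set S : Finset E := univ.filter (fun e => (f (e, false)).1 ∈ A) with hSdef
  have hadj : ∀ e b, (gr f).Adj (f (e, b)).1 (f (e, !b)).1 := by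
    intro e b
    refine ⟨?_, e, b, rfl, rfl⟩
    cases b
    · exact hf.1 e
    · exact (hf.1 e).symm
  have hS : ∀ p : E × Bool, p.1 ∈ S ↔ (f p).1 ∈ A := by
    rintro ⟨e, b⟩
    rw [hSdef, Finset.mem_filter]
    simp only [Finset.mem_univ, true_and]
    cases b
    · rfl
    · exact ⟨fun h => hA _ _ h (hadj e false), fun h => hA _ _ h (hadj e true)⟩
  refine ⟨A, S, card_closed hf A u hu hA, ?_, ?_, hS⟩
  · have h4 := card_closed hf Aᶜ v hv hAc
    have := Finset.card_add_card_compl A
    omega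
  · have h5 : (S ×ˢ (univ : Finset Bool)).card = (A ×ˢ (univ : Finset (Fin 3))).card := by
      refine Finset.card_bij (fun p _ => f p) ?_ (fun p _ q _ h => f.injective h) ?_
      · intro p hp
        rw [Finset.mem_product] at hp ⊢
        exact ⟨(hS p).1 hp.1, Finset.mem_univ _⟩
      · intro q hq
        rw [Finset.mem_product] at hq
        refine ⟨f.symm q, ?_, by simp⟩
        rw [Finset.mem_product]
        refine ⟨(hS _).2 ?_, Finset.mem_univ _⟩
        simpa using hq.1
    rw [Finset.card_product, Finset.card_product] at h5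
    simp at h5
    omega

/-- configurations for which `(A, S)` is a closed pair -/
noncomputable def Bset [Fintype E] [Fintype V] (x : Finset V × Finset E) : Finset (Conf E V) :=
  univ.filter (fun f => ∀ p, p ∈ x.2 ×ˢ (univ : Finset Bool) ↔
      f p ∈ x.1 ×ˢ (univ : Finset (Fin 3)))

theorem card_Bset [Fintype E] [Fintype V] (x : Finset V × Finset E) (m j : ℕ)
    (hE : Fintype.card E = 3 * m) (hV : Fintype.card V = 2 * m) (h1 : x.1.card = 2 * j)
    (h2 : x.2.card = 3 * j) : (Bset x).card = (6 * j)! * (6 * m - 6 * j)! := by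
  have hc1 : (x.1 ×ˢ (univ : Finset (Fin 3))).card = 6 * j := by
    rw [Finset.card_product, h1]
    simp
    ring
  have hc2 : (x.2 ×ˢ (univ : Finset Bool)).card = 6 * j := by
    rw [Finset.card_product, h2]
    simp
    ring
  have hcp : Fintype.card (E × Bool) = 6 * m := by
    rw [Fintype.card_prod, hE]
    simp
    ring
  have hcq : Fintype.card (V × Fin 3) = 6 * m := by
    rw [Fintype.card_prod, hV]
    simp
    ring
  have hk := K0 (hcp.trans hcq.symm) _ _ (hc2.trans hc1.symm)
  rw [hc1, hcp] at hk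
  rw [← hk]
  unfold Bset
  refine congrArg Finset.card ?_
  ext f
  simp only [Finset.mem_filter, Finset.mem_univ, true_and]

theorem K1gen [Fintype E] [Fintype V] (m : ℕ) (hm : 4 ≤ m) (hE : Fintype.card E = 3 * m)
    (hV : Fintype.card V = 2 * m) :
    m ^ 2 * (univ.filter (fun f : Conf E V => Simp f ∧ ¬ (gr f).Connected)).card ≤
      20 * (6 * m)! := by
  refine le_trans (Nat.mul_le_mul_left _ ?_) (sum_term m hm)
  have hne : Nonempty V := Fintype.card_pos_iff.1 (by omega)
  set I : Finset (Σ _ : ℕ, Finset V × Finset E) :=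
    (Finset.Icc 2 (m - 2)).sigma (fun j =>
      (Finset.powersetCard (2 * j) univ) ×ˢ (Finset.powersetCard (3 * j) univ)) with hI
  have hsub : univ.filter (fun f : Conf E V =>
      Simp f ∧ ¬ (gr f).Connected) ⊆ I.biUnion (fun x => Bset x.2) := by
    intro f hf
    rw [Finset.mem_filter] at hf
    obtain ⟨A, S, h1, h2, h3, h4⟩ := exists_closed hf.2.1 hne hf.2.2
    rw [hV] at h2
    obtain ⟨j, hj⟩ : ∃ j, A.card = 2 * j := ⟨A.card / 2, by omega⟩
    have hj1 : 2 ≤ j := by omega
    have hj2 : j ≤ m - 2 := by omega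
    have hj3 : S.card = 3 * j := by omega
    rw [Finset.mem_biUnion]
    refine ⟨⟨j, A, S⟩, ?_, ?_⟩
    · rw [hI, Finset.mem_sigma, Finset.mem_product, Finset.mem_powersetCard,
        Finset.mem_powersetCard, Finset.mem_Icc]
      exact ⟨⟨hj1, hj2⟩, ⟨Finset.subset_univ _, hj⟩, Finset.subset_univ _, hj3⟩
    · unfold Bset
      rw [Finset.mem_filter]
      refine ⟨Finset.mem_univ _, fun p => ?_⟩
      rw [Finset.mem_product, Finset.mem_product]
      simpa using h4 p
  refine (Finset.card_le_card hsub).trans (Finset.card_biUnion_le.trans ?_)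
  rw [hI, Finset.sum_sigma]
  refine Finset.sum_le_sum (fun j hj => ?_)
  rw [Finset.mem_Icc] at hj
  have hcard : ∀ x ∈ (Finset.powersetCard (2 * j) (univ : Finset V)) ×ˢ
      (Finset.powersetCard (3 * j) (univ : Finset E)),
      (Bset x).card = (6 * j)! * (6 * m - 6 * j)! := by
    intro x hx
    rw [Finset.mem_product, Finset.mem_powersetCard, Finset.mem_powersetCard] at hx
    exact card_Bset x m j hE hV hx.1.2 hx.2.2
  rw [Finset.sum_congr rfl hcard, Finset.sum_const, Finset.card_product, Finset.card_powersetCard,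
    Finset.card_powersetCard, Finset.card_univ, Finset.card_univ, hE, hV, smul_eq_mul]
  rfl

end graph

end K1

theorem K1 (m : ℕ) (hm : 4 ≤ m) :
    m ^ 2 * (univ.filter (fun f : Conf (Fin (3 * m)) (Fin (2 * m)) =>
      Simp f ∧ ¬ (gr f).Connected)).card ≤ 20 * (6 * m)! := by
  refine le_trans (le_of_eq ?_) (K1.K1gen (E := Fin (3 * m)) (V := Fin (2 * m)) m hm
    (Fintype.card_fin _) (Fintype.card_fin _))
  refine congrArg (fun x => m ^ 2 * x) (congrArg card ?_)
  ext f
  simp only [mem_filter, mem_univ, true_and]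

end Pool.H98.Sud
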