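import Pool.Agent.helper98.SUD.B1

/-!
# K2: few configurations have a bipartite graph
-/

namespace Pool.H98.Sud

open Finset
open scoped Classical Nat

namespace K2

/-- number of ends of one kind -/
lemma card_side {E : Type*} [Fintype E] (b : E → Bool) (τ : Bool) :
    (univ.filter (fun p : E × Bool => decide (p.2 = b p.1) = τ)).card = Fintype.card E := by
  rw [← card_univ (α := E)]
  symm
  refine card_bij (fun e _ => (e, if τ = true then b e else !b e)) ?_ ?_ ?_
  · intro e _
    rw [mem_filter]
    refine ⟨mem_univ _, ?_⟩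
    cases τ <;> cases b e <;> simp
  · intro e _ e' _ h
    exact (Prod.ext_iff.1 h).1
  · rintro ⟨e, c⟩ h
    rw [mem_filter] at h
    refine ⟨e, mem_univ _, ?_⟩
    have h2 := h.2
    simp only at h2
    cases τ <;> cases c <;> cases h' : b e <;> simp [h'] at h2 ⊢

lemma aux {P Q K : Type*} [Fintype P] [Fintype Q] [Fintype K] (T : P → K) (t : Q → K) (n : ℕ)
    (hT : ∀ τ, (univ.filter (fun p => T p = τ)).card = n) :
    (univ.filter (fun f : P ≃ Q => ∀ p, t (f p) = T p)).card ≤ (n !) ^ Fintype.card K := by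
  rw [B1]
  split_ifs
  · simp only [hT]
    rw [prod_const, card_univ]
  · exact Nat.zero_le _

/-- number of configurations with a given orientation of the edges between the two sides -/
lemma count (m : ℕ) (S : Fin (2 * m) → Bool) (b : Fin (3 * m) → Bool) :
    (univ.filter (fun f : Conf (Fin (3 * m)) (Fin (2 * m)) =>
      ∀ p, S (f p).1 = decide (p.2 = b p.1))).card ≤ (3 * m)! * (3 * m)! := by
  have h := aux (P := Fin (3 * m) × Bool) (Q := Fin (2 * m) × Fin 3)
    (fun p => decide (p.2 = b p.1)) (fun q => S q.1) (3 * m) (fun τ => by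
      refine Eq.trans ?_ ((card_side b τ).trans (Fintype.card_fin _))
      refine congrArg card ?_
      ext f
      simp only [mem_filter, mem_univ, true_and])
  rw [Fintype.card_bool, pow_two] at h
  refine le_trans (le_of_eq ?_) h
  refine congrArg card ?_
  ext f
  simp only [mem_filter, mem_univ, true_and]

end K2

open K2

theorem K2 (m : ℕ) :
    2 ^ m * (univ.filter (fun f : Conf (Fin (3 * m)) (Fin (2 * m)) =>
      Simp f ∧ (gr f).Colorable 2)).card ≤ (6 * m + 1) * (6 * m)! := by
  have h1 : univ.filter (fun f : Conf (Fin (3 * m)) (Fin (2 * m)) =>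
      Simp f ∧ (gr f).Colorable 2) ⊆ (univ : Finset ((Fin (2 * m) → Bool) ×
        (Fin (3 * m) → Bool))).biUnion (fun x => univ.filter
          (fun f : Conf (Fin (3 * m)) (Fin (2 * m)) => ∀ p, x.1 (f p).1 = decide (p.2 = x.2 p.1))) := by
    intro f hf
    obtain ⟨_, hs, ⟨C⟩⟩ := mem_filter.1 hf
    rw [mem_biUnion]
    refine ⟨(fun v => decide (C v = 0), fun e => decide (C (f (e, true)).1 = 0)), mem_univ _, ?_⟩
    rw [mem_filter]
    refine ⟨mem_univ _, ?_⟩
    rintro ⟨e, c⟩
    have hadj : (gr f).Adj (f (e, false)).1 (f (e, true)).1 := ⟨hs.1 e, e, false, rfl, rfl⟩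
    have hne := C.valid hadj
    cases c
    · have h2 : ∀ x y : Fin 2, x ≠ y → decide (x = 0) = decide (false = decide (y = 0)) := by
        decide
      exact h2 _ _ hne
    · have h2 : ∀ y : Fin 2, decide (y = 0) = decide (true = decide (y = 0)) := by
        decide
      exact h2 _
  have h2 := (card_le_card h1).trans (card_biUnion_le_card_mul _ _ _
    (fun x _ => count m x.1 x.2))
  rw [card_univ, Fintype.card_prod, Fintype.card_fun, Fintype.card_fun, Fintype.card_fin,
    Fintype.card_fin, Fintype.card_bool] at h2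
  have h3 : 4 ^ (3 * m) ≤ (6 * m + 1) * Nat.centralBinom (3 * m) := by
    rcases Nat.eq_zero_or_pos m with rfl | hm
    · simp
    · refine (Nat.four_pow_le_two_mul_self_mul_centralBinom (3 * m) (by omega)).trans ?_
      exact Nat.mul_le_mul_right _ (by omega)
  have h4 : Nat.centralBinom (3 * m) * (3 * m)! * (3 * m)! = (6 * m)! := by
    have h5 := Nat.choose_mul_factorial_mul_factorial (n := 2 * (3 * m)) (k := 3 * m) (by omega)
    rw [Nat.centralBinom_eq_two_mul_choose]
    rw [show 2 * (3 * m) - 3 * m = 3 * m by omega] at h5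
    rw [h5]
    congr 1
    omega
  calc 2 ^ m * _ ≤ 2 ^ m * (2 ^ (2 * m) * 2 ^ (3 * m) * ((3 * m)! * (3 * m)!)) :=
        Nat.mul_le_mul_left _ h2
    _ = 4 ^ (3 * m) * ((3 * m)! * (3 * m)!) := by
        rw [← mul_assoc, ← pow_add, ← pow_add, show (4 : ℕ) = 2 ^ 2 by norm_num,
          ← pow_mul, show m + (2 * m + 3 * m) = 2 * (3 * m) by ring]
    _ ≤ (6 * m + 1) * Nat.centralBinom (3 * m) * ((3 * m)! * (3 * m)!) :=
        Nat.mul_le_mul_right _ h3
    _ = (6 * m + 1) * (6 * m)! := by
        rw [← h4]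
        ring

end Pool.H98.Sud
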