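import Pool.Agent.helper98.SUD.Defs2

/-!
# The lower bound n/4 for the Sudoku number of a cubic graph
-/

namespace Pool.H98.Sud

open Finset Filter
open scoped Classical Topology Nat

namespace LB

variable {V : Type*} [Fintype V] (G : SimpleGraph V)

/-- representative of the component -/
noncomputable def root (v : V) : V := (G.connectedComponentMk v).out

omit [Fintype V] in
lemma mk_root (v : V) : G.connectedComponentMk (root G v) = G.connectedComponentMk v :=
  Quot.out_eq _

omit [Fintype V] in
lemma reach_root (v : V) : G.Reachable v (root G v) :=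
  (SimpleGraph.ConnectedComponent.eq.mp (mk_root G v)).symm

omit [Fintype V] in
lemma root_adj {v u : V} (h : G.Adj v u) : root G v = root G u := by
  unfold root
  rw [SimpleGraph.ConnectedComponent.eq.mpr h.reachable]

omit [Fintype V] in
lemma exists_parent' (v r : V) (hr : G.Reachable v r) (hv : v ≠ r) :
    ∃ u, G.Adj v u ∧ G.dist u r < G.dist v r := by
  obtain ⟨p, hp⟩ := hr.exists_walk_length_eq_dist
  cases p with
  | nil => exact absurd rfl hv
  | cons h q =>
    refine ⟨_, h, ?_⟩
    rw [← hp, SimpleGraph.Walk.length_cons]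
    exact Nat.lt_succ_of_le (SimpleGraph.dist_le q)

omit [Fintype V] in
lemma exists_parent (v : V) (hv : v ≠ root G v) :
    ∃ u, G.Adj v u ∧ G.dist u (root G u) < G.dist v (root G v) := by
  obtain ⟨u, h1, h2⟩ := exists_parent' G v (root G v) (reach_root G v) hv
  exact ⟨u, h1, by rw [← root_adj G h1]; exact h2⟩

end LB

theorem LB1 {V : Type*} [Fintype V] (G : SimpleGraph V) :
    2 * Fintype.card V ≤ din G univ + 2 * Nat.card G.ConnectedComponent := by
  classical
  have hp : ∀ v, ∃ u, v ≠ LB.root G v →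
      (G.Adj v u ∧ G.dist u (LB.root G u) < G.dist v (LB.root G v)) := by
    intro v
    by_cases hv : v = LB.root G v
    · exact ⟨v, fun h => absurd hv h⟩
    · obtain ⟨u, hu⟩ := LB.exists_parent G v hv
      exact ⟨u, fun _ => hu⟩
  choose p hp using hp
  set D : Finset V := univ.filter (fun v => v ≠ LB.root G v) with hD
  have h1 : Fintype.card V ≤ D.card + Nat.card G.ConnectedComponent := by
    have h2 : (univ.filter (fun v => ¬ (v ≠ LB.root G v))).card ≤
        Nat.card G.ConnectedComponent := by
      rw [Nat.card_eq_fintype_card, ← Finset.card_univ]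
      refine Finset.card_le_card_of_injOn (fun v => G.connectedComponentMk v)
        (fun v _ => by simp) ?_
      intro v hv w hw hvw
      simp only [ne_eq, not_not, coe_filter, mem_univ, true_and, Set.mem_ofPred_eq] at hv hw
      rw [hv, hw]
      unfold LB.root
      simp only at hvw
      rw [hvw]
    have h3 := Finset.card_filter_add_card_filter_not (s := (univ : Finset V))
      (fun v => v ≠ LB.root G v)
    rw [Finset.card_univ] at h3
    rw [← h3]
    exact Nat.add_le_add_left h2 _
  have h4 : 2 * D.card ≤ din G univ := by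
    set A1 := D.image (fun v => (v, p v)) with hA1
    set A2 := D.image (fun v => (p v, v)) with hA2
    have c1 : A1.card = D.card := by
      apply Finset.card_image_of_injective
      intro v w h
      simpa using congrArg Prod.fst h
    have c2 : A2.card = D.card := by
      apply Finset.card_image_of_injective
      intro v w h
      simpa using congrArg Prod.snd h
    have hdisj : Disjoint A1 A2 := by
      rw [Finset.disjoint_left]
      rintro x hx1 hx2
      rw [hA1, Finset.mem_image] at hx1
      rw [hA2, Finset.mem_image] at hx2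
      obtain ⟨v, hv, rfl⟩ := hx1
      obtain ⟨w, hw, hvw⟩ := hx2
      rw [hD, Finset.mem_filter] at hv hw
      have e1 : p w = v := congrArg Prod.fst hvw
      have e2 : w = p v := congrArg Prod.snd hvw
      have i1 := (hp v hv.2).2
      have i2 := (hp w hw.2).2
      rw [e1] at i2
      rw [← e2] at i1
      omega
    have hsub : A1 ∪ A2 ⊆ (univ ×ˢ univ).filter (fun p : V × V => G.Adj p.1 p.2) := by
      intro x hx
      rw [Finset.mem_union] at hx
      rw [Finset.mem_filter]
      refine ⟨by simp, ?_⟩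
      rcases hx with hx | hx
      · rw [hA1, Finset.mem_image] at hx
        obtain ⟨v, hv, rfl⟩ := hx
        rw [hD, Finset.mem_filter] at hv
        exact (hp v hv.2).1
      · rw [hA2, Finset.mem_image] at hx
        obtain ⟨v, hv, rfl⟩ := hx
        rw [hD, Finset.mem_filter] at hv
        exact (hp v hv.2).1.symm
    have := Finset.card_le_card hsub
    rw [Finset.card_union_of_disjoint hdisj, c1, c2] at this
    unfold din
    omega
  omega

namespace LB

variable {V : Type*} [Fintype V] (G : SimpleGraph V)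

/-- number of neighbours in `A` -/
noncomputable def dg (A : Finset V) (v : V) : ℕ := (A.filter (fun w => G.Adj v w)).card

omit [Fintype V] in
lemma din_eq_sum (A : Finset V) : din G A = ∑ v ∈ A, dg G A v := by
  unfold din dg
  rw [Finset.card_filter, Finset.sum_product]
  refine Finset.sum_congr rfl fun v _ => ?_
  rw [Finset.card_filter]

omit [Fintype V] in
lemma din_insert (A : Finset V) (v : V) (hv : v ∉ A) :
    din G (insert v A) = din G A + 2 * dg G A v := by
  rw [din_eq_sum, din_eq_sum, Finset.sum_insert hv]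
  have h1 : dg G (insert v A) v = dg G A v := by
    unfold dg
    rw [Finset.filter_insert, if_neg (G.loopless.irrefl v)]
  have h2 : ∀ w ∈ A, dg G (insert v A) w = dg G A w + (if G.Adj v w then 1 else 0) := by
    intro w hw
    unfold dg
    rw [Finset.filter_insert]
    by_cases h : G.Adj w v
    · rw [if_pos h, if_pos h.symm, Finset.card_insert_of_notMem]
      exact fun h' => hv (Finset.mem_filter.mp h').1
    · rw [if_neg h, if_neg (fun h' => h h'.symm), add_zero]
  rw [h1, Finset.sum_congr rfl h2, Finset.sum_add_distrib]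
  have h3 : ∑ w ∈ A, (if G.Adj v w then 1 else 0) = dg G A v := by
    unfold dg
    rw [Finset.card_filter]
  rw [h3]
  ring


omit [Fintype V] in
lemma din_induce (W : Finset V) : din (G.induce (W : Set V)) univ = din G W := by
  unfold din
  refine Finset.card_bij (fun p _ => (p.1.1, p.2.1)) ?_ ?_ ?_
  · rintro ⟨⟨v, hv⟩, ⟨w, hw⟩⟩ h
    rw [Finset.mem_filter] at h ⊢
    exact ⟨Finset.mem_product.mpr ⟨hv, hw⟩, h.2⟩
  · rintro ⟨⟨v, hv⟩, ⟨w, hw⟩⟩ _ ⟨⟨v', hv'⟩, ⟨w', hw'⟩⟩ _ h
    simp only [Prod.mk.injEq] at h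
    obtain ⟨rfl, rfl⟩ := h
    rfl
  · rintro ⟨v, w⟩ h
    rw [Finset.mem_filter, Finset.mem_product] at h
    exact ⟨(⟨v, h.1.1⟩, ⟨w, h.1.2⟩), by
      rw [Finset.mem_filter]; exact ⟨by simp, h.2⟩, rfl⟩

/-- the vertices outside `A` with colour different from `x` -/
noncomputable def WW (A : Finset V) (C : V → Fin 3) (x : Fin 3) : Finset V :=
  univ.filter (fun v => v ∉ A ∧ C v ≠ x)

lemma mem_WW (A : Finset V) (C : V → Fin 3) (x : Fin 3) (v : V) :
    v ∈ WW A C x ↔ v ∉ A ∧ C v ≠ x := by
  simp [WW]

lemma fin3_ne (x c d : Fin 3) (h1 : c ≠ x) (h2 : d ≠ x) (h3 : c ≠ d) : x = -(c + d) := by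
  revert x c d; decide

lemma kempe (A S : Finset V) (hSA : S ⊆ A) (C : V → Fin 3) (hC : ∀ v w, G.Adj v w → C v ≠ C w)
    (huniq : ∀ C' : V → Fin 3, (∀ v w, G.Adj v w → C' v ≠ C' w) → (∀ v ∈ S, C' v = C v) →
      C' = C) (x : Fin 3) (K : (G.induce (WW A C x : Set V)).ConnectedComponent) :
    ∃ v w, ∃ hv : v ∈ (WW A C x : Set V),
      (G.induce (WW A C x : Set V)).connectedComponentMk ⟨v, hv⟩ = K ∧
      w ∈ A ∧ G.Adj v w ∧ C w ≠ x := by
  by_contra hcon
  push Not at hcon
  let P : V → Prop := fun v => ∃ hv : v ∈ (WW A C x : Set V),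
    (G.induce (WW A C x : Set V)).connectedComponentMk ⟨v, hv⟩ = K
  let C' : V → Fin 3 := fun v => if P v then -(x + C v) else C v
  have hPmem : ∀ v, P v → v ∉ A ∧ C v ≠ x := by
    rintro v ⟨hv, _⟩
    exact (mem_WW A C x v).mp hv
  have hadj : ∀ v w, G.Adj v w → P v → ¬ P w → -(x + C v) ≠ C w := by
    intro v w hvw hv hw
    by_cases hwx : C w = x
    · rw [hwx]
      have := (hPmem v hv).2
      have h0 : ∀ a b : Fin 3, a ≠ b → -(b + a) ≠ b := by decide
      exact h0 _ _ this
    · by_cases hwA : w ∈ A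
      · obtain ⟨hv1, hv2⟩ := hv
        exact absurd (hcon v w hv1 hv2 hwA hvw) hwx
      · exfalso
        apply hw
        have hwm : w ∈ (WW A C x : Set V) := (mem_WW A C x w).mpr ⟨hwA, hwx⟩
        refine ⟨hwm, ?_⟩
        obtain ⟨hv1, hv2⟩ := hv
        rw [← hv2, SimpleGraph.ConnectedComponent.eq]
        apply SimpleGraph.Adj.reachable
        exact hvw.symm
  have hC' : ∀ v w, G.Adj v w → C' v ≠ C' w := by
    intro v w hvw
    by_cases hv : P v
    · by_cases hw : P w
      · simp only [C', if_pos hv, if_pos hw]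
        have := hC v w hvw
        intro h
        apply this
        have h0 : ∀ a b c : Fin 3, -(c + a) = -(c + b) → a = b := by decide
        exact h0 _ _ _ h
      · simp only [C', if_pos hv, if_neg hw]
        exact hadj v w hvw hv hw
    · by_cases hw : P w
      · simp only [C', if_neg hv, if_pos hw]
        exact (hadj w v hvw.symm hw hv).symm
      · simp only [C', if_neg hv, if_neg hw]
        exact hC v w hvw
  have hS : ∀ v ∈ S, C' v = C v := by
    intro v hv
    have : ¬ P v := fun h => (hPmem v h).1 (hSA hv)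
    simp only [C', if_neg this]
  have hEq := huniq C' hC' hS
  obtain ⟨⟨v, hv⟩, hvK⟩ := K.exists_rep
  have hPv : P v := ⟨hv, hvK⟩
  have h1 := congrFun hEq v
  simp only [C', if_pos hPv] at h1
  have h0 : ∀ a b : Fin 3, a ≠ b → -(b + a) ≠ a := by decide
  exact h0 _ _ (hPmem v hPv).2 h1

lemma comps_le (A S : Finset V) (hSA : S ⊆ A) (C : V → Fin 3)
    (hC : ∀ v w, G.Adj v w → C v ≠ C w)
    (huniq : ∀ C' : V → Fin 3, (∀ v w, G.Adj v w → C' v ≠ C' w) → (∀ v ∈ S, C' v = C v) →
      C' = C) (hA : ∀ v, v ∉ A → dg G A v ≤ 1) :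
    ∑ x : Fin 3, Nat.card (G.induce (WW A C x : Set V)).ConnectedComponent ≤
      ∑ v ∈ univ \ A, dg G A v := by
  have key := fun x K => kempe G A S hSA C hC huniq x K
  choose fv fw hmem hK hw hadj hcol using key
  have h1 : ∑ x : Fin 3, Nat.card (G.induce (WW A C x : Set V)).ConnectedComponent =
      Fintype.card (Σ x : Fin 3, (G.induce (WW A C x : Set V)).ConnectedComponent) := by
    rw [Fintype.card_sigma]
    exact Finset.sum_congr rfl fun x _ => Nat.card_eq_fintype_card
  have h2 : Fintype.card (Σ x : Fin 3, (G.induce (WW A C x : Set V)).ConnectedComponent) ≤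
      ((univ \ A).filter (fun v => 1 ≤ dg G A v)).card := by
    rw [← Finset.card_univ]
    refine Finset.card_le_card_of_injOn (fun p => fv p.1 p.2) ?_ ?_
    · rintro ⟨x, K⟩ _
      have hm := (mem_WW A C x _).mp (hmem x K)
      simp only [coe_filter, Finset.mem_sdiff, mem_univ, true_and, Set.mem_ofPred_eq]
      refine ⟨hm.1, Finset.card_pos.mpr ⟨fw x K, ?_⟩⟩
      rw [Finset.mem_filter]
      exact ⟨hw x K, hadj x K⟩
    · rintro ⟨x, K⟩ _ ⟨x', K'⟩ _ h
      simp only at h
      have hm := (mem_WW A C x _).mp (hmem x K)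
      have hm' := (mem_WW A C x' _).mp (hmem x' K')
      have hww : fw x K = fw x' K' := by
        have hle := hA _ hm.1
        unfold dg at hle
        rw [Finset.card_le_one] at hle
        refine hle _ ?_ _ ?_
        · rw [Finset.mem_filter]
          exact ⟨hw x K, hadj x K⟩
        · rw [Finset.mem_filter]
          refine ⟨hw x' K', ?_⟩
          rw [h]
          exact hadj x' K'
      have e1 := fin3_ne x _ _ hm.2 (hcol x K) (hC _ _ (hadj x K))
      have e2 := fin3_ne x' _ _ hm'.2 (hcol x' K') (hC _ _ (hadj x' K'))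
      have hx : x = x' := by
        rw [e1, e2, h, hww]
      subst hx
      have : K = K' := by
        rw [← hK x K, ← hK x K']
        congr 1
        exact Subtype.ext h
      rw [this]
  have h3 : ((univ \ A).filter (fun v => 1 ≤ dg G A v)).card ≤ ∑ v ∈ univ \ A, dg G A v := by
    rw [Finset.card_filter]
    refine Finset.sum_le_sum fun v _ => ?_
    split_ifs with h
    · exact h
    · exact Nat.zero_le _
  omega

lemma sum_card_WW (A : Finset V) (C : V → Fin 3) :
    ∑ x : Fin 3, (WW A C x).card = 2 * (univ \ A).card := by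
  have h : ∀ x, (WW A C x).card = ∑ v ∈ univ \ A, if C v ≠ x then 1 else 0 := by
    intro x
    rw [← Finset.card_filter]
    congr 1
    ext v
    simp [WW]
  rw [Finset.sum_congr rfl fun x _ => h x, Finset.sum_comm]
  have h2 : ∀ v ∈ univ \ A, (∑ x : Fin 3, if C v ≠ x then 1 else 0) = 2 := by
    intro v _
    generalize C v = c
    revert c; decide
  rw [Finset.sum_congr rfl h2, Finset.sum_const, smul_eq_mul, mul_comm]

lemma sum_din_WW (A : Finset V) (C : V → Fin 3) (hC : ∀ v w, G.Adj v w → C v ≠ C w) :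
    ∑ x : Fin 3, din G (WW A C x) = din G (univ \ A) := by
  have h : ∀ x, din G (WW A C x) =
      ∑ p ∈ ((univ \ A) ×ˢ (univ \ A)).filter (fun p => G.Adj p.1 p.2),
        if C p.1 ≠ x ∧ C p.2 ≠ x then 1 else 0 := by
    intro x
    rw [← Finset.card_filter]
    unfold din
    congr 1
    ext p
    simp only [WW, mem_filter, mem_product, Finset.mem_sdiff, mem_univ, true_and]
    tauto
  rw [Finset.sum_congr rfl fun x _ => h x, Finset.sum_comm]
  have h2 : ∀ p ∈ ((univ \ A) ×ˢ (univ \ A)).filter (fun p => G.Adj p.1 p.2),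
      (∑ x : Fin 3, if C p.1 ≠ x ∧ C p.2 ≠ x then 1 else 0) = 1 := by
    intro p hp
    have hne := hC _ _ (Finset.mem_filter.mp hp).2
    generalize C p.1 = c at hne ⊢
    generalize C p.2 = d at hne ⊢
    revert c d; decide
  rw [Finset.sum_congr rfl h2, Finset.sum_const, smul_eq_mul, mul_one]
  rfl

lemma dg_add (A : Finset V) (v : V) :
    dg G A v + dg G (univ \ A) v = (univ.filter (fun w => G.Adj v w)).card := by
  unfold dg
  rw [← Finset.card_union_of_disjoint]
  · congr 1
    ext w
    simp only [mem_union, mem_filter, Finset.mem_sdiff, mem_univ, true_and]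
    tauto
  · rw [Finset.disjoint_left]
    intro w hw hw'
    simp only [mem_filter, Finset.mem_sdiff, mem_univ, true_and] at hw hw'
    exact hw'.1 hw.1

lemma cross (A : Finset V) :
    ∑ v ∈ A, dg G (univ \ A) v = ∑ v ∈ univ \ A, dg G A v := by
  unfold dg
  simp_rw [Finset.card_filter]
  rw [Finset.sum_comm]
  refine Finset.sum_congr rfl fun v _ => Finset.sum_congr rfl fun w _ => ?_
  simp only [G.adj_comm v w]

end LB

theorem LB2 {V : Type*} [Fintype V] (G : SimpleGraph V) (h3 : Cubic G) (hchi : chi G = 3)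
    (S : Finset V) (hS : IsSudoku G S) : Fintype.card V ≤ 4 * S.card := by
  classical
  unfold IsSudoku at hS
  rw [hchi] at hS
  obtain ⟨c, C, hCc, hCu⟩ := hS
  have hC : ∀ v w, G.Adj v w → C v ≠ C w := fun v w h => C.valid h
  have huniq : ∀ C' : V → Fin 3, (∀ v w, G.Adj v w → C' v ≠ C' w) → (∀ v ∈ S, C' v = C v) →
      C' = C := by
    intro C' hC' hS'
    have := hCu (SimpleGraph.Coloring.mk C' (fun {v w} h => hC' v w h)) (by
      rintro ⟨v, hv⟩
      change C' v = _
      rw [hS' v hv]
      exact hCc ⟨v, hv⟩)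
    funext v
    have h2 := congrArg (fun D : G.Coloring (Fin 3) => D v) this
    exact h2
  -- a maximal set
  have hex : ∃ A ∈ (univ : Finset (Finset V)).filter
      (fun A => S ⊆ A ∧ 4 * A.card ≤ din G A + 4 * S.card),
      ∀ B ∈ (univ : Finset (Finset V)).filter
      (fun A => S ⊆ A ∧ 4 * A.card ≤ din G A + 4 * S.card), B.card ≤ A.card := by
    apply Finset.exists_max_image
    exact ⟨S, by rw [Finset.mem_filter]; exact ⟨Finset.mem_univ _, subset_rfl, by omega⟩⟩
  obtain ⟨A, hA, hmax⟩ := hex
  rw [Finset.mem_filter] at hA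
  obtain ⟨-, hSA, hA4⟩ := hA
  have hdg : ∀ v, v ∉ A → LB.dg G A v ≤ 1 := by
    intro v hv
    by_contra hcon
    have h1 := hmax (insert v A) (by
      rw [Finset.mem_filter]
      refine ⟨Finset.mem_univ _, hSA.trans (Finset.subset_insert _ _), ?_⟩
      rw [LB.din_insert G A v hv, Finset.card_insert_of_notMem hv]
      omega)
    rw [Finset.card_insert_of_notMem hv] at h1
    omega
  have hcomp := LB.comps_le G A S hSA C hC huniq hdg
  have hsum1 := LB.sum_card_WW A C
  have hsum2 := LB.sum_din_WW G A C hC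
  have hLB : ∀ x, 2 * (LB.WW A C x).card ≤ din G (LB.WW A C x) +
      2 * Nat.card (G.induce (LB.WW A C x : Set V)).ConnectedComponent := by
    intro x
    have := LB1 (G.induce (LB.WW A C x : Set V))
    rw [LB.din_induce] at this
    have hc : Fintype.card ((LB.WW A C x : Finset V) : Set V) = (LB.WW A C x).card := by
      simp
    rw [hc] at this
    exact this
  have hLBs := Finset.sum_le_sum (s := univ) fun x (_ : x ∈ (univ : Finset (Fin 3))) => hLB x
  rw [← Finset.mul_sum, hsum1, Finset.sum_add_distrib, hsum2, ← Finset.mul_sum] at hLBs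
  have htot : ∑ v : V, (LB.dg G A v + LB.dg G (univ \ A) v) = 3 * Fintype.card V := by
    rw [Finset.sum_congr rfl fun v _ => (LB.dg_add G A v).trans (h3 v), Finset.sum_const,
      Finset.card_univ, smul_eq_mul, mul_comm]
  have hsplit : ∑ v : V, (LB.dg G A v + LB.dg G (univ \ A) v) =
      ∑ v ∈ univ \ A, (LB.dg G A v + LB.dg G (univ \ A) v) +
      ∑ v ∈ A, (LB.dg G A v + LB.dg G (univ \ A) v) :=
    (Finset.sum_sdiff (Finset.subset_univ A)).symm
  have hs1 : ∑ v ∈ univ \ A, (LB.dg G A v + LB.dg G (univ \ A) v) =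
      ∑ v ∈ univ \ A, LB.dg G A v + din G (univ \ A) := by
    rw [Finset.sum_add_distrib, LB.din_eq_sum G (univ \ A)]
  have hs2 : ∑ v ∈ A, (LB.dg G A v + LB.dg G (univ \ A) v) =
      din G A + ∑ v ∈ univ \ A, LB.dg G A v := by
    rw [Finset.sum_add_distrib, LB.cross, LB.din_eq_sum G A]
  rw [htot, hs1, hs2] at hsplit
  have hcard : (univ \ A).card + A.card = Fintype.card V := by
    rw [Finset.card_sdiff_add_card_eq_card (Finset.subset_univ A), Finset.card_univ]
  omega

end Pool.H98.Sud
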