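import Pool.Agent.helper98.SUD.Defs2

/-!
# Counting configurations with many edges inside a small set
-/

namespace Pool.H98.Sud

open Finset Filter
open scoped Classical Topology Nat

namespace S1

lemma card_fix {P : Type*} [Fintype P] (J : Finset P) :
    (univ.filter (fun σ : Equiv.Perm P => ∀ p ∈ J, σ p = p)).card = (Fintype.card P - J.card)! := by
  have e := Equiv.Perm.subtypeEquivSubtypePerm (fun a : P => a ∉ J)
  have h1 : Fintype.card {σ : Equiv.Perm P // ∀ a, ¬ (a ∉ J) → σ a = a} =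
      Fintype.card (Equiv.Perm {a : P // a ∉ J}) := (Fintype.card_congr e).symm
  rw [Fintype.card_perm, Fintype.card_subtype_compl, Fintype.card_coe] at h1
  rw [← h1, Fintype.card_subtype]
  congr 1
  ext σ
  simp

lemma card_ext {P Q : Type*} [Fintype P] [Fintype Q] (J : Finset P) (g : J → Q) :
    (univ.filter (fun f : P ≃ Q => ∀ p : J, f p = g p)).card ≤ (Fintype.card P - J.card)! := by
  rcases (univ.filter (fun f : P ≃ Q => ∀ p : J, f p = g p)).eq_empty_or_nonempty with h | ⟨f0, h0⟩
  · rw [h]; simp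
  · rw [← card_fix J]
    refine Finset.card_le_card_of_injOn (fun f => f.trans f0.symm) ?_ ?_
    · intro f hf
      simp only [coe_filter, mem_univ, true_and, Set.mem_ofPred_eq, mem_filter] at hf h0 ⊢
      intro p hp
      have h1 := hf ⟨p, hp⟩
      have h2 := h0 ⟨p, hp⟩
      simp only at h1 h2
      rw [Equiv.trans_apply, h1, ← h2, Equiv.symm_apply_apply]
    · intro f _ f' _ h
      ext p
      have := congrArg (fun σ : Equiv.Perm P => f0 (σ p)) h
      simpa using this

end S1

theorem S0 {P Q : Type*} [Fintype P] [Fintype Q] (hPQ : Fintype.card P = Fintype.card Q)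
    (J : Finset P) (A : Finset Q) :
    (univ.filter (fun f : P ≃ Q => ∀ p ∈ J, f p ∈ A)).card ≤
      A.card ^ J.card * (Fintype.card P - J.card)! := by
  have h1 : (univ.filter (fun f : P ≃ Q => ∀ p ∈ J, f p ∈ A)) ⊆
      (univ : Finset (J → A)).biUnion
        (fun g => univ.filter (fun f : P ≃ Q => ∀ p : J, f p = (g p : Q))) := by
    intro f hf
    simp only [mem_filter, mem_univ, true_and, mem_biUnion] at hf ⊢
    exact ⟨fun p => ⟨f p, hf p p.2⟩, fun p => rfl⟩
  refine (card_le_card h1).trans (card_biUnion_le.trans ?_)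
  refine (Finset.sum_le_card_nsmul _ _ ((Fintype.card P - J.card)!)
    (fun g _ => S1.card_ext J (fun p => (g p : Q)))).trans ?_
  rw [smul_eq_mul, card_univ, Fintype.card_fun, Fintype.card_coe, Fintype.card_coe]

namespace S1

/-- the edges with both ends in `A` -/
noncomputable def inner {E V : Type*} [Fintype E] (f : Conf E V) (A : Finset V) : Finset E :=
  univ.filter (fun e => (f (e, false)).1 ∈ A ∧ (f (e, true)).1 ∈ A)

lemma din_le {E V : Type*} [Fintype E] (f : Conf E V) (A : Finset V) :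
    din (gr f) A ≤ 2 * (inner f A).card := by
  have h1 : ((A ×ˢ A).filter (fun p => (gr f).Adj p.1 p.2)) ⊆
      ((inner f A) ×ˢ (univ : Finset Bool)).image
        (fun q => ((f (q.1, q.2)).1, (f (q.1, !q.2)).1)) := by
    rintro ⟨v, w⟩ hp
    simp only [mem_filter, mem_product] at hp
    obtain ⟨⟨hv, hw⟩, _, e, b, h2, h3⟩ := hp
    rw [mem_image]
    refine ⟨(e, b), ?_, ?_⟩
    · simp only [mem_product, mem_univ, and_true, inner, mem_filter, true_and]
      cases b
      · simp only [Bool.not_false] at h3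
        exact ⟨by rw [h2]; exact hv, by rw [h3]; exact hw⟩
      · simp only [Bool.not_true] at h3
        exact ⟨by rw [h3]; exact hw, by rw [h2]; exact hv⟩
    · simp only [h2, h3]
  unfold din
  refine (card_le_card h1).trans (card_image_le.trans ?_)
  rw [card_product, card_univ, Fintype.card_bool, mul_comm]

lemma count_le {E V : Type*} [Fintype E] [Fintype V] (h m : ℕ) (hE : Fintype.card E = 3 * m)
    (hV : Fintype.card V = 2 * m) (A : Finset V) (hA : A.card = h) :
    (univ.filter (fun f : Conf E V => 2 * A.card ≤ din (gr f) A)).card ≤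
      (3 * m) ^ h * ((3 * h) ^ (2 * h) * (6 * m - 2 * h)!) := by
  have h1 : (univ.filter (fun f : Conf E V => 2 * A.card ≤ din (gr f) A)) ⊆
      (powersetCard h (univ : Finset E)).biUnion
        (fun J => univ.filter (fun f : Conf E V =>
          ∀ p ∈ J ×ˢ (univ : Finset Bool), f p ∈ A ×ˢ (univ : Finset (Fin 3)))) := by
    intro f hf
    simp only [mem_filter, mem_univ, true_and, mem_biUnion, mem_powersetCard_univ] at hf ⊢
    have h2 : h ≤ (inner f A).card := by
      have := din_le f A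
      omega
    obtain ⟨J, hJ, hJc⟩ := exists_subset_card_eq h2
    refine ⟨J, hJc, ?_⟩
    rintro ⟨e, b⟩ hp
    simp only [mem_product, mem_univ, and_true] at hp ⊢
    have h3 := hJ hp
    simp only [inner, mem_filter, mem_univ, true_and] at h3
    cases b
    · exact h3.1
    · exact h3.2
  refine (card_le_card h1).trans (card_biUnion_le.trans ?_)
  have h2 : ∀ J ∈ powersetCard h (univ : Finset E),
      (univ.filter (fun f : Conf E V =>
          ∀ p ∈ J ×ˢ (univ : Finset Bool), f p ∈ A ×ˢ (univ : Finset (Fin 3)))).card ≤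
        (3 * h) ^ (2 * h) * (6 * m - 2 * h)! := by
    intro J hJ
    rw [mem_powersetCard_univ] at hJ
    have hPQ : Fintype.card (E × Bool) = Fintype.card (V × Fin 3) := by
      rw [Fintype.card_prod, Fintype.card_prod, hE, hV, Fintype.card_bool, Fintype.card_fin]
      ring
    have h5 := S0 hPQ (J ×ˢ (univ : Finset Bool)) (A ×ˢ (univ : Finset (Fin 3)))
    have hc : Fintype.card (E × Bool) = 6 * m := by
      rw [Fintype.card_prod, hE, Fintype.card_bool]; ring
    rw [hc, card_product, card_product, card_univ, card_univ, Fintype.card_bool, Fintype.card_fin,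
      hJ, hA, mul_comm h 3, mul_comm h 2] at h5
    refine le_trans (le_of_eq ?_) h5
    congr 1
    ext f
    simp only [mem_filter, mem_univ, true_and]
  refine (Finset.sum_le_card_nsmul _ _ _ h2).trans ?_
  rw [smul_eq_mul, card_powersetCard, card_univ, hE]
  exact Nat.mul_le_mul_right _ (Nat.choose_le_pow _ _)

lemma arith1 (N m h F F' : ℕ) (h1 : N ≤ (3 * m) ^ h * ((3 * h) ^ (2 * h) * F'))
    (h2 : F' * m ^ (2 * h) ≤ F) :
    (N : ℝ) * (m : ℝ) ^ h ≤ ((h : ℝ) ^ h + 3 ^ h * (3 * h) ^ (2 * h)) * (F : ℝ) := by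
  have h3 : N * m ^ h ≤ 3 ^ h * (3 * h) ^ (2 * h) * F := by
    calc N * m ^ h ≤ (3 * m) ^ h * ((3 * h) ^ (2 * h) * F') * m ^ h := Nat.mul_le_mul_right _ h1
      _ = 3 ^ h * (3 * h) ^ (2 * h) * (F' * m ^ (2 * h)) := by
          rw [mul_pow, two_mul h, pow_add m]; ring
      _ ≤ _ := Nat.mul_le_mul_left _ h2
  have h4 : (N : ℝ) * (m : ℝ) ^ h ≤ 3 ^ h * (3 * h) ^ (2 * h) * (F : ℝ) := by exact_mod_cast h3
  refine h4.trans (mul_le_mul_of_nonneg_right ?_ (Nat.cast_nonneg _))
  have : (0 : ℝ) ≤ (h : ℝ) ^ h := by positivity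
  linarith

lemma arith2 (N m h F : ℕ) (h1 : N ≤ F) (hmh : m ≤ h) :
    (N : ℝ) * (m : ℝ) ^ h ≤ ((h : ℝ) ^ h + 3 ^ h * (3 * h) ^ (2 * h)) * (F : ℝ) := by
  have h2 : (N : ℝ) ≤ (F : ℝ) := by exact_mod_cast h1
  have h3 : (m : ℝ) ^ h ≤ (h : ℝ) ^ h := by
    apply pow_le_pow_left₀ (by positivity)
    exact_mod_cast hmh
  have hc0 : (0 : ℝ) ≤ 3 ^ h * (3 * h) ^ (2 * h) := by positivity
  calc (N : ℝ) * (m : ℝ) ^ h ≤ (F : ℝ) * (h : ℝ) ^ h :=
        mul_le_mul h2 h3 (by positivity) (Nat.cast_nonneg _)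
    _ = (h : ℝ) ^ h * (F : ℝ) := mul_comm _ _
    _ ≤ _ := mul_le_mul_of_nonneg_right (by linarith) (Nat.cast_nonneg _)

end S1

/-- from `S0` -/
theorem S1 (h : ℕ) (hh : 1 ≤ h) : ∃ C : ℝ, ∀ m : ℕ, 1 ≤ m → ∀ A : Finset (Fin (2 * m)),
    A.card = h →
    ((univ.filter (fun f : Conf (Fin (3 * m)) (Fin (2 * m)) =>
      2 * A.card ≤ din (gr f) A)).card : ℝ) * (m : ℝ) ^ h ≤ C * ((6 * m)! : ℝ) := by
  refine ⟨(h : ℝ) ^ h + 3 ^ h * (3 * h) ^ (2 * h), fun m hm A hA => ?_⟩
  rcases lt_or_ge m h with hmh | hmh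
  · refine S1.arith2 _ m h ((6 * m)!) ?_ hmh.le
    rw [← card_conf m]
    exact card_le_univ _
  · have h2 : (6 * m - 2 * h)! * m ^ (2 * h) ≤ (6 * m)! := by
      have h3 := Nat.factorial_mul_pow_sub_le_factorial (show 6 * m - 2 * h ≤ 6 * m by omega)
      have h4 : 6 * m - (6 * m - 2 * h) = 2 * h := by omega
      rw [h4] at h3
      refine le_trans (Nat.mul_le_mul_left _ (Nat.pow_le_pow_left ?_ _)) h3
      omega
    have h5 := S1.count_le (E := Fin (3 * m)) (V := Fin (2 * m)) h m (Fintype.card_fin _)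
      (Fintype.card_fin _) A hA
    have h6 : (univ.filter (fun f : Conf (Fin (3 * m)) (Fin (2 * m)) =>
        2 * A.card ≤ din (gr f) A)).card ≤ (3 * m) ^ h * ((3 * h) ^ (2 * h) * (6 * m - 2 * h)!) := by
      refine le_trans (le_of_eq (congrArg card ?_)) h5
      ext f
      simp only [mem_filter, mem_univ, true_and]
    exact S1.arith1 _ m h ((6 * m)!) ((6 * m - 2 * h)!) h6 h2

/-- the degrees are at most 3 -/
theorem S2a {E V : Type*} [Fintype E] [Fintype V] (f : Conf E V) (v : V) (r : ℕ) :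
    (univ.filter (fun w => (gr f).Adj v w)).card ≤ 3 ∧ (ball (gr f) v r).card ≤ 4 ^ r := by
  have hdeg : ∀ v, (univ.filter (fun w => (gr f).Adj v w)).card ≤ 3 := by
    intro v
    have h1 : (univ.filter (fun w => (gr f).Adj v w)) ⊆ (univ : Finset (Fin 3)).image
        (fun k => (f ((f.symm (v, k)).1, !(f.symm (v, k)).2)).1) := by
      intro w hw
      simp only [mem_filter, mem_univ, true_and] at hw
      obtain ⟨_, e, b, h2, h3⟩ := hw
      rw [mem_image]
      refine ⟨(f (e, b)).2, mem_univ _, ?_⟩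
      have h4 : f.symm (v, (f (e, b)).2) = (e, b) := by
        rw [Equiv.symm_apply_eq]
        exact Prod.ext h2.symm rfl
      rw [h4]
      exact h3
    refine (card_le_card h1).trans (card_image_le.trans ?_)
    simp
  refine ⟨hdeg v, ?_⟩
  induction r with
  | zero => simp [ball]
  | succ r ih =>
    have h1 : ball (gr f) v (r + 1) ⊆ ball (gr f) v r ∪
        (ball (gr f) v r).biUnion (fun u => univ.filter (fun w => (gr f).Adj u w)) := by
      intro w hw
      simp only [ball, mem_filter, mem_univ, true_and] at hw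
      rw [mem_union, mem_biUnion]
      rcases hw with hw | ⟨u, hu, huw⟩
      · exact Or.inl hw
      · exact Or.inr ⟨u, hu, by simp [huw]⟩
    have h2 : ((ball (gr f) v r).biUnion (fun u => univ.filter (fun w => (gr f).Adj u w))).card ≤
        (ball (gr f) v r).card * 3 := card_biUnion_le_card_mul _ _ _ (fun u _ => hdeg u)
    have h3 := (card_le_card h1).trans (card_union_le _ _)
    rw [pow_succ]
    omega

end Pool.H98.Sud
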