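import Pool.Agent.helper98.SUD.S1

/-!
# Module S3: the expected number of dense vertices is bounded
-/

namespace Pool.H98.Sud

open Finset
open scoped Classical Nat

namespace S3

lemma mem_ball_self {V : Type*} [Fintype V] (G : SimpleGraph V) (v : V) (j : ℕ) :
    v ∈ ball G v j := by
  induction j with
  | zero => simp [ball]
  | succ j ih => simp only [ball, mem_filter, mem_univ, true_and]; exact Or.inl ih

lemma nd_le {V : Type*} [Fintype V] (G : SimpleGraph V) (r : ℕ)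
    (hb : ∀ v j, (ball G v j).card ≤ 4 ^ j) :
    nd G r ≤ ∑ A : Finset V, if A.card ∈ Icc 1 (4 ^ r) ∧ 2 * A.card ≤ din G A then A.card else 0 := by
  rw [← sum_filter]
  refine le_trans (card_le_card ?_) (card_biUnion_le (s := univ.filter (fun A : Finset V =>
    A.card ∈ Icc 1 (4 ^ r) ∧ 2 * A.card ≤ din G A)) (t := fun A => A))
  intro v hv
  obtain ⟨j, hj, h⟩ := (mem_filter.1 hv).2
  refine mem_biUnion.2 ⟨ball G v j, ?_, mem_ball_self G v j⟩
  refine mem_filter.2 ⟨mem_univ _, mem_Icc.2 ⟨?_, ?_⟩, h⟩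
  · exact card_pos.2 ⟨v, mem_ball_self G v j⟩
  · exact (hb v j).trans (Nat.pow_le_pow_right (by norm_num) hj)

lemma card_sets (n h : ℕ) :
    (univ.filter (fun A : Finset (Fin n) => A.card = h)).card ≤ n ^ h := by
  have h1 : univ.filter (fun A : Finset (Fin n) => A.card = h) = powersetCard h univ := by
    ext A
    simp [mem_powersetCard]
  rw [h1, card_powersetCard, card_univ, Fintype.card_fin]
  exact Nat.choose_le_pow _ _

end S3

/-- `S3` from `S1` and `S2a` as hypotheses -/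
theorem S3_of
    (S1 : ∀ h : ℕ, 1 ≤ h → ∃ C : ℝ, ∀ m : ℕ, 1 ≤ m → ∀ A : Finset (Fin (2 * m)),
      A.card = h →
      ((univ.filter (fun f : Conf (Fin (3 * m)) (Fin (2 * m)) =>
        2 * A.card ≤ din (gr f) A)).card : ℝ) * (m : ℝ) ^ h ≤ C * ((6 * m)! : ℝ))
    (S2a : ∀ (m : ℕ) (f : Conf (Fin (3 * m)) (Fin (2 * m))) (v : Fin (2 * m)) (r : ℕ),
      (ball (gr f) v r).card ≤ 4 ^ r)
    (r : ℕ) : ∃ C : ℝ, ∀ m : ℕ, 1 ≤ m →
    ∑ f : Conf (Fin (3 * m)) (Fin (2 * m)), (nd (gr f) r : ℝ) ≤ C * ((6 * m)! : ℝ) := by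
  choose! C hC using S1
  refine ⟨∑ h ∈ Icc (1 : ℕ) (4 ^ r), (h : ℝ) * 2 ^ h * |C h|, ?_⟩
  intro m hm
  have hm0 : (0 : ℝ) < m := by exact_mod_cast hm
  have step1 : ∑ f : Conf (Fin (3 * m)) (Fin (2 * m)), (nd (gr f) r : ℝ) ≤
      ∑ f : Conf (Fin (3 * m)) (Fin (2 * m)), ∑ A : Finset (Fin (2 * m)),
        if A.card ∈ Icc 1 (4 ^ r) ∧ 2 * A.card ≤ din (gr f) A then (A.card : ℝ) else 0 := by
    refine sum_le_sum fun f _ => ?_
    have h := S3.nd_le (gr f) r (fun v j => S2a m f v j)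
    have h' : ((nd (gr f) r : ℕ) : ℝ) ≤ ((∑ A : Finset (Fin (2 * m)),
      if A.card ∈ Icc 1 (4 ^ r) ∧ 2 * A.card ≤ din (gr f) A then A.card else 0 : ℕ) : ℝ) := by
      exact_mod_cast h
    refine h'.trans (le_of_eq ?_)
    push_cast
    rfl
  have step2 : ∀ A : Finset (Fin (2 * m)), (∑ f : Conf (Fin (3 * m)) (Fin (2 * m)),
        if A.card ∈ Icc 1 (4 ^ r) ∧ 2 * A.card ≤ din (gr f) A then (A.card : ℝ) else 0) ≤
      if A.card ∈ Icc 1 (4 ^ r) then (A.card : ℝ) * (|C A.card| * ((6 * m)! : ℝ) / m ^ A.card)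
        else 0 := by
    intro A
    by_cases hA : A.card ∈ Icc 1 (4 ^ r)
    · rw [if_pos hA]
      have e1 : (∑ f : Conf (Fin (3 * m)) (Fin (2 * m)),
          if A.card ∈ Icc 1 (4 ^ r) ∧ 2 * A.card ≤ din (gr f) A then (A.card : ℝ) else 0) =
          (A.card : ℝ) * ((univ.filter (fun f : Conf (Fin (3 * m)) (Fin (2 * m)) =>
            2 * A.card ≤ din (gr f) A)).card : ℝ) := by
        rw [← sum_filter, sum_const, nsmul_eq_mul, mul_comm]
        congr 3
        ext f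
        simp [hA]
      rw [e1]
      refine mul_le_mul_of_nonneg_left ?_ (Nat.cast_nonneg _)
      rw [le_div_iff₀ (by positivity)]
      refine (hC A.card (mem_Icc.1 hA).1 m hm A rfl).trans ?_
      exact mul_le_mul_of_nonneg_right (le_abs_self _) (Nat.cast_nonneg _)
    · rw [if_neg hA]
      refine le_of_eq (sum_eq_zero fun f _ => ?_)
      rw [if_neg]
      exact fun h => hA h.1
  calc ∑ f : Conf (Fin (3 * m)) (Fin (2 * m)), (nd (gr f) r : ℝ)
      ≤ _ := step1
    _ = ∑ A : Finset (Fin (2 * m)), ∑ f : Conf (Fin (3 * m)) (Fin (2 * m)),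
        (if A.card ∈ Icc 1 (4 ^ r) ∧ 2 * A.card ≤ din (gr f) A then (A.card : ℝ) else 0) :=
        sum_comm
    _ ≤ ∑ A : Finset (Fin (2 * m)), (if A.card ∈ Icc 1 (4 ^ r) then
        (A.card : ℝ) * (|C A.card| * ((6 * m)! : ℝ) / m ^ A.card) else 0) :=
        sum_le_sum fun A _ => step2 A
    _ = ∑ A ∈ univ.filter (fun A : Finset (Fin (2 * m)) => A.card ∈ Icc 1 (4 ^ r)),
        (A.card : ℝ) * (|C A.card| * ((6 * m)! : ℝ) / m ^ A.card) := by rw [← sum_filter]
    _ = ∑ h ∈ Icc 1 (4 ^ r), ∑ A ∈ (univ.filter (fun A : Finset (Fin (2 * m)) =>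
          A.card ∈ Icc 1 (4 ^ r))).filter (fun A => A.card = h),
        (A.card : ℝ) * (|C A.card| * ((6 * m)! : ℝ) / m ^ A.card) :=
        (sum_fiberwise_of_maps_to (fun A hA => (mem_filter.1 hA).2) _).symm
    _ ≤ ∑ h ∈ Icc (1 : ℕ) (4 ^ r), (h : ℝ) * 2 ^ h * |C h| * ((6 * m)! : ℝ) := by
        refine sum_le_sum fun h hh => ?_
        have e2 : ∑ A ∈ (univ.filter (fun A : Finset (Fin (2 * m)) =>
          A.card ∈ Icc 1 (4 ^ r))).filter (fun A => A.card = h),
            (A.card : ℝ) * (|C A.card| * ((6 * m)! : ℝ) / m ^ A.card) =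
            ∑ A ∈ (univ.filter (fun A : Finset (Fin (2 * m)) => A.card = h)),
            (h : ℝ) * (|C h| * ((6 * m)! : ℝ) / m ^ h) := by
          refine sum_congr ?_ fun A hA => ?_
          · ext A
            simp only [mem_filter, mem_univ, true_and]
            constructor
            · exact fun h' => h'.2
            · intro h'
              exact ⟨by rw [h']; exact hh, h'⟩
          · rw [(mem_filter.1 hA).2]
        rw [e2, sum_const, nsmul_eq_mul]
        have e3 : ((univ.filter (fun A : Finset (Fin (2 * m)) => A.card = h)).card : ℝ) ≤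
            (2 * m) ^ h := by
          have := S3.card_sets (2 * m) h
          exact_mod_cast this
        calc ((univ.filter (fun A : Finset (Fin (2 * m)) => A.card = h)).card : ℝ) *
              ((h : ℝ) * (|C h| * ((6 * m)! : ℝ) / m ^ h))
            ≤ (2 * m) ^ h * ((h : ℝ) * (|C h| * ((6 * m)! : ℝ) / m ^ h)) :=
              mul_le_mul_of_nonneg_right e3 (by positivity)
          _ = (h : ℝ) * 2 ^ h * |C h| * ((6 * m)! : ℝ) := by
              rw [mul_pow]
              field_simp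
    _ = _ := by rw [← sum_mul]

/-- from `S1`, `S2a` -/
theorem S3 (r : ℕ) : ∃ C : ℝ, ∀ m : ℕ, 1 ≤ m →
    ∑ f : Conf (Fin (3 * m)) (Fin (2 * m)), (nd (gr f) r : ℝ) ≤ C * ((6 * m)! : ℝ) :=
  S3_of S1 (fun _ f v r => (S2a f v r).2) r

end Pool.H98.Sud
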