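import Pool.Agent.helper98.SUD.G0

/-!
# Module S4: the number of dense vertices is Lipschitz; `S5` from `S3`
(the bound `S2a` for the size of balls is a hypothesis here)
-/

namespace Pool.H98.Sud

open Finset Filter
open scoped Classical Topology Nat

namespace S4

/-- `w` is in the ball of radius `r` about `v` iff there is a walk of length at most `r` -/
lemma mem_ball {V : Type*} [Fintype V] (G : SimpleGraph V) (v w : V) (r : ℕ) :
    w ∈ ball G v r ↔ ∃ p : G.Walk v w, p.length ≤ r := by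
  induction r generalizing w with
  | zero =>
    simp only [ball, Finset.mem_singleton]
    constructor
    · rintro rfl
      exact ⟨SimpleGraph.Walk.nil, le_rfl⟩
    · rintro ⟨p, hp⟩
      exact (SimpleGraph.Walk.eq_of_length_eq_zero (Nat.le_zero.mp hp)).symm
  | succ r ih =>
    simp only [ball, Finset.mem_filter, Finset.mem_univ, true_and]
    constructor
    · rintro (h | ⟨u, hu, huw⟩)
      · obtain ⟨p, hp⟩ := (ih w).mp h
        exact ⟨p, hp.trans (Nat.le_succ r)⟩
      · obtain ⟨p, hp⟩ := (ih u).mp hu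
        refine ⟨p.concat huw, ?_⟩
        rw [SimpleGraph.Walk.length_concat]
        omega
    · rintro ⟨p, hp⟩
      induction p using SimpleGraph.Walk.concatRec with
      | Hnil => exact Or.inl ((ih _).mpr ⟨SimpleGraph.Walk.nil, Nat.zero_le _⟩)
      | Hconcat p h _ =>
        rw [SimpleGraph.Walk.length_concat] at hp
        exact Or.inr ⟨_, (ih _).mpr ⟨p, by omega⟩, h⟩

lemma ball_symm {V : Type*} [Fintype V] (G : SimpleGraph V) (v w : V) (r : ℕ) :
    w ∈ ball G v r ↔ v ∈ ball G w r := by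
  rw [mem_ball, mem_ball]
  constructor
  · rintro ⟨p, hp⟩
    exact ⟨p.reverse, by rwa [SimpleGraph.Walk.length_reverse]⟩
  · rintro ⟨p, hp⟩
    exact ⟨p.reverse, by rwa [SimpleGraph.Walk.length_reverse]⟩

lemma ball_mono {V : Type*} [Fintype V] (G : SimpleGraph V) (v : V) {i j : ℕ} (h : i ≤ j) :
    ball G v i ⊆ ball G v j := by
  intro w hw
  rw [mem_ball] at hw ⊢
  obtain ⟨p, hp⟩ := hw
  exact ⟨p, hp.trans h⟩

/-- two graphs with the same adjacency outside `T` -/
lemma ball_eq {V : Type*} [Fintype V] (G G' : SimpleGraph V) (T : Finset V)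
    (h : ∀ v w, v ∉ T → (G'.Adj v w ↔ G.Adj v w)) (v : V) (r : ℕ)
    (hT : ∀ t ∈ T, t ∉ ball G v r) : ∀ j ≤ r, ball G' v j = ball G v j := by
  intro j
  induction j with
  | zero => intro _; rfl
  | succ j ih =>
    intro hj
    have h1 := ih (by omega)
    ext w
    simp only [ball, Finset.mem_filter, Finset.mem_univ, true_and]
    rw [h1]
    refine or_congr Iff.rfl (exists_congr fun u => and_congr_right fun hu => ?_)
    exact h u w fun ht => hT u ht (ball_mono G v (by omega) hu)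

lemma dense_iff {V : Type*} [Fintype V] (G G' : SimpleGraph V) (T : Finset V)
    (h : ∀ v w, v ∉ T → (G'.Adj v w ↔ G.Adj v w)) (v : V) (r : ℕ)
    (hT : ∀ t ∈ T, t ∉ ball G v r) : Dense G' r v ↔ Dense G r v := by
  unfold Dense
  refine exists_congr fun j => and_congr_right fun hj => ?_
  rw [ball_eq G G' T h v r hT j hj]
  have : din G' (ball G v j) = din G (ball G v j) := by
    unfold din
    congr 1
    refine Finset.filter_congr fun p hp => ?_
    rw [Finset.mem_product] at hp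
    exact h p.1 p.2 fun ht => hT _ ht (ball_mono G v hj hp.1)
  rw [this]

/-- the vertices touched by a swap -/
noncomputable def touched {E V : Type*} (f : Conf E V) (p p' : E × Bool) : Finset V :=
  {(f p).1, (f p').1, (f (p.1, !p.2)).1, (f (p'.1, !p'.2)).1}

lemma card_touched {E V : Type*} (f : Conf E V) (p p' : E × Bool) :
    (touched f p p').card ≤ 4 := Finset.card_le_four

lemma mem_touched {E V : Type*} (f : Conf E V) (p p' x : E × Bool) (h : x.1 = p.1 ∨ x.1 = p'.1) :
    (f x).1 ∈ touched f p p' := by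
  obtain ⟨e, b⟩ := x
  obtain ⟨e1, b1⟩ := p
  obtain ⟨e2, b2⟩ := p'
  simp only at h
  unfold touched
  simp only [Finset.mem_insert, Finset.mem_singleton]
  rcases h with rfl | rfl
  · cases b <;> cases b1 <;> simp
  · cases b <;> cases b2 <;> simp

lemma swap_fst {E : Type*} [d : DecidableEq (E × Bool)] (p p' x : E × Bool)
    (h : ¬ (x.1 = p.1 ∨ x.1 = p'.1)) : Equiv.swap p p' x = x := by
  apply Equiv.swap_apply_of_ne_of_ne
  · rintro rfl
    exact h (Or.inl rfl)
  · rintro rfl
    exact h (Or.inr rfl)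

lemma swap_mem {E : Type*} [d : DecidableEq (E × Bool)] (p p' x : E × Bool)
    (h : x.1 = p.1 ∨ x.1 = p'.1) :
    (Equiv.swap p p' x).1 = p.1 ∨ (Equiv.swap p p' x).1 = p'.1 := by
  by_cases h1 : x = p
  · rw [h1, Equiv.swap_apply_left]
    exact Or.inr rfl
  by_cases h2 : x = p'
  · rw [h2, Equiv.swap_apply_right]
    exact Or.inl rfl
  rw [Equiv.swap_apply_of_ne_of_ne h1 h2]
  exact h

lemma adj_iff {E V : Type*} (f : Conf E V) (p p' : E × Bool) (v w : V)
    (hv : v ∉ touched f p p') :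
    (gr ((Equiv.swap p p').trans f)).Adj v w ↔ (gr f).Adj v w := by
  simp only [gr]
  refine and_congr_right fun _ => exists_congr fun e => exists_congr fun b => ?_
  by_cases he : e = p.1 ∨ e = p'.1
  · constructor
    · rintro ⟨h1, _⟩
      exfalso
      apply hv
      rw [← h1]
      simp only [Equiv.trans_apply]
      exact mem_touched f p p' _ (swap_mem p p' (e, b) he)
    · rintro ⟨h1, _⟩
      exfalso
      apply hv
      rw [← h1]
      exact mem_touched f p p' _ he
  · simp only [Equiv.trans_apply]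
    rw [swap_fst p p' (e, b) he, swap_fst p p' (e, !b) he]

/-- `S4` from `S2a` -/
theorem of_S2a {E V : Type*} [Fintype E] [Fintype V] (f : Conf E V) (p p' : E × Bool) (r : ℕ)
    (hball : ∀ v, (ball (gr f) v r).card ≤ 4 ^ r) :
    nd (gr ((Equiv.swap p p').trans f)) r ≤ nd (gr f) r + 4 * 4 ^ r := by
  have hsub : univ.filter (fun v => Dense (gr ((Equiv.swap p p').trans f)) r v) ⊆
      univ.filter (fun v => Dense (gr f) r v) ∪
        (touched f p p').biUnion (fun t => ball (gr f) t r) := by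
    intro v hv
    rw [Finset.mem_filter] at hv
    rw [Finset.mem_union, Finset.mem_filter, Finset.mem_biUnion]
    by_cases h : ∃ t ∈ touched f p p', t ∈ ball (gr f) v r
    · right
      obtain ⟨t, ht, h⟩ := h
      exact ⟨t, ht, (ball_symm _ _ _ _).mp h⟩
    · left
      push Not at h
      exact ⟨Finset.mem_univ _, (dense_iff (gr f) _ (touched f p p')
        (fun v w hv => adj_iff f p p' v w hv) v r h).mp hv.2⟩
  refine (Finset.card_le_card hsub).trans ((Finset.card_union_le _ _).trans ?_)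
  refine Nat.add_le_add_left ?_ _
  refine Finset.card_biUnion_le.trans ?_
  calc ∑ t ∈ touched f p p', (ball (gr f) t r).card ≤ ∑ _t ∈ touched f p p', 4 ^ r :=
        Finset.sum_le_sum fun t _ => hball t
    _ = (touched f p p').card * 4 ^ r := by rw [Finset.sum_const, smul_eq_mul]
    _ ≤ 4 * 4 ^ r := Nat.mul_le_mul_right _ (card_touched f p p')

lemma swap_lip {E V : Type*} [Fintype E] [Fintype V] [d : DecidableEq (E × Bool)] (r : ℕ)
    (hball : ∀ (f : Conf E V) v, (ball (gr f) v r).card ≤ 4 ^ r) (f : Conf E V)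
    (p p' : E × Bool) :
    |(nd (gr ((Equiv.swap p p').trans f)) r : ℝ) - (nd (gr f) r : ℝ)| ≤ 4 * 4 ^ r := by
  have hd : d = instDecidableEqProd := Subsingleton.elim _ _
  subst hd
  have h1 := of_S2a f p p' r (hball f)
  have h2 := of_S2a ((Equiv.swap p p').trans f) p p' r (hball _)
  have h3 : (Equiv.swap p p').trans ((Equiv.swap p p').trans f) = f := by
    ext x
    · simp
    · simp
  rw [h3] at h2
  have h1' : (nd (gr ((Equiv.swap p p').trans f)) r : ℝ) ≤ nd (gr f) r + 4 * 4 ^ r := by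
    exact_mod_cast h1
  have h2' : (nd (gr f) r : ℝ) ≤ nd (gr ((Equiv.swap p p').trans f)) r + 4 * 4 ^ r := by
    exact_mod_cast h2
  rw [abs_le]
  constructor <;> linarith

end S4

namespace S5

/-- `S5` from `S2a` and `S3` -/
theorem of_S3 (r : ℕ)
    (hball : ∀ (m : ℕ) (f : Conf (Fin (3 * m)) (Fin (2 * m))) v,
      (ball (gr f) v r).card ≤ 4 ^ r)
    (hS3 : ∃ C : ℝ, ∀ m : ℕ, 1 ≤ m →
      ∑ f : Conf (Fin (3 * m)) (Fin (2 * m)), (nd (gr f) r : ℝ) ≤ C * ((6 * m)! : ℝ))
    (ε : ℝ) (hε : 0 < ε) : ∃ c > 0, ∃ m0 : ℕ, ∀ m ≥ m0,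
    ((univ.filter (fun f : Conf (Fin (3 * m)) (Fin (2 * m)) => ε * m < nd (gr f) r)).card : ℝ) ≤
      Real.exp (-(c * m)) * ((6 * m)! : ℝ) := by
  obtain ⟨C, hC⟩ := hS3
  set K : ℝ := 4 * 4 ^ r with hK
  have hK0 : 0 < K := by positivity
  have hc0 : (0 : ℝ) < ε ^ 2 / (384 * K ^ 2) := by positivity
  refine ⟨ε ^ 2 / (384 * K ^ 2), hc0, max 1 ⌈2 * C / ε⌉₊, fun m hm => ?_⟩
  have hm1' : 1 ≤ m := (le_max_left _ _).trans hm
  have hm2 : 2 * C / ε ≤ m := (Nat.le_ceil _).trans (by exact_mod_cast (le_max_right _ _).trans hm)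
  have hmpos : (0 : ℝ) < m := by exact_mod_cast hm1'
  have : Nonempty (Conf (Fin (3 * m)) (Fin (2 * m))) := nonempty_conf m
  have : Nonempty (Fin (3 * m) × Bool) := ⟨(⟨0, by omega⟩, true)⟩
  have hfact : ((Fintype.card (Conf (Fin (3 * m)) (Fin (2 * m))) : ℕ) : ℝ) = ((6 * m)! : ℝ) := by
    rw [card_conf]
  have hends : ((Fintype.card (Fin (3 * m) × Bool) : ℕ) : ℝ) = 6 * m := by
    rw [G.card_ends]
    push_cast
    ring
  have hexp : (ε * m / 2) ^ 2 / (16 * K ^ 2 * ((Fintype.card (Fin (3 * m) × Bool) : ℕ) : ℝ)) =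
      ε ^ 2 / (384 * K ^ 2) * m := by
    rw [hends]
    field_simp
    ring
  have hCm : ∑ f : Conf (Fin (3 * m)) (Fin (2 * m)), (nd (gr f) r : ℝ) ≤
      C * ((Fintype.card (Conf (Fin (3 * m)) (Fin (2 * m))) : ℕ) : ℝ) := by
    rw [hfact]
    exact hC m hm1'
  have hE := E3' (P := Fin (3 * m) × Bool) (Q := Fin (2 * m) × Fin 3)
    (fun f => (nd (gr f) r : ℝ)) K hK0 (fun f p p' => S4.swap_lip r (hball m) f p p') C (ε * m / 2)
    (by positivity) hCm
  rw [hexp] at hE
  have h3 : C + ε * m / 2 ≤ ε * m := by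
    rw [div_le_iff₀ hε] at hm2
    linarith
  have hsub : (univ.filter (fun f : Conf (Fin (3 * m)) (Fin (2 * m)) =>
      ε * m < (nd (gr f) r : ℝ))).card ≤
      (univ.filter (fun f : Conf (Fin (3 * m)) (Fin (2 * m)) =>
        C + ε * m / 2 < (nd (gr f) r : ℝ))).card :=
    Finset.card_le_card (Finset.monotone_filter_right _ fun f _ hf => lt_of_le_of_lt h3 hf)
  have hsub' : ((univ.filter (fun f : Conf (Fin (3 * m)) (Fin (2 * m)) =>
      ε * m < (nd (gr f) r : ℝ))).card : ℝ) ≤
      ((univ.filter (fun f : Conf (Fin (3 * m)) (Fin (2 * m)) =>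
        C + ε * m / 2 < (nd (gr f) r : ℝ))).card : ℝ) := Nat.cast_le.mpr hsub
  calc ((univ.filter (fun f : Conf (Fin (3 * m)) (Fin (2 * m)) =>
      ε * m < (nd (gr f) r : ℝ))).card : ℝ) ≤ _ := hsub'
    _ ≤ Real.exp (-(ε ^ 2 / (384 * K ^ 2) * m)) *
        ((Fintype.card (Conf (Fin (3 * m)) (Fin (2 * m))) : ℕ) : ℝ) := hE
    _ = _ := by rw [hfact]

end S5

end Pool.H98.Sud
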