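import Pool.Agent.helper98.SUD.Defs2

/-!
# Transfer to cubic graphs: every cubic graph comes from the same number of simple configurations
-/

namespace Pool.H98.Sud

open Finset Filter
open scoped Classical Topology Nat

namespace T1aux

/-- the darts of a graph -/
def Da {V : Type*} (G : SimpleGraph V) := {p : V × V // G.Adj p.1 p.2}

noncomputable instance {V : Type*} [Fintype V] (G : SimpleGraph V) : Fintype (Da G) := by
  unfold Da; infer_instance

/-- reversal of a dart -/
def sw {V : Type*} {G : SimpleGraph V} (d : Da G) : Da G := ⟨(d.1.2, d.1.1), d.2.symm⟩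

lemma sw_sw {V : Type*} {G : SimpleGraph V} (d : Da G) : sw (sw d) = d := rfl

lemma sw_ne {V : Type*} {G : SimpleGraph V} (d : Da G) : sw d ≠ d := by
  intro h
  have h1 := congrArg (fun x : Da G => x.1.1) h
  have h2 : d.1.2 = d.1.1 := h1
  exact d.2.ne h2.symm

lemma exists_inv {D E : Type*} [Fintype D] [Fintype E] (s : D → D) (hs : ∀ d, s (s d) = d)
    (hs' : ∀ d, s d ≠ d) (hc : Fintype.card D = 2 * Fintype.card E) :
    ∃ ps : E × Bool ≃ D, ∀ e b, ps (e, !b) = s (ps (e, b)) := by
  set o := Fintype.equivFin D with ho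
  let R := {d : D // o d < o (s d)}
  let F : R × Bool → D := fun x => bif x.2 then s x.1.1 else x.1.1
  have hF : Function.Bijective F := by
    constructor
    · rintro ⟨⟨d, hd⟩, b⟩ ⟨⟨d', hd'⟩, b'⟩ h
      cases b <;> cases b'
      · simp only [F, cond_false] at h
        subst h; rfl
      · simp only [F, cond_false, cond_true] at h
        exfalso
        have h2 : s d = d' := by rw [h, hs]
        rw [h2] at hd
        rw [← h] at hd'
        exact absurd hd (not_lt.mpr hd'.le)
      · simp only [F, cond_false, cond_true] at h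
        exfalso
        have h2 : s d' = d := by rw [← h, hs]
        rw [h2] at hd'
        rw [h] at hd
        exact absurd hd (not_lt.mpr hd'.le)
      · simp only [F, cond_true] at h
        have h2 : d = d' := by rw [← hs d, h, hs]
        subst h2; rfl
    · intro x
      by_cases hx : o x < o (s x)
      · exact ⟨(⟨x, hx⟩, false), rfl⟩
      · have hne : o x ≠ o (s x) := fun h => hs' x (o.injective h).symm
        have hlt : o (s x) < o x := lt_of_le_of_ne (not_lt.mp hx) (fun h => hne h.symm)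
        refine ⟨(⟨s x, by rw [hs]; exact hlt⟩, true), ?_⟩
        simp only [F, cond_true]
        exact hs x
  have hcard : Fintype.card E = Fintype.card R := by
    have h1 := Fintype.card_of_bijective hF
    rw [Fintype.card_prod, Fintype.card_bool] at h1
    omega
  let g : E ≃ R := Fintype.equivOfCardEq hcard
  refine ⟨(g.prodCongr (Equiv.refl Bool)).trans (Equiv.ofBijective F hF), ?_⟩
  intro e b
  cases b
  · rfl
  · show (g e).1 = s (s (g e).1)
    rw [hs]

lemma exists_lam {V : Type*} [Fintype V] (G : SimpleGraph V) (hG : Cubic G) :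
    ∃ lam : Da G ≃ V × Fin 3, ∀ d, (lam d).1 = d.1.1 := by
  have h1 : ∀ v, Nonempty ({w // G.Adj v w} ≃ Fin 3) := by
    intro v
    refine ⟨Fintype.equivOfCardEq ?_⟩
    rw [Fintype.card_fin, Fintype.card_subtype]
    exact hG v
  let e : ∀ v, {w // G.Adj v w} ≃ Fin 3 := fun v => (h1 v).some
  refine ⟨⟨fun d => (d.1.1, e d.1.1 ⟨d.1.2, d.2⟩),
    fun x => ⟨(x.1, ((e x.1).symm x.2).1), ((e x.1).symm x.2).2⟩, ?_, ?_⟩, fun d => rfl⟩
  · rintro ⟨⟨v, w⟩, h⟩
    simp only [Equiv.symm_apply_apply]
  · rintro ⟨v, k⟩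
    simp

lemma exists_d {E V : Type*} [Fintype E] [Fintype V] (f : Conf E V) (G : SimpleGraph V)
    (h : Simp f ∧ gr f = G) :
    ∃ d : E × Bool ≃ Da G, ∀ p, (d p).1 = ((f p).1, (f (p.1, !p.2)).1) := by
  obtain ⟨h1, h2⟩ := h
  subst h2
  have hne : ∀ p : E × Bool, (f p).1 ≠ (f (p.1, !p.2)).1 := by
    rintro ⟨e, b⟩
    cases b
    · exact h1.1 e
    · exact (h1.1 e).symm
  let F : E × Bool → Da (gr f) := fun p => ⟨((f p).1, (f (p.1, !p.2)).1),
    ⟨hne p, p.1, p.2, rfl, rfl⟩⟩
  have hF : Function.Bijective F := by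
    constructor
    · rintro ⟨e, b⟩ ⟨e', b'⟩ h
      have h3 : (f (e, b)).1 = (f (e', b')).1 := congrArg (fun x : Da (gr f) => x.1.1) h
      have h4 : (f (e, !b)).1 = (f (e', !b')).1 := congrArg (fun x : Da (gr f) => x.1.2) h
      have h5 : e = e' := h1.2 e e' b b' h3 h4
      subst h5
      by_cases hb : b = b'
      · rw [hb]
      · exfalso
        have hb' : b' = !b := by cases b <;> cases b' <;> simp_all
        rw [hb'] at h3
        exact hne (e, b) h3
    · rintro ⟨⟨v, w⟩, h⟩
      obtain ⟨h2, e, b, h3, h4⟩ := h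
      refine ⟨(e, b), ?_⟩
      apply Subtype.ext
      show ((f (e, b)).1, (f (e, !b)).1) = (v, w)
      rw [h3, h4]
  exact ⟨Equiv.ofBijective F hF, fun p => rfl⟩

/-- a configuration whose darts come from an equivariant bijection with the darts of `G` is simple
with graph `G` -/
lemma simp_of {E V : Type*} [Fintype E] [Fintype V] (f : Conf E V) (G : SimpleGraph V)
    (d : E × Bool ≃ Da G) (hd : ∀ e b, d (e, !b) = sw (d (e, b)))
    (hf : ∀ p, (f p).1 = (d p).1.1) : Simp f ∧ gr f = G := by
  have h2 : ∀ e b, (f (e, !b)).1 = (d (e, b)).1.2 := by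
    intro e b
    rw [hf, hd]
    rfl
  refine ⟨⟨?_, ?_⟩, ?_⟩
  · intro e
    have h3 : (f (e, true)).1 = (d (e, false)).1.2 := h2 e false
    rw [h3, hf]
    exact (d (e, false)).2.ne
  · intro e e' b b' h3 h4
    rw [h2, h2] at h4
    rw [hf, hf] at h3
    have h5 : d (e, b) = d (e', b') := Subtype.ext (Prod.ext h3 h4)
    exact (Prod.ext_iff.mp (d.injective h5)).1
  · ext v w
    constructor
    · rintro ⟨hne, e, b, h3, h4⟩
      rw [← h3, ← h4, h2, hf]
      exact (d (e, b)).2
    · intro h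
      refine ⟨h.ne, ?_⟩
      obtain ⟨p, hp⟩ := d.surjective ⟨(v, w), h⟩
      refine ⟨p.1, p.2, ?_, ?_⟩
      · rw [hf]
        show (d p).1.1 = v
        rw [hp]
      · rw [h2]
        show (d p).1.2 = w
        rw [hp]

lemma d_equiv {E V : Type*} [Fintype E] [Fintype V] (f : Conf E V) (G : SimpleGraph V)
    (d : E × Bool ≃ Da G) (hd : ∀ p, (d p).1 = ((f p).1, (f (p.1, !p.2)).1)) (e : E) (b : Bool) :
    d (e, !b) = sw (d (e, b)) := by
  apply Subtype.ext
  rw [hd]
  show _ = ((d (e, b)).1.2, (d (e, b)).1.1)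
  rw [hd]
  simp

lemma card_le {E V : Type*} [Fintype E] [Fintype V] (G G' : SimpleGraph V)
    (hc : 2 * Fintype.card E = 3 * Fintype.card V) (hG : Cubic G) (hG' : Cubic G') :
    Nat.card {f : Conf E V // Simp f ∧ gr f = G} ≤
      Nat.card {f : Conf E V // Simp f ∧ gr f = G'} := by
  obtain ⟨lam, hlam⟩ := exists_lam G hG
  obtain ⟨lam', hlam'⟩ := exists_lam G' hG'
  have hcD : Fintype.card (Da G) = 2 * Fintype.card E := by
    rw [Fintype.card_congr lam, Fintype.card_prod, Fintype.card_fin, hc]; ring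
  have hcD' : Fintype.card (Da G') = 2 * Fintype.card E := by
    rw [Fintype.card_congr lam', Fintype.card_prod, Fintype.card_fin, hc]; ring
  obtain ⟨ps, hps⟩ := exists_inv (E := E) (sw (G := G)) sw_sw sw_ne hcD
  obtain ⟨ps', hps'⟩ := exists_inv (E := E) (sw (G := G')) sw_sw sw_ne hcD'
  let ph : Da G ≃ Da G' := ps.symm.trans ps'
  have hph : ∀ x, ph (sw x) = sw (ph x) := by
    intro x
    obtain ⟨⟨e, b⟩, rfl⟩ := ps.surjective x
    rw [← hps]
    simp only [ph, Equiv.trans_apply, Equiv.symm_apply_apply]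
    exact hps' e b
  let K : Da G ≃ Da G := ph.trans (lam'.trans lam.symm)
  have hK : ∀ x, (K x).1.1 = (ph x).1.1 := by
    intro x
    have h1 := hlam (K x)
    rw [← h1]
    simp only [K, Equiv.trans_apply, Equiv.apply_symm_apply]
    exact hlam' (ph x)
  let D : ∀ f : Conf E V, (Simp f ∧ gr f = G) → (E × Bool ≃ Da G) :=
    fun f h => (exists_d f G h).choose
  have hD : ∀ f h p, (D f h p).1 = ((f p).1, (f (p.1, !p.2)).1) :=
    fun f h => (exists_d f G h).choose_spec
  let Ph : ∀ f : Conf E V, (Simp f ∧ gr f = G) → Conf E V :=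
    fun f h => (D f h).trans (K.trans ((D f h).symm.trans f))
  have hPh : ∀ f h p, (Ph f h p).1 = (ph (D f h p)).1.1 := by
    intro f h p
    simp only [Ph, Equiv.trans_apply]
    have h1 := hD f h ((D f h).symm (K (D f h p)))
    rw [Equiv.apply_symm_apply] at h1
    have h2 : (K (D f h p)).1.1 = (f ((D f h).symm (K (D f h p)))).1 := by rw [h1]
    rw [← h2, hK]
  have hPh1 : ∀ f h, Simp (Ph f h) ∧ gr (Ph f h) = G' := by
    intro f h
    refine simp_of (Ph f h) G' ((D f h).trans ph) ?_ (fun p => hPh f h p)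
    intro e b
    simp only [Equiv.trans_apply]
    rw [d_equiv f G (D f h) (hD f h) e b, hph]
  have hPh2 : ∀ f h g h', Ph f h = Ph g h' → f = g := by
    intro f h g h' he
    have h1 : ∀ p, ph (D f h p) = ph (D g h' p) := by
      rintro ⟨e, b⟩
      apply Subtype.ext
      have h2 : (ph (D f h (e, b))).1.1 = (ph (D g h' (e, b))).1.1 := by
        rw [← hPh f h, ← hPh g h', he]
      have h3 : (ph (D f h (e, !b))).1.1 = (ph (D g h' (e, !b))).1.1 := by
        rw [← hPh f h, ← hPh g h', he]
      rw [d_equiv f G (D f h) (hD f h) e b, d_equiv g G (D g h') (hD g h') e b, hph, hph] at h3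
      exact Prod.ext h2 h3
    have h2 : D f h = D g h' := Equiv.ext fun p => ph.injective (h1 p)
    have h3 : ∀ p, f ((D f h).symm (K (D f h p))) = g ((D g h').symm (K (D g h' p))) := by
      intro p
      have := congrArg (fun F : Conf E V => F p) he
      simpa only [Ph, Equiv.trans_apply] using this
    rw [← h2] at h3
    apply Equiv.ext
    intro x
    have h4 := h3 ((D f h).symm (K.symm (D f h x)))
    simpa using h4
  let Ps : {f : Conf E V // Simp f ∧ gr f = G} → {f : Conf E V // Simp f ∧ gr f = G'} :=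
    fun f => ⟨Ph f.1 f.2, hPh1 f.1 f.2⟩
  refine Nat.card_le_card_of_injective Ps ?_
  rintro ⟨f, hf⟩ ⟨g, hg⟩ h
  have h1 : Ph f hf = Ph g hg := congrArg Subtype.val h
  exact Subtype.ext (hPh2 f hf g hg h1)

lemma exists_conf {E V : Type*} [Fintype E] [Fintype V] (G : SimpleGraph V)
    (hc : 2 * Fintype.card E = 3 * Fintype.card V) (hG : Cubic G) :
    ∃ f : Conf E V, Simp f ∧ gr f = G := by
  obtain ⟨lam, hlam⟩ := exists_lam G hG
  have hcD : Fintype.card (Da G) = 2 * Fintype.card E := by
    rw [Fintype.card_congr lam, Fintype.card_prod, Fintype.card_fin, hc]; ring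
  obtain ⟨ps, hps⟩ := exists_inv (E := E) (sw (G := G)) sw_sw sw_ne hcD
  exact ⟨ps.trans lam, simp_of _ G ps hps (fun p => hlam (ps p))⟩

lemma card_filter {α : Type*} [Fintype α] (p : α → Prop) [DecidablePred p] :
    (univ.filter p).card = Nat.card {a // p a} := by
  rw [Nat.card_eq_fintype_card, Fintype.card_subtype]

end T1aux

theorem T0 {E V : Type*} [Fintype E] [Fintype V] (f : Conf E V) (hf : Simp f) :
    Cubic (gr f) := by
  obtain ⟨d, hd⟩ := T1aux.exists_d f (gr f) ⟨hf, rfl⟩
  intro v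
  rw [← Fintype.card_subtype]
  have e : {w // (gr f).Adj v w} ≃ Fin 3 := by
    refine (Equiv.ofBijective (fun k : Fin 3 => (⟨(d (f.symm (v, k))).1.2, ?_⟩ :
      {w // (gr f).Adj v w})) ⟨?_, ?_⟩).symm
    · have h1 := (d (f.symm (v, k))).2
      have h2 : (d (f.symm (v, k))).1.1 = v := by rw [hd]; simp
      rwa [h2] at h1
    · intro k k' h
      have h1 : (d (f.symm (v, k))).1.2 = (d (f.symm (v, k'))).1.2 :=
        congrArg (fun x : {w // (gr f).Adj v w} => x.1) h
      have h2 : (d (f.symm (v, k))).1.1 = (d (f.symm (v, k'))).1.1 := by rw [hd, hd]; simp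
      have h3 : d (f.symm (v, k)) = d (f.symm (v, k')) := Subtype.ext (Prod.ext h2 h1)
      have h4 := f.symm.injective (d.injective h3)
      exact (Prod.ext_iff.mp h4).2
    · rintro ⟨w, hw⟩
      obtain ⟨p, hp⟩ := d.surjective ⟨(v, w), hw⟩
      have h1 : (f p).1 = v := by
        have := hd p
        rw [hp] at this
        exact (congrArg Prod.fst this).symm
      refine ⟨(f p).2, ?_⟩
      apply Subtype.ext
      show (d (f.symm (v, (f p).2))).1.2 = w
      have h2 : (v, (f p).2) = f p := Prod.ext h1.symm rfl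
      rw [h2, Equiv.symm_apply_apply, hp]
  rw [Fintype.card_congr e, Fintype.card_fin]

theorem T1 (m : ℕ) : ∃ k : ℕ, 0 < k ∧ ∀ G : SimpleGraph (Fin (2 * m)), Cubic G →
    (univ.filter (fun f : Conf (Fin (3 * m)) (Fin (2 * m)) => Simp f ∧ gr f = G)).card = k := by
  have hc : 2 * Fintype.card (Fin (3 * m)) = 3 * Fintype.card (Fin (2 * m)) := by
    simp; ring
  by_cases h : ∃ G : SimpleGraph (Fin (2 * m)), Cubic G
  · obtain ⟨G, hG⟩ := h
    refine ⟨Nat.card {f : Conf (Fin (3 * m)) (Fin (2 * m)) // Simp f ∧ gr f = G}, ?_, ?_⟩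
    · obtain ⟨f, hf⟩ := T1aux.exists_conf G hc hG
      have : Nonempty {f : Conf (Fin (3 * m)) (Fin (2 * m)) // Simp f ∧ gr f = G} := ⟨⟨f, hf⟩⟩
      exact Nat.card_pos
    · intro G' hG'
      rw [T1aux.card_filter]
      exact le_antisymm (T1aux.card_le G' G hc hG' hG) (T1aux.card_le G G' hc hG hG')
  · push_neg at h
    exact ⟨1, one_pos, fun G hG => absurd hG (h G)⟩

end Pool.H98.Sud
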