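import Pool.Agent.helper98.SUD.Defs2

/-!
# Simple configurations: the complete graph on four vertices
-/

namespace Pool.H98.Sud

open Finset Filter
open scoped Classical Topology Nat

namespace T3m

/-- the complete graph on four vertices as a configuration -/
def g : Fin 6 × Bool → Fin 4 × Fin 3
  | (0, false) => (0, 0)
  | (0, true) => (1, 0)
  | (1, false) => (0, 1)
  | (1, true) => (2, 0)
  | (2, false) => (0, 2)
  | (2, true) => (3, 0)
  | (3, false) => (1, 1)
  | (3, true) => (2, 1)
  | (4, false) => (1, 2)
  | (4, true) => (3, 1)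
  | (5, false) => (2, 2)
  | (5, true) => (3, 2)

lemma g_inj : Function.Injective g := by
  have : ∀ x y : Fin 6 × Bool, g x = g y → x = y := by decide
  exact fun x y h => this x y h

lemma g_bij : Function.Bijective g := by
  rw [Fintype.bijective_iff_injective_and_card]
  exact ⟨g_inj, by simp [Fintype.card_prod]⟩

lemma g_simp1 : ∀ e, (g (e, false)).1 ≠ (g (e, true)).1 := by decide

lemma g_simp2 : ∀ e e' b b', (g (e, b)).1 = (g (e', b')).1 → (g (e, !b)).1 = (g (e', !b')).1 →
    e = e' := by decide

end T3m

theorem T3 : ∃ f : Conf (Fin (3 * 2)) (Fin (2 * 2)), Simp f :=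
  ⟨Equiv.ofBijective T3m.g T3m.g_bij, T3m.g_simp1, T3m.g_simp2⟩

end Pool.H98.Sud
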