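import Pool.Agent.helper98.SUD.T2
import Pool.Agent.helper98.SUD.T3

/-!
# Lower bound for the number of simple configurations
-/

namespace Pool.H98.Sud

open Finset Filter
open scoped Classical Topology Nat

namespace T4m

/-- the number of simple configurations -/
noncomputable def ns (m : ℕ) : ℕ :=
  (univ.filter (fun f : Conf (Fin (3 * m)) (Fin (2 * m)) => Simp f)).card

noncomputable def F (m : ℕ) : ℝ := (m : ℝ) ^ 3 * (ns m : ℝ) ^ 2 / ((6 * m)! : ℝ) ^ 2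

lemma ns2 : 0 < ns 2 := by
  obtain ⟨f, hf⟩ := T3
  exact card_pos.2 ⟨f, by rw [mem_filter]; exact ⟨mem_univ _, hf⟩⟩

lemma ns_step (m : ℕ) (hm : 1 ≤ m) :
    ((6 * m + 6) * (6 * m + 4) * (6 * m + 3) * (6 * m + 2) * (6 * m) * (6 * m - 2)) * ns m ≤
      ns (m + 1) := T2 m hm

lemma ns3 : 0 < ns 3 := by
  have h := ns_step 2 (by norm_num)
  have h2 := ns2
  have : 0 < ((6 * 2 + 6) * (6 * 2 + 4) * (6 * 2 + 3) * (6 * 2 + 2) * (6 * 2) * (6 * 2 - 2)) *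
    ns 2 := by positivity
  exact lt_of_lt_of_le this h

lemma fact_step (m : ℕ) : (((6 * (m + 1))! : ℕ) : ℝ) =
    (6 * m + 6) * (6 * m + 5) * (6 * m + 4) * (6 * m + 3) * (6 * m + 2) * (6 * m + 1) *
      ((6 * m)! : ℝ) := by
  have : 6 * (m + 1) = 6 * m + 1 + 1 + 1 + 1 + 1 + 1 := by ring
  rw [this]
  simp only [Nat.factorial_succ]
  push_cast
  ring

lemma F_step (m : ℕ) (hm : 3 ≤ m) : F m ≤ F (m + 1) := by
  unfold F
  have h1 := ns_step m (by omega)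
  have h2 : ((6 * m + 6 : ℝ) * (6 * m + 4) * (6 * m + 3) * (6 * m + 2) * (6 * m) * (6 * m - 2)) *
      (ns m : ℝ) ≤ (ns (m + 1) : ℝ) := by
    have h3 : (((6 * m + 6) * (6 * m + 4) * (6 * m + 3) * (6 * m + 2) * (6 * m) * (6 * m - 2) *
      ns m : ℕ) : ℝ) ≤ ((ns (m + 1) : ℕ) : ℝ) := by exact_mod_cast h1
    rw [Nat.cast_mul, Nat.cast_mul, Nat.cast_sub (by omega)] at h3
    push_cast at h3
    exact h3
  have hmr : (3 : ℝ) ≤ m := by exact_mod_cast hm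
  have hf : (0 : ℝ) < ((6 * m)! : ℝ) := by exact_mod_cast Nat.factorial_pos _
  rw [fact_step]
  set x : ℝ := (m : ℝ) with hx
  set n : ℝ := (ns m : ℝ) with hn
  set N : ℝ := ((6 * m)! : ℝ) with hN
  have hn0 : 0 ≤ n := by rw [hn]; positivity
  have h5 : 0 ≤ (6 * x + 6) * (6 * x + 4) * (6 * x + 3) * (6 * x + 2) * (6 * x) * (6 * x - 2) * n := by
    have : 0 ≤ 6 * x - 2 := by linarith
    positivity
  have h6 : ((6 * x + 6) * (6 * x + 4) * (6 * x + 3) * (6 * x + 2) * (6 * x) * (6 * x - 2) * n) ^ 2 ≤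
      (ns (m + 1) : ℝ) ^ 2 := pow_le_pow_left₀ h5 h2 2
  rw [div_le_div_iff₀ (by positivity) (by positivity)]
  have h7 : x ^ 3 * ((6 * x + 5) * (6 * x + 1)) ^ 2 ≤ (x + 1) ^ 3 * ((6 * x) * (6 * x - 2)) ^ 2 := by
    have h8 : (x + 1) ^ 3 * ((6 * x) * (6 * x - 2)) ^ 2 - x ^ 3 * ((6 * x + 5) * (6 * x + 1)) ^ 2 =
        432 * x ^ 6 - 216 * x ^ 5 - 1224 * x ^ 4 - 457 * x ^ 3 + 144 * x ^ 2 + 0 := by ring
    have h9 : 0 ≤ 432 * x ^ 6 - 216 * x ^ 5 - 1224 * x ^ 4 - 457 * x ^ 3 + 144 * x ^ 2 + 0 := by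
      obtain ⟨y, hy⟩ : ∃ y, x = 3 + y := ⟨x - 3, by ring⟩
      have hy0 : 0 ≤ y := by linarith
      rw [hy]
      ring_nf
      positivity
    linarith
  have h10 : (x ^ 3 * n ^ 2) * ((6 * x + 6) * (6 * x + 5) * (6 * x + 4) * (6 * x + 3) *
      (6 * x + 2) * (6 * x + 1) * N) ^ 2 =
      (x ^ 3 * ((6 * x + 5) * (6 * x + 1)) ^ 2) * (((6 * x + 6) * (6 * x + 4) * (6 * x + 3) *
        (6 * x + 2)) ^ 2 * n ^ 2 * N ^ 2) := by ring
  rw [h10]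
  have h11 : (x ^ 3 * ((6 * x + 5) * (6 * x + 1)) ^ 2) * (((6 * x + 6) * (6 * x + 4) *
      (6 * x + 3) * (6 * x + 2)) ^ 2 * n ^ 2 * N ^ 2) ≤
      ((x + 1) ^ 3 * ((6 * x) * (6 * x - 2)) ^ 2) * (((6 * x + 6) * (6 * x + 4) *
      (6 * x + 3) * (6 * x + 2)) ^ 2 * n ^ 2 * N ^ 2) :=
    mul_le_mul_of_nonneg_right h7 (by positivity)
  refine h11.trans ?_
  push_cast
  have h12 : ((x + 1) ^ 3 * ((6 * x) * (6 * x - 2)) ^ 2) * (((6 * x + 6) * (6 * x + 4) *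
      (6 * x + 3) * (6 * x + 2)) ^ 2 * n ^ 2 * N ^ 2) =
      ((x + 1) ^ 3 * N ^ 2) * ((6 * x + 6) * (6 * x + 4) * (6 * x + 3) * (6 * x + 2) * (6 * x) *
        (6 * x - 2) * n) ^ 2 := by ring
  rw [h12]
  calc ((x + 1) ^ 3 * N ^ 2) * ((6 * x + 6) * (6 * x + 4) * (6 * x + 3) * (6 * x + 2) * (6 * x) *
        (6 * x - 2) * n) ^ 2 ≤ ((x + 1) ^ 3 * N ^ 2) * (ns (m + 1) : ℝ) ^ 2 :=
        mul_le_mul_of_nonneg_left h6 (by positivity)
    _ = (x + 1) ^ 3 * (ns (m + 1) : ℝ) ^ 2 * N ^ 2 := by ring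

lemma F_ge (m : ℕ) (hm : 3 ≤ m) : F 3 ≤ F m := by
  induction m, hm using Nat.le_induction with
  | base => exact le_refl _
  | succ k hk ih => exact ih.trans (F_step k hk)

end T4m

/-- from `T2`, `T3` -/
theorem T4 : ∃ c : ℝ, 0 < c ∧ ∀ m : ℕ, 2 ≤ m → c * ((6 * m)! : ℝ) ^ 2 ≤ (m : ℝ) ^ 3 *
    ((univ.filter (fun f : Conf (Fin (3 * m)) (Fin (2 * m)) => Simp f)).card : ℝ) ^ 2 := by
  have h2 : 0 < T4m.F 2 := by
    unfold T4m.F
    have := T4m.ns2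
    have h3 : (0 : ℝ) < T4m.ns 2 := by exact_mod_cast this
    positivity
  have h3 : 0 < T4m.F 3 := by
    unfold T4m.F
    have := T4m.ns3
    have h3 : (0 : ℝ) < T4m.ns 3 := by exact_mod_cast this
    positivity
  refine ⟨min (T4m.F 2) (T4m.F 3), lt_min h2 h3, ?_⟩
  intro m hm
  have h4 : min (T4m.F 2) (T4m.F 3) ≤ T4m.F m := by
    rcases Nat.lt_or_ge m 3 with h | h
    · have : m = 2 := by omega
      rw [this]
      exact min_le_left _ _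
    · exact (min_le_right _ _).trans (T4m.F_ge m h)
  have hf : (0 : ℝ) < ((6 * m)! : ℝ) ^ 2 := by
    have : (0 : ℝ) < ((6 * m)! : ℝ) := by exact_mod_cast Nat.factorial_pos _
    positivity
  unfold T4m.F at h4
  rw [le_div_iff₀ hf] at h4
  exact h4

end Pool.H98.Sud
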