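import Pool.Agent.helper98.SUD.M
import Pool.Agent.helper98.SUD.G0
import Pool.Agent.helper98.SUD.S1
import Pool.Agent.helper98.SUD.S3
import Pool.Agent.helper98.SUD.S4
import Pool.Agent.helper98.SUD.K1
import Pool.Agent.helper98.SUD.K2
import Pool.Agent.helper98.SUD.T1
import Pool.Agent.helper98.SUD.T4
import Pool.Agent.helper98.SUD.D9
import Pool.Agent.helper98.SUD.LB

/-!
# The Sudoku number of the random cubic graph: the main theorem
-/

namespace Pool.H98.Sud

open Finset Filter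
open scoped Classical Topology Nat

theorem G1 (ε : ℝ) (hε : 0 < ε) : ∃ c > 0, ∃ m0 : ℕ, ∀ m ≥ m0,
    ((univ.filter (fun f : Conf (Fin (3 * m)) (Fin (2 * m)) => ε * m < X f)).card : ℝ) ≤
      Real.exp (-(c * m)) * ((6 * m)! : ℝ) := G.of_M3 M3 ε hε

theorem S5 (r : ℕ) (ε : ℝ) (hε : 0 < ε) : ∃ c > 0, ∃ m0 : ℕ, ∀ m ≥ m0,
    ((univ.filter (fun f : Conf (Fin (3 * m)) (Fin (2 * m)) => ε * m < nd (gr f) r)).card : ℝ) ≤
      Real.exp (-(c * m)) * ((6 * m)! : ℝ) :=
  S5.of_S3 r (fun m f v => (S2a f v r).2) (S3 r) ε hε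

namespace Main

lemma count_simp (m : ℕ) : ∃ k : ℕ, 0 < k ∧ ∀ P : SimpleGraph (Fin (2 * m)) → Prop,
    (univ.filter (fun f : Conf (Fin (3 * m)) (Fin (2 * m)) => Simp f ∧ P (gr f))).card =
      k * (univ.filter (fun G : SimpleGraph (Fin (2 * m)) => Cubic G ∧ P G)).card := by
  obtain ⟨k, hk, h⟩ := T1 m
  refine ⟨k, hk, fun P => ?_⟩
  have h1 : ∀ f ∈ univ.filter (fun f : Conf (Fin (3 * m)) (Fin (2 * m)) => Simp f ∧ P (gr f)),
      gr f ∈ univ.filter (fun G : SimpleGraph (Fin (2 * m)) => Cubic G ∧ P G) := by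
    intro f hf
    rw [mem_filter] at hf ⊢
    exact ⟨mem_univ _, T0 f hf.2.1, hf.2.2⟩
  rw [card_eq_sum_card_fiberwise h1]
  have h2 : ∀ G ∈ univ.filter (fun G : SimpleGraph (Fin (2 * m)) => Cubic G ∧ P G),
      ((univ.filter (fun f : Conf (Fin (3 * m)) (Fin (2 * m)) => Simp f ∧ P (gr f))).filter
        (fun f => gr f = G)).card = k := by
    intro G hG
    rw [mem_filter] at hG
    rw [← h G hG.2.1, filter_filter]
    congr 1
    apply filter_congr
    intro f _
    constructor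
    · rintro ⟨⟨h3, _⟩, h4⟩
      exact ⟨h3, h4⟩
    · rintro ⟨h3, h4⟩
      exact ⟨⟨h3, by rw [h4]; exact hG.2.2⟩, h4⟩
  rw [sum_congr rfl h2, sum_const, smul_eq_mul, mul_comm]

lemma good (ε : ℝ) (m : ℕ) (f : Conf (Fin (3 * m)) (Fin (2 * m))) (hf : Simp f)
    (hchi : chi (gr f) = 3) (h : (sudokuNumber (gr f) : ℝ) ≤ (1 / 2 + 2 * ε) * m) :
    |(sudokuNumber (gr f) : ℝ) - (2 * m : ℕ) / 4| ≤ ε * (2 * m : ℕ) := by
  have hne : {k | ∃ S : Finset (Fin (2 * m)), S.card = k ∧ IsSudoku (gr f) S}.Nonempty := by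
    have hc : (gr f).Colorable (chi (gr f)) := by
      have : (gr f).chromaticNumber ≠ ⊤ := by
        rw [SimpleGraph.chromaticNumber_ne_top_iff_exists]
        exact ⟨_, (gr f).colorable_of_fintype⟩
      have h1 : (gr f).chromaticNumber = ((chi (gr f) : ℕ) : ℕ∞) := by
        rw [chi, ENat.natCast_toNat this]
      exact SimpleGraph.chromaticNumber_le_iff_colorable.1 (le_of_eq h1)
    obtain ⟨C⟩ := hc
    refine ⟨_, univ, rfl, ⟨fun v => C v, fun {v w} hvw => C.valid hvw⟩, C, fun v => rfl, ?_⟩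
    intro C' hC'
    ext v
    have := hC' ⟨v, by simp⟩
    rw [this]
    rfl
  obtain ⟨S, hS, hS2⟩ := Nat.sInf_mem hne
  have h1 := LB2 (gr f) (T0 f hf) hchi S hS2
  rw [hS] at h1
  rw [Fintype.card_fin] at h1
  have h2 : (2 * m : ℝ) ≤ 4 * (sudokuNumber (gr f) : ℝ) := by exact_mod_cast h1
  push_cast
  rw [abs_le]
  constructor
  · nlinarith [h2, h, show (0 : ℝ) ≤ m from Nat.cast_nonneg m]
  · nlinarith [h2, h]

lemma tend (c1 c2 : ℝ) (h1 : 0 < c1) (h2 : 0 < c2) :
    Tendsto (fun m : ℕ => (m : ℝ) ^ 2 * (Real.exp (-(c1 * m)) + Real.exp (-(c2 * m)) +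
      20 / (m : ℝ) ^ 2 + (6 * m + 1) / 2 ^ m)) atTop (𝓝 20) := by
  have hexp : ∀ c : ℝ, 0 < c → Tendsto (fun m : ℕ => (m : ℝ) ^ 2 * Real.exp (-(c * m))) atTop
      (𝓝 0) := by
    intro c hc
    have h3 := Real.tendsto_pow_mul_exp_neg_atTop_nhds_zero 2
    have h4 : Tendsto (fun m : ℕ => c * (m : ℝ)) atTop atTop :=
      (tendsto_natCast_atTop_atTop).const_mul_atTop hc
    have h5 := (h3.comp h4).const_mul (1 / c ^ 2)
    rw [mul_zero] at h5
    refine h5.congr (fun m => ?_)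
    simp only [Function.comp]
    field_simp
  have hp2 : Tendsto (fun m : ℕ => (m : ℝ) ^ 2 / 2 ^ m) atTop (𝓝 0) :=
    tendsto_pow_const_div_const_pow_of_one_lt 2 (by norm_num)
  have hp3 : Tendsto (fun m : ℕ => (m : ℝ) ^ 3 / 2 ^ m) atTop (𝓝 0) :=
    tendsto_pow_const_div_const_pow_of_one_lt 3 (by norm_num)
  have h6 := (((hexp c1 h1).add (hexp c2 h2)).add (tendsto_const_nhds (x := (20 : ℝ)))).add
    ((hp3.const_mul 6).add hp2)
  simp only [mul_zero, add_zero, zero_add] at h6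
  refine h6.congr' ?_
  filter_upwards [eventually_gt_atTop 0] with m hm
  have hm' : (m : ℝ) ≠ 0 := by exact_mod_cast hm.ne'
  field_simp

end Main

/-- from `G1`, `S5`, `K1`, `K2`, `T0`, `T1`, `T4`, `D11`, `LB2` -/
theorem main (ε : ℝ) (hε : 0 < ε) :
    Tendsto (fun m : ℕ =>
      ((univ.filter (fun G : SimpleGraph (Fin (2 * m)) =>
        Cubic G ∧ |(sudokuNumber G : ℝ) - (2 * m : ℕ) / 4| ≤ ε * (2 * m : ℕ))).card : ℝ) /
      ((univ.filter (fun G : SimpleGraph (Fin (2 * m)) => Cubic G)).card : ℝ)) atTop (𝓝 1) := by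
  obtain ⟨e', he', r, m0, hD⟩ := D11 (2 * ε) (by linarith)
  obtain ⟨c1, hc1, m1, hX⟩ := G1 e' he'
  obtain ⟨c2, hc2, m2, hN⟩ := S5 r e' he'
  obtain ⟨c, hc, hT⟩ := T4
  set u : ℕ → ℝ := fun m => Real.exp (-(c1 * m)) + Real.exp (-(c2 * m)) +
      20 / (m : ℝ) ^ 2 + (6 * m + 1) / 2 ^ m with hu
  have hu0 : ∀ m, 0 ≤ u m := by
    intro m
    simp only [hu]
    positivity
  -- the main estimate
  have key : ∀ m : ℕ, m0 ≤ m → m1 ≤ m → m2 ≤ m → 4 ≤ m →
      0 ≤ 1 - ((univ.filter (fun G : SimpleGraph (Fin (2 * m)) =>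
        Cubic G ∧ |(sudokuNumber G : ℝ) - (2 * m : ℕ) / 4| ≤ ε * (2 * m : ℕ))).card : ℝ) /
      ((univ.filter (fun G : SimpleGraph (Fin (2 * m)) => Cubic G)).card : ℝ) ∧
      (1 - ((univ.filter (fun G : SimpleGraph (Fin (2 * m)) =>
        Cubic G ∧ |(sudokuNumber G : ℝ) - (2 * m : ℕ) / 4| ≤ ε * (2 * m : ℕ))).card : ℝ) /
      ((univ.filter (fun G : SimpleGraph (Fin (2 * m)) => Cubic G)).card : ℝ)) ^ 2 ≤
        ((m : ℝ) ^ 2 * u m) ^ 2 * (1 / c * (1 / m)) := by
    intro m hm0 hm1 hm2 hm4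
    have hmpos : (0 : ℝ) < m := by exact_mod_cast (show 0 < m by omega)
    obtain ⟨k, hk, hcount⟩ := Main.count_simp m
    set P : SimpleGraph (Fin (2 * m)) → Prop :=
      fun G => |(sudokuNumber G : ℝ) - (2 * m : ℕ) / 4| ≤ ε * (2 * m : ℕ) with hP
    have hk' : (0 : ℝ) < k := by exact_mod_cast hk
    have hall := hcount (fun _ => True)
    simp only [and_true] at hall
    have hgood := hcount (fun G => ¬ P G)
    -- the bad configurations
    have hbad : (univ.filter (fun f : Conf (Fin (3 * m)) (Fin (2 * m)) => Simp f ∧ ¬ P (gr f))) ⊆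
        ((univ.filter (fun f : Conf (Fin (3 * m)) (Fin (2 * m)) => e' * m < X f)) ∪
        (univ.filter (fun f : Conf (Fin (3 * m)) (Fin (2 * m)) => e' * m < nd (gr f) r))) ∪
        ((univ.filter (fun f : Conf (Fin (3 * m)) (Fin (2 * m)) =>
          Simp f ∧ ¬ (gr f).Connected)) ∪
        (univ.filter (fun f : Conf (Fin (3 * m)) (Fin (2 * m)) =>
          Simp f ∧ (gr f).Colorable 2))) := by
      intro f hf
      rw [mem_filter] at hf
      obtain ⟨_, hs, hp⟩ := hf
      by_contra hcon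
      simp only [mem_union, mem_filter, mem_univ, true_and, not_or, not_lt, not_and,
        not_not] at hcon
      obtain ⟨⟨h1, h2⟩, h3, h4⟩ := hcon
      obtain ⟨h5, h6⟩ := hD m hm0 f hs (h3 hs) (h4 hs) h1 h2
      exact hp (Main.good ε m f hs h5 h6)
    have hfac : (0 : ℝ) < ((6 * m)! : ℝ) := by exact_mod_cast Nat.factorial_pos _
    have hbadc : ((univ.filter (fun f : Conf (Fin (3 * m)) (Fin (2 * m)) =>
        Simp f ∧ ¬ P (gr f))).card : ℝ) ≤ u m * ((6 * m)! : ℝ) := by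
      have h1 := hX m hm1
      have h2 := hN m hm2
      have h3 : (m : ℝ) ^ 2 * ((univ.filter (fun f : Conf (Fin (3 * m)) (Fin (2 * m)) =>
          Simp f ∧ ¬ (gr f).Connected)).card : ℝ) ≤ 20 * ((6 * m)! : ℝ) := by
        exact_mod_cast K1 m hm4
      have h4 : (2 : ℝ) ^ m * ((univ.filter (fun f : Conf (Fin (3 * m)) (Fin (2 * m)) =>
          Simp f ∧ (gr f).Colorable 2)).card : ℝ) ≤ (6 * m + 1) * ((6 * m)! : ℝ) := by
        exact_mod_cast K2 m
      have h3' : ((univ.filter (fun f : Conf (Fin (3 * m)) (Fin (2 * m)) =>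
          Simp f ∧ ¬ (gr f).Connected)).card : ℝ) ≤ 20 / (m : ℝ) ^ 2 * ((6 * m)! : ℝ) := by
        rw [div_mul_eq_mul_div, le_div_iff₀ (by positivity)]
        linarith
      have h4' : ((univ.filter (fun f : Conf (Fin (3 * m)) (Fin (2 * m)) =>
          Simp f ∧ (gr f).Colorable 2)).card : ℝ) ≤ (6 * m + 1) / 2 ^ m * ((6 * m)! : ℝ) := by
        rw [div_mul_eq_mul_div, le_div_iff₀ (by positivity)]
        linarith
      have h5 := (card_le_card hbad).trans ((card_union_le _ _).trans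
        (add_le_add (card_union_le _ _) (card_union_le _ _)))
      have h6 : ((univ.filter (fun f : Conf (Fin (3 * m)) (Fin (2 * m)) =>
        Simp f ∧ ¬ P (gr f))).card : ℝ) ≤
          (((univ.filter (fun f : Conf (Fin (3 * m)) (Fin (2 * m)) => e' * m < X f)).card : ℝ) +
          ((univ.filter (fun f : Conf (Fin (3 * m)) (Fin (2 * m)) =>
            e' * m < nd (gr f) r)).card : ℝ)) +
          (((univ.filter (fun f : Conf (Fin (3 * m)) (Fin (2 * m)) =>
            Simp f ∧ ¬ (gr f).Connected)).card : ℝ) +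
          ((univ.filter (fun f : Conf (Fin (3 * m)) (Fin (2 * m)) =>
            Simp f ∧ (gr f).Colorable 2)).card : ℝ)) := by exact_mod_cast h5
      simp only [hu]
      nlinarith [h1, h2, h3', h4', h6]
    have hT' := hT m (by omega)
    -- numbers
    set S : ℝ := ((univ.filter (fun f : Conf (Fin (3 * m)) (Fin (2 * m)) => Simp f)).card : ℝ)
      with hS
    set Tc : ℝ := ((univ.filter (fun G : SimpleGraph (Fin (2 * m)) => Cubic G)).card : ℝ) with hTc
    set Fc : ℝ := ((univ.filter (fun G : SimpleGraph (Fin (2 * m)) => Cubic G ∧ P G)).card : ℝ)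
      with hFc
    set Bc : ℝ := ((univ.filter (fun G : SimpleGraph (Fin (2 * m)) => Cubic G ∧ ¬ P G)).card : ℝ)
      with hBc
    have hST : S = k * Tc := by
      rw [hS, hTc]
      exact_mod_cast hall
    have hBad : ((univ.filter (fun f : Conf (Fin (3 * m)) (Fin (2 * m)) =>
        Simp f ∧ ¬ P (gr f))).card : ℝ) = k * Bc := by
      rw [hBc]
      have h7 : (univ.filter (fun f : Conf (Fin (3 * m)) (Fin (2 * m)) =>
        Simp f ∧ ¬ P (gr f))).card = k * (univ.filter (fun G : SimpleGraph (Fin (2 * m)) =>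
          Cubic G ∧ ¬ P G)).card := by convert hgood
      exact_mod_cast h7
    have hFB : Fc + Bc = Tc := by
      rw [hFc, hBc, hTc]
      have := card_filter_add_card_filter_not
        (s := univ.filter (fun G : SimpleGraph (Fin (2 * m)) => Cubic G)) (p := P)
      rw [filter_filter, filter_filter] at this
      exact_mod_cast this
    have hS0 : 0 < S ^ 2 := by
      have h7 : 0 < c * ((6 * m)! : ℝ) ^ 2 := by positivity
      have h8 : 0 < (m : ℝ) ^ 3 := by positivity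
      by_contra hcon
      have : S ^ 2 = 0 := le_antisymm (not_lt.1 hcon) (sq_nonneg _)
      rw [this, mul_zero] at hT'
      linarith
    have hSpos : S ≠ 0 := by
      rintro h
      rw [h] at hS0
      simp at hS0
    have hTpos : Tc ≠ 0 := by
      rintro h
      rw [h, mul_zero] at hST
      exact hSpos hST
    have hTc0 : 0 < Tc := lt_of_le_of_ne (by rw [hTc]; positivity) (Ne.symm hTpos)
    have hBc0 : 0 ≤ Bc := by rw [hBc]; positivity
    have h9 : 1 - Fc / Tc = Bc / Tc := by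
      field_simp
      linarith
    rw [h9]
    refine ⟨by positivity, ?_⟩
    have h10 : Bc / Tc = (k * Bc) / S := by
      rw [hST]
      field_simp
    rw [h10, ← hBad, div_pow]
    rw [div_le_iff₀ hS0]
    have h11 : ((univ.filter (fun f : Conf (Fin (3 * m)) (Fin (2 * m)) =>
        Simp f ∧ ¬ P (gr f))).card : ℝ) ^ 2 ≤ (u m * ((6 * m)! : ℝ)) ^ 2 := by
      apply pow_le_pow_left₀ (by positivity) hbadc
    refine h11.trans ?_
    have h12 : ((6 * m)! : ℝ) ^ 2 ≤ (1 / c) * ((m : ℝ) ^ 3 * S ^ 2) := by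
      rw [one_div, ← div_eq_inv_mul, le_div_iff₀ hc]
      linarith
    calc (u m * ((6 * m)! : ℝ)) ^ 2 = u m ^ 2 * ((6 * m)! : ℝ) ^ 2 := by ring
      _ ≤ u m ^ 2 * ((1 / c) * ((m : ℝ) ^ 3 * S ^ 2)) := by
          apply mul_le_mul_of_nonneg_left h12 (sq_nonneg _)
      _ = ((m : ℝ) ^ 2 * u m) ^ 2 * (1 / c * (1 / m)) * S ^ 2 := by
          field_simp
  -- conclusion
  have hlim : Tendsto (fun m : ℕ => ((m : ℝ) ^ 2 * u m) ^ 2 * (1 / c * (1 / m))) atTop (𝓝 0) := by
    have h1 := (Main.tend c1 c2 hc1 hc2).pow 2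
    have h2 : Tendsto (fun m : ℕ => (1 / c * (1 / (m : ℝ)))) atTop (𝓝 0) := by
      have := (tendsto_one_div_atTop_nhds_zero_nat (𝕜 := ℝ)).const_mul (1 / c)
      rw [mul_zero] at this
      exact this
    have h3 := h1.mul h2
    rw [mul_zero] at h3
    exact h3
  have hsqrt := (Real.continuous_sqrt.tendsto 0).comp hlim
  rw [Real.sqrt_zero] at hsqrt
  have hz : Tendsto (fun m : ℕ =>
      1 - ((univ.filter (fun G : SimpleGraph (Fin (2 * m)) =>
        Cubic G ∧ |(sudokuNumber G : ℝ) - (2 * m : ℕ) / 4| ≤ ε * (2 * m : ℕ))).card : ℝ) /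
      ((univ.filter (fun G : SimpleGraph (Fin (2 * m)) => Cubic G)).card : ℝ)) atTop (𝓝 0) := by
    refine squeeze_zero' ?_ ?_ hsqrt
    · filter_upwards [eventually_ge_atTop (max (max m0 m1) (max m2 4))] with m hm
      exact (key m (by omega) (by omega) (by omega) (by omega)).1
    · filter_upwards [eventually_ge_atTop (max (max m0 m1) (max m2 4))] with m hm
      exact Real.le_sqrt_of_sq_le (key m (by omega) (by omega) (by omega) (by omega)).2
  have := hz.const_sub 1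
  simpa using this

end Pool.H98.Sud
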