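import Pool.Agent.helper98.SUD.Defs2

/-!
# A1: `4 ΣU³ + 18 perm(U) ≤ 7.21 ‖U‖³` for real 3×3 matrices   (helper41)
-/

namespace Pool.H98.Sud

open Finset Filter
open scoped Classical Topology Nat

namespace A1

/-- norm of a row -/
lemma cube_row (u0 u1 u2 a : ℝ) (ha : 0 ≤ a) (h : a ^ 2 = u0 ^ 2 + u1 ^ 2 + u2 ^ 2) :
    u0 ^ 3 + u1 ^ 3 + u2 ^ 3 ≤ a ^ 3 := by
  have h0 : u0 ≤ a := abs_le_of_sq_le_sq' (by nlinarith [sq_nonneg u1, sq_nonneg u2]) ha |>.2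
  have h1 : u1 ≤ a := abs_le_of_sq_le_sq' (by nlinarith [sq_nonneg u0, sq_nonneg u2]) ha |>.2
  have h2 : u2 ≤ a := abs_le_of_sq_le_sq' (by nlinarith [sq_nonneg u1, sq_nonneg u0]) ha |>.2
  have e0 := mul_le_mul_of_nonneg_right h0 (sq_nonneg u0)
  have e1 := mul_le_mul_of_nonneg_right h1 (sq_nonneg u1)
  have e2 := mul_le_mul_of_nonneg_right h2 (sq_nonneg u2)
  have e : a ^ 3 = a * (u0 ^ 2 + u1 ^ 2 + u2 ^ 2) := by rw [← h]; ring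
  rw [e]
  nlinarith

lemma minors (u0 u1 u2 v0 v1 v2 : ℝ) :
    (u1 * v2 + u2 * v1) ^ 2 + (u0 * v2 + u2 * v0) ^ 2 + (u0 * v1 + u1 * v0) ^ 2 ≤
      2 * ((u0 ^ 2 + u1 ^ 2 + u2 ^ 2) * (v0 ^ 2 + v1 ^ 2 + v2 ^ 2)) := by
  nlinarith [sq_nonneg (u0 * v1 - u1 * v0), sq_nonneg (u0 * v2 - u2 * v0),
    sq_nonneg (u1 * v2 - u2 * v1), sq_nonneg (u0 * v0), sq_nonneg (u1 * v1), sq_nonneg (u2 * v2)]

lemma cs3 (x0 x1 x2 y0 y1 y2 : ℝ) :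
    (x0 * y0 + x1 * y1 + x2 * y2) ^ 2 ≤
      (x0 ^ 2 + x1 ^ 2 + x2 ^ 2) * (y0 ^ 2 + y1 ^ 2 + y2 ^ 2) := by
  nlinarith [sq_nonneg (x0 * y1 - x1 * y0), sq_nonneg (x0 * y2 - x2 * y0),
    sq_nonneg (x1 * y2 - x2 * y1)]

lemma perm_le (w0 w1 w2 u0 u1 u2 v0 v1 v2 a b c : ℝ) (ha : 0 ≤ a) (hb : 0 ≤ b) (hc : 0 ≤ c)
    (h1 : a ^ 2 = w0 ^ 2 + w1 ^ 2 + w2 ^ 2) (h2 : b ^ 2 = u0 ^ 2 + u1 ^ 2 + u2 ^ 2)
    (h3 : c ^ 2 = v0 ^ 2 + v1 ^ 2 + v2 ^ 2) :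
    w0 * (u1 * v2 + u2 * v1) + w1 * (u0 * v2 + u2 * v0) + w2 * (u0 * v1 + u1 * v0) ≤
      √2 * (a * b * c) := by
  have e1 := cs3 w0 w1 w2 (u1 * v2 + u2 * v1) (u0 * v2 + u2 * v0) (u0 * v1 + u1 * v0)
  have e2 := minors u0 u1 u2 v0 v1 v2
  rw [← h1] at e1
  rw [← h2, ← h3] at e2
  have e3 := e1.trans (mul_le_mul_of_nonneg_left e2 (sq_nonneg a))
  have e4 : a ^ 2 * (2 * (b ^ 2 * c ^ 2)) = (√2 * (a * b * c)) ^ 2 := by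
    rw [mul_pow, Real.sq_sqrt (by norm_num)]; ring
  rw [e4] at e3
  exact (abs_le_of_sq_le_sq' e3 (by positivity)).2

lemma term (x N : ℝ) : 2 * √3 * N * x ^ 3 ≤ 3 * x ^ 4 + N ^ 2 * x ^ 2 := by
  have h3 : √3 ^ 2 = 3 := Real.sq_sqrt (by norm_num)
  have h : 0 ≤ x ^ 2 * (√3 * x - N) ^ 2 := by positivity
  have e : x ^ 2 * (√3 * x - N) ^ 2 = √3 ^ 2 * x ^ 4 - 2 * √3 * N * x ^ 3 + N ^ 2 * x ^ 2 := by ring
  rw [e, h3] at h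
  linarith

lemma scalar (a b c N : ℝ) (ha : 0 ≤ a) (hb : 0 ≤ b) (hc : 0 ≤ c) (hN : 0 ≤ N)
    (h : N ^ 2 = a ^ 2 + b ^ 2 + c ^ 2) :
    4 * (a ^ 3 + b ^ 3 + c ^ 3) + 18 * (√2 * (a * b * c)) ≤ (7.21 : ℝ) * N ^ 3 := by
  rcases hN.eq_or_lt with h0 | hpos
  · have hz : a ^ 2 + b ^ 2 + c ^ 2 = 0 := by rw [← h, ← h0]; ring
    have a0 : a = 0 := by nlinarith [sq_nonneg b, sq_nonneg c, sq_nonneg a]
    have b0 : b = 0 := by nlinarith [sq_nonneg b, sq_nonneg c, sq_nonneg a]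
    have c0 : c = 0 := by nlinarith [sq_nonneg b, sq_nonneg c, sq_nonneg a]
    rw [a0, b0, c0, ← h0]; norm_num
  · have h3 : √3 ^ 2 = 3 := Real.sq_sqrt (by norm_num)
    have p3 : 0 < √3 := Real.sqrt_pos.2 (by norm_num)
    have p2 : 0 < √2 := Real.sqrt_pos.2 (by norm_num)
    have h2lo : (1 : ℝ) ≤ √2 := Real.one_le_sqrt.2 (by norm_num)
    have h2hi : √2 ≤ 1.41422 := Real.sqrt_le_iff.2 ⟨by norm_num, by norm_num⟩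
    have h3lo : (1.73205 : ℝ) ≤ √3 := Real.le_sqrt_of_sq_le (by norm_num)
    set q := a ^ 2 * b ^ 2 + b ^ 2 * c ^ 2 + a ^ 2 * c ^ 2 with hq
    have hq0 : 0 ≤ q := by positivity
    have hN4 : N ^ 4 = a ^ 4 + b ^ 4 + c ^ 4 + 2 * q := by
      have : N ^ 4 = (N ^ 2) ^ 2 := by ring
      rw [this, h]; ring
    have hq1 : 3 * q ≤ N ^ 4 := by
      rw [hN4]
      nlinarith [sq_nonneg (a ^ 2 - b ^ 2), sq_nonneg (b ^ 2 - c ^ 2), sq_nonneg (a ^ 2 - c ^ 2)]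
    have hsum : 2 * √3 * N * (a ^ 3 + b ^ 3 + c ^ 3) ≤ 4 * N ^ 4 - 6 * q := by
      have t1 := term a N
      have t2 := term b N
      have t3 := term c N
      have e1 : N ^ 2 * a ^ 2 + N ^ 2 * b ^ 2 + N ^ 2 * c ^ 2 = N ^ 4 := by
        have : N ^ 4 = N ^ 2 * N ^ 2 := by ring
        rw [this]; nth_rewrite 5 [h]; ring
      have e2 : 2 * √3 * N * (a ^ 3 + b ^ 3 + c ^ 3) =
        2 * √3 * N * a ^ 3 + 2 * √3 * N * b ^ 3 + 2 * √3 * N * c ^ 3 := by ring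
      linarith
    have habc : √3 * N * (a * b * c) ≤ q := by
      apply abs_le_of_sq_le_sq' _ hq0 |>.2
      have e : (√3 * N * (a * b * c)) ^ 2 = √3 ^ 2 * (N ^ 2 * (a * b * c) ^ 2) := by ring
      rw [e, h3, h, hq]
      nlinarith [sq_nonneg (a ^ 2 * b ^ 2 - b ^ 2 * c ^ 2), sq_nonneg (b ^ 2 * c ^ 2 - a ^ 2 * c ^ 2),
        sq_nonneg (a ^ 2 * b ^ 2 - a ^ 2 * c ^ 2)]
    have key : 2 * √3 * N * (4 * (a ^ 3 + b ^ 3 + c ^ 3) + 18 * (√2 * (a * b * c))) ≤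
        2 * √3 * N * ((7.21 : ℝ) * N ^ 3) := by
      have e1 : 2 * √3 * N * (4 * (a ^ 3 + b ^ 3 + c ^ 3) + 18 * (√2 * (a * b * c))) =
        4 * (2 * √3 * N * (a ^ 3 + b ^ 3 + c ^ 3)) + 36 * √2 * (√3 * N * (a * b * c)) := by ring
      have e2 : 36 * √2 * (√3 * N * (a * b * c)) ≤ 36 * √2 * q :=
        mul_le_mul_of_nonneg_left habc (by positivity)
      have e3 : (36 * √2 - 24) * q ≤ (36 * √2 - 24) * (N ^ 4 / 3) :=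
        mul_le_mul_of_nonneg_left (by linarith) (by linarith)
      have e4 : 2 * √3 * N * ((7.21 : ℝ) * N ^ 3) = 14.42 * √3 * N ^ 4 := by ring
      have e5 : (8 + 12 * √2) * N ^ 4 ≤ 14.42 * √3 * N ^ 4 :=
        mul_le_mul_of_nonneg_right (by linarith) (by positivity)
      rw [e1, e4]
      nlinarith
    exact le_of_mul_le_mul_left key (by positivity)

end A1

theorem A1 (U : Fin 3 → Fin 3 → ℝ) :
    4 * cub U + 18 * perm3 U ≤ (7.21 : ℝ) * √(sq U) ^ 3 := by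
  set a := √(U 0 0 ^ 2 + U 0 1 ^ 2 + U 0 2 ^ 2) with ha
  set b := √(U 1 0 ^ 2 + U 1 1 ^ 2 + U 1 2 ^ 2) with hb
  set c := √(U 2 0 ^ 2 + U 2 1 ^ 2 + U 2 2 ^ 2) with hc
  have a0 : 0 ≤ a := Real.sqrt_nonneg _
  have b0 : 0 ≤ b := Real.sqrt_nonneg _
  have c0 : 0 ≤ c := Real.sqrt_nonneg _
  have a2 : a ^ 2 = U 0 0 ^ 2 + U 0 1 ^ 2 + U 0 2 ^ 2 := Real.sq_sqrt (by positivity)
  have b2 : b ^ 2 = U 1 0 ^ 2 + U 1 1 ^ 2 + U 1 2 ^ 2 := Real.sq_sqrt (by positivity)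
  have c2 : c ^ 2 = U 2 0 ^ 2 + U 2 1 ^ 2 + U 2 2 ^ 2 := Real.sq_sqrt (by positivity)
  have hsq : 0 ≤ sq U := by unfold sq; positivity
  have hN : √(sq U) ^ 2 = a ^ 2 + b ^ 2 + c ^ 2 := by
    rw [Real.sq_sqrt hsq, a2, b2, c2]
    simp only [sq, Fin.sum_univ_three]
  have r0 := A1.cube_row _ _ _ a a0 a2
  have r1 := A1.cube_row _ _ _ b b0 b2
  have r2 := A1.cube_row _ _ _ c c0 c2
  have hp := A1.perm_le _ _ _ _ _ _ _ _ _ a b c a0 b0 c0 a2 b2 c2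
  have hs := A1.scalar a b c (√(sq U)) a0 b0 c0 (Real.sqrt_nonneg _) hN
  have hcub : cub U = U 0 0 ^ 3 + U 0 1 ^ 3 + U 0 2 ^ 3 + (U 1 0 ^ 3 + U 1 1 ^ 3 + U 1 2 ^ 3) +
      (U 2 0 ^ 3 + U 2 1 ^ 3 + U 2 2 ^ 3) := by
    simp only [cub, Fin.sum_univ_three]
  have hperm : perm3 U = U 0 0 * (U 1 1 * U 2 2 + U 1 2 * U 2 1) +
      U 0 1 * (U 1 0 * U 2 2 + U 1 2 * U 2 0) + U 0 2 * (U 1 0 * U 2 1 + U 1 1 * U 2 0) := by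
    unfold perm3; ring
  rw [hcub, hperm]
  linarith

end Pool.H98.Sud
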