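import Pool.Agent.helper98.SUD.Defs2

/-!
# A2: the Radon / Fourier inequality on `F_3^2`
-/

set_option maxHeartbeats 4000000

namespace Pool.H98.Sud

open Finset Filter
open scoped Classical Topology Nat

namespace A2

/-- the cubic form of one parallel class -/
def T (a0 a1 a2 b0 b1 b2 : ℝ) : ℝ :=
  a0 * (b0 ^ 2 + 2 * b1 * b2) + a1 * (b1 ^ 2 + 2 * b0 * b2) + a2 * (b2 ^ 2 + 2 * b0 * b1)

theorem T_sq {a0 a1 a2 b0 b1 b2 : ℝ} (ha : a0 + a1 + a2 = 0) (hb : b0 + b1 + b2 = 0) :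
    (T a0 a1 a2 b0 b1 b2) ^ 2 ≤
      3 / 2 * (a0 ^ 2 + a1 ^ 2 + a2 ^ 2) * (b0 ^ 2 + b1 ^ 2 + b2 ^ 2) ^ 2 := by
  have ha' : a2 = -a0 - a1 := by linarith
  have hb' : b2 = -b0 - b1 := by linarith
  have key : 3 / 2 * (a0 ^ 2 + a1 ^ 2 + a2 ^ 2) * (b0 ^ 2 + b1 ^ 2 + b2 ^ 2) ^ 2 =
      (T a0 a1 a2 b0 b1 b2) ^ 2 +
        (a0 * ((2 * b0 * b1 + b2 ^ 2) - (2 * b0 * b2 + b1 ^ 2)) +
          a1 * ((b0 ^ 2 + 2 * b1 * b2) - (2 * b0 * b1 + b2 ^ 2)) +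
          a2 * ((2 * b0 * b2 + b1 ^ 2) - (b0 ^ 2 + 2 * b1 * b2))) ^ 2 / 3 := by
    subst ha' hb'
    unfold T
    ring
  rw [key]
  have := sq_nonneg (a0 * ((2 * b0 * b1 + b2 ^ 2) - (2 * b0 * b2 + b1 ^ 2)) +
          a1 * ((b0 ^ 2 + 2 * b1 * b2) - (2 * b0 * b1 + b2 ^ 2)) +
          a2 * ((2 * b0 * b2 + b1 ^ 2) - (b0 ^ 2 + 2 * b1 * b2)))
  linarith

theorem T_le {a0 a1 a2 b0 b1 b2 S : ℝ} (ha : a0 + a1 + a2 = 0) (hb : b0 + b1 + b2 = 0)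
    (hS : a0 ^ 2 + a1 ^ 2 + a2 ^ 2 ≤ 3 * S) :
    T a0 a1 a2 b0 b1 b2 ≤ 3 / √2 * √S * (b0 ^ 2 + b1 ^ 2 + b2 ^ 2) := by
  have hS0 : 0 ≤ S := by nlinarith [sq_nonneg a0, sq_nonneg a1, sq_nonneg a2]
  have h1 := T_sq ha hb
  have h2 : (3 / √2 * √S * (b0 ^ 2 + b1 ^ 2 + b2 ^ 2)) ^ 2 =
      9 / 2 * S * (b0 ^ 2 + b1 ^ 2 + b2 ^ 2) ^ 2 := by
    rw [mul_pow, mul_pow, div_pow, Real.sq_sqrt (by norm_num : (0 : ℝ) ≤ 2), Real.sq_sqrt hS0]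
    norm_num
  have h3 : (T a0 a1 a2 b0 b1 b2) ^ 2 ≤ (3 / √2 * √S * (b0 ^ 2 + b1 ^ 2 + b2 ^ 2)) ^ 2 := by
    rw [h2]
    refine h1.trans ?_
    have : 3 / 2 * (a0 ^ 2 + a1 ^ 2 + a2 ^ 2) ≤ 9 / 2 * S := by linarith
    gcongr
  exact (abs_le_of_sq_le_sq' h3 (by positivity)).2

end A2

theorem A2 (h k : Fin 3 → Fin 3 → ℝ) (h0 : ∑ i, ∑ j, h i j = 0) (k0 : ∑ i, ∑ j, k i j = 0) :
    rad h k ≤ 3 / √2 * √(sq h) * sq k := by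
  simp only [Fin.sum_univ_three] at h0 k0
  have hrad : rad h k = 1 / 3 * (
      A2.T (h 0 0 + h 0 1 + h 0 2) (h 1 0 + h 1 1 + h 1 2) (h 2 0 + h 2 1 + h 2 2)
        (k 0 0 + k 0 1 + k 0 2) (k 1 0 + k 1 1 + k 1 2) (k 2 0 + k 2 1 + k 2 2) +
      A2.T (h 0 0 + h 1 0 + h 2 0) (h 0 1 + h 1 1 + h 2 1) (h 0 2 + h 1 2 + h 2 2)
        (k 0 0 + k 1 0 + k 2 0) (k 0 1 + k 1 1 + k 2 1) (k 0 2 + k 1 2 + k 2 2) +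
      A2.T (h 0 0 + h 1 2 + h 2 1) (h 0 1 + h 1 0 + h 2 2) (h 0 2 + h 1 1 + h 2 0)
        (k 0 0 + k 1 2 + k 2 1) (k 0 1 + k 1 0 + k 2 2) (k 0 2 + k 1 1 + k 2 0) +
      A2.T (h 0 0 + h 1 1 + h 2 2) (h 1 0 + h 0 2 + h 2 1) (h 2 0 + h 0 1 + h 1 2)
        (k 0 0 + k 1 1 + k 2 2) (k 1 0 + k 0 2 + k 2 1) (k 2 0 + k 0 1 + k 1 2)) := by
    have hh : h 2 2 = -(h 0 0 + h 0 1 + h 0 2 + (h 1 0 + h 1 1 + h 1 2) + (h 2 0 + h 2 1)) := by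
      linarith
    have kk : k 2 2 = -(k 0 0 + k 0 1 + k 0 2 + (k 1 0 + k 1 1 + k 1 2) + (k 2 0 + k 2 1)) := by
      linarith
    simp only [rad, Fin.sum_univ_three]
    simp only [show (-0 - 0 : Fin 3) = 0 from rfl, show (-0 - 1 : Fin 3) = 2 from rfl,
      show (-0 - 2 : Fin 3) = 1 from rfl, show (-1 - 0 : Fin 3) = 2 from rfl,
      show (-1 - 1 : Fin 3) = 1 from rfl, show (-1 - 2 : Fin 3) = 0 from rfl,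
      show (-2 - 0 : Fin 3) = 1 from rfl, show (-2 - 1 : Fin 3) = 0 from rfl,
      show (-2 - 2 : Fin 3) = 2 from rfl]
    rw [hh, kk]
    unfold A2.T
    ring
  have hsq : (h 0 0 + h 0 1 + h 0 2) ^ 2 + (h 1 0 + h 1 1 + h 1 2) ^ 2 +
        (h 2 0 + h 2 1 + h 2 2) ^ 2 +
      ((h 0 0 + h 1 0 + h 2 0) ^ 2 + (h 0 1 + h 1 1 + h 2 1) ^ 2 +
        (h 0 2 + h 1 2 + h 2 2) ^ 2) +
      ((h 0 0 + h 1 2 + h 2 1) ^ 2 + (h 0 1 + h 1 0 + h 2 2) ^ 2 +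
        (h 0 2 + h 1 1 + h 2 0) ^ 2) +
      ((h 0 0 + h 1 1 + h 2 2) ^ 2 + (h 1 0 + h 0 2 + h 2 1) ^ 2 +
        (h 2 0 + h 0 1 + h 1 2) ^ 2) = 3 * sq h := by
    have hh : h 2 2 = -(h 0 0 + h 0 1 + h 0 2 + (h 1 0 + h 1 1 + h 1 2) + (h 2 0 + h 2 1)) := by
      linarith
    simp only [sq, Fin.sum_univ_three]
    rw [hh]
    ring
  have ksq : (k 0 0 + k 0 1 + k 0 2) ^ 2 + (k 1 0 + k 1 1 + k 1 2) ^ 2 +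
        (k 2 0 + k 2 1 + k 2 2) ^ 2 +
      ((k 0 0 + k 1 0 + k 2 0) ^ 2 + (k 0 1 + k 1 1 + k 2 1) ^ 2 +
        (k 0 2 + k 1 2 + k 2 2) ^ 2) +
      ((k 0 0 + k 1 2 + k 2 1) ^ 2 + (k 0 1 + k 1 0 + k 2 2) ^ 2 +
        (k 0 2 + k 1 1 + k 2 0) ^ 2) +
      ((k 0 0 + k 1 1 + k 2 2) ^ 2 + (k 1 0 + k 0 2 + k 2 1) ^ 2 +
        (k 2 0 + k 0 1 + k 1 2) ^ 2) = 3 * sq k := by
    have kk : k 2 2 = -(k 0 0 + k 0 1 + k 0 2 + (k 1 0 + k 1 1 + k 1 2) + (k 2 0 + k 2 1)) := by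
      linarith
    simp only [sq, Fin.sum_univ_three]
    rw [kk]
    ring
  have p1 := A2.T_le (a0 := h 0 0 + h 0 1 + h 0 2) (a1 := h 1 0 + h 1 1 + h 1 2)
    (a2 := h 2 0 + h 2 1 + h 2 2) (b0 := k 0 0 + k 0 1 + k 0 2) (b1 := k 1 0 + k 1 1 + k 1 2)
    (b2 := k 2 0 + k 2 1 + k 2 2) (S := sq h) (by linarith) (by linarith) (by
      rw [← hsq]
      have e1 : 0 ≤ (h 0 0 + h 1 0 + h 2 0) ^ 2 + (h 0 1 + h 1 1 + h 2 1) ^ 2 +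
        (h 0 2 + h 1 2 + h 2 2) ^ 2 := by positivity
      have e2 : 0 ≤ (h 0 0 + h 1 2 + h 2 1) ^ 2 + (h 0 1 + h 1 0 + h 2 2) ^ 2 +
        (h 0 2 + h 1 1 + h 2 0) ^ 2 := by positivity
      have e3 : 0 ≤ (h 0 0 + h 1 1 + h 2 2) ^ 2 + (h 1 0 + h 0 2 + h 2 1) ^ 2 +
        (h 2 0 + h 0 1 + h 1 2) ^ 2 := by positivity
      linarith)
  have p2 := A2.T_le (a0 := h 0 0 + h 1 0 + h 2 0) (a1 := h 0 1 + h 1 1 + h 2 1)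
    (a2 := h 0 2 + h 1 2 + h 2 2) (b0 := k 0 0 + k 1 0 + k 2 0) (b1 := k 0 1 + k 1 1 + k 2 1)
    (b2 := k 0 2 + k 1 2 + k 2 2) (S := sq h) (by linarith) (by linarith) (by
      rw [← hsq]
      have e1 : 0 ≤ (h 0 0 + h 0 1 + h 0 2) ^ 2 + (h 1 0 + h 1 1 + h 1 2) ^ 2 +
        (h 2 0 + h 2 1 + h 2 2) ^ 2 := by positivity
      have e2 : 0 ≤ (h 0 0 + h 1 2 + h 2 1) ^ 2 + (h 0 1 + h 1 0 + h 2 2) ^ 2 +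
        (h 0 2 + h 1 1 + h 2 0) ^ 2 := by positivity
      have e3 : 0 ≤ (h 0 0 + h 1 1 + h 2 2) ^ 2 + (h 1 0 + h 0 2 + h 2 1) ^ 2 +
        (h 2 0 + h 0 1 + h 1 2) ^ 2 := by positivity
      linarith)
  have p3 := A2.T_le (a0 := h 0 0 + h 1 2 + h 2 1) (a1 := h 0 1 + h 1 0 + h 2 2)
    (a2 := h 0 2 + h 1 1 + h 2 0) (b0 := k 0 0 + k 1 2 + k 2 1) (b1 := k 0 1 + k 1 0 + k 2 2)
    (b2 := k 0 2 + k 1 1 + k 2 0) (S := sq h) (by linarith) (by linarith) (by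
      rw [← hsq]
      have e1 : 0 ≤ (h 0 0 + h 0 1 + h 0 2) ^ 2 + (h 1 0 + h 1 1 + h 1 2) ^ 2 +
        (h 2 0 + h 2 1 + h 2 2) ^ 2 := by positivity
      have e2 : 0 ≤ (h 0 0 + h 1 0 + h 2 0) ^ 2 + (h 0 1 + h 1 1 + h 2 1) ^ 2 +
        (h 0 2 + h 1 2 + h 2 2) ^ 2 := by positivity
      have e3 : 0 ≤ (h 0 0 + h 1 1 + h 2 2) ^ 2 + (h 1 0 + h 0 2 + h 2 1) ^ 2 +
        (h 2 0 + h 0 1 + h 1 2) ^ 2 := by positivity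
      linarith)
  have p4 := A2.T_le (a0 := h 0 0 + h 1 1 + h 2 2) (a1 := h 1 0 + h 0 2 + h 2 1)
    (a2 := h 2 0 + h 0 1 + h 1 2) (b0 := k 0 0 + k 1 1 + k 2 2) (b1 := k 1 0 + k 0 2 + k 2 1)
    (b2 := k 2 0 + k 0 1 + k 1 2) (S := sq h) (by linarith) (by linarith) (by
      rw [← hsq]
      have e1 : 0 ≤ (h 0 0 + h 0 1 + h 0 2) ^ 2 + (h 1 0 + h 1 1 + h 1 2) ^ 2 +
        (h 2 0 + h 2 1 + h 2 2) ^ 2 := by positivity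
      have e2 : 0 ≤ (h 0 0 + h 1 0 + h 2 0) ^ 2 + (h 0 1 + h 1 1 + h 2 1) ^ 2 +
        (h 0 2 + h 1 2 + h 2 2) ^ 2 := by positivity
      have e3 : 0 ≤ (h 0 0 + h 1 2 + h 2 1) ^ 2 + (h 0 1 + h 1 0 + h 2 2) ^ 2 +
        (h 0 2 + h 1 1 + h 2 0) ^ 2 := by positivity
      linarith)
  have hk : 3 / √2 * √(sq h) * sq k = 1 / 3 * (3 / √2 * √(sq h) * (3 * sq k)) := by ring
  rw [hrad, hk, ← ksq]
  have : ∀ A B C D x : ℝ, x * (A + B + C + D) = x * A + x * B + x * C + x * D := by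
    intros; ring
  rw [this]
  linarith

end Pool.H98.Sud
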