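import Pool.Agent.helper98.SUD.A2

/-!
# A3: the spectral bound
-/

set_option maxHeartbeats 4000000

namespace Pool.H98.Sud

open Finset Filter
open scoped Classical Topology Nat

namespace A3

theorem trip_eq (a b : ℝ) (h k : Fin 3 → Fin 3 → ℝ) (h0 : ∑ i, ∑ j, h i j = 0)
    (k0 : ∑ i, ∑ j, k i j = 0) :
    2 * trip (fun i j => a + h i j) (fun i j => b + k i j) =
      72 * a * b ^ 2 - a * sq k - 2 * b * (∑ i, ∑ j, h i j * k i j) + rad h k -
        ∑ i, ∑ j, h i j * k i j ^ 2 := by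
  simp only [Fin.sum_univ_three] at h0 k0
  have hh : h 2 2 = -(h 0 0 + h 0 1 + h 0 2 + (h 1 0 + h 1 1 + h 1 2) + (h 2 0 + h 2 1)) := by
    linarith
  have kk : k 2 2 = -(k 0 0 + k 0 1 + k 0 2 + (k 1 0 + k 1 1 + k 1 2) + (k 2 0 + k 2 1)) := by
    linarith
  simp only [rad, trip, sq, Fin.sum_univ_three]
  simp only [show (-0 - 0 : Fin 3) = 0 from rfl, show (-0 - 1 : Fin 3) = 2 from rfl,
    show (-0 - 2 : Fin 3) = 1 from rfl, show (-1 - 0 : Fin 3) = 2 from rfl,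
    show (-1 - 1 : Fin 3) = 1 from rfl, show (-1 - 2 : Fin 3) = 0 from rfl,
    show (-2 - 0 : Fin 3) = 1 from rfl, show (-2 - 1 : Fin 3) = 0 from rfl,
    show (-2 - 2 : Fin 3) = 2 from rfl, show (0 + 1 : Fin 3) = 1 from rfl,
    show (0 + 2 : Fin 3) = 2 from rfl, show (1 + 1 : Fin 3) = 2 from rfl,
    show (1 + 2 : Fin 3) = 0 from rfl, show (2 + 1 : Fin 3) = 0 from rfl,
    show (2 + 2 : Fin 3) = 1 from rfl]
  rw [hh, kk]
  ring

/-- Cauchy-Schwarz for 3x3 matrices -/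
theorem cs (h k : Fin 3 → Fin 3 → ℝ) : |∑ i, ∑ j, h i j * k i j| ≤ √(sq h) * √(sq k) := by
  have h1 : (∑ p : Fin 3 × Fin 3, h p.1 p.2 * k p.1 p.2) ^ 2 ≤
      (∑ p : Fin 3 × Fin 3, h p.1 p.2 ^ 2) * ∑ p : Fin 3 × Fin 3, k p.1 p.2 ^ 2 :=
    Finset.sum_mul_sq_le_sq_mul_sq _ _ _
  rw [Fintype.sum_prod_type, Fintype.sum_prod_type, Fintype.sum_prod_type] at h1
  rw [← Real.sqrt_mul (by unfold sq; positivity)]
  exact Real.abs_le_sqrt h1

end A3

theorem A3 (a : ℝ) (h W : Fin 3 → Fin 3 → ℝ) (h0 : ∑ i, ∑ j, h i j = 0) (ha : 0 ≤ a)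
    (hU : ∀ i j, 0 ≤ a + h i j) (lam : ℝ) (h1 : 8 * a ≤ lam) (h2 : 3 / √2 * √(sq h) ≤ lam)
    (h3 : sq h / 9 ≤ (lam - 8 * a) * (lam - 3 / √2 * √(sq h))) :
    2 * trip (fun i j => a + h i j) W ≤ lam * sq W := by
  set b : ℝ := (∑ i, ∑ j, W i j) / 9 with hb
  set k : Fin 3 → Fin 3 → ℝ := fun i j => W i j - b with hk
  have hW : W = fun i j => b + k i j := by
    funext i j; simp [hk]
  have k0 : ∑ i, ∑ j, k i j = 0 := by
    simp only [hk, Fin.sum_univ_three] at *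
    rw [hb]; ring
  have hsqW : sq W = 9 * b ^ 2 + sq k := by
    rw [hW]
    simp only [Fin.sum_univ_three] at k0
    have : sq (fun i j => b + k i j) = 9 * b ^ 2 + sq k + 2 * b * (k 0 0 + k 0 1 + k 0 2 +
        (k 1 0 + k 1 1 + k 1 2) + (k 2 0 + k 2 1 + k 2 2)) := by
      simp only [sq, Fin.sum_univ_three]; ring
    rw [this, k0]; ring
  have htrip := A3.trip_eq a b h k h0 k0
  rw [← hW] at htrip
  rw [htrip, hsqW]
  have hneg : -(∑ i, ∑ j, h i j * k i j ^ 2) ≤ a * sq k := by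
    have : 0 ≤ ∑ i, ∑ j, (a + h i j) * k i j ^ 2 :=
      Finset.sum_nonneg fun i _ => Finset.sum_nonneg fun j _ =>
        mul_nonneg (hU i j) (sq_nonneg _)
    have e : ∑ i, ∑ j, (a + h i j) * k i j ^ 2 = a * sq k + ∑ i, ∑ j, h i j * k i j ^ 2 := by
      simp only [sq, Finset.mul_sum, ← Finset.sum_add_distrib, add_mul]
    linarith
  have hA2 := A2 h k h0 k0
  have hcs := A3.cs h k
  have hv : 0 ≤ sq h := by unfold sq; positivity
  have hkk : 0 ≤ sq k := by unfold sq; positivity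
  set x := √(sq k) with hx
  set y := √(sq h) with hy
  have hx2 : x ^ 2 = sq k := Real.sq_sqrt hkk
  have hy2 : y ^ 2 = sq h := Real.sq_sqrt hv
  have hx0 : 0 ≤ x := Real.sqrt_nonneg _
  have hy0 : 0 ≤ y := Real.sqrt_nonneg _
  rw [← hy2] at h3
  rw [← hx2] at hA2 hneg ⊢
  set c := 3 / √2 * y with hc
  set s := ∑ i, ∑ j, h i j * k i j with hs
  have hsb : -(2 * b * s) ≤ 2 * |b| * (y * x) := by
    have : |2 * b * s| ≤ 2 * |b| * (y * x) := by
      rw [abs_mul, abs_mul, abs_two]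
      gcongr
    linarith [neg_abs_le (2 * b * s)]
  -- the quadratic form
  have hb2 : b ^ 2 = |b| ^ 2 := (sq_abs b).symm
  rw [hb2]
  set β := |b| with hβ
  have hβ0 : 0 ≤ β := abs_nonneg b
  have hP : 0 ≤ lam - 8 * a := by linarith
  have hQ : 0 ≤ lam - c := by linarith
  have hquad : 2 * β * (y * x) ≤ (lam - 8 * a) * (9 * β ^ 2) + (lam - c) * x ^ 2 := by
    -- 2 β y x ≤ 2 * 3 β * x * sqrt(PQ)
    have h4 : y / 3 ≤ √((lam - 8 * a) * (lam - c)) := by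
      apply Real.le_sqrt_of_sq_le
      rw [div_pow]; linarith
    have h5 : √((lam - 8 * a) * (lam - c)) = √(lam - 8 * a) * √(lam - c) := Real.sqrt_mul hP _
    have h6 : 2 * β * (y * x) ≤ 2 * (√(lam - 8 * a) * (3 * β)) * (√(lam - c) * x) := by
      have : 2 * β * (y * x) = 6 * β * x * (y / 3) := by ring
      rw [this]
      calc 6 * β * x * (y / 3) ≤ 6 * β * x * (√(lam - 8 * a) * √(lam - c)) := by
            rw [← h5]; gcongr
        _ = _ := by ring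
    have h7 := two_mul_le_add_sq (√(lam - 8 * a) * (3 * β)) (√(lam - c) * x)
    rw [mul_pow √(lam - 8 * a), mul_pow √(lam - c), Real.sq_sqrt hP, Real.sq_sqrt hQ] at h7
    refine h6.trans (h7.trans (le_of_eq ?_))
    ring
  nlinarith

end Pool.H98.Sud
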