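import Pool.Agent.helper98.SUD.A1
import Pool.Agent.helper98.SUD.A3

/-!
# A4: the key inequality
-/

set_option maxHeartbeats 4000000

namespace Pool.H98.Sud

open Finset Filter
open scoped Classical Topology Nat

namespace A4

/-- the inequality follows from the choice of a good `lam` -/
theorem core (a : ℝ) (h W : Fin 3 → Fin 3 → ℝ) (h0 : ∑ i, ∑ j, h i j = 0) (ha : 0 ≤ a)
    (hU : ∀ i j, 0 ≤ a + h i j) (lam : ℝ) (h1 : 8 * a ≤ lam) (h2 : 3 / √2 * √(sq h) ≤ lam)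
    (h3 : sq h / 9 ≤ (lam - 8 * a) * (lam - 3 / √2 * √(sq h))) (A ν : ℝ)
    (hA : A + 9 / 16 * lam ^ 3 ≤ 6 * lam * ν) (hν : 0 ≤ ν) :
    A + 12 * trip (fun i j => a + h i j) W ≤ 8 / 3 * √(2 * ν + 2 * sq W) ^ 3 := by
  have hlam : 0 ≤ lam := by linarith
  have hA3 := A3 a h W h0 ha hU lam h1 h2 h3
  have hω : 0 ≤ sq W := by unfold sq; positivity
  set ω := sq W with hωd
  set N := √(2 * ν + 2 * ω) with hN
  have hN0 : 0 ≤ N := Real.sqrt_nonneg _
  have hN2 : N ^ 2 = 2 * ν + 2 * ω := Real.sq_sqrt (by linarith)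
  have hamgm : 0 ≤ (N - 3 * lam / 4) ^ 2 * (2 * N + 3 * lam / 4) := by positivity
  have e : (N - 3 * lam / 4) ^ 2 * (2 * N + 3 * lam / 4) =
      2 * N ^ 3 - 9 * lam / 4 * N ^ 2 + 27 * lam ^ 3 / 64 := by ring
  rw [e, hN2] at hamgm
  nlinarith

theorem expand (a : ℝ) (h : Fin 3 → Fin 3 → ℝ) (h0 : ∑ i, ∑ j, h i j = 0) :
    4 * cub (fun i j => a + h i j) + 18 * perm3 (fun i j => a + h i j) =
      144 * a ^ 3 + 21 * a * sq h - 9 * a * ((h 0 0 + h 0 1 + h 0 2) ^ 2 +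
        (h 1 0 + h 1 1 + h 1 2) ^ 2 + (h 2 0 + h 2 1 + h 2 2) ^ 2 +
        (h 0 0 + h 1 0 + h 2 0) ^ 2 + (h 0 1 + h 1 1 + h 2 1) ^ 2 +
        (h 0 2 + h 1 2 + h 2 2) ^ 2) + (4 * cub h + 18 * perm3 h) := by
  simp only [Fin.sum_univ_three] at h0
  have hh : h 2 2 = -(h 0 0 + h 0 1 + h 0 2 + (h 1 0 + h 1 1 + h 1 2) + (h 2 0 + h 2 1)) := by
    linarith
  simp only [cub, perm3, sq, Fin.sum_univ_three]
  rw [hh]
  ring

theorem c_le : 3 / √2 ≤ (2.12133 : ℝ) := by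
  have h2 : (1.41421 : ℝ) ≤ √2 := by
    apply Real.le_sqrt_of_sq_le; norm_num
  rw [div_le_iff₀ (by positivity)]
  nlinarith

end A4

theorem A4 (U W : Fin 3 → Fin 3 → ℝ) (hU : ∀ i j, 0 ≤ U i j) :
    4 * cub U + 18 * perm3 U + 12 * trip U W ≤ 8 / 3 * √(2 * sq U + 2 * sq W) ^ 3 := by
  set a : ℝ := (∑ i, ∑ j, U i j) / 9 with ha
  set h : Fin 3 → Fin 3 → ℝ := fun i j => U i j - a with hh
  have hUh : U = fun i j => a + h i j := by
    funext i j; simp [hh]
  have h0 : ∑ i, ∑ j, h i j = 0 := by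
    simp only [hh, Fin.sum_univ_three] at *
    rw [ha]; ring
  have ha0 : 0 ≤ a := by
    rw [ha]
    have : 0 ≤ ∑ i, ∑ j, U i j := Finset.sum_nonneg fun i _ => Finset.sum_nonneg fun j _ => hU i j
    positivity
  have hU' : ∀ i j, 0 ≤ a + h i j := by
    intro i j; have := hU i j; simpa [hh] using this
  have hν : sq U = 9 * a ^ 2 + sq h := by
    rw [hUh]
    simp only [Fin.sum_univ_three] at h0
    have : sq (fun i j => a + h i j) = 9 * a ^ 2 + sq h + 2 * a * (h 0 0 + h 0 1 + h 0 2 +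
        (h 1 0 + h 1 1 + h 1 2) + (h 2 0 + h 2 1 + h 2 2)) := by
      simp only [sq, Fin.sum_univ_three]; ring
    rw [this, h0]; ring
  have hν81 : sq U ≤ 81 * a ^ 2 := by
    have e : (81 : ℝ) * a ^ 2 = (∑ i, ∑ j, U i j) ^ 2 := by rw [ha]; ring
    rw [e]
    have h1 : ∑ p : Fin 3 × Fin 3, U p.1 p.2 ^ 2 ≤ (∑ p : Fin 3 × Fin 3, U p.1 p.2) ^ 2 :=
      Finset.sum_sq_le_sq_sum_of_nonneg fun p _ => hU p.1 p.2
    rwa [Fintype.sum_prod_type, Fintype.sum_prod_type] at h1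
  have hv : 0 ≤ sq h := by unfold sq; positivity
  have hν0 : 0 ≤ sq U := by unfold sq; positivity
  set y := √(sq h) with hy
  have hy0 : 0 ≤ y := Real.sqrt_nonneg _
  have hy2 : y ^ 2 = sq h := Real.sq_sqrt hv
  have hc := A4.c_le
  have hc0 : (0 : ℝ) ≤ 3 / √2 := by positivity
  have hcy : 3 / √2 * y ≤ 2.12133 * y := by gcongr
  rcases le_or_gt (sq h) (9 * a ^ 2) with hcase | hcase
  · -- first case
    rcases ha0.eq_or_lt with ha1 | ha1
    · -- `U = 0`
      have hU0 : ∀ i j, U i j = 0 := by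
        intro i j
        have h1 : sq U = 0 := by rw [← ha1] at hν81; nlinarith
        unfold sq at h1
        have h2 := (Finset.sum_eq_zero_iff_of_nonneg (fun i _ =>
          Finset.sum_nonneg fun j _ => sq_nonneg (U i j))).1 h1 i (Finset.mem_univ i)
        have h3 := (Finset.sum_eq_zero_iff_of_nonneg (fun j _ =>
          sq_nonneg (U i j))).1 h2 j (Finset.mem_univ j)
        exact pow_eq_zero_iff (two_ne_zero) |>.1 h3
      have e1 : cub U = 0 := by simp [cub, hU0]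
      have e2 : perm3 U = 0 := by simp [perm3, hU0]
      have e3 : trip U W = 0 := by simp [trip, hU0]
      rw [e1, e2, e3]
      have : 0 ≤ 8 / 3 * √(2 * sq U + 2 * sq W) ^ 3 := by positivity
      linarith
    have hy3 : y ≤ 3 * a := by
      apply le_of_sq_le_sq
      · rw [hy2]; linarith
      · positivity
    obtain ⟨s, hs⟩ : ∃ s, y = s * a := ⟨y / a, by field_simp⟩
    have hs0 : 0 ≤ s := by
      by_contra hneg
      push Not at hneg
      nlinarith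
    have hs3 : s ≤ 3 := by
      by_contra hneg
      push Not at hneg
      nlinarith
    rw [hUh]
    refine A4.core a h W h0 ha0 hU' (a * (8 + s ^ 2 / 6)) ?_ ?_ ?_ _ _ ?_ ?_
    · nlinarith [mul_nonneg ha0 (sq_nonneg s)]
    · refine hcy.trans ?_
      rw [hs]
      have : 2.12133 * s ≤ 8 + s ^ 2 / 6 := by nlinarith
      nlinarith
    · rw [← hy, ← hy2, hs]
      have h5 : 0 ≤ a * (s ^ 2 / 6) := by positivity
      have h6 : 3 / √2 * (s * a) ≤ 2.12133 * (s * a) := by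
        have : 0 ≤ s * a := by positivity
        gcongr
      have h7 : a * (s ^ 2 / 6) * (a * (8 + s ^ 2 / 6) - 2.12133 * (s * a)) ≤
          (a * (8 + s ^ 2 / 6) - 8 * a) * (a * (8 + s ^ 2 / 6) - 3 / √2 * (s * a)) := by
        have e : a * (8 + s ^ 2 / 6) - 8 * a = a * (s ^ 2 / 6) := by ring
        rw [e]
        gcongr
      refine le_trans ?_ h7
      have e : a * (s ^ 2 / 6) * (a * (8 + s ^ 2 / 6) - 2.12133 * (s * a)) -
          (s * a) ^ 2 / 9 = (a * s) ^ 2 / 6 * (22 / 3 + s ^ 2 / 6 - 2.12133 * s) := by ring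
      have h8 : 0 ≤ 22 / 3 + s ^ 2 / 6 - 2.12133 * s := by nlinarith [sq_nonneg (s - 6)]
      have h9 : 0 ≤ (a * s) ^ 2 / 6 * (22 / 3 + s ^ 2 / 6 - 2.12133 * s) := by positivity
      linarith
    · rw [A4.expand a h h0, ← hUh, hν, ← hy2]
      have hA1 := A1 h
      rw [← hy, hs] at hA1
      rw [hs]
      have h10 : 0 ≤ 9 * a * ((h 0 0 + h 0 1 + h 0 2) ^ 2 +
        (h 1 0 + h 1 1 + h 1 2) ^ 2 + (h 2 0 + h 2 1 + h 2 2) ^ 2 +
        (h 0 0 + h 1 0 + h 2 0) ^ 2 + (h 0 1 + h 1 1 + h 2 1) ^ 2 +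
        (h 0 2 + h 1 2 + h 2 2) ^ 2) := by positivity
      have h11 : 0 ≤ 18 - 7.21 * s + 5 / 8 * s ^ 2 - s ^ 4 / 384 := by
        have : s ^ 4 ≤ 9 * s ^ 2 := by
          have h13 : s ^ 2 ≤ 9 := by nlinarith
          have h14 : s ^ 4 = s ^ 2 * s ^ 2 := by ring
          rw [h14]
          exact mul_le_mul_of_nonneg_right h13 (sq_nonneg s)
        nlinarith
      have h12 : 0 ≤ a ^ 3 * s ^ 2 * (18 - 7.21 * s + 5 / 8 * s ^ 2 - s ^ 4 / 384) := by positivity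
      have e : a ^ 3 * s ^ 2 * (18 - 7.21 * s + 5 / 8 * s ^ 2 - s ^ 4 / 384) =
          6 * (a * (8 + s ^ 2 / 6)) * (9 * a ^ 2 + (s * a) ^ 2) -
          (144 * a ^ 3 + 21 * a * (s * a) ^ 2 + 7.21 * (s * a) ^ 3 +
            9 / 16 * (a * (8 + s ^ 2 / 6)) ^ 3) := by ring
      linarith
    · rw [← hUh]; exact hν0
  · -- second case
    set n := √(sq U) with hn
    have hn0 : 0 ≤ n := Real.sqrt_nonneg _
    have hn2 : n ^ 2 = sq U := Real.sq_sqrt hν0
    have hn9 : n ≤ 9 * a := by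
      apply le_of_sq_le_sq
      · rw [hn2]; linarith
      · positivity
    have hn4 : 4.2426 * a ≤ n := by
      apply le_of_sq_le_sq
      · rw [hn2, hν]; nlinarith [sq_nonneg a]
      · positivity
    have hyn : 0.96 * y ≤ n - 0.84 * a := by
      have h5 : 0.84 * a + 0.96 * y ≤ n := by
        apply le_of_sq_le_sq
        · rw [hn2, hν, ← hy2]; nlinarith [sq_nonneg (0.96 * a * 3 - 0.28 * y)]
        · positivity
      linarith
    rw [hUh]
    refine A4.core a h W h0 ha0 hU' (2.125 * n) ?_ ?_ ?_ _ _ ?_ ?_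
    · linarith
    · refine hcy.trans ?_
      linarith
    · have hP : 0 ≤ 2.125 * n - 8 * a := by linarith
      have hQ : 1.8561 * a - 0.08473 * n ≤ 2.125 * n - 3 / √2 * y := by linarith
      refine le_trans ?_ (mul_le_mul_of_nonneg_left hQ hP)
      have hvn : sq h = n ^ 2 - 9 * a ^ 2 := by rw [hn2, hν]; ring
      rw [hvn]
      nlinarith [mul_nonneg (sub_nonneg.2 hn9) (sub_nonneg.2 hn4), sq_nonneg a,
        mul_nonneg (sub_nonneg.2 hn4) (sub_nonneg.2 hn4), mul_nonneg ha0 (sub_nonneg.2 hn4)]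
    · rw [← hUh, ← hn2]
      have hA1 := A1 U
      rw [← hn] at hA1
      have h12 : 0 ≤ n ^ 3 := by positivity
      nlinarith
    · rw [← hUh]; exact hν0

end Pool.H98.Sud
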