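import Pool.Agent.helper98.SUD.Defs2

/-!
# The sum over all legitimate pairs of states
-/

namespace Pool.H98.Sud

open Finset
open scoped Classical Topology Nat

namespace A5

/-- the six permutations of `Fin 3` -/
def T : Fin 6 → Fin 3 → Fin 3 :=
  ![![0, 1, 2], ![0, 2, 1], ![1, 0, 2], ![1, 2, 0], ![2, 0, 1], ![2, 1, 0]]

/-- the legitimate states -/
def A : Fin 3 ⊕ (Fin 3 × Fin 6) → (Fin 3 → Ty)
  | Sum.inl a => fun _ => (true, a)
  | Sum.inr p => fun k => (decide (k = p.1), T p.2 k)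

lemma A_inj : Function.Injective A := by
  have h : ∀ p q, A p = A q → p = q := by decide +kernel
  exact fun p q => h p q

lemma T_inj : ∀ t k k', T t k = T t k' → k = k' := by decide

lemma T_surj : ∀ a b c : Fin 3, a ≠ b → a ≠ c → b ≠ c →
    ∃ t, T t 0 = a ∧ T t 1 = b ∧ T t 2 = c := by decide

lemma legit_iff (s : Fin 3 → Ty) : Legit s ↔ s ∈ Set.range A := by
  constructor
  · rintro (⟨x, hx⟩ | ⟨⟨o, ho, ho'⟩, hl⟩)
    · exact ⟨Sum.inl x, by funext k; rw [hx k]; rfl⟩
    · have h01 : (s 0).2 ≠ (s 1).2 := fun h => absurd (hl 0 1 h) (by decide)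
      have h02 : (s 0).2 ≠ (s 2).2 := fun h => absurd (hl 0 2 h) (by decide)
      have h12 : (s 1).2 ≠ (s 2).2 := fun h => absurd (hl 1 2 h) (by decide)
      obtain ⟨t, t0, t1, t2⟩ := T_surj _ _ _ h01 h02 h12
      refine ⟨Sum.inr (o, t), ?_⟩
      funext k
      have hk : (s k).1 = decide (k = o) := by
        by_cases h : k = o
        · subst h
          simpa using ho
        · have : (s k).1 ≠ true := fun hh => h (ho' k hh)
          simp [h, this]
      have hT : T t k = (s k).2 := by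
        fin_cases k
        · exact t0
        · exact t1
        · exact t2
      show (decide (k = o), T t k) = s k
      rw [hT, ← hk]
  · rintro ⟨p, rfl⟩
    rcases p with a | p
    · exact Or.inl ⟨a, fun k => rfl⟩
    · refine Or.inr ⟨⟨p.1, ?_, ?_⟩, ?_⟩
      · simp [A]
      · intro k hk
        simpa [A] using hk
      · intro k k' h
        exact T_inj p.2 k k' h

lemma sum_legit (F : (Fin 3 → Ty) → ℝ) :
    ∑ s, (if Legit s then F s else 0) =
      ∑ a : Fin 3, F (A (Sum.inl a)) + ∑ o : Fin 3, ∑ t : Fin 6, F (A (Sum.inr (o, t))) := by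
  have h1 : ∑ s, (if Legit s then F s else 0) = ∑ p, F (A p) := by
    rw [← Finset.sum_filter]
    have : univ.filter (fun s : Fin 3 → Ty => Legit s) = univ.image A := by
      ext s
      simp only [mem_filter, mem_univ, true_and, mem_image]
      rw [legit_iff]
      rfl
    rw [this, Finset.sum_image (fun p _ q _ h => A_inj h)]
  rw [h1, Fintype.sum_sum_type, Fintype.sum_prod_type]

lemma sum_LL (P : (Fin 3 → Ty × Ty) → ℝ) :
    ∑ s ∈ univ.filter (fun s : Fin 3 → Ty × Ty => LL s), P s =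
      ∑ s1, (if Legit s1 then
        ∑ s2, (if Legit s2 then P (fun k => (s1 k, s2 k)) else 0) else 0) := by
  rw [Finset.sum_filter]
  rw [← (Equiv.arrowProdEquivProdArrow (Fin 3) (fun _ => Ty) (fun _ => Ty)).symm.sum_comp]
  rw [Fintype.sum_prod_type]
  refine Finset.sum_congr rfl fun s1 _ => ?_
  by_cases h : Legit s1
  · rw [if_pos h]
    refine Finset.sum_congr rfl fun s2 _ => ?_
    by_cases h2 : Legit s2
    · rw [if_pos h2, if_pos]
      · rfl
      · exact ⟨h, h2⟩
    · rw [if_neg h2, if_neg]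
      exact fun hh => h2 hh.2
  · rw [if_neg h]
    refine Finset.sum_eq_zero fun s2 _ => ?_
    rw [if_neg]
    exact fun hh => h hh.1

/-- auxiliary sum of six terms -/
noncomputable def PQ (f g h : Fin 3 → Fin 3 → ℝ) (p q r : Fin 3) : ℝ :=
  f p 0 * g q 1 * h r 2 + f p 0 * g q 2 * h r 1 + f p 1 * g q 0 * h r 2 +
    f p 1 * g q 2 * h r 0 + f p 2 * g q 0 * h r 1 + f p 2 * g q 1 * h r 0

/-- auxiliary sum of 36 terms -/
noncomputable def PP (f g h : Fin 3 → Fin 3 → ℝ) : ℝ :=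
  PQ f g h 0 1 2 + PQ f g h 0 2 1 + PQ f g h 1 0 2 + PQ f g h 1 2 0 + PQ f g h 2 0 1 +
    PQ f g h 2 1 0

end A5

theorem A5 (x : Ty × Ty → ℝ) (hx : ∀ t, x (flip2 t) = x t) :
    ∑ s ∈ univ.filter (fun s : Fin 3 → Ty × Ty => LL s), ∏ k, (gg (s k) * x (s k)) =
      1 / √2 * (4 * cub (fun i j => x ((true, i), (true, j))) +
        18 * perm3 (fun i j => x ((true, i), (true, j))) +
        12 * trip (fun i j => x ((true, i), (true, j))) (fun i j => x ((true, i), (false, j)))) := by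
  have hc : √2 * √2 = (2 : ℝ) := Real.mul_self_sqrt (by norm_num)
  have hc0 : √2 ≠ (0 : ℝ) := by positivity
  have hinv : 1 / √2 = √2 / 2 := by
    rw [div_eq_div_iff hc0 (by norm_num)]
    linarith
  set c : ℝ := √2 with hcdef
  set U : Fin 3 → Fin 3 → ℝ := fun i j => x ((true, i), (true, j)) with hU
  set W : Fin 3 → Fin 3 → ℝ := fun i j => x ((true, i), (false, j)) with hW
  have ytt : ∀ i j, gg ((true, i), (true, j)) * x ((true, i), (true, j)) = c * U i j := by
    intro i j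
    simp [gg, hU, ← hcdef]
  have yff : ∀ i j, gg ((false, i), (false, j)) * x ((false, i), (false, j)) = c / 2 * U i j := by
    intro i j
    have h := hx ((true, i), (true, j))
    have h' : flip2 ((true, i), (true, j)) = ((false, i), (false, j)) := rfl
    rw [h'] at h
    rw [h]
    simp only [gg, hU]
    rw [← hcdef]
    simp only [if_true, Bool.false_eq_true, if_false]
    rw [hinv]
  have ytf : ∀ i j, gg ((true, i), (false, j)) * x ((true, i), (false, j)) = W i j := by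
    intro i j
    simp [gg, hW]
  have yft : ∀ i j, gg ((false, i), (true, j)) * x ((false, i), (true, j)) = W i j := by
    intro i j
    have h := hx ((true, i), (false, j))
    have h' : flip2 ((true, i), (false, j)) = ((false, i), (true, j)) := rfl
    rw [h'] at h
    rw [h]
    simp [gg, hW]
  rw [A5.sum_LL, A5.sum_legit, hinv]
  simp only [A5.sum_legit]
  have e0 : ∀ F : Fin 3 → Fin 3 → Fin 3 → ℝ, ∑ t : Fin 6, F (A5.T t 0) (A5.T t 1) (A5.T t 2) =
      F 0 1 2 + F 0 2 1 + F 1 0 2 + F 1 2 0 + F 2 0 1 + F 2 1 0 := by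
    intro F
    rw [Fin.sum_univ_six]
    rfl
  have hss : ∀ a b : Fin 3, (∏ k : Fin 3, gg (A5.A (Sum.inl a) k, A5.A (Sum.inl b) k) *
      x (A5.A (Sum.inl a) k, A5.A (Sum.inl b) k)) = (c * U a b) ^ 3 := by
    intro a b
    rw [Fin.prod_univ_three]
    simp only [A5.A, ytt]
    ring
  have hsr : ∀ a : Fin 3, (∑ o : Fin 3, ∑ t : Fin 6,
      ∏ k : Fin 3, gg (A5.A (Sum.inl a) k, A5.A (Sum.inr (o, t)) k) *
      x (A5.A (Sum.inl a) k, A5.A (Sum.inr (o, t)) k)) =
      6 * c * (U a 0 * W a 1 * W a 2 + U a 1 * W a 0 * W a 2 + U a 2 * W a 0 * W a 1) := by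
    intro a
    rw [Fin.sum_univ_three]
    simp only [Fin.prod_univ_three, A5.A]
    simp only [Fin.isValue, decide_true, Fin.reduceEq, decide_false, ytt, ytf]
    rw [e0 (fun p q r => c * U a p * W a q * W a r), e0 (fun p q r => W a p * (c * U a q) * W a r),
      e0 (fun p q r => W a p * W a q * (c * U a r))]
    ring
  have hrs : ∀ o : Fin 3, (∑ t : Fin 6, ∑ b : Fin 3,
      ∏ k : Fin 3, gg (A5.A (Sum.inr (o, t)) k, A5.A (Sum.inl b) k) *
      x (A5.A (Sum.inr (o, t)) k, A5.A (Sum.inl b) k)) =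
      2 * c * ∑ b : Fin 3,
        (U 0 b * W 1 b * W 2 b + U 1 b * W 0 b * W 2 b + U 2 b * W 0 b * W 1 b) := by
    intro o
    rw [Finset.sum_comm, Finset.mul_sum]
    refine Finset.sum_congr rfl fun b _ => ?_
    simp only [Fin.prod_univ_three, A5.A]
    fin_cases o
    · simp only [Fin.isValue, decide_true, Fin.reduceEq, decide_false, ytt, yft, Fin.zero_eta]
      rw [e0 (fun p q r => c * U p b * W q b * W r b)]
      ring
    · simp only [Fin.isValue, decide_true, Fin.reduceEq, decide_false, ytt, yft, Fin.mk_one]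
      rw [e0 (fun p q r => W p b * (c * U q b) * W r b)]
      ring
    · simp only [Fin.isValue, decide_true, Fin.reduceEq, decide_false, ytt, yft,
        Fin.reduceFinMk]
      rw [e0 (fun p q r => W p b * W q b * (c * U r b))]
      ring
  have e1 : ∀ f g h : Fin 3 → Fin 3 → ℝ, ∑ t : Fin 6, ∑ t' : Fin 6,
      f (A5.T t 0) (A5.T t' 0) * g (A5.T t 1) (A5.T t' 1) * h (A5.T t 2) (A5.T t' 2) =
      A5.PP f g h := by
    intro f g h
    have : ∀ t : Fin 6, ∑ t' : Fin 6,
        f (A5.T t 0) (A5.T t' 0) * g (A5.T t 1) (A5.T t' 1) * h (A5.T t 2) (A5.T t' 2) =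
        A5.PQ f g h (A5.T t 0) (A5.T t 1) (A5.T t 2) := by
      intro t
      rw [e0 (fun p q r => f (A5.T t 0) p * g (A5.T t 1) q * h (A5.T t 2) r)]
      rfl
    rw [Finset.sum_congr rfl fun t _ => this t, e0 (fun p q r => A5.PQ f g h p q r)]
    rfl
  have hrr : (∑ o : Fin 3, ∑ t : Fin 6, ∑ o' : Fin 3, ∑ t' : Fin 6,
      ∏ k : Fin 3, gg (A5.A (Sum.inr (o, t)) k, A5.A (Sum.inr (o', t')) k) *
      x (A5.A (Sum.inr (o, t)) k, A5.A (Sum.inr (o', t')) k)) =
      A5.PP (fun i j => c * U i j) (fun i j => c / 2 * U i j) (fun i j => c / 2 * U i j) +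
      A5.PP W W (fun i j => c / 2 * U i j) + A5.PP W (fun i j => c / 2 * U i j) W +
      (A5.PP W W (fun i j => c / 2 * U i j) +
      A5.PP (fun i j => c / 2 * U i j) (fun i j => c * U i j) (fun i j => c / 2 * U i j) +
      A5.PP (fun i j => c / 2 * U i j) W W) +
      (A5.PP W (fun i j => c / 2 * U i j) W + A5.PP (fun i j => c / 2 * U i j) W W +
      A5.PP (fun i j => c / 2 * U i j) (fun i j => c / 2 * U i j) (fun i j => c * U i j)) := by
    simp only [← e1]
    rw [Fin.sum_univ_three]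
    simp only [Fin.sum_univ_three, Fin.prod_univ_three, A5.A, Finset.sum_add_distrib]
    simp only [Fin.isValue, decide_true, Fin.reduceEq, decide_false, ytt, yft, ytf, yff]
  simp only [Finset.sum_add_distrib, hrr]
  rw [show (∑ o : Fin 3, ∑ t : Fin 6, ∑ b : Fin 3,
      ∏ k : Fin 3, gg (A5.A (Sum.inr (o, t)) k, A5.A (Sum.inl b) k) *
      x (A5.A (Sum.inr (o, t)) k, A5.A (Sum.inl b) k)) = ∑ o : Fin 3, 2 * c * ∑ b : Fin 3,
        (U 0 b * W 1 b * W 2 b + U 1 b * W 0 b * W 2 b + U 2 b * W 0 b * W 1 b) from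
        Finset.sum_congr rfl fun o _ => hrs o]
  simp only [hss, hsr]
  simp only [A5.PP, A5.PQ, cub, perm3, trip, Fin.sum_univ_three, Fin.isValue, zero_add,
    Fin.reduceAdd]
  linear_combination (c * (U 0 0 ^ 3 + U 0 1 ^ 3 + U 0 2 ^ 3 + U 1 0 ^ 3 + U 1 1 ^ 3 + U 1 2 ^ 3 +
    U 2 0 ^ 3 + U 2 1 ^ 3 + U 2 2 ^ 3 + 9 / 2 * (U 0 0 * U 1 1 * U 2 2 + U 0 0 * U 1 2 * U 2 1 +
    U 0 1 * U 1 0 * U 2 2 + U 0 1 * U 1 2 * U 2 0 +
    U 0 2 * U 1 0 * U 2 1 + U 0 2 * U 1 1 * U 2 0))) * hc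

end Pool.H98.Sud
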