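import Pool.Agent.helper98.SUD.A4
import Pool.Agent.helper98.SUD.A5

namespace Pool.H98.Sud

open Finset
open scoped Classical Topology Nat

/-- from `A4`, `A5` -/
theorem A6 (x : Ty × Ty → ℝ) (h0 : ∀ t, 0 ≤ x t) (hx : ∀ t, x (flip2 t) = x t)
    (h1 : ∑ t, x t ^ 2 = 1) :
    ∑ s ∈ univ.filter (fun s : Fin 3 → Ty × Ty => LL s), ∏ k, (gg (s k) * x (s k)) ≤
      4 * √2 / 3 := by
  rw [A5 x hx]
  have hs : 2 * sq (fun i j => x ((true, i), (true, j))) +
      2 * sq (fun i j => x ((true, i), (false, j))) = 1 := by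
    have hff : ∀ i j, x ((false, i), (false, j)) = x ((true, i), (true, j)) :=
      fun i j => hx ((true, i), (true, j))
    have hft : ∀ i j, x ((false, i), (true, j)) = x ((true, i), (false, j)) :=
      fun i j => hx ((true, i), (false, j))
    rw [Fintype.sum_prod_type, Fintype.sum_prod_type] at h1
    simp only [Fintype.sum_bool, Fintype.sum_prod_type, Finset.sum_add_distrib, hff, hft] at h1
    simp only [sq]
    linarith
  have h4 := A4 (fun i j => x ((true, i), (true, j))) (fun i j => x ((true, i), (false, j)))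
    (fun i j => h0 _)
  rw [hs] at h4
  have hc : √2 * √2 = (2 : ℝ) := Real.mul_self_sqrt (by norm_num)
  have hc0 : (0 : ℝ) < √2 := by positivity
  have hinv : 1 / √2 = √2 / 2 := by
    rw [div_eq_div_iff hc0.ne' (by norm_num)]
    linarith
  rw [hinv]
  have := mul_le_mul_of_nonneg_left h4 (by positivity : (0 : ℝ) ≤ √2 / 2)
  rw [Real.sqrt_one] at this
  linarith

end Pool.H98.Sud
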