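import Pool.Agent.helper98.SUD.Defs2

/-!
# B1: bijections with prescribed types; functions with prescribed fibre sizes
-/

namespace Pool.H98.Sud

open Finset
open scoped Classical Nat

theorem B1 {P Q K : Type*} [Fintype P] [Fintype Q] [Fintype K] (T : P → K) (t : Q → K) :
    (univ.filter (fun f : P ≃ Q => ∀ p, t (f p) = T p)).card =
      if (∀ τ, (univ.filter (fun p => T p = τ)).card = (univ.filter (fun q => t q = τ)).card)
      then ∏ τ, (univ.filter (fun p => T p = τ)).card ! else 0 := by
  by_cases h : ∀ τ, (univ.filter (fun p => T p = τ)).card = (univ.filter (fun q => t q = τ)).card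
  · rw [if_pos h]
    -- a first bijection
    have e : ∀ τ, {p // T p = τ} ≃ {q // t q = τ} := fun τ =>
      Fintype.equivOfCardEq (by rw [Fintype.card_subtype, Fintype.card_subtype]; exact h τ)
    set f0 : P ≃ Q := Equiv.ofFiberEquiv e with hf0
    have hf0' : ∀ p, t (f0 p) = T p := fun p => Equiv.ofFiberEquiv_map e p
    have key : (univ.filter (fun f : P ≃ Q => ∀ p, t (f p) = T p)).card =
        Fintype.card {g : Equiv.Perm P // T ∘ g = T} := by
      rw [← Fintype.card_subtype]
      refine Fintype.card_congr ⟨fun f => ⟨f.1.trans f0.symm, ?_⟩, fun g => ⟨g.1.trans f0, ?_⟩,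
        ?_, ?_⟩
      · funext p
        have h1 := hf0' (f0.symm (f.1 p))
        rw [Equiv.apply_symm_apply] at h1
        simp only [Function.comp, Equiv.trans_apply]
        rw [← h1]
        exact f.2 p
      · intro p
        have h2 := congrFun g.2 p
        simp only [Function.comp] at h2
        simp only [Equiv.trans_apply]
        rw [hf0']
        exact h2
      · intro f
        ext p
        simp
      · intro g
        ext p
        simp
    rw [key, DomMulAct.stabilizer_card]
    refine prod_congr rfl fun τ _ => ?_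
    rw [Fintype.card_subtype]
  · rw [if_neg h, card_eq_zero, filter_eq_empty_iff]
    intro f _ hf
    refine h fun τ => ?_
    refine card_bij (fun p _ => f p) ?_ ?_ ?_
    · intro p hp
      rw [mem_filter] at hp ⊢
      exact ⟨mem_univ _, (hf p).trans hp.2⟩
    · intro p _ p' _ hpp
      exact f.injective hpp
    · intro q hq
      rw [mem_filter] at hq
      refine ⟨f.symm q, ?_, by simp⟩
      rw [mem_filter]
      refine ⟨mem_univ _, ?_⟩
      rw [← hf, Equiv.apply_symm_apply]
      exact hq.2

theorem B1' {P K : Type*} [Fintype P] [Fintype K] (m : K → ℕ) (hm : ∑ τ, m τ = Fintype.card P) :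
    (univ.filter (fun T : P → K => ∀ τ, (univ.filter (fun p => T p = τ)).card = m τ)).card *
      ∏ τ, (m τ)! = (Fintype.card P)! := by
  -- a function with the right fibres
  have e : P ≃ Σ τ, Fin (m τ) := Fintype.equivOfCardEq (by
    rw [Fintype.card_sigma, ← hm]
    simp)
  set t : P → K := fun p => (e p).1 with ht
  have hcount : ∀ τ, (univ.filter (fun q => t q = τ)).card = m τ := by
    intro τ
    rw [← Fintype.card_subtype, ← Fintype.card_fin (m τ)]
    refine Fintype.card_congr ⟨fun p => p.2 ▸ (e p.1).2, fun i => ⟨e.symm ⟨τ, i⟩, ?_⟩, ?_, ?_⟩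
    · simp [ht]
    · rintro ⟨p, hp⟩
      subst hp
      refine Subtype.ext ?_
      exact e.symm_apply_apply p
    · intro i
      have h1 : ∀ (x : Σ τ, Fin (m τ)) (hx : x.1 = τ), x = ⟨τ, i⟩ → hx ▸ x.2 = i := by
        rintro ⟨a, b⟩ hx hxe
        cases hxe
        rfl
      exact h1 _ _ (by simp)
  have h1 : (Fintype.card P)! = ∑ T : P → K, (univ.filter (fun f : P ≃ P => ∀ p, t (f p) = T p)).card := by
    rw [← Fintype.card_equiv (Equiv.refl P), ← card_univ]
    rw [card_eq_sum_card_fiberwise (f := fun f : P ≃ P => fun p => t (f p)) (t := univ)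
      (fun _ _ => mem_coe.2 (mem_univ _))]
    refine sum_congr rfl fun T _ => ?_
    congr 1
    ext f
    simp only [mem_filter, mem_univ, true_and]
    exact ⟨fun h p => congrFun h p, fun h => funext h⟩
  rw [h1, card_filter, sum_mul]
  refine sum_congr rfl fun T _ => ?_
  rw [B1]
  by_cases h : ∀ τ, (univ.filter (fun p => T p = τ)).card = m τ
  · rw [if_pos h, if_pos (fun τ => (h τ).trans (hcount τ).symm), one_mul]
    exact prod_congr rfl fun τ _ => by rw [h τ]
  · rw [if_neg h, if_neg (fun h' => h fun τ => (h' τ).trans (hcount τ)), zero_mul]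

end Pool.H98.Sud
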