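import Pool.Agent.helper98.SUD.Defs2

/-!
# B3 and C2: Stirling type estimates   (helper41)
-/

namespace Pool.H98.Sud

open Finset Filter
open scoped Classical Topology Nat

namespace B3

/-- `(n/e)^n` -/
noncomputable def st (n : ℕ) : ℝ := ((n : ℝ) / Real.exp 1) ^ n

lemma st_nonneg (n : ℕ) : 0 ≤ st n := by unfold st; positivity

lemma st_eq (n : ℕ) : st n = (n : ℝ) ^ n / Real.exp n := by
  unfold st
  rw [div_pow, ← Real.exp_nat_mul, mul_one]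

lemma lo (n : ℕ) : st n ≤ (n ! : ℝ) := by
  rw [st_eq]
  have h := Real.pow_div_factorial_le_exp (n : ℝ) (Nat.cast_nonneg n) n
  have hf : (0 : ℝ) < (n ! : ℝ) := by exact_mod_cast Nat.factorial_pos n
  rw [div_le_iff₀ hf] at h
  rw [div_le_iff₀ (Real.exp_pos _)]
  linarith

lemma exp_mul_pow (n : ℕ) : Real.exp 1 * (n : ℝ) ^ (n + 1) ≤ ((n : ℝ) + 1) ^ (n + 1) := by
  have hn : (0 : ℝ) < (n : ℝ) + 1 := by positivity
  have h1 : (n : ℝ) / (n + 1) ≤ Real.exp (-(1 / ((n : ℝ) + 1))) := by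
    have := Real.one_sub_le_exp_neg (1 / ((n : ℝ) + 1))
    have e : 1 - 1 / ((n : ℝ) + 1) = (n : ℝ) / (n + 1) := by field_simp; ring
    rwa [e] at this
  have h2 : ((n : ℝ) / (n + 1)) ^ (n + 1) ≤ Real.exp (-(1 / ((n : ℝ) + 1))) ^ (n + 1) :=
    pow_le_pow_left₀ (by positivity) h1 _
  have h3 : Real.exp (-(1 / ((n : ℝ) + 1))) ^ (n + 1) = Real.exp (-1) := by
    rw [← Real.exp_nat_mul]
    congr 1
    push_cast
    field_simp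
  rw [h3, div_pow, div_le_iff₀ (by positivity)] at h2
  have h4 : Real.exp 1 * Real.exp (-1) = 1 := by rw [← Real.exp_add]; simp
  calc Real.exp 1 * (n : ℝ) ^ (n + 1) ≤ Real.exp 1 * (Real.exp (-1) * ((n : ℝ) + 1) ^ (n + 1)) :=
        mul_le_mul_of_nonneg_left h2 (Real.exp_pos _).le
    _ = ((n : ℝ) + 1) ^ (n + 1) := by rw [← mul_assoc, h4, one_mul]

/-- `n! ≤ e n (n/e)^n` for `n ≥ 1` -/
lemma hi' (n : ℕ) : ((n + 1)! : ℝ) ≤ Real.exp 1 * ((n : ℝ) + 1) * st (n + 1) := by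
  induction n with
  | zero =>
    simp only [st, Nat.factorial, Nat.cast_one, pow_one, zero_add, Nat.cast_zero]
    field_simp
    norm_num
  | succ n ih =>
    have e1 : (((n + 1 + 1)! : ℕ) : ℝ) = ((n : ℝ) + 2) * ((n + 1)! : ℝ) := by
      rw [Nat.factorial_succ]; push_cast; ring
    rw [e1]
    have h := exp_mul_pow (n + 1)
    have e2 : Real.exp 1 * ((n : ℝ) + 1) * st (n + 1) ≤ Real.exp 1 * st (n + 1 + 1) := by
      have hE := Real.exp_pos 1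
      have s1 : st (n + 1) = ((n + 1 : ℕ) : ℝ) ^ (n + 1) / Real.exp 1 ^ (n + 1) := by
        unfold st; rw [div_pow]
      have s2 : st (n + 1 + 1) = ((n + 1 + 1 : ℕ) : ℝ) ^ (n + 1 + 1) / Real.exp 1 ^ (n + 1 + 1) := by
        unfold st; rw [div_pow]
      rw [s1, s2]
      have e3 : Real.exp 1 * ((n : ℝ) + 1) * (((n + 1 : ℕ) : ℝ) ^ (n + 1) / Real.exp 1 ^ (n + 1)) =
          (Real.exp 1 * ((n + 1 : ℕ) : ℝ) ^ (n + 1 + 1)) / Real.exp 1 ^ (n + 1) := by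
        push_cast
        rw [pow_succ ((n : ℝ) + 1) (n + 1)]
        ring
      have e4 : Real.exp 1 * (((n + 1 + 1 : ℕ) : ℝ) ^ (n + 1 + 1) / Real.exp 1 ^ (n + 1 + 1)) =
          ((n + 1 + 1 : ℕ) : ℝ) ^ (n + 1 + 1) / Real.exp 1 ^ (n + 1) := by
        rw [pow_succ (Real.exp 1) (n + 1)]
        field_simp
      rw [e3, e4]
      apply div_le_div_of_nonneg_right _ (by positivity)
      have : ((n + 1 + 1 : ℕ) : ℝ) = ((n + 1 : ℕ) : ℝ) + 1 := by push_cast; ring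
      rw [this]
      exact h
    have hn : (0 : ℝ) ≤ (n : ℝ) + 2 := by positivity
    calc ((n : ℝ) + 2) * ((n + 1)! : ℝ) ≤ ((n : ℝ) + 2) * (Real.exp 1 * ((n : ℝ) + 1) * st (n + 1)) :=
          mul_le_mul_of_nonneg_left ih hn
      _ ≤ ((n : ℝ) + 2) * (Real.exp 1 * st (n + 1 + 1)) := mul_le_mul_of_nonneg_left e2 hn
      _ = Real.exp 1 * (((n + 1 : ℕ) : ℝ) + 1) * st (n + 1 + 1) := by push_cast; ring

lemma hi (n : ℕ) : (n ! : ℝ) ≤ 3 * ((n : ℝ) + 1) * st n := by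
  have hE : Real.exp 1 ≤ 3 := by
    have := Real.exp_one_lt_d9
    linarith
  cases n with
  | zero => simp [st]
  | succ n =>
    refine (hi' n).trans ?_
    have h0 := st_nonneg (n + 1)
    have h1 : Real.exp 1 * ((n : ℝ) + 1) ≤ 3 * (((n + 1 : ℕ) : ℝ) + 1) := by
      push_cast
      have : (0 : ℝ) ≤ n := Nat.cast_nonneg n
      nlinarith
    exact mul_le_mul_of_nonneg_right h1 h0

/-- `st (k q) = (k^k)^q (st q)^k` -/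
lemma st_mul (k q : ℕ) : st (k * q) = ((k : ℝ) ^ k) ^ q * st q ^ k := by
  unfold st
  have e : (((k * q : ℕ) : ℝ)) / Real.exp 1 = (k : ℝ) * ((q : ℝ) / Real.exp 1) := by
    push_cast; ring
  rw [e, mul_pow, ← pow_mul, ← pow_mul, mul_comm q k]

lemma fact_add (n k : ℕ) : ((n + k)! : ℝ) ≤ (n ! : ℝ) * ((n : ℝ) + k) ^ k := by
  have h1 := Nat.factorial_mul_ascFactorial n k
  have h2 := Nat.ascFactorial_le_pow_add n k
  have h3 : (n + k)! ≤ n ! * (n + k) ^ k := by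
    rw [← h1]; exact Nat.mul_le_mul_left _ h2
  exact_mod_cast h3

lemma core_lhs (X Y72 Y2 s Q k F72 F2 F1 : ℝ) (hX : 0 ≤ X) (hY2 : 0 ≤ Y2)
    (hs : 0 ≤ s) (hQ : 0 ≤ Q) (hF72 : 0 ≤ F72) (hF2 : 0 ≤ F2) (hF1 : 0 ≤ F1)
    (u1 : F72 ≤ 216 * Q * (Y72 * s ^ 72) * (k * Q ^ 66))
    (u2 : F2 ≤ 6 * Q * (Y2 * s ^ 2)) (u3 : F1 ≤ 3 * Q * s) :
    X * F72 * F2 ^ 3 * F1 ^ 18 ≤
      (k * 216 * 6 ^ 3 * 3 ^ 18) * Q ^ 88 * ((X * Y72 * Y2 ^ 3) * s ^ 96) := by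
  have h1 : 0 ≤ 216 * Q * (Y72 * s ^ 72) * (k * Q ^ 66) := hF72.trans u1
  have p2 : F2 ^ 3 ≤ (6 * Q * (Y2 * s ^ 2)) ^ 3 := pow_le_pow_left₀ hF2 u2 3
  have p3 : F1 ^ 18 ≤ (3 * Q * s) ^ 18 := pow_le_pow_left₀ hF1 u3 18
  calc X * F72 * F2 ^ 3 * F1 ^ 18
      ≤ X * (216 * Q * (Y72 * s ^ 72) * (k * Q ^ 66)) * (6 * Q * (Y2 * s ^ 2)) ^ 3 *
          (3 * Q * s) ^ 18 := by
        apply mul_le_mul _ p3 (by positivity) (by positivity)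
        apply mul_le_mul _ p2 (by positivity) (by positivity)
        exact mul_le_mul_of_nonneg_left u1 hX
    _ = _ := by ring

lemma core_rhs (Y24 Yt Y36 Y12 s F24 T F36 F12 F12' : ℝ) (h1 : 0 ≤ Y24) (h2 : 0 ≤ Yt)
    (h3 : 0 ≤ Y36) (h4 : 0 ≤ Y12) (hs : 0 ≤ s) (l1 : Y24 * s ^ 24 ≤ F24)
    (l2 : Y36 * s ^ 36 ≤ F36) (l3 : Y12 * s ^ 12 ≤ F12) (l4 : Y12 * s ^ 12 ≤ F12')
    (l5 : Yt ≤ T) :
    (Y24 * Yt * Y36 * Y12 ^ 3) * s ^ 96 ≤ F24 * T * F36 * F12 ^ 2 * F12' := by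
  calc (Y24 * Yt * Y36 * Y12 ^ 3) * s ^ 96 = (Y24 * s ^ 24) * Yt * (Y36 * s ^ 36) *
        (Y12 * s ^ 12) ^ 2 * (Y12 * s ^ 12) := by ring
    _ ≤ F24 * T * F36 * F12 ^ 2 * F12' := by
        have g1 : 0 ≤ F24 := le_trans (by positivity) l1
        have g2 : 0 ≤ T := le_trans h2 l5
        have g3 : 0 ≤ F36 := le_trans (by positivity) l2
        have g4 : 0 ≤ F12 := le_trans (by positivity) l3
        gcongr

lemma pow_le_mul_pow (x c Q : ℝ) (n : ℕ) (hx : 0 ≤ x) (h : x ≤ c * Q) :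
    x ^ n ≤ c ^ n * Q ^ n := (pow_le_pow_left₀ hx h n).trans_eq (mul_pow _ _ _)

lemma core_u1 (F Fq x s Q Y : ℝ) (n : ℕ) (h1 : F ≤ Fq * x ^ n) (h2 : Fq ≤ 216 * Q * (Y * s ^ 72))
    (h3 : 0 ≤ x) (h4 : x ≤ 72 * Q) (h0 : 0 ≤ Fq) :
    F ≤ 216 * Q * (Y * s ^ 72) * (72 ^ n * Q ^ n) := by
  have h5 := pow_le_mul_pow x 72 Q n h3 h4
  exact h1.trans (mul_le_mul h2 h5 (by positivity) (h0.trans h2))

lemma base_nonneg : (0 : ℝ) ≤ 2 ^ 30 / 3 ^ 12 := by norm_num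

lemma pn (c : ℝ) (k q : ℕ) (h : 0 ≤ c) : 0 ≤ (c ^ k) ^ q := pow_nonneg (pow_nonneg h _) _

lemma n24 : (0 : ℝ) ≤ 24 := by norm_num
lemma n36 : (0 : ℝ) ≤ 36 := by norm_num
lemma n12 : (0 : ℝ) ≤ 12 := by norm_num

lemma fin (C A Q1 Q2 M R : ℝ) (h1 : C ≤ A) (h2 : Q1 ≤ Q2) (h3 : M ≤ R) (h4 : 0 ≤ Q1)
    (h5 : 0 ≤ A) (h6 : 0 ≤ M) : C * Q1 * M ≤ A * Q2 * R :=
  mul_le_mul (mul_le_mul h1 h2 h4 h5) h3 h6 (mul_nonneg h5 (h4.trans h2))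

lemma base_eq : (2 ^ 30 / 3 ^ 12 : ℝ) * 72 ^ 72 * (2 ^ 2) ^ 3 =
    (24 : ℝ) ^ 24 * 2 ^ 36 * 36 ^ 36 * (12 ^ 12) ^ 3 := by norm_num

lemma base_eq_pow (q : ℕ) : (2 ^ 30 / 3 ^ 12 : ℝ) ^ q * (72 ^ 72) ^ q * ((2 ^ 2) ^ q) ^ 3 =
    ((24 : ℝ) ^ 24) ^ q * (2 ^ 36) ^ q * (36 ^ 36) ^ q * ((12 ^ 12) ^ q) ^ 3 := by
  have h := base_eq
  generalize (2 ^ 30 / 3 ^ 12 : ℝ) = a at h ⊢
  generalize (72 ^ 72 : ℝ) = b at h ⊢
  generalize (2 ^ 2 : ℝ) = c at h ⊢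
  generalize (24 ^ 24 : ℝ) = d at h ⊢
  generalize (2 ^ 36 : ℝ) = e at h ⊢
  generalize (36 ^ 36 : ℝ) = f at h ⊢
  generalize (12 ^ 12 : ℝ) = g at h ⊢
  rw [pow_right_comm c q 3, pow_right_comm g q 3, ← mul_pow, ← mul_pow, ← mul_pow, ← mul_pow,
    ← mul_pow, h]

end B3

theorem B3 {K : Type*} [Fintype K] (m : K → ℕ) (N : ℕ) (hN : ∑ τ, m τ = N) :
    (∏ τ, ((m τ)! : ℝ)) * (N : ℝ) ^ N ≤
      (3 * ((N : ℝ) + 1)) ^ Fintype.card K * (N ! : ℝ) * ∏ τ, (m τ : ℝ) ^ m τ := by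
  have h1 : ∏ τ, ((m τ)! : ℝ) ≤ ∏ τ, (3 * ((N : ℝ) + 1) * B3.st (m τ)) := by
    apply Finset.prod_le_prod
    · intro τ _; positivity
    · intro τ _
      refine (B3.hi (m τ)).trans ?_
      apply mul_le_mul_of_nonneg_right _ (B3.st_nonneg _)
      have : m τ ≤ N := by
        rw [← hN]; exact Finset.single_le_sum (fun _ _ => Nat.zero_le _) (Finset.mem_univ τ)
      have : (m τ : ℝ) ≤ N := by exact_mod_cast this
      linarith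
  have h2 : ∏ τ, (3 * ((N : ℝ) + 1) * B3.st (m τ)) =
      (3 * ((N : ℝ) + 1)) ^ Fintype.card K * ((∏ τ, (m τ : ℝ) ^ m τ) / Real.exp N) := by
    rw [Finset.prod_mul_distrib, Finset.prod_const, Finset.card_univ]
    congr 1
    have : ∀ τ, B3.st (m τ) = (m τ : ℝ) ^ m τ / Real.exp (m τ) := fun τ => B3.st_eq _
    simp only [this]
    rw [Finset.prod_div_distrib, ← Real.exp_sum, ← hN]
    push_cast
    rfl
  have h3 : (N : ℝ) ^ N ≤ Real.exp N * (N ! : ℝ) := by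
    have := B3.lo N
    rw [B3.st_eq, div_le_iff₀ (Real.exp_pos _)] at this
    linarith
  have h4 : 0 ≤ ∏ τ, (m τ : ℝ) ^ m τ := Finset.prod_nonneg (fun _ _ => by positivity)
  have hE := Real.exp_pos (N : ℝ)
  calc (∏ τ, ((m τ)! : ℝ)) * (N : ℝ) ^ N
      ≤ ((3 * ((N : ℝ) + 1)) ^ Fintype.card K * ((∏ τ, (m τ : ℝ) ^ m τ) / Real.exp N)) *
          (Real.exp N * (N ! : ℝ)) := by
        rw [h2] at h1
        exact mul_le_mul h1 h3 (by positivity) (by positivity)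
    _ = (3 * ((N : ℝ) + 1)) ^ Fintype.card K * (N ! : ℝ) * ∏ τ, (m τ : ℝ) ^ m τ := by
        field_simp

theorem C2 : ∃ A : ℕ, ∀ q r : ℕ, r < 12 →
    (2 ^ 30 / 3 ^ 12 : ℝ) ^ q * ((72 * q + 6 * r)! : ℝ) * ((2 * q)! : ℝ) ^ 3 * (q ! : ℝ) ^ 18 ≤
      A * ((q : ℝ) + 1) ^ A * (((24 * q)! : ℝ) * 2 ^ (36 * q + 3 * r) * ((36 * q + 3 * r)! : ℝ) *
        ((12 * q)! : ℝ) ^ 2 * ((12 * q + 3 * r)! : ℝ)) := by
  obtain ⟨A, hA1, hA2⟩ : ∃ A : ℕ, (72 : ℝ) ^ 66 * 216 * 6 ^ 3 * 3 ^ 18 ≤ (A : ℝ) ∧ 88 ≤ A := by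
    obtain ⟨A, hA⟩ := exists_nat_ge ((72 : ℝ) ^ 66 * 216 * 6 ^ 3 * 3 ^ 18)
    refine ⟨max A 88, hA.trans ?_, le_max_right _ _⟩
    exact_mod_cast le_max_left _ _
  refine ⟨A, fun q r hr => ?_⟩
  have hq : (0 : ℝ) ≤ q := Nat.cast_nonneg q
  have hq1 : (1 : ℝ) ≤ (q : ℝ) + 1 := by linarith
  set s := B3.st q with hs
  have s0 : 0 ≤ s := B3.st_nonneg q
  -- upper bounds
  have u1 : ((72 * q + 6 * r)! : ℝ) ≤ 216 * ((q : ℝ) + 1) * (((72 : ℝ) ^ 72) ^ q * s ^ 72) *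
      (72 ^ 66 * ((q : ℝ) + 1) ^ 66) := by
    have m1 : ((72 * q + 6 * r)! : ℝ) ≤ ((72 * q + 66)! : ℝ) := by
      exact_mod_cast Nat.factorial_le (by omega)
    have m2 := B3.fact_add (72 * q) 66
    have m3 := B3.hi (72 * q)
    rw [B3.st_mul] at m3
    have m4 : (3 : ℝ) * (((72 * q : ℕ) : ℝ) + 1) ≤ 216 * ((q : ℝ) + 1) := by push_cast; linarith
    have m5 : ((72 * q)! : ℝ) ≤ 216 * ((q : ℝ) + 1) * (((72 : ℝ) ^ 72) ^ q * s ^ 72) := by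
      refine m3.trans ?_
      have := mul_le_mul_of_nonneg_right m4
        (show (0 : ℝ) ≤ (((72 : ℝ) ^ 72) ^ q * s ^ 72) by positivity)
      simpa using this
    have m6 : ((72 * q : ℕ) : ℝ) + ((66 : ℕ) : ℝ) ≤ 72 * ((q : ℝ) + 1) := by
      clear m1 m2 m3 m5
      push_cast; linarith
    exact B3.core_u1 _ _ _ s _ _ 66 (m1.trans m2) m5
      (add_nonneg (Nat.cast_nonneg _) (Nat.cast_nonneg _)) m6 (Nat.cast_nonneg _)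
  have u2 : ((2 * q)! : ℝ) ≤ 6 * ((q : ℝ) + 1) * (((2 : ℝ) ^ 2) ^ q * s ^ 2) := by
    have m3 := B3.hi (2 * q)
    rw [B3.st_mul] at m3
    refine m3.trans ?_
    have m4 : (3 : ℝ) * (((2 * q : ℕ) : ℝ) + 1) ≤ 6 * ((q : ℝ) + 1) := by push_cast; linarith
    have := mul_le_mul_of_nonneg_right m4
      (show (0 : ℝ) ≤ (((2 : ℝ) ^ 2) ^ q * s ^ 2) by positivity)
    simpa using this
  have u3 : (q ! : ℝ) ≤ 3 * ((q : ℝ) + 1) * s := B3.hi q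
  -- lower bounds
  have l1 : ((24 : ℝ) ^ 24) ^ q * s ^ 24 ≤ ((24 * q)! : ℝ) := by
    have := B3.lo (24 * q)
    rw [B3.st_mul] at this
    simpa using this
  have l2 : ((36 : ℝ) ^ 36) ^ q * s ^ 36 ≤ ((36 * q + 3 * r)! : ℝ) := by
    have := B3.lo (36 * q)
    rw [B3.st_mul] at this
    refine le_trans (by simpa using this) ?_
    exact_mod_cast Nat.factorial_le (by omega)
  have l3 : ((12 : ℝ) ^ 12) ^ q * s ^ 12 ≤ ((12 * q)! : ℝ) := by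
    have := B3.lo (12 * q)
    rw [B3.st_mul] at this
    simpa using this
  have l4 : ((12 : ℝ) ^ 12) ^ q * s ^ 12 ≤ ((12 * q + 3 * r)! : ℝ) := by
    refine l3.trans ?_
    exact_mod_cast Nat.factorial_le (by omega)
  have l5 : ((2 : ℝ) ^ 36) ^ q ≤ 2 ^ (36 * q + 3 * r) := by
    rw [← pow_mul]
    exact pow_le_pow_right₀ (by norm_num) (by omega)
  have lhs := B3.core_lhs ((2 ^ 30 / 3 ^ 12 : ℝ) ^ q) (((72 : ℝ) ^ 72) ^ q) (((2 : ℝ) ^ 2) ^ q) s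
    ((q : ℝ) + 1) (72 ^ 66) _ _ _ (pow_nonneg B3.base_nonneg _)
    (pow_nonneg (pow_nonneg zero_le_two _) _) s0 (zero_le_one.trans hq1)
    (Nat.cast_nonneg _) (Nat.cast_nonneg _) (Nat.cast_nonneg _) u1 u2 u3
  have rhs := B3.core_rhs _ _ _ _ s _ _ _ _ _ (B3.pn 24 24 q B3.n24) (B3.pn 2 36 q zero_le_two) (B3.pn 36 36 q B3.n36)
    (B3.pn 12 12 q B3.n12) s0 l1 l2 l3 l4 l5
  rw [B3.base_eq_pow] at lhs
  have hp : ((q : ℝ) + 1) ^ 88 ≤ ((q : ℝ) + 1) ^ A := pow_le_pow_right₀ hq1 hA2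
  refine lhs.trans ?_
  exact B3.fin _ _ _ _ _ _ hA1 hp rhs (pow_nonneg (zero_le_one.trans hq1) _) (Nat.cast_nonneg _)
    (mul_nonneg (mul_nonneg (mul_nonneg (mul_nonneg (B3.pn 24 24 q B3.n24) (B3.pn 2 36 q zero_le_two))
      (B3.pn 36 36 q B3.n36)) (pow_nonneg (B3.pn 12 12 q B3.n12) _)) (pow_nonneg s0 _))

end Pool.H98.Sud
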