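import Pool.Agent.helper98.SUD.B1
import Pool.Agent.helper98.SUD.B3

/-!
# B2: upper bound for the sum of `cnt` over all configurations
-/

namespace Pool.H98.Sud

open Finset
open scoped Classical Nat

namespace B2

/-- the number of occurrences of each type -/
noncomputable def ct {P K : Type*} [Fintype P] (T : P → K) (τ : K) : ℕ :=
  (univ.filter (fun p => T p = τ)).card

lemma sum_ct {P K : Type*} [Fintype P] [Fintype K] (T : P → K) :
    ∑ τ, ct T τ = Fintype.card P := by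
  unfold ct
  rw [← card_univ]
  exact (card_eq_sum_card_fiberwise (fun _ _ => mem_coe.2 (mem_univ _))).symm

lemma prod_ct {P K : Type*} [Fintype P] [Fintype K] (T : P → K) (y : K → ℝ) :
    ∏ p, y (T p) = ∏ τ, y τ ^ ct T τ := by
  rw [← prod_fiberwise_of_maps_to (g := T) (fun _ _ => mem_univ _)]
  refine prod_congr rfl fun τ _ => ?_
  rw [ct, prod_congr rfl (fun p hp => by rw [(mem_filter.1 hp).2]), prod_const]

/-- the counts of `ty σ l` are symmetric -/
lemma ct_symm {E K : Type*} [Fintype E] (σ : K → K) (hσ : ∀ t, σ (σ t) = t) (l : E → K) (τ : K) :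
    ct (ty σ l) (σ τ) = ct (ty σ l) τ := by
  unfold ct
  have hty : ∀ p : E × Bool, ty σ l (p.1, !p.2) = σ (ty σ l p) := by
    rintro ⟨e, b⟩
    cases b <;> simp [ty, hσ]
  refine card_bij (fun p _ => (p.1, !p.2)) ?_ ?_ ?_
  · intro p hp
    rw [mem_filter] at hp ⊢
    refine ⟨mem_univ _, ?_⟩
    rw [hty, hp.2, hσ]
  · rintro ⟨e, b⟩ _ ⟨e', b'⟩ _ h
    simpa using h
  · rintro ⟨e, b⟩ hp
    rw [mem_filter] at hp
    refine ⟨(e, !b), ?_, by simp⟩
    rw [mem_filter]
    refine ⟨mem_univ _, ?_⟩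
    have := hty (e, b)
    simp only at this
    rw [this, hp.2]

/-- the sum over configurations, by types -/
lemma sum_cnt {E V K : Type*} [Fintype E] [Fintype V] [Fintype K] (σ : K → K)
    (L : V → (Fin 3 → K) → Prop) :
    ∑ f : Conf E V, cnt σ L f = ∑ l : E → K, ∑ t ∈ univ.filter (fun t : V × Fin 3 → K =>
      ∀ v, L v (fun k => t (v, k))), if ct (ty σ l) = ct t then ∏ τ, (ct t τ)! else 0 := by
  unfold cnt
  simp only [card_filter]
  rw [sum_comm]
  refine sum_congr rfl fun l _ => ?_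
  trans (univ.filter (fun f : Conf E V => ∀ v, L v (state f σ l v))).card
  · rw [card_filter]
    exact sum_congr rfl fun f _ => by congr
  rw [card_eq_sum_card_fiberwise (f := fun f : Conf E V => fun q =>
    ty σ l (f.symm q)) (t := univ.filter (fun t : V × Fin 3 → K => ∀ v, L v (fun k => t (v, k))))]
  · refine sum_congr rfl fun t ht => ?_
    have h1 : (univ.filter (fun f : Conf E V => ∀ v, L v (state f σ l v))).filter
        (fun f : Conf E V => (fun q => ty σ l (f.symm q)) = t) =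
        univ.filter (fun f : Conf E V => ∀ p, t (f p) = ty σ l p) := by
      ext f
      simp only [mem_filter, mem_univ, true_and] at ht ⊢
      constructor
      · rintro ⟨_, rfl⟩ p
        simp
      · intro h
        have h2 : (fun q => ty σ l (f.symm q)) = t := by
          funext q
          rw [← h, Equiv.apply_symm_apply]
        refine ⟨fun v => ?_, h2⟩
        have h3 := ht v
        rw [← h2] at h3
        exact h3
    rw [h1]
    have hb := B1 (ty σ l) t
    refine Eq.trans ?_ (hb.trans ?_)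
    · exact congrArg card (by ext f; simp only [mem_filter, mem_univ, true_and])
    change (if ∀ τ, ct (ty σ l) τ = ct t τ then ∏ τ, (ct (ty σ l) τ)! else 0) = _
    by_cases h : ct (ty σ l) = ct t
    · rw [if_pos h, if_pos (fun τ => congrFun h τ)]
      refine prod_congr rfl fun τ _ => ?_
      rw [← h]
    · rw [if_neg h, if_neg (fun h' => h (funext h'))]
  · intro f hf
    simp only [coe_filter, mem_univ, true_and, Set.mem_ofPred_eq] at hf ⊢
    exact hf

/-- the number of edge typings with given counts -/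
lemma count_l {E K : Type*} [Fintype E] [Fintype K] (σ : K → K)
    (m : K → ℕ) (x : K → ℝ) (hx : ∀ t, 0 ≤ x t)
    (hxσ : ∀ t, x (σ t) = x t) (hx1 : ∑ t, x t ^ 2 = 1) :
    ((univ.filter (fun l : E → K => ct (ty σ l) = m)).card : ℝ) * ∏ τ, x τ ^ m τ ≤ 1 := by
  have h1 : (∑ τ, x τ ^ 2) ^ Fintype.card E = ∑ l : E → K, ∏ τ, x τ ^ ct (ty σ l) τ := by
    have h2 := prod_univ_sum (fun _ : E => (univ : Finset K)) (fun _ τ => x τ ^ 2)
    rw [prod_const, card_univ, Fintype.piFinset_univ] at h2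
    rw [h2]
    refine sum_congr rfl fun l _ => ?_
    rw [← prod_ct (ty σ l) x, Fintype.prod_prod_type]
    refine prod_congr rfl fun e _ => ?_
    rw [Fintype.prod_bool]
    simp only [ty, cond_true, cond_false]
    rw [hxσ, pow_two]
  rw [hx1, one_pow] at h1
  rw [h1, ← nsmul_eq_mul, ← sum_const]
  refine le_trans (le_of_eq ?_) (sum_le_sum_of_subset_of_nonneg (filter_subset
    (fun l : E → K => ct (ty σ l) = m) univ) (fun l _ _ => prod_nonneg fun τ _ =>
      pow_nonneg (hx τ) _))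
  refine sum_congr rfl fun l hl => ?_
  rw [(mem_filter.1 hl).2]

/-- the number of vertex typings with given counts -/
lemma count_t {V K : Type*} [Fintype V] [Fintype K]
    (L : V → (Fin 3 → K) → Prop) (B : V → ℝ) (m : K → ℕ) (y : K → ℝ) (hy : ∀ t, 0 ≤ y t)
    (hB : ∀ v, ∑ s ∈ univ.filter (fun s : Fin 3 → K => L v s), ∏ k, y (s k) ≤ B v) :
    (((univ.filter (fun t : V × Fin 3 → K => ∀ v, L v (fun k => t (v, k)))).filter
      (fun t => ct t = m)).card : ℝ) * ∏ τ, y τ ^ m τ ≤ ∏ v, B v := by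
  have h1 : ∏ v, ∑ s ∈ univ.filter (fun s : Fin 3 → K => L v s), ∏ k, y (s k) =
      ∑ t ∈ univ.filter (fun t : V × Fin 3 → K => ∀ v, L v (fun k => t (v, k))),
        ∏ τ, y τ ^ ct t τ := by
    rw [prod_univ_sum]
    refine sum_bij' (fun S _ => fun q => S q.1 q.2) (fun t _ => fun v k => t (v, k)) ?_ ?_ ?_ ?_ ?_
    · intro S hS
      rw [Fintype.mem_piFinset] at hS
      rw [mem_filter]
      exact ⟨mem_univ _, fun v => (mem_filter.1 (hS v)).2⟩
    · intro t ht
      rw [mem_filter] at ht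
      rw [Fintype.mem_piFinset]
      exact fun v => mem_filter.2 ⟨mem_univ _, ht.2 v⟩
    · intro S _
      rfl
    · intro t _
      rfl
    · intro S _
      rw [← prod_ct, Fintype.prod_prod_type]
  refine le_trans ?_ (prod_le_prod (fun v _ => sum_nonneg fun s _ => prod_nonneg fun k _ =>
    hy _) (fun v _ => hB v))
  rw [h1, ← nsmul_eq_mul, ← sum_const]
  refine le_trans (le_of_eq ?_) (sum_le_sum_of_subset_of_nonneg (filter_subset
    (fun t : V × Fin 3 → K => ct t = m) _) (fun l _ _ => prod_nonneg fun τ _ =>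
      pow_nonneg (hy τ) _))
  refine sum_congr rfl fun l hl => ?_
  rw [(mem_filter.1 hl).2]

/-- the bound for one vector of counts -/
lemma term {E V K : Type*} [Fintype E] [Fintype V] [Fintype K] (σ : K → K)
    (hσ : ∀ t, σ (σ t) = t) (g : K → ℝ) (hg : ∀ t, 0 < g t) (hg2 : ∀ t, g t * g (σ t) = 1)
    (L : V → (Fin 3 → K) → Prop) (B : V → ℝ)
    (hB : ∀ x : K → ℝ, (∀ t, 0 ≤ x t) → (∀ t, x (σ t) = x t) → ∑ t, x t ^ 2 = 1 →
      ∀ v, ∑ s ∈ univ.filter (fun s : Fin 3 → K => L v s), ∏ k, (g (s k) * x (s k)) ≤ B v)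
    (N : ℕ) (hN : 0 < N) (m : K → ℕ) (hm : ∑ τ, m τ = N) (hmσ : ∀ τ, m (σ τ) = m τ) :
    ((univ.filter (fun l : E → K => ct (ty σ l) = m)).card : ℝ) *
      (((univ.filter (fun t : V × Fin 3 → K => ∀ v, L v (fun k => t (v, k)))).filter
        (fun t => ct t = m)).card : ℝ) * ∏ τ, ((m τ)! : ℝ) ≤
      (3 * ((N : ℝ) + 1)) ^ Fintype.card K * (N ! : ℝ) * ∏ v, B v := by
  have hNpos : (0 : ℝ) < N := by exact_mod_cast hN
  set x : K → ℝ := fun τ => √((m τ : ℝ) / N) with hx
  have hx0 : ∀ t, 0 ≤ x t := fun t => Real.sqrt_nonneg _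
  have hxσ : ∀ t, x (σ t) = x t := fun t => by simp only [hx, hmσ]
  have hxsq : ∀ t, x t ^ 2 = (m t : ℝ) / N := fun t => Real.sq_sqrt (by positivity)
  have hx1 : ∑ t, x t ^ 2 = 1 := by
    simp only [hxsq]
    rw [← sum_div, ← Nat.cast_sum, hm, div_self hNpos.ne']
  have ha := count_l (E := E) σ m x hx0 hxσ hx1
  have hb := count_t L B m (fun τ => g τ * x τ) (fun t => mul_nonneg (hg t).le (hx0 t))
    (hB x hx0 hxσ hx1)
  -- the gauge disappears
  have hσb : Function.Bijective σ := Function.Involutive.bijective hσ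
  have hgm : ∏ τ, g τ ^ m τ = 1 := by
    have h1 : (∏ τ, g τ ^ m τ) * (∏ τ, g τ ^ m τ) = 1 := by
      nth_rw 2 [← hσb.prod_comp]
      rw [← prod_mul_distrib]
      refine prod_eq_one fun τ _ => ?_
      rw [hmσ, ← mul_pow, hg2, one_pow]
    have h2 : 0 < ∏ τ, g τ ^ m τ := prod_pos fun τ _ => pow_pos (hg τ) _
    nlinarith
  have hgx : ∏ τ, (g τ * x τ) ^ m τ = ∏ τ, x τ ^ m τ := by
    simp only [mul_pow]
    rw [prod_mul_distrib, hgm, one_mul]
  rw [hgx] at hb
  set p : ℝ := ∏ τ, x τ ^ m τ with hp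
  have hp0 : 0 ≤ p := prod_nonneg fun τ _ => pow_nonneg (hx0 τ) _
  have hc := B3 m N hm
  have hmm : ∏ τ, (m τ : ℝ) ^ m τ = (N : ℝ) ^ N * p ^ 2 := by
    rw [hp, ← prod_pow, ← hm, ← prod_pow_eq_pow_sum, ← prod_mul_distrib, hm]
    refine prod_congr rfl fun τ _ => ?_
    rw [← pow_mul, mul_comm (m τ) 2, pow_mul, hxsq, ← mul_pow]
    congr 1
    field_simp
  rw [hmm] at hc
  set a : ℝ := ((univ.filter (fun l : E → K => ct (ty σ l) = m)).card : ℝ) with hadef
  set b : ℝ := (((univ.filter (fun t : V × Fin 3 → K => ∀ v, L v (fun k => t (v, k)))).filter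
        (fun t => ct t = m)).card : ℝ) with hbdef
  have ha0 : 0 ≤ a := Nat.cast_nonneg _
  have hb0 : 0 ≤ b := Nat.cast_nonneg _
  have hNN : (0 : ℝ) < (N : ℝ) ^ N := pow_pos hNpos _
  have hc' : ∏ τ, ((m τ)! : ℝ) ≤ (3 * ((N : ℝ) + 1)) ^ Fintype.card K * (N ! : ℝ) * p ^ 2 := by
    refine le_of_mul_le_mul_right ?_ hNN
    calc (∏ τ, ((m τ)! : ℝ)) * (N : ℝ) ^ N ≤ _ := hc
      _ = _ := by ring
  have hC0 : 0 ≤ (3 * ((N : ℝ) + 1)) ^ Fintype.card K * (N ! : ℝ) := by positivity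
  calc a * b * ∏ τ, ((m τ)! : ℝ) ≤ a * b * ((3 * ((N : ℝ) + 1)) ^ Fintype.card K * (N ! : ℝ) * p ^ 2) :=
        mul_le_mul_of_nonneg_left hc' (mul_nonneg ha0 hb0)
    _ = (3 * ((N : ℝ) + 1)) ^ Fintype.card K * (N ! : ℝ) * ((a * p) * (b * p)) := by ring
    _ ≤ (3 * ((N : ℝ) + 1)) ^ Fintype.card K * (N ! : ℝ) * (1 * ∏ v, B v) := by
        refine mul_le_mul_of_nonneg_left ?_ hC0
        refine mul_le_mul ha hb (mul_nonneg hb0 hp0) zero_le_one
    _ = _ := by ring

end B2

open B2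

theorem B2 {E V K : Type*} [Fintype E] [Fintype V] [Fintype K] [Nonempty K] (σ : K → K)
    (hσ : ∀ t, σ (σ t) = t) (g : K → ℝ) (hg : ∀ t, 0 < g t) (hg2 : ∀ t, g t * g (σ t) = 1)
    (hE : 0 < Fintype.card E) (hEV : 2 * Fintype.card E = 3 * Fintype.card V)
    (L : V → (Fin 3 → K) → Prop) (B : V → ℝ)
    (hB : ∀ x : K → ℝ, (∀ t, 0 ≤ x t) → (∀ t, x (σ t) = x t) → ∑ t, x t ^ 2 = 1 →
      ∀ v, ∑ s ∈ univ.filter (fun s : Fin 3 → K => L v s), ∏ k, (g (s k) * x (s k)) ≤ B v) :
    ∑ f : Conf E V, (cnt σ L f : ℝ) ≤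
      ((2 * Fintype.card E)! : ℝ) *
        (3 * (2 * (Fintype.card E : ℝ) + 1) ^ 2) ^ Fintype.card K * ∏ v, B v := by
  set N : ℕ := 2 * Fintype.card E with hN
  have hNpos : (0 : ℝ) < N := by rw [hN]; positivity
  have hcardP : Fintype.card (E × Bool) = N := by
    rw [Fintype.card_prod, Fintype.card_bool, hN, mul_comm]
  have hcardQ : Fintype.card (V × Fin 3) = N := by
    rw [Fintype.card_prod, Fintype.card_fin, hEV, mul_comm]
  -- B is nonnegative
  have hBprod : 0 ≤ ∏ v, B v := by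
    refine prod_nonneg fun v _ => ?_
    refine le_trans ?_ (hB (fun _ => √((1 : ℝ) / Fintype.card K)) (fun _ => Real.sqrt_nonneg _)
      (fun _ => rfl) ?_ v)
    · exact sum_nonneg fun s _ => prod_nonneg fun k _ =>
        mul_nonneg (hg _).le (Real.sqrt_nonneg _)
    · rw [sum_const, Real.sq_sqrt (by positivity), card_univ, nsmul_eq_mul]
      field_simp
  have hN0 : 0 < N := by omega
  set TL : Finset (V × Fin 3 → K) :=
    univ.filter (fun t : V × Fin 3 → K => ∀ v, L v (fun k => t (v, k))) with hTL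
  set M : Finset (K → ℕ) := univ.image (fun l : E → K => ct (ty σ l)) with hM
  have hMcard : (M.card : ℝ) ≤ ((N : ℝ) + 1) ^ Fintype.card K := by
    have h1 : M ⊆ Fintype.piFinset (fun _ : K => range (N + 1)) := by
      intro m hm
      rw [hM, mem_image] at hm
      obtain ⟨l, _, rfl⟩ := hm
      rw [Fintype.mem_piFinset]
      intro τ
      rw [mem_range, Nat.lt_succ_iff, ← hcardP, ← sum_ct (ty σ l)]
      exact single_le_sum (f := fun τ => ct (ty σ l) τ) (fun _ _ => Nat.zero_le _) (mem_univ τ)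
    have h2 := card_le_card h1
    rw [Fintype.card_piFinset, prod_const, card_range, card_univ] at h2
    exact_mod_cast h2
  have h3 : ∑ f : Conf E V, (cnt σ L f : ℝ) = ∑ m ∈ M,
      ((univ.filter (fun l : E → K => ct (ty σ l) = m)).card : ℝ) *
        ((TL.filter (fun t => ct t = m)).card : ℝ) * ∏ τ, ((m τ)! : ℝ) := by
    rw [← Nat.cast_sum, sum_cnt]
    push_cast
    rw [← sum_fiberwise_of_maps_to (s := (univ : Finset (E → K))) (t := M)
      (g := fun l : E → K => ct (ty σ l)) (fun l _ => mem_image_of_mem _ (mem_univ _))]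
    refine sum_congr rfl fun m _ => ?_
    rw [mul_assoc, ← nsmul_eq_mul, ← sum_const]
    refine sum_congr rfl fun l hl => ?_
    rw [(mem_filter.1 hl).2, ← nsmul_eq_mul, ← sum_const, sum_filter (fun t => ct t = m)]
    refine sum_congr rfl fun t _ => ?_
    by_cases h : ct t = m
    · rw [if_pos h, if_pos h.symm, h]
    · rw [if_neg h, if_neg (fun h' => h h'.symm)]
  rw [h3]
  have h4 : ∀ m ∈ M, ((univ.filter (fun l : E → K => ct (ty σ l) = m)).card : ℝ) *
        ((TL.filter (fun t => ct t = m)).card : ℝ) * ∏ τ, ((m τ)! : ℝ) ≤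
      (3 * ((N : ℝ) + 1)) ^ Fintype.card K * (N ! : ℝ) * ∏ v, B v := by
    intro m hm
    rw [hM, mem_image] at hm
    obtain ⟨l, _, rfl⟩ := hm
    exact term (E := E) σ hσ g hg hg2 L B hB N hN0 _ ((sum_ct _).trans hcardP) (ct_symm σ hσ l)
  have hW : 0 ≤ (3 * ((N : ℝ) + 1)) ^ Fintype.card K * (N ! : ℝ) * ∏ v, B v :=
    mul_nonneg (by positivity) hBprod
  refine (sum_le_card_nsmul _ _ _ h4).trans ?_
  rw [nsmul_eq_mul]
  refine (mul_le_mul_of_nonneg_right hMcard hW).trans (le_of_eq ?_)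
  rw [hN]
  push_cast
  generalize 2 * (Fintype.card E : ℝ) + 1 = X
  rw [show 3 * X ^ 2 = 3 * X * X by ring, mul_pow (3 * X) X]
  ring

end Pool.H98.Sud
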