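import Pool.Agent.helper98.SUD.Defs

/-!
# The Sudoku number of a random cubic graph: notation for the second moment
-/

namespace Pool.H98.Sud

open Finset Filter
open scoped Classical Topology Nat

noncomputable def sq (U : Fin 3 → Fin 3 → ℝ) : ℝ := ∑ i, ∑ j, U i j ^ 2
noncomputable def cub (U : Fin 3 → Fin 3 → ℝ) : ℝ := ∑ i, ∑ j, U i j ^ 3
noncomputable def perm3 (U : Fin 3 → Fin 3 → ℝ) : ℝ :=
  U 0 0 * U 1 1 * U 2 2 + U 0 0 * U 1 2 * U 2 1 + U 0 1 * U 1 0 * U 2 2 + U 0 1 * U 1 2 * U 2 0 +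
    U 0 2 * U 1 0 * U 2 1 + U 0 2 * U 1 1 * U 2 0
noncomputable def trip (U W : Fin 3 → Fin 3 → ℝ) : ℝ :=
  ∑ i, ∑ j, U i j * (W i (j + 1) * W i (j + 2) + W (i + 1) j * W (i + 2) j +
    W (i + 1) (j + 1) * W (i + 2) (j + 2) + W (i + 1) (j + 2) * W (i + 2) (j + 1))
/-- sum of `h p * k q * k r` over all `p + q + r = 0` in the affine plane over `F_3` -/
noncomputable def rad (h k : Fin 3 → Fin 3 → ℝ) : ℝ :=
  ∑ i, ∑ j, ∑ i', ∑ j', h i j * (k i' j' * k (-i - i') (-j - j'))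

/-- the gauge -/
noncomputable def gg (t : Ty × Ty) : ℝ :=
  if t.1.1 = t.2.1 then (if t.1.1 = true then √2 else 1 / √2) else 1
def flip2 (t : Ty × Ty) : Ty × Ty := (flip t.1, flip t.2)
/-- legitimate pairs of states -/
def LL (s : Fin 3 → Ty × Ty) : Prop := Legit (fun k => (s k).1) ∧ Legit (fun k => (s k).2)
/-- legitimate at the first `n` vertices -/
def L1 (n : ℕ) {N : ℕ} (v : Fin N) (s : Fin 3 → Ty) : Prop := (v : ℕ) < n → Legit s
def L2 (n : ℕ) {N : ℕ} (v : Fin N) (s : Fin 3 → Ty × Ty) : Prop := (v : ℕ) < n → LL s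

lemma nonempty_conf (m : ℕ) : Nonempty (Conf (Fin (3 * m)) (Fin (2 * m))) := by
  refine ⟨Fintype.equivOfCardEq ?_⟩
  simp [Fintype.card_prod]
  ring

lemma card_conf (m : ℕ) : Fintype.card (Conf (Fin (3 * m)) (Fin (2 * m))) = (6 * m)! := by
  obtain ⟨e⟩ := nonempty_conf m
  rw [Fintype.card_equiv e]
  simp [Fintype.card_prod]
  congr 1
  ring

lemma card_conf' {E V : Type*} [Fintype E] [Fintype V]
    (h : 2 * Fintype.card E = 3 * Fintype.card V) :
    Fintype.card (Conf E V) = (2 * Fintype.card E)! := by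
  have e : Conf E V := Fintype.equivOfCardEq (by simp [Fintype.card_prod]; omega)
  rw [Fintype.card_equiv e]
  simp [Fintype.card_prod]
  congr 1
  ring

lemma flip_flip (t : Ty) : flip (flip t) = t := by
  simp [flip]

lemma flip2_flip2 (t : Ty × Ty) : flip2 (flip2 t) = t := by
  simp [flip2, flip_flip]

end Pool.H98.Sud
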