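/-
Module C1 of helper98's Sudoku project (MP_baf3e3_co): lower bound for the first moment.  helper80.
-/
import Pool.Agent.helper98.SUD.Defs2
import Pool.Agent.helper98.SUD.B1

namespace Pool.H98.Sud

open Finset Filter
open scoped Classical Topology Nat

namespace C1aux

/-- the 21 legitimate states -/
abbrev K21 := Fin 3 ⊕ (Fin 3 × Equiv.Perm (Fin 3))

def st : K21 → Fin 3 → Ty
  | Sum.inl x => fun _ => (true, x)
  | Sum.inr (i, π) => fun k => (decide (k = i), π k)

theorem st_injective : Function.Injective st := by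
  intro a b h
  rcases a with x | ⟨i, π⟩ <;> rcases b with y | ⟨j, ρ⟩
  · have := congrFun h 0
    simp only [st, Prod.mk.injEq, true_and] at this
    rw [this]
  · exfalso
    have h0 := congrArg Prod.fst (congrFun h 0)
    have h1 := congrArg Prod.fst (congrFun h 1)
    simp only [st] at h0 h1
    have e0 : (0 : Fin 3) = j := of_decide_eq_true h0.symm
    have e1 : (1 : Fin 3) = j := of_decide_eq_true h1.symm
    exact absurd (e0.trans e1.symm) (by decide)
  · exfalso
    have h0 := congrArg Prod.fst (congrFun h 0)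
    have h1 := congrArg Prod.fst (congrFun h 1)
    simp only [st] at h0 h1
    have e0 : (0 : Fin 3) = i := of_decide_eq_true h0
    have e1 : (1 : Fin 3) = i := of_decide_eq_true h1
    exact absurd (e0.trans e1.symm) (by decide)
  · have hi : i = j := by
      have h0 := congrArg Prod.fst (congrFun h i)
      simp only [st, decide_true] at h0
      exact of_decide_eq_true h0.symm
    have hπ : π = ρ := by
      ext k
      have := congrArg Prod.snd (congrFun h k)
      simp only [st] at this
      rw [this]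
    rw [hi, hπ]

theorem legit_st (s : K21) : Legit (st s) := by
  rcases s with x | ⟨i, π⟩
  · exact Or.inl ⟨x, fun k => rfl⟩
  · refine Or.inr ⟨⟨i, by simp [st], fun k hk => ?_⟩, fun k k' h => ?_⟩
    · simp only [st] at hk
      exact of_decide_eq_true hk
    · simp only [st] at h
      exact π.injective h

/-- the number of half-edges of type `τ` -/
noncomputable def nc (s : Fin 3 → Ty) (τ : Ty) : ℕ := (univ.filter (fun k : Fin 3 => s k = τ)).card

/-- the number of half-edges of type `τ` in the state `s` -/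
noncomputable def cc (s : K21) (τ : Ty) : ℕ := nc (st s) τ

theorem nc_const (t τ : Ty) : nc (fun _ => t) τ = if t = τ then 3 else 0 := by
  unfold nc
  split_ifs with h
  · simp [h]
  · simp [h]

theorem card_pairs {V : Type} [Fintype V] (g : V → Fin 3 → Ty) (τ : Ty) :
    (univ.filter (fun p : V × Fin 3 => g p.1 p.2 = τ)).card = ∑ v, nc (g v) τ := by
  rw [card_filter, Fintype.sum_prod_type]
  refine sum_congr rfl (fun v _ => ?_)
  unfold nc
  rw [card_filter]

/-- multiplicities of the states -/
def mm (q : ℕ) : K21 → ℕ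
  | Sum.inl _ => 2 * q
  | Sum.inr _ => q

theorem card_perm3 : Fintype.card (Fin 3 × Equiv.Perm (Fin 3)) = 18 := by
  rw [Fintype.card_prod, Fintype.card_perm, Fintype.card_fin]
  rfl

theorem sum_mm (q : ℕ) : ∑ s, mm q s = 24 * q := by
  rw [Fintype.sum_sum_type]
  simp only [mm, sum_const, card_univ, card_perm3, Fintype.card_fin, smul_eq_mul]
  ring

theorem prod_mm (q : ℕ) : ∏ s, (mm q s)! = ((2 * q)!) ^ 3 * (q !) ^ 18 := by
  rw [Fintype.prod_sum_type]
  simp only [mm, prod_const, card_univ, card_perm3, Fintype.card_fin]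

theorem cc_inl (x : Fin 3) (τ : Ty) : cc (Sum.inl x) τ = if (true, x) = τ then 3 else 0 :=
  nc_const _ _

/-- total number of half-edges of type `τ` over the rainbow states -/
theorem sum_cc_inr (τ : Ty) : ∑ s : Fin 3 × Equiv.Perm (Fin 3), cc (Sum.inr s) τ
    = if τ.1 = true then 6 else 12 := by
  have h : ∀ s : Fin 3 × Equiv.Perm (Fin 3), cc (Sum.inr s) τ
      = ∑ k : Fin 3, if (decide (k = s.1), s.2 k) = τ then 1 else 0 := by
    intro s
    unfold cc nc st
    rw [card_filter]
  rw [sum_congr rfl (fun s _ => h s)]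
  have key : ∀ τ : Bool × Fin 3, (∑ s : Fin 3 × Equiv.Perm (Fin 3), ∑ k : Fin 3,
      (if (decide (k = s.1), s.2 k) = τ then 1 else 0)) = if τ.1 = true then 6 else 12 := by
    decide +kernel
  convert key τ using 5

theorem sum_mm_cc (q : ℕ) (τ : Ty) : ∑ s, mm q s * cc s τ = 12 * q := by
  rw [Fintype.sum_sum_type]
  simp only [mm, cc_inl, ← mul_sum, sum_cc_inr]
  rcases τ with ⟨b, x⟩
  have h : ∑ i : Fin 3, (if ((true, i) : Bool × Fin 3) = (b, x) then 3 else 0)
      = if b = true then 3 else 0 := by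
    cases b
    · simp
    · simp [Finset.sum_ite_eq']
  rw [h]
  cases b
  · simp only [Bool.false_eq_true, if_false]; ring
  · simp only [if_true]; ring

/-- vertex types -/
def tt {q r : ℕ} (T : Fin (24 * q) → K21) : Fin (24 * q) ⊕ (Fin r ⊕ Fin r) → Fin 3 → Ty
  | Sum.inl i => st (T i)
  | Sum.inr (Sum.inl _) => fun _ => (true, 0)
  | Sum.inr (Sum.inr _) => fun _ => (false, 0)

/-- the number of edges with a given label -/
def aa (q r : ℕ) (x : Fin 3) : ℕ := if x = 0 then 12 * q + 3 * r else 12 * q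

theorem sum_aa (q r : ℕ) : ∑ x, aa q r x = 36 * q + 3 * r := by
  rw [Fin.sum_univ_three]
  simp [aa]
  ring

theorem prod_aa (q r : ℕ) : ∏ x, (aa q r x)! = (12 * q + 3 * r)! * ((12 * q)!) ^ 2 := by
  rw [Fin.prod_univ_three]
  simp [aa]
  ring

theorem exists_e (q r : ℕ) : ∃ e : Fin (2 * (12 * q + r)) ≃ Fin (24 * q) ⊕ (Fin r ⊕ Fin r),
    ∀ v : Fin (2 * (12 * q + r)), (v : ℕ) < 24 * q → ∃ i, e v = Sum.inl i := by
  have h1 : 2 * (12 * q + r) = 24 * q + (r + r) := by ring
  refine ⟨(finCongr h1).trans (finSumFinEquiv.symm.trans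
    (Equiv.sumCongr (Equiv.refl _) finSumFinEquiv.symm)), fun v hv => ⟨⟨v, hv⟩, ?_⟩⟩
  have h2 : (finCongr h1) v = Fin.castAdd (r + r) ⟨v, hv⟩ := by
    ext
    simp
  simp only [Equiv.trans_apply, h2, finSumFinEquiv_symm_apply_castAdd, Equiv.sumCongr_apply,
    Sum.map_inl, Equiv.refl_apply]

/-- the number of half-edges of each type -/
theorem count_tt {q r : ℕ} (e : Fin (2 * (12 * q + r)) ≃ Fin (24 * q) ⊕ (Fin r ⊕ Fin r))
    (T : Fin (24 * q) → K21)
    (hT : ∀ τ, (univ.filter (fun p => T p = τ)).card = mm q τ) (τ : Ty) :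
    (univ.filter (fun p : Fin (2 * (12 * q + r)) × Fin 3 => tt T (e p.1) p.2 = τ)).card
      = aa q r τ.2 := by
  have h0 := card_pairs (fun v => tt T (e v)) τ
  have h0' : (univ.filter (fun p : Fin (2 * (12 * q + r)) × Fin 3 => tt T (e p.1) p.2 = τ)).card
      = ∑ v, nc (tt T (e v)) τ := by convert h0
  rw [h0', ← Equiv.sum_comp e.symm]
  simp only [Equiv.apply_symm_apply]
  rw [Fintype.sum_sum_type, Fintype.sum_sum_type]
  have h1 : ∑ i : Fin (24 * q), nc (tt (r := r) T (Sum.inl i)) τ = 12 * q := by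
    rw [← sum_mm_cc q τ]
    rw [← sum_fiberwise (s := univ) (g := T)]
    refine sum_congr rfl (fun s _ => ?_)
    rw [sum_congr rfl (g := fun _ => cc s τ) (fun i hi => by rw [← (mem_filter.1 hi).2]; rfl)]
    rw [sum_const, smul_eq_mul, hT]
  have h2 : ∀ i : Fin r, nc (tt (q := q) T (Sum.inr (Sum.inl i))) τ
      = if ((true, 0) : Ty) = τ then 3 else 0 := fun i => nc_const _ _
  have h3 : ∀ i : Fin r, nc (tt (q := q) T (Sum.inr (Sum.inr i))) τ
      = if ((false, 0) : Ty) = τ then 3 else 0 := fun i => nc_const _ _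
  rw [h1, sum_congr rfl (fun i _ => h2 i), sum_congr rfl (fun i _ => h3 i)]
  rcases τ with ⟨b, x⟩
  simp only [sum_const, card_univ, Fintype.card_fin, smul_eq_mul]
  cases b
  · by_cases hx : x = 0
    · subst hx
      simp [aa]
      ring
    · have : ¬ (0 : Fin 3) = x := fun h => hx h.symm
      simp [aa, hx, this]
  · by_cases hx : x = 0
    · subst hx
      simp [aa]
      ring
    · have : ¬ (0 : Fin 3) = x := fun h => hx h.symm
      simp [aa, hx, this]

theorem card_filter_inst {α : Type*} (s : Finset α) (p : α → Prop) (i j : DecidablePred p) :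
    (@filter α p i s).card = (@filter α p j s).card := by
  rw [Subsingleton.elim i j]

theorem card_filter_univ_inst {α : Type*} (p : α → Prop) (a b : Fintype α)
    (i j : DecidablePred p) :
    (@filter α p i (@univ α a)).card = (@filter α p j (@univ α b)).card := by
  rw [Subsingleton.elim i j, Subsingleton.elim a b]

/-- the labellings of the edges -/
noncomputable def LL' (q r : ℕ) : Finset (Fin (3 * (12 * q + r)) → Ty) :=
  univ.filter (fun l => ∀ x, (univ.filter (fun e => (l e).2 = x)).card = aa q r x)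

theorem card_LL' (q r : ℕ) : (LL' q r).card * ((12 * q + 3 * r)! * ((12 * q)!) ^ 2)
    = 2 ^ (36 * q + 3 * r) * (36 * q + 3 * r)! := by
  have hcE : Fintype.card (Fin (3 * (12 * q + r))) = 36 * q + 3 * r := by
    rw [Fintype.card_fin]; ring
  have h1 := B1' (P := Fin (3 * (12 * q + r))) (K := Fin 3) (aa q r) (by rw [sum_aa, hcE])
  rw [prod_aa, hcE] at h1
  have h2 : (LL' q r).card = 2 ^ (36 * q + 3 * r) *
      (univ.filter (fun T : Fin (3 * (12 * q + r)) → Fin 3 => ∀ τ, (univ.filter (fun p => T p = τ)).card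
        = aa q r τ)).card := by
    have h3 : (LL' q r).card = ((univ : Finset (Fin (3 * (12 * q + r)) → Bool)) ×ˢ
        (univ.filter (fun T : Fin (3 * (12 * q + r)) → Fin 3 => ∀ τ, (univ.filter (fun p => T p = τ)).card
          = aa q r τ))).card := by
      refine Finset.card_bij (fun l _ => (fun e => (l e).1, fun e => (l e).2)) ?_ ?_ ?_
      · intro l hl
        rw [mem_product, mem_filter]
        exact ⟨mem_univ _, mem_univ _, (mem_filter.1 hl).2⟩
      · intro l _ l' _ h
        funext e
        have e1 := congrFun (congrArg Prod.fst h) e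
        have e2 := congrFun (congrArg Prod.snd h) e
        exact Prod.ext e1 e2
      · rintro ⟨b, T⟩ hb
        rw [mem_product, mem_filter] at hb
        exact ⟨fun e => (b e, T e), mem_filter.2 ⟨mem_univ _, hb.2.2⟩, rfl⟩
    rw [h3, card_product, card_univ]
    congr 1
    rw [Fintype.card_fun, Fintype.card_bool, hcE]
  rw [h2, mul_assoc, ← h1]
  refine congrArg (fun x => 2 ^ (36 * q + 3 * r) * (x * ((12 * q + 3 * r)! * ((12 * q)!) ^ 2))) ?_
  refine congrArg card ?_
  ext T
  simp only [mem_filter, mem_univ, true_and]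
  refine forall_congr' (fun τ => ?_)
  rw [card_filter_univ_inst (fun p => T p = τ)]

/-- the number of half-edges of each type in a labelling -/
theorem count_ty {q r : ℕ} (l : Fin (3 * (12 * q + r)) → Ty) (hl : l ∈ LL' q r) (τ : Ty) :
    (univ.filter (fun p : Fin (3 * (12 * q + r)) × Bool => ty flip l p = τ)).card
      = aa q r τ.2 := by
  have h1 := (mem_filter.1 hl).2 τ.2
  rw [← h1, card_filter, Fintype.sum_prod_type, card_filter]
  refine sum_congr rfl (fun e _ => ?_)
  rw [Fintype.sum_bool]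
  rcases hle : l e with ⟨b, x⟩
  rcases τ with ⟨b', x'⟩
  simp only [ty, cond_true, cond_false, hle, flip]
  by_cases hx : x = x'
  · subst hx
    cases b <;> cases b' <;> simp
  · have h5 : ∀ b'' : Bool, ¬ ((b'', x) = (b', x')) := fun b'' h => hx (Prod.mk.inj h).2
    simp [hx]

end C1aux

open C1aux

theorem C1 (q r : ℕ) :
    (24 * q)! * 2 ^ (36 * q + 3 * r) * (36 * q + 3 * r)! * ((12 * q)!) ^ 2 * (12 * q + 3 * r)! ≤
      ((2 * q)!) ^ 3 * (q !) ^ 18 *
        ∑ f : Conf (Fin (3 * (12 * q + r))) (Fin (2 * (12 * q + r))), cnt flip (L1 (24 * q)) f := by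
  obtain ⟨e, he⟩ := exists_e q r
  set 𝒯 : Finset (Fin (24 * q) → K21) :=
    univ.filter (fun T => ∀ τ, (univ.filter (fun p => T p = τ)).card = mm q τ) with h𝒯
  have hTc : 𝒯.card * (((2 * q)!) ^ 3 * (q !) ^ 18) = (24 * q)! := by
    have := B1' (P := Fin (24 * q)) (K := K21) (mm q) (by rw [sum_mm, Fintype.card_fin])
    rw [prod_mm, Fintype.card_fin] at this
    rw [← this]
    congr 1
    rw [h𝒯]
    refine congrArg card ?_
    ext T
    simp only [mem_filter, mem_univ, true_and]
    refine forall_congr' (fun τ => ?_)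
    rw [card_filter_univ_inst (fun p => T p = τ)]
  have hLc := card_LL' q r
  -- the number of configurations for given types
  have hf : ∀ T ∈ 𝒯, ∀ l ∈ LL' q r,
      (univ.filter (fun f : Conf (Fin (3 * (12 * q + r))) (Fin (2 * (12 * q + r))) =>
        ∀ p, tt T (e (f p).1) (f p).2 = ty flip l p)).card
      = ((12 * q + 3 * r)! * ((12 * q)!) ^ 2) ^ 2 := by
    intro T hT l hl
    have hT' := (mem_filter.1 hT).2
    have h1 := B1 (K := Ty) (ty flip l)
      (fun p : Fin (2 * (12 * q + r)) × Fin 3 => tt T (e p.1) p.2)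
    have hty : ∀ τ : Ty, (@univ (Fin (3 * (12 * q + r)) × Bool) _ |>.filter
        (fun p => ty flip l p = τ)).card = aa q r τ.2 := count_ty l hl
    have htt := count_tt e T hT'
    rw [if_pos (fun τ => by
      have a1 := hty τ
      have a2 := htt τ
      refine (card_filter_univ_inst _ _ _ _ _).trans ((a1.trans a2.symm).trans
        (card_filter_univ_inst _ _ _ _ _)))] at h1
    have h1' : (univ.filter (fun f : Conf (Fin (3 * (12 * q + r))) (Fin (2 * (12 * q + r))) =>
        ∀ p, tt T (e (f p).1) (f p).2 = ty flip l p)).card = ∏ τ : Ty, (aa q r τ.2)! := by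
      refine (card_filter_univ_inst _ _ _ _ _).trans (h1.trans ?_)
      refine prod_congr rfl (fun τ _ => ?_)
      rw [← hty τ]
      exact congrArg Nat.factorial (card_filter_univ_inst _ _ _ _ _)
    rw [h1']
    rw [Fintype.prod_prod_type]
    simp only [prod_aa, prod_const, card_univ, Fintype.card_bool]
  -- lower bound
  have hlow : 𝒯.card * ((LL' q r).card * ((12 * q + 3 * r)! * ((12 * q)!) ^ 2) ^ 2) ≤
      ∑ f : Conf (Fin (3 * (12 * q + r))) (Fin (2 * (12 * q + r))), cnt flip (L1 (24 * q)) f := by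
    have h1 : 𝒯.card * ((LL' q r).card * ((12 * q + 3 * r)! * ((12 * q)!) ^ 2) ^ 2)
        = ∑ T ∈ 𝒯, ∑ l ∈ LL' q r,
          ∑ f : Conf (Fin (3 * (12 * q + r))) (Fin (2 * (12 * q + r))),
            if (∀ p, tt T (e (f p).1) (f p).2 = ty flip l p) then 1 else 0 := by
      rw [sum_congr rfl (g := fun _ => ((LL' q r).card *
        ((12 * q + 3 * r)! * ((12 * q)!) ^ 2) ^ 2)) (fun T hT => ?_)]
      · rw [sum_const, smul_eq_mul]
      · rw [sum_congr rfl (g := fun _ => ((12 * q + 3 * r)! * ((12 * q)!) ^ 2) ^ 2)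
          (fun l hl => ?_)]
        · rw [sum_const, smul_eq_mul]
        · rw [← hf T hT l hl, card_filter]
    rw [h1]
    have h2 : ∑ T ∈ 𝒯, ∑ l ∈ LL' q r,
          ∑ f : Conf (Fin (3 * (12 * q + r))) (Fin (2 * (12 * q + r))),
            (if (∀ p, tt T (e (f p).1) (f p).2 = ty flip l p) then 1 else 0)
        = ∑ f : Conf (Fin (3 * (12 * q + r))) (Fin (2 * (12 * q + r))), ∑ l ∈ LL' q r, ∑ T ∈ 𝒯,
            (if (∀ p, tt T (e (f p).1) (f p).2 = ty flip l p) then 1 else 0) := by
      rw [sum_comm]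
      rw [sum_congr rfl (fun l _ => sum_comm)]
      rw [sum_comm]
    rw [h2]
    refine sum_le_sum (fun f _ => ?_)
    unfold cnt
    rw [card_filter]
    refine le_trans ?_ (sum_le_sum_of_subset (s := LL' q r) (by intro x _; simp))
    refine sum_le_sum (fun l _ => ?_)
    rw [← card_filter]
    -- at most one `T`
    by_cases hex : ∃ T ∈ 𝒯, ∀ p, tt T (e (f p).1) (f p).2 = ty flip l p
    · obtain ⟨T, hT, hTp⟩ := hex
      have hgood : ∀ v, L1 (24 * q) v (state f flip l v) := by
        intro v hv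
        obtain ⟨i, hi⟩ := he v hv
        have h3 : state f flip l v = st (T i) := by
          funext k
          have := hTp (f.symm (v, k))
          rw [Equiv.apply_symm_apply] at this
          simp only [hi, tt] at this
          exact this.symm
        rw [h3]
        exact legit_st _
      rw [if_pos hgood]
      rw [card_le_one]
      intro T₁ hT₁ T₂ hT₂
      have g1 := (mem_filter.1 hT₁).2
      have g2 := (mem_filter.1 hT₂).2
      funext i
      apply st_injective
      funext k
      have a1 := g1 (f.symm (e.symm (Sum.inl i), k))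
      have a2 := g2 (f.symm (e.symm (Sum.inl i), k))
      rw [Equiv.apply_symm_apply] at a1 a2
      simp only [Equiv.apply_symm_apply, tt] at a1 a2
      rw [a1, a2]
    · have : (𝒯.filter (fun T => ∀ p, tt T (e (f p).1) (f p).2 = ty flip l p)) = ∅ := by
        rw [filter_eq_empty_iff]
        intro T hT hp
        exact hex ⟨T, hT, hp⟩
      rw [this, card_empty]
      exact Nat.zero_le _
  calc (24 * q)! * 2 ^ (36 * q + 3 * r) * (36 * q + 3 * r)! * ((12 * q)!) ^ 2 * (12 * q + 3 * r)!
      = (24 * q)! * (2 ^ (36 * q + 3 * r) * (36 * q + 3 * r)!) *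
          ((12 * q + 3 * r)! * ((12 * q)!) ^ 2) := by ring
    _ = (𝒯.card * (((2 * q)!) ^ 3 * (q !) ^ 18)) *
          ((LL' q r).card * ((12 * q + 3 * r)! * ((12 * q)!) ^ 2)) *
          ((12 * q + 3 * r)! * ((12 * q)!) ^ 2) := by rw [hTc, hLc]
    _ = ((2 * q)!) ^ 3 * (q !) ^ 18 *
          (𝒯.card * ((LL' q r).card * ((12 * q + 3 * r)! * ((12 * q)!) ^ 2) ^ 2)) := by ring
    _ ≤ _ := Nat.mul_le_mul_left _ hlow

end Pool.H98.Sud
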