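import Pool.Agent.helper98.SUD.Defs2

/-!
# Typings of cubic graphs: the colour, the number of sources, typings from configurations
-/

namespace Pool.H98.Sud

open Finset Filter
open scoped Classical Topology Nat

namespace D0m

lemma aux {V : Type*} {G : SimpleGraph V} (T : Typing G) (c : V → Fin 3)
    (v w : V) (hw : ¬ T.Bad w)
    (hcv : ∀ u, G.Adj v u → T.out v u → c v = T.lab v u)
    (hcw : ∀ u, G.Adj w u → T.out w u → c w = T.lab w u) (h : G.Adj v w) (ho : T.out v w) :
    c v ≠ c w := by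
  have hno : ¬ T.out w v := T.out_not v w h ho
  have hR : T.Rainbow w := by
    by_contra hR
    apply hw
    refine ⟨?_, hR⟩
    rintro ⟨x, hx⟩
    exact hno (hx v h.symm).1
  obtain ⟨⟨t, ⟨ht1, ht2⟩, _⟩, hinj⟩ := hR
  intro heq
  have h1 := hcv w h ho
  have h2 := hcw t ht1 ht2
  have h3 : T.lab w v = T.lab w t := by
    rw [← T.lab_symm v w h, ← h1, ← h2, heq]
  have h4 := hinj v t h.symm ht1 h3
  rw [← h4] at ht2
  exact hno ht2

end D0m

theorem D0 {V : Type*} [Fintype V] {G : SimpleGraph V} (hG : Cubic G) (T : Typing G) (c : V → Fin 3)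
    (v w : V) (hv : ¬ T.Bad v) (hw : ¬ T.Bad w)
    (hcv : ∀ u, G.Adj v u → T.out v u → c v = T.lab v u)
    (hcw : ∀ u, G.Adj w u → T.out w u → c w = T.lab w u) (h : G.Adj v w) : c v ≠ c w := by
  rcases T.out_or v w h with ho | ho
  · exact D0m.aux T c v w hw hcv hcw h ho
  · exact (D0m.aux T c w v hv hcw hcv h.symm ho).symm

theorem D0' {V : Type*} [Fintype V] {G : SimpleGraph V} (T : Typing G) :
    ∃ c : V → Fin 3, ∀ v, ¬ T.Bad v → ∀ u, G.Adj v u → T.out v u → c v = T.lab v u := by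
  refine ⟨fun v => if h : ∃ u, G.Adj v u ∧ T.out v u then T.lab v h.choose else 0, ?_⟩
  intro v hv u hu ho
  have h : ∃ u, G.Adj v u ∧ T.out v u := ⟨u, hu, ho⟩
  simp only [dif_pos h]
  have h1 := h.choose_spec
  by_cases hs : T.Source v
  · obtain ⟨x, hx⟩ := hs
    rw [(hx _ h1.1).2, (hx _ hu).2]
  · have hR : T.Rainbow v := by
      by_contra hR
      exact hv ⟨hs, hR⟩
    obtain ⟨⟨t, _, ht⟩, _⟩ := hR
    have h2 := ht _ h1
    have h3 := ht _ ⟨hu, ho⟩
    rw [h2, ← h3]

theorem D7 {V : Type*} [Fintype V] (G : SimpleGraph V) (h3 : Cubic G) (T : Typing G) :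
    4 * (univ.filter (fun v => T.Source v)).card ≤
      Fintype.card V + 2 * (univ.filter (fun v => T.Bad v)).card := by
  -- ordered adjacent pairs
  set P : Finset (V × V) := univ.filter (fun p : V × V => G.Adj p.1 p.2) with hP
  set O : Finset (V × V) := univ.filter (fun p : V × V => G.Adj p.1 p.2 ∧ T.out p.1 p.2) with hO
  set O' : Finset (V × V) := univ.filter (fun p : V × V => G.Adj p.1 p.2 ∧ ¬ T.out p.1 p.2)
    with hO'
  have h1 : P.card = 3 * Fintype.card V := by
    have : P.card = ∑ v : V, (univ.filter (fun w => G.Adj v w)).card := by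
      rw [hP, card_filter, Fintype.sum_prod_type]
      refine sum_congr rfl (fun v _ => ?_)
      rw [card_filter]
    rw [this, sum_congr rfl (fun v _ => h3 v), sum_const, card_univ, smul_eq_mul, mul_comm]
  have h2 : O.card + O'.card = P.card := by
    have := card_filter_add_card_filter_not (s := P) (p := fun p => T.out p.1 p.2)
    rw [hP, filter_filter, filter_filter] at this
    rw [hO, hO', hP]
    convert this
  have h4 : O.card = O'.card := by
    refine card_bij (fun p _ => (p.2, p.1)) ?_ ?_ ?_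
    · intro p hp
      rw [hO, mem_filter] at hp
      rw [hO', mem_filter]
      exact ⟨mem_univ _, hp.2.1.symm, T.out_not _ _ hp.2.1 hp.2.2⟩
    · intro p _ q _ h
      simp only [Prod.mk.injEq] at h
      exact Prod.ext h.2 h.1
    · intro p hp
      rw [hO', mem_filter] at hp
      refine ⟨(p.2, p.1), ?_, rfl⟩
      rw [hO, mem_filter]
      refine ⟨mem_univ _, hp.2.1.symm, ?_⟩
      rcases T.out_or _ _ hp.2.1 with h | h
      · exact absurd h hp.2.2
      · exact h
  have h5 : O.card = ∑ v : V, (univ.filter (fun w => G.Adj v w ∧ T.out v w)).card := by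
    rw [hO, card_filter, Fintype.sum_prod_type]
    refine sum_congr rfl (fun v _ => ?_)
    rw [card_filter]
  -- the out degree
  have h6 : ∀ v, 1 + 2 * (if T.Source v then 1 else 0) ≤
      (univ.filter (fun w => G.Adj v w ∧ T.out v w)).card + (if T.Bad v then 1 else 0) := by
    intro v
    by_cases hs : T.Source v
    · obtain ⟨x, hx⟩ := id hs
      have : (univ.filter (fun w => G.Adj v w ∧ T.out v w)) =
          (univ.filter (fun w => G.Adj v w)) := by
        apply filter_congr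
        intro w _
        exact ⟨fun h => h.1, fun h => ⟨h, (hx w h).1⟩⟩
      rw [this, h3 v, if_pos hs]
      omega
    · rw [if_neg hs]
      by_cases hb : T.Bad v
      · rw [if_pos hb]
        omega
      · have hR : T.Rainbow v := by
          by_contra hR
          exact hb ⟨hs, hR⟩
        obtain ⟨⟨t, ht, _⟩, _⟩ := hR
        have : 0 < (univ.filter (fun w => G.Adj v w ∧ T.out v w)).card :=
          card_pos.2 ⟨t, by rw [mem_filter]; exact ⟨mem_univ _, ht⟩⟩
        omega
  have h7 := sum_le_sum (s := (univ : Finset V)) (fun v _ => h6 v)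
  rw [sum_add_distrib, sum_add_distrib, ← mul_sum, ← card_filter, ← card_filter, ← h5,
    sum_const, card_univ, smul_eq_mul, mul_one] at h7
  omega

namespace D0m

variable {E V : Type*}

lemma simp_edge {f : Conf E V} (hf : Simp f) {e e' : E} {b b' : Bool} {v w : V}
    (h1 : (f (e, b)).1 = v) (h2 : (f (e, !b)).1 = w) (h3 : (f (e', b')).1 = v)
    (h4 : (f (e', !b')).1 = w) : e = e' ∧ b = b' := by
  have h5 : e = e' := hf.2 e e' b b' (by rw [h1, h3]) (by rw [h2, h4])
  refine ⟨h5, ?_⟩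
  subst h5
  by_contra hb
  have hb' : b' = !b := by
    cases b <;> cases b' <;> simp_all
  subst hb'
  rw [h2] at h3
  have h6 := hf.1 e
  cases b <;> simp_all

/-- the typing of the graph of a simple configuration -/
noncomputable def typing (f : Conf E V) (hf : Simp f) (l : E → Ty) : Typing (gr f) where
  out v w := ∃ e b, (f (e, b)).1 = v ∧ (f (e, !b)).1 = w ∧ (ty flip l (e, b)).1 = true
  lab v w := if h : ∃ e, ∃ b, (f (e, b)).1 = v ∧ (f (e, !b)).1 = w then (l h.choose).2 else 0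
  lab_symm := by
    intro v w hvw
    obtain ⟨_, e, b, h1, h2⟩ := hvw
    have h3 : ∃ e, ∃ b, (f (e, b)).1 = v ∧ (f (e, !b)).1 = w := ⟨e, b, h1, h2⟩
    have h4 : ∃ e, ∃ b, (f (e, b)).1 = w ∧ (f (e, !b)).1 = v :=
      ⟨e, !b, h2, by rw [Bool.not_not]; exact h1⟩
    rw [dif_pos h3, dif_pos h4]
    obtain ⟨b1, h5, h6⟩ := h3.choose_spec
    obtain ⟨b2, h7, h8⟩ := h4.choose_spec
    have h9 : h3.choose = h4.choose :=
      (simp_edge hf h5 h6 (b' := !b2) h8 (by rw [Bool.not_not]; exact h7)).1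
    rw [h9]
  out_or := by
    intro v w hvw
    obtain ⟨_, e, b, h1, h2⟩ := hvw
    by_cases h : (ty flip l (e, b)).1 = true
    · exact Or.inl ⟨e, b, h1, h2, h⟩
    · refine Or.inr ⟨e, !b, h2, by rw [Bool.not_not]; exact h1, ?_⟩
      cases b <;> simp_all [ty, flip]
  out_not := by
    rintro v w _ ⟨e, b, h1, h2, h3⟩ ⟨e', b', h4, h5, h6⟩
    obtain ⟨h7, h8⟩ := simp_edge hf h1 h2 (e' := e') (b' := !b') h5
      (by rw [Bool.not_not]; exact h4)
    subst h7
    subst h8
    cases b' <;> simp_all [ty, flip]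

end D0m

theorem D10 {E V : Type*} [Fintype E] [Fintype V] (f : Conf E V) (hf : Simp f) (l : E → Ty) :
    ∃ T : Typing (gr f), ∀ v, T.Bad v → v ∈ badSet f l := by
  refine ⟨D0m.typing f hf l, ?_⟩
  intro v hv
  rw [badSet, mem_filter]
  refine ⟨mem_univ _, ?_⟩
  intro hL
  -- the half-edges at v
  set pe : Fin 3 → E × Bool := fun k => f.symm (v, k) with hpe
  have hpe1 : ∀ k, f (pe k) = (v, k) := fun k => f.apply_symm_apply _
  have hnb : ∀ w, (gr f).Adj v w → ∃ k, (f ((pe k).1, !(pe k).2)).1 = w := by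
    rintro w ⟨_, e, b, h1, h2⟩
    refine ⟨(f (e, b)).2, ?_⟩
    have : pe (f (e, b)).2 = (e, b) := by
      rw [hpe]
      simp only
      rw [← h1]
      exact f.symm_apply_apply _
    rw [this]
    exact h2
  have hadj : ∀ k, (gr f).Adj v (f ((pe k).1, !(pe k).2)).1 := by
    intro k
    have h1 : (f ((pe k).1, (pe k).2)).1 = v := by rw [Prod.mk.eta, hpe1]
    refine ⟨?_, (pe k).1, (pe k).2, h1, rfl⟩
    intro h2
    have h3 := hf.1 (pe k).1
    rcases hb : (pe k).2 with _ | _
    · rw [hb] at h1 h2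
      exact h3 (by rw [h1, h2]; rfl)
    · rw [hb] at h1 h2
      exact h3 (by rw [h1, h2]; rfl)
  have hout : ∀ k, (D0m.typing f hf l).out v (f ((pe k).1, !(pe k).2)).1 ↔
      (state f flip l v k).1 = true := by
    intro k
    have h1 : (f ((pe k).1, (pe k).2)).1 = v := by rw [Prod.mk.eta, hpe1]
    constructor
    · rintro ⟨e, b, h2, h3, h4⟩
      obtain ⟨h5, h6⟩ := D0m.simp_edge hf h2 h3 h1 rfl
      rw [state]
      have : f.symm (v, k) = (e, b) := by
        rw [h5, h6]
      rw [this]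
      exact h4
    · intro h2
      exact ⟨(pe k).1, (pe k).2, h1, rfl, h2⟩
  have hlab : ∀ k, (D0m.typing f hf l).lab v (f ((pe k).1, !(pe k).2)).1 =
      (state f flip l v k).2 := by
    intro k
    have h1 : (f ((pe k).1, (pe k).2)).1 = v := by rw [Prod.mk.eta, hpe1]
    have h2 : ∃ e, ∃ b, (f (e, b)).1 = v ∧ (f (e, !b)).1 = (f ((pe k).1, !(pe k).2)).1 :=
      ⟨(pe k).1, (pe k).2, h1, rfl⟩
    have h3 : (D0m.typing f hf l).lab v (f ((pe k).1, !(pe k).2)).1 = (l h2.choose).2 := by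
      simp only [D0m.typing]
      rw [dif_pos h2]
    rw [h3]
    obtain ⟨b, h4, h5⟩ := h2.choose_spec
    have h6 := (D0m.simp_edge hf h4 h5 h1 rfl).1
    rw [h6, state]
    have h7 : f.symm (v, k) = pe k := rfl
    rw [h7, ty]
    cases (pe k).2 <;> simp [flip]
  have hinj : ∀ k k', (f ((pe k).1, !(pe k).2)).1 = (f ((pe k').1, !(pe k').2)).1 → k = k' := by
    intro k k' h
    have h1 : (f ((pe k).1, (pe k).2)).1 = v := by rw [Prod.mk.eta, hpe1]
    have h2 : (f ((pe k').1, (pe k').2)).1 = v := by rw [Prod.mk.eta, hpe1]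
    obtain ⟨h3, h4⟩ := D0m.simp_edge hf h1 h h2 rfl
    have h5 : pe k = pe k' := Prod.ext h3 h4
    have h6 := hpe1 k
    rw [h5, hpe1 k'] at h6
    exact ((Prod.mk.inj h6).2).symm
  rcases hL with ⟨x, hx⟩ | ⟨⟨k, hk, hk'⟩, hl⟩
  · apply hv.1
    refine ⟨x, ?_⟩
    intro w hw
    obtain ⟨k, rfl⟩ := hnb w hw
    rw [hout k, hlab k, hx k]
    exact ⟨rfl, rfl⟩
  · apply hv.2
    refine ⟨⟨(f ((pe k).1, !(pe k).2)).1, ⟨hadj k, (hout k).2 hk⟩, ?_⟩, ?_⟩
    · rintro w ⟨hw, hw'⟩
      obtain ⟨k', rfl⟩ := hnb w hw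
      rw [hout k'] at hw'
      rw [hk' k' hw']
    · intro w w' hw hw' h
      obtain ⟨k1, rfl⟩ := hnb w hw
      obtain ⟨k2, rfl⟩ := hnb w' hw'
      rw [hlab, hlab] at h
      rw [hl k1 k2 h]

end Pool.H98.Sud
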