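import Pool.Agent.helper98.SUD.Defs2

/-!
# Balls in cubic graphs: growth, short cycles and triangles
-/

namespace Pool.H98.Sud

open Finset
open scoped Classical

namespace D1

variable {V : Type*} [Fintype V] {G : SimpleGraph V}

lemma mem_succ {v w : V} {j : ℕ} :
    w ∈ ball G v (j + 1) ↔ w ∈ ball G v j ∨ ∃ u ∈ ball G v j, G.Adj u w := by
  simp [ball]

lemma sub_succ (v : V) (j : ℕ) : ball G v j ⊆ ball G v (j + 1) := by
  intro w hw
  exact mem_succ.2 (Or.inl hw)

lemma mono (v : V) {i j : ℕ} (h : i ≤ j) : ball G v i ⊆ ball G v j := by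
  induction h with
  | refl => exact Subset.refl _
  | step _ ih => exact ih.trans (sub_succ v _)

lemma self_mem (v : V) (j : ℕ) : v ∈ ball G v j :=
  mono v (Nat.zero_le j) (by simp [ball])

/-- the ordered pairs of adjacent vertices with both ends in `A` and `B` -/
lemma deg_sum (hG : Cubic G) (A : Finset V) :
    ((A ×ˢ (univ : Finset V)).filter (fun p => G.Adj p.1 p.2)).card = 3 * A.card := by
  rw [Finset.card_filter, Finset.sum_product]
  have : ∀ x ∈ A, (∑ y : V, if G.Adj (x, y).1 (x, y).2 then 1 else 0) = 3 := by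
    intro x _
    rw [← hG x, Finset.card_filter]
  rw [Finset.sum_congr rfl this]
  simp [mul_comm]

lemma step (hG : Cubic G) (v : V) (j : ℕ) (h1 : din G (ball G v j) < 2 * (ball G v j).card)
    (h2 : din G (ball G v (j + 1)) < 2 * (ball G v (j + 1)).card) :
    2 * (ball G v j).card ≤ (ball G v (j + 1)).card := by
  set A := ball G v j with hA
  set B := ball G v (j + 1) with hB
  have hAB : A ⊆ B := sub_succ v j
  have e1 := deg_sum hG A
  -- pairs with first coordinate in `A`
  have s1 : ((A ×ˢ (univ : Finset V)).filter (fun p => G.Adj p.1 p.2)) ⊆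
      (B ×ˢ B).filter (fun p => G.Adj p.1 p.2) := by
    intro p hp
    simp only [mem_filter, mem_product, mem_univ, and_true] at hp ⊢
    exact ⟨⟨hAB hp.1, mem_succ.2 (Or.inr ⟨p.1, hp.1, hp.2⟩)⟩, hp.2⟩
  -- pairs with second coordinate in `A`, first one not in `A`
  set P := ((A ×ˢ (univ : Finset V)).filter (fun p => G.Adj p.1 p.2)) with hP
  set P0 := ((A ×ˢ A).filter (fun p => G.Adj p.1 p.2)) with hP0
  have hP0P : P0 ⊆ P := by
    intro p hp
    simp only [hP, hP0, mem_filter, mem_product, mem_univ, and_true] at hp ⊢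
    exact ⟨hp.1.1, hp.2⟩
  have hc : (P \ P0).card = P.card - P0.card := Finset.card_sdiff_of_subset hP0P
  have hle0 : P0.card ≤ P.card := Finset.card_le_card hP0P
  set Q := (P \ P0).image Prod.swap with hQ
  have hQc : Q.card = (P \ P0).card := Finset.card_image_of_injective _ Prod.swap_injective
  have hQB : Q ⊆ (B ×ˢ B).filter (fun p => G.Adj p.1 p.2) := by
    intro p hp
    simp only [hQ, mem_image, mem_sdiff] at hp
    obtain ⟨q, ⟨hq, _⟩, rfl⟩ := hp
    have := s1 hq
    simp only [mem_filter, mem_product, Prod.fst_swap, Prod.snd_swap] at this ⊢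
    exact ⟨⟨this.1.2, this.1.1⟩, this.2.symm⟩
  have hdisj : Disjoint P Q := by
    rw [Finset.disjoint_left]
    intro p hp hpQ
    simp only [hQ, mem_image, mem_sdiff] at hpQ
    obtain ⟨q, ⟨hq, hq0⟩, rfl⟩ := hpQ
    apply hq0
    simp only [hP, hP0, mem_filter, mem_product, mem_univ, and_true, Prod.fst_swap,
      Prod.snd_swap] at hp hq ⊢
    exact ⟨⟨hq.1, hp.1⟩, hq.2⟩
  have hun : P ∪ Q ⊆ (B ×ˢ B).filter (fun p => G.Adj p.1 p.2) := Finset.union_subset s1 hQB
  have hcard := Finset.card_le_card hun
  rw [Finset.card_union_of_disjoint hdisj, hQc, hc] at hcard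
  have hd1 : din G A = P0.card := rfl
  have hd2 : din G B = ((B ×ˢ B).filter (fun p => G.Adj p.1 p.2)).card := rfl
  rw [hd1] at h1
  rw [hd2] at h2
  omega

end D1

theorem D1 {V : Type*} [Fintype V] (G : SimpleGraph V) (hG : Cubic G) (v : V) (r : ℕ)
    (h : ¬ Dense G r v) : 2 ^ r ≤ (ball G v r).card := by
  have hd : ∀ j ≤ r, din G (ball G v j) < 2 * (ball G v j).card := by
    intro j hj
    by_contra hcon
    exact h ⟨j, hj, not_lt.1 hcon⟩
  have : ∀ j ≤ r, 2 ^ j ≤ (ball G v j).card := by
    intro j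
    induction j with
    | zero => intro _; simp [ball]
    | succ j ih =>
      intro hj
      have h1 := ih (by omega)
      have h2 := D1.step hG v j (hd j (by omega)) (hd (j + 1) hj)
      rw [pow_succ]
      omega
  exact this r le_rfl

namespace D1

variable {V : Type*} [Fintype V] {G : SimpleGraph V}

/-- the level of a vertex of the ball -/
noncomputable def lv (G : SimpleGraph V) (v w : V) : ℕ := sInf {i | w ∈ ball G v i}

lemma lv_mem {v w : V} {j : ℕ} (h : w ∈ ball G v j) : w ∈ ball G v (lv G v w) :=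
  Nat.sInf_mem (s := {i | w ∈ ball G v i}) ⟨j, h⟩

lemma lv_le {v w : V} {j : ℕ} (h : w ∈ ball G v j) : lv G v w ≤ j := Nat.sInf_le h

lemma lv_self (v : V) : lv G v v = 0 := Nat.le_zero.1 (lv_le (by simp [ball]))

lemma exists_parent {v w : V} {j : ℕ} (h : w ∈ ball G v j) (hw : w ≠ v) :
    ∃ u, G.Adj w u ∧ u ∈ ball G v j ∧ lv G v u < lv G v w := by
  have h0 := lv_mem h
  have hle := lv_le h
  obtain ⟨l, hl⟩ : ∃ l, lv G v w = l := ⟨_, rfl⟩
  rw [hl] at h0 hle ⊢
  cases l with
  | zero =>
    simp [ball] at h0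
    exact absurd h0 hw
  | succ l =>
    rcases mem_succ.1 h0 with h1 | ⟨u, hu, hau⟩
    · have := lv_le h1
      omega
    · exact ⟨u, hau.symm, mono v (by omega) hu, by have := lv_le hu; omega⟩

lemma key {v a x1 x2 : V} {j : ℕ} (ha : a ∈ ball G v j) (h1 : G.Adj a x1) (h2 : G.Adj a x2)
    (m1 : x1 ∈ ball G v j) (m2 : x2 ∈ ball G v j)
    (h12 : x1 ≠ x2) (l1 : lv G v x1 ≤ lv G v a) (l2 : lv G v x2 ≤ lv G v a) :
    2 * (ball G v j).card ≤ din G (ball G v j) := by
  have hpar : ∀ w, ∃ u, (w ∈ ball G v j → w ≠ v → G.Adj w u ∧ u ∈ ball G v j ∧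
      lv G v u < lv G v w) := by
    intro w
    by_cases h : w ∈ ball G v j ∧ w ≠ v
    · obtain ⟨u, hu⟩ := exists_parent h.1 h.2
      exact ⟨u, fun _ _ => hu⟩
    · exact ⟨v, fun h3 h4 => absurd ⟨h3, h4⟩ h⟩
  choose p hp using hpar
  -- the extra edge
  obtain ⟨x, hax, mx, lx, hxp⟩ : ∃ x, G.Adj a x ∧ x ∈ ball G v j ∧ lv G v x ≤ lv G v a ∧
      (a ≠ v → x ≠ p a) := by
    by_cases hx : x1 = p a
    · exact ⟨x2, h2, m2, l2, fun _ h => h12 (hx.trans h.symm)⟩
    · exact ⟨x1, h1, m1, l1, fun _ => hx⟩
  have key2 : ((ball G v j) ×ˢ (univ : Finset Bool)).card ≤ din G (ball G v j) := by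
    unfold din
    refine Finset.card_le_card_of_injOn
      (fun q => if q.1 = v then (if q.2 then (a, x) else (x, a))
        else (if q.2 then (q.1, p q.1) else (p q.1, q.1))) ?_ ?_
    · rintro ⟨w, b⟩ hw
      simp only [coe_product, Set.mem_prod, mem_coe, mem_univ, and_true, coe_univ,
        Set.mem_univ] at hw
      simp only [coe_filter, mem_product, Set.mem_setOf_eq]
      by_cases hwv : w = v
      · simp only [hwv, if_true]
        cases b
        · simpa using ⟨⟨mx, ha⟩, hax.symm⟩
        · simpa using ⟨⟨ha, mx⟩, hax⟩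
      · simp only [hwv, if_false]
        obtain ⟨q1, q2, q3⟩ := hp w hw hwv
        cases b
        · simpa using ⟨⟨q2, hw⟩, q1.symm⟩
        · simpa using ⟨⟨hw, q2⟩, q1⟩
    · -- injectivity
      have hav : a ≠ v ∨ a = v := by tauto
      -- if a = v then level x = 0, x = v, contradiction
      have hav' : a ≠ v := by
        intro hav
        rw [hav, lv_self] at lx
        have := lv_mem mx
        rw [Nat.le_zero.1 lx] at this
        simp [ball] at this
        rw [hav, this] at hax
        exact G.loopless.irrefl v hax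
      have hxa : x ≠ v → a ≠ p x := by
        intro hxv hap
        have := (hp x mx hxv).2.2
        rw [← hap] at this
        omega
      rintro ⟨w, b⟩ hw ⟨w', b'⟩ hw' heq
      simp only [coe_product, Set.mem_prod, mem_coe, mem_univ, and_true, coe_univ,
        Set.mem_univ] at hw hw'
      by_cases hwv : w = v <;> by_cases hwv' : w' = v
      · subst hwv
        simp only [hwv', if_true] at heq
        cases b <;> cases b' <;> simp only [Bool.false_eq_true, if_true, if_false, Prod.mk.injEq,
          hwv', true_and, and_true] at heq ⊢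
        · exact (hax.ne heq.2).elim
        · exact (hax.ne heq.1).elim
      · exfalso
        simp only [hwv, hwv', if_true, if_false] at heq
        cases b <;> cases b' <;> simp only [Bool.false_eq_true, if_true, if_false,
          Prod.mk.injEq] at heq
        · -- (x, a) = (p w', w')
          obtain ⟨e1, e2⟩ := heq
          subst e2
          exact hxp hav' e1
        · obtain ⟨e1, e2⟩ := heq
          subst e1
          exact hxa hwv' e2
        · obtain ⟨e1, e2⟩ := heq
          subst e2
          exact hxa hwv' e1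
        · obtain ⟨e1, e2⟩ := heq
          subst e1
          exact hxp hav' e2
      · exfalso
        simp only [hwv, hwv', if_true, if_false] at heq
        cases b <;> cases b' <;> simp only [Bool.false_eq_true, if_true, if_false,
          Prod.mk.injEq] at heq
        · obtain ⟨e1, e2⟩ := heq
          subst e2
          exact hxp hav' e1.symm
        · obtain ⟨e1, e2⟩ := heq
          subst e2
          exact hxa hwv e1.symm
        · obtain ⟨e1, e2⟩ := heq
          subst e1
          exact hxa hwv e2.symm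
        · obtain ⟨e1, e2⟩ := heq
          subst e1
          exact hxp hav' e2.symm
      · simp only [hwv, hwv', if_false] at heq
        have q3 := (hp w hw hwv).2.2
        have q3' := (hp w' hw' hwv').2.2
        cases b <;> cases b' <;> simp only [Bool.false_eq_true, if_true, if_false,
          Prod.mk.injEq] at heq
        · obtain ⟨e1, e2⟩ := heq
          subst e2
          rfl
        · exfalso
          obtain ⟨e1, e2⟩ := heq
          rw [e1] at q3
          rw [← e2] at q3'
          omega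
        · exfalso
          obtain ⟨e1, e2⟩ := heq
          rw [e2] at q3
          rw [← e1] at q3'
          omega
        · obtain ⟨e1, e2⟩ := heq
          subst e1
          rfl
  rw [Finset.card_product] at key2
  simpa [mul_comm] using key2

end D1

theorem D8 {V : Type*} [Fintype V] (G : SimpleGraph V) (T : Typing G) (L k : ℕ) (hk : k ≤ L)
    (u : ℕ → V) (h : T.DirCycle univ k u) : Dense G L (u 0) := by
  obtain ⟨hk0, -, hinj, hstep, hlast, hlast'⟩ := h
  -- successor and predecessor
  have hk1 : k ≠ 1 := by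
    rintro rfl
    exact G.loopless.irrefl _ hlast
  have hk2 : k ≠ 2 := by
    rintro rfl
    have h1 := hstep 0 (by norm_num)
    have h2 : T.out (u 1) (u 0) := hlast'
    exact T.out_not _ _ h1.1 h1.2 h2
  have hk3 : 3 ≤ k := by omega
  have hball : ∀ i < k, u i ∈ ball G (u 0) i := by
    intro i
    induction i with
    | zero => intro _; exact D1.self_mem _ _
    | succ i ih =>
      intro hi
      exact D1.mem_succ.2 (Or.inr ⟨u i, ih (by omega), (hstep i hi).1⟩)
  have hball' : ∀ i < k, u i ∈ ball G (u 0) k := fun i hi => D1.mono _ hi.le (hball i hi)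
  obtain ⟨i, hi, hmax⟩ := Finset.exists_max_image (Finset.range k) (fun i => D1.lv G (u 0) (u i))
    ⟨0, Finset.mem_range.2 hk0⟩
  rw [Finset.mem_range] at hi
  have hmax' : ∀ i' < k, D1.lv G (u 0) (u i') ≤ D1.lv G (u 0) (u i) :=
    fun i' hi' => hmax i' (Finset.mem_range.2 hi')
  -- neighbours
  obtain ⟨s, hs, hsadj, hss⟩ : ∃ s < k, G.Adj (u i) (u s) ∧ (s = i + 1 ∨ (i = k - 1 ∧ s = 0)) := by
    by_cases h1 : i + 1 < k
    · exact ⟨i + 1, h1, (hstep i h1).1, Or.inl rfl⟩
    · have : i = k - 1 := by omega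
      exact ⟨0, hk0, by rw [this]; exact hlast, Or.inr ⟨this, rfl⟩⟩
  obtain ⟨s', hs', hsadj', hss'⟩ : ∃ s' < k, G.Adj (u i) (u s') ∧
      (s' + 1 = i ∨ (i = 0 ∧ s' = k - 1)) := by
    by_cases h1 : i = 0
    · exact ⟨k - 1, by omega, by rw [h1]; exact hlast.symm, Or.inr ⟨h1, rfl⟩⟩
    · obtain ⟨i', rfl⟩ : ∃ i', i = i' + 1 := ⟨i - 1, by omega⟩
      exact ⟨i', by omega, (hstep i' hi).1.symm, Or.inl rfl⟩
  have hne : u s ≠ u s' := by
    intro he
    have := hinj s hs s' hs' he
    omega
  exact ⟨k, hk, D1.key (hball' i hi) hsadj hsadj' (hball' s hs) (hball' s' hs') hne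
    (hmax' s hs) (hmax' s' hs')⟩

theorem D8' {V : Type*} [Fintype V] (G : SimpleGraph V) (h3 : Cubic G) (r : ℕ) (hr : 1 ≤ r)
    (u v w : V) (h1 : G.Adj u v) (h2 : G.Adj v w) (h4 : G.Adj u w) : Dense G r u := by
  have mv : v ∈ ball G u 1 := D1.mem_succ.2 (Or.inr ⟨u, by simp [ball], h1⟩)
  have mw : w ∈ ball G u 1 := D1.mem_succ.2 (Or.inr ⟨u, by simp [ball], h4⟩)
  have lvv : D1.lv G u v = 1 := by
    have hle := D1.lv_le mv
    rcases Nat.eq_zero_or_pos (D1.lv G u v) with h0 | h0
    · have := D1.lv_mem mv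
      rw [h0] at this
      simp [ball] at this
      exact absurd this h1.ne'
    · omega
  refine ⟨1, hr, D1.key mv h1.symm h2 (D1.self_mem u 1) mw h4.ne ?_ ?_⟩
  · rw [D1.lv_self]
    exact Nat.zero_le _
  · rw [lvv]
    exact D1.lv_le mw

end Pool.H98.Sud
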