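import Mathlib

/-!
# The Sudoku number of a random cubic graph: definitions

`Conf E V` is the configuration model with edge set `E` and vertex set `V`: a bijection between the
ends `E × Bool` of the edges and the half-edges `V × Fin 3`.  A typing of the edges gives to each
edge an orientation and a label in `Fin 3`; a vertex is legitimate if it is a source with equal
labels, or has exactly one outgoing edge and three distinct labels.
-/

namespace Pool.H98.Sud

open Finset
open scoped Classical

/-! ### graphs -/

/-- the chromatic number (a natural number for finite graphs) -/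
noncomputable def chi {V : Type*} (G : SimpleGraph V) : ℕ := G.chromaticNumber.toNat

/-- `S` is a Sudoku set for `G`: some proper `χ(G)`-colouring of `G[S]` extends in exactly one way
to a proper `χ(G)`-colouring of `G`. -/
def IsSudoku {V : Type*} (G : SimpleGraph V) (S : Finset V) : Prop :=
  ∃ c : (G.induce (S : Set V)).Coloring (Fin (chi G)),
    ∃! C : G.Coloring (Fin (chi G)), ∀ v : (S : Set V), C v = c v

/-- the Sudoku number: the smallest size of a Sudoku set -/
noncomputable def sudokuNumber {V : Type*} (G : SimpleGraph V) : ℕ :=
  sInf {k | ∃ S : Finset V, S.card = k ∧ IsSudoku G S}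

/-- `G` is `3`-regular -/
def Cubic {V : Type*} [Fintype V] (G : SimpleGraph V) : Prop :=
  ∀ v, (univ.filter (fun w => G.Adj v w)).card = 3

/-- the ball of radius `j` about `v` -/
noncomputable def ball {V : Type*} [Fintype V] (G : SimpleGraph V) (v : V) : ℕ → Finset V
  | 0 => {v}
  | j + 1 => univ.filter (fun w => w ∈ ball G v j ∨ ∃ u ∈ ball G v j, G.Adj u w)

/-- twice the number of edges of `G` inside `A` -/
noncomputable def din {V : Type*} (G : SimpleGraph V) (A : Finset V) : ℕ :=
  ((A ×ˢ A).filter (fun p => G.Adj p.1 p.2)).card

/-- some ball of radius at most `r` about `v` spans at least as many edges as it has vertices -/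
def Dense {V : Type*} [Fintype V] (G : SimpleGraph V) (r : ℕ) (v : V) : Prop :=
  ∃ j ≤ r, 2 * (ball G v j).card ≤ din G (ball G v j)

/-- the number of dense vertices -/
noncomputable def nd {V : Type*} [Fintype V] (G : SimpleGraph V) (r : ℕ) : ℕ :=
  (univ.filter (fun v => Dense G r v)).card

/-! ### the configuration model -/

/-- configurations: `f (e, b)` is the half-edge used by the end `b` of the edge `e` -/
abbrev Conf (E V : Type*) := (E × Bool) ≃ (V × Fin 3)

/-- the graph of a configuration -/
def gr {E V : Type*} (f : Conf E V) : SimpleGraph V where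
  Adj v w := v ≠ w ∧ ∃ e b, (f (e, b)).1 = v ∧ (f (e, !b)).1 = w
  symm := ⟨fun v w h => by
    obtain ⟨h1, e, b, h2, h3⟩ := h
    exact ⟨h1.symm, e, !b, h3, by rw [Bool.not_not]; exact h2⟩⟩
  loopless := ⟨fun v h => h.1 rfl⟩

/-- a configuration without loops and multiple edges -/
def Simp {E V : Type*} (f : Conf E V) : Prop :=
  (∀ e, (f (e, false)).1 ≠ (f (e, true)).1) ∧
    ∀ e e' b b', (f (e, b)).1 = (f (e', b')).1 → (f (e, !b)).1 = (f (e', !b')).1 → e = e'

/-- the type of the end `p` of an edge when the edge `e` has type `l e` at its end `false`;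
`σ` is the involution which gives the type at the other end -/
def ty {E K : Type*} (σ : K → K) (l : E → K) (p : E × Bool) : K := bif p.2 then σ (l p.1) else l p.1

/-- the types of the three half-edges at the vertex `v` -/
def state {E V K : Type*} (f : Conf E V) (σ : K → K) (l : E → K) (v : V) : Fin 3 → K :=
  fun k => ty σ l (f.symm (v, k))

/-- the number of typings for which the state at each vertex `v` is in `L v` -/
noncomputable def cnt {E V K : Type*} [Fintype E] [Fintype K] (σ : K → K)
    (L : V → (Fin 3 → K) → Prop) (f : Conf E V) : ℕ :=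
  (univ.filter (fun l : E → K => ∀ v, L v (state f σ l v))).card

/-- a direction (`true` = outgoing) and a label -/
abbrev Ty := Bool × Fin 3

/-- the other end of an edge has the other direction and the same label -/
def flip (t : Ty) : Ty := (!t.1, t.2)

/-- legitimate states: sources with equal labels; one outgoing edge and distinct labels -/
def Legit (s : Fin 3 → Ty) : Prop :=
  (∃ x, ∀ k, s k = (true, x)) ∨
    ((∃! k, (s k).1 = true) ∧ ∀ k k', (s k).2 = (s k').2 → k = k')

/-- the vertices with a state that is not legitimate -/
noncomputable def badSet {E V : Type*} [Fintype V] (f : Conf E V) (l : E → Ty) : Finset V :=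
  univ.filter (fun v => ¬ Legit (state f flip l v))

/-- the smallest possible number of bad vertices -/
noncomputable def X {E V : Type*} [Fintype V] (f : Conf E V) : ℕ :=
  sInf (Set.range (fun l : E → Ty => (badSet f l).card))

/-! ### typings of graphs -/

/-- an orientation and a labelling of the edges of `G` -/
structure Typing {V : Type*} (G : SimpleGraph V) where
  out : V → V → Prop
  lab : V → V → Fin 3
  lab_symm : ∀ v w, G.Adj v w → lab v w = lab w v
  out_or : ∀ v w, G.Adj v w → out v w ∨ out w v
  out_not : ∀ v w, G.Adj v w → out v w → ¬ out w v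

/-- `v` is a source with equal labels -/
def Typing.Source {V : Type*} {G : SimpleGraph V} (T : Typing G) (v : V) : Prop :=
  ∃ x, ∀ w, G.Adj v w → T.out v w ∧ T.lab v w = x

/-- `v` has exactly one outgoing edge and distinct labels -/
def Typing.Rainbow {V : Type*} {G : SimpleGraph V} (T : Typing G) (v : V) : Prop :=
  (∃! w, G.Adj v w ∧ T.out v w) ∧
    ∀ w w', G.Adj v w → G.Adj v w' → T.lab v w = T.lab v w' → w = w'

/-- neither a source nor rainbow -/
def Typing.Bad {V : Type*} {G : SimpleGraph V} (T : Typing G) (v : V) : Prop :=
  ¬ T.Source v ∧ ¬ T.Rainbow v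

/-- a directed cycle inside `W`: a list of distinct vertices `u 0, ..., u (k-1)` of `W` with
`u i → u (i+1)` and `u (k-1) → u 0` -/
def Typing.DirCycle {V : Type*} {G : SimpleGraph V} (T : Typing G) (W : Finset V) (k : ℕ)
    (u : ℕ → V) : Prop :=
  0 < k ∧ (∀ i < k, u i ∈ W) ∧ (∀ i < k, ∀ j < k, u i = u j → i = j) ∧
    (∀ i, i + 1 < k → G.Adj (u i) (u (i + 1)) ∧ T.out (u i) (u (i + 1))) ∧
      G.Adj (u (k - 1)) (u 0) ∧ T.out (u (k - 1)) (u 0)

end Pool.H98.Sud
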