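import Pool.Agent.helper98.SUD.Defs2

/-!
# Module E: concentration of Lipschitz functions of a uniform bijection
-/

namespace Pool.H98.Sud

open Finset Filter
open scoped Classical Topology Nat

namespace E

lemma exp_le_add (y : ℝ) : Real.exp y ≤ y + Real.exp (y ^ 2) := by
  have h2 : y ^ 2 + 1 ≤ Real.exp (y ^ 2) := Real.add_one_le_exp _
  rcases le_or_gt |y| 1 with h | h
  · have h1 := Real.abs_exp_sub_one_sub_id_le h
    have h3 := (abs_le.mp h1).2
    linarith
  · rcases lt_abs.mp h with h | h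
    · have : Real.exp y ≤ Real.exp (y ^ 2) := Real.exp_le_exp.mpr (by nlinarith)
      linarith
    · have : Real.exp y ≤ 1 := Real.exp_le_one_iff.mpr (by linarith)
      nlinarith

/-- the statement for permutations of `Fin n` -/
lemma fin_case (n : ℕ) : ∀ (g : Equiv.Perm (Fin n) → ℝ) (c : ℝ), 0 ≤ c →
    (∀ f p p', |g ((Equiv.swap p p').trans f) - g f| ≤ c) → ∀ t : ℝ,
    ∑ f, Real.exp (t * (g f - (∑ f', g f') / (n ! : ℝ))) ≤
      Real.exp (4 * c ^ 2 * t ^ 2 * n) * (n ! : ℝ) := by
  induction n with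
  | zero =>
    intro g c hc hg t
    have : ∀ f : Equiv.Perm (Fin 0), f = default := fun f => Subsingleton.elim _ _
    rw [Fintype.sum_unique]
    simp
  | succ n ih =>
    intro g c hc hg t
    have hnf : (0 : ℝ) < (n ! : ℝ) := by exact_mod_cast Nat.factorial_pos n
    have hn1 : (0 : ℝ) < (n : ℝ) + 1 := by positivity
    set D : Fin (n + 1) → Equiv.Perm (Fin n) → Equiv.Perm (Fin (n + 1)) :=
      fun p e => Equiv.Perm.decomposeFin.symm (p, e) with hD
    have hsum : ∀ F : Equiv.Perm (Fin (n + 1)) → ℝ, ∑ f, F f = ∑ p, ∑ e, F (D p e) := by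
      intro F
      rw [← Equiv.sum_comp Equiv.Perm.decomposeFin.symm F, Fintype.sum_prod_type]
    -- changing `p`
    have hDp : ∀ p e, D p e = (Equiv.swap 0 ((D 0 e).symm p)).trans (D 0 e) := by
      intro p e
      have h0 : (D 0 e) 0 = 0 := by
        simp [hD]
      have h0' : ∀ x : Fin n, (D 0 e) x.succ = (e x).succ := by
        intro x
        simp [hD]
      have h1 : ∀ x, (D p e) x = Equiv.swap 0 p ((D 0 e) x) := by
        intro x
        refine Fin.cases ?_ (fun i => ?_) x
        · rw [h0]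
          simp [hD]
        · rw [h0']
          simp [hD]
      ext x
      rw [h1]
      simp only [Equiv.trans_apply]
      congr 1
      have h2 : (D 0 e).symm 0 = 0 := by
        rw [Equiv.symm_apply_eq, h0]
      have h3 := Equiv.swap_apply_apply (D 0 e) ((D 0 e).symm 0) ((D 0 e).symm p)
      simp only [Equiv.apply_symm_apply] at h3
      rw [h3, h2]
      simp
    have hg2 : ∀ p e, |g (D p e) - g (D 0 e)| ≤ c := by
      intro p e
      rw [hDp p e]
      exact hg _ _ _
    have hsw : ∀ p e a b, (Equiv.swap (Fin.succ a) (Fin.succ b)).trans (D p e) =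
        D p ((Equiv.swap a b).trans e) := by
      intro p e a b
      ext x
      congr 1
      refine Fin.cases ?_ (fun i => ?_) x
      · have : Equiv.swap (Fin.succ a) (Fin.succ b) 0 = 0 :=
          Equiv.swap_apply_of_ne_of_ne (Fin.succ_ne_zero a).symm (Fin.succ_ne_zero b).symm
        simp only [Equiv.trans_apply, this]
        simp [hD]
      · have : Equiv.swap (Fin.succ a) (Fin.succ b) i.succ = (Equiv.swap a b i).succ := by
          rw [Equiv.swap_apply_def, Equiv.swap_apply_def]
          simp only [Fin.succ_inj]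
          split_ifs <;> rfl
        simp only [Equiv.trans_apply, this]
        simp [hD]
    set m : Fin (n + 1) → ℝ := fun p => (∑ e, g (D p e)) / (n ! : ℝ) with hm
    set M : ℝ := (∑ f', g f') / ((n + 1)! : ℝ) with hM
    have hfact : (((n + 1)! : ℕ) : ℝ) = ((n : ℝ) + 1) * (n ! : ℝ) := by
      rw [Nat.factorial_succ]
      push_cast
      ring
    have hMm : ∑ p, (m p - M) = 0 := by
      rw [Finset.sum_sub_distrib, Finset.sum_const, Finset.card_univ, Fintype.card_fin, hM, hsum]
      simp only [hm]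
      rw [← Finset.sum_div, hfact, nsmul_eq_mul]
      push_cast
      field_simp
      ring
    have hmm : ∀ p p', |m p - m p'| ≤ 2 * c := by
      intro p p'
      have : m p - m p' = (∑ e, (g (D p e) - g (D p' e))) / (n ! : ℝ) := by
        simp only [hm]
        rw [Finset.sum_sub_distrib, sub_div]
      rw [this, abs_div, abs_of_pos hnf, div_le_iff₀ hnf]
      calc |∑ e, (g (D p e) - g (D p' e))| ≤ ∑ e, |g (D p e) - g (D p' e)| :=
            Finset.abs_sum_le_sum_abs _ _
        _ ≤ ∑ _e : Equiv.Perm (Fin n), 2 * c := by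
            refine Finset.sum_le_sum fun e _ => ?_
            have h1 := hg2 p e
            have h2 := hg2 p' e
            rw [abs_le] at h1 h2 ⊢
            constructor <;> linarith [h1.1, h1.2, h2.1, h2.2]
        _ = 2 * c * (n ! : ℝ) := by
            rw [Finset.sum_const, Finset.card_univ, Fintype.card_perm, Fintype.card_fin,
              nsmul_eq_mul]
            ring
    have hmM : ∀ p, |m p - M| ≤ 2 * c := by
      intro p
      have h1 : ((n : ℝ) + 1) * (m p - M) = ∑ p', (m p - m p') := by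
        have h2 : ∑ p', (m p - m p') = ∑ p', ((m p - M) - (m p' - M)) := by
          refine Finset.sum_congr rfl fun p' _ => ?_
          ring
        rw [h2, Finset.sum_sub_distrib, hMm, Finset.sum_const, Finset.card_univ,
          Fintype.card_fin, nsmul_eq_mul]
        push_cast
        ring
      have h3 : |((n : ℝ) + 1) * (m p - M)| ≤ ((n : ℝ) + 1) * (2 * c) := by
        rw [h1]
        calc |∑ p', (m p - m p')| ≤ ∑ p', |m p - m p'| := Finset.abs_sum_le_sum_abs _ _
          _ ≤ ∑ _p' : Fin (n + 1), 2 * c := Finset.sum_le_sum fun p' _ => hmm p p'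
          _ = ((n : ℝ) + 1) * (2 * c) := by
              rw [Finset.sum_const, Finset.card_univ, Fintype.card_fin, nsmul_eq_mul]
              push_cast
              ring
      rw [abs_mul, abs_of_pos hn1] at h3
      exact le_of_mul_le_mul_left h3 hn1
    -- one step
    have hstep : ∀ p, ∑ e, Real.exp (t * (g (D p e) - m p)) ≤
        Real.exp (4 * c ^ 2 * t ^ 2 * n) * (n ! : ℝ) := by
      intro p
      exact ih (fun e => g (D p e)) c hc (fun e a b => by rw [← hsw]; exact hg _ _ _) t
    rw [hsum]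
    calc ∑ p, ∑ e, Real.exp (t * (g (D p e) - M))
        = ∑ p, Real.exp (t * (m p - M)) * ∑ e, Real.exp (t * (g (D p e) - m p)) := by
          refine Finset.sum_congr rfl fun p _ => ?_
          rw [Finset.mul_sum]
          refine Finset.sum_congr rfl fun e _ => ?_
          rw [← Real.exp_add]
          congr 1
          ring
      _ ≤ ∑ p, Real.exp (t * (m p - M)) * (Real.exp (4 * c ^ 2 * t ^ 2 * n) * (n ! : ℝ)) :=
          Finset.sum_le_sum fun p _ =>
            mul_le_mul_of_nonneg_left (hstep p) (Real.exp_pos _).le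
      _ = (∑ p, Real.exp (t * (m p - M))) * (Real.exp (4 * c ^ 2 * t ^ 2 * n) * (n ! : ℝ)) := by
          rw [Finset.sum_mul]
      _ ≤ (((n : ℝ) + 1) * Real.exp (4 * c ^ 2 * t ^ 2)) *
            (Real.exp (4 * c ^ 2 * t ^ 2 * n) * (n ! : ℝ)) := by
          refine mul_le_mul_of_nonneg_right ?_ (by positivity)
          calc ∑ p, Real.exp (t * (m p - M))
              ≤ ∑ p, (t * (m p - M) + Real.exp (4 * c ^ 2 * t ^ 2)) := by
                refine Finset.sum_le_sum fun p _ => ?_
                refine (exp_le_add _).trans ?_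
                refine add_le_add le_rfl (Real.exp_le_exp.mpr ?_)
                have h1 := hmM p
                have h2 : (m p - M) ^ 2 ≤ (2 * c) ^ 2 := by
                  rw [← sq_abs (m p - M)]
                  exact pow_le_pow_left₀ (abs_nonneg _) h1 2
                nlinarith [sq_nonneg t]
            _ = ((n : ℝ) + 1) * Real.exp (4 * c ^ 2 * t ^ 2) := by
                rw [Finset.sum_add_distrib, ← Finset.mul_sum, hMm, mul_zero, zero_add,
                  Finset.sum_const, Finset.card_univ, Fintype.card_fin, nsmul_eq_mul]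
                push_cast
                ring
      _ = Real.exp (4 * c ^ 2 * t ^ 2 * ((n + 1 : ℕ) : ℝ)) * (((n + 1)! : ℕ) : ℝ) := by
          rw [hfact]
          have : Real.exp (4 * c ^ 2 * t ^ 2 * ((n + 1 : ℕ) : ℝ)) =
              Real.exp (4 * c ^ 2 * t ^ 2) * Real.exp (4 * c ^ 2 * t ^ 2 * n) := by
            rw [← Real.exp_add]
            congr 1
            push_cast
            ring
          rw [this]
          ring

end E

theorem E1 {P Q : Type*} [Fintype P] [Fintype Q] [Nonempty (P ≃ Q)] (g : (P ≃ Q) → ℝ) (c : ℝ)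
    (hc : 0 ≤ c) (hg : ∀ f p p', |g ((Equiv.swap p p').trans f) - g f| ≤ c) (t : ℝ) :
    ∑ f, Real.exp (t * (g f - (∑ f', g f') / Fintype.card (P ≃ Q))) ≤
      Real.exp (4 * c ^ 2 * t ^ 2 * Fintype.card P) * Fintype.card (P ≃ Q) := by
  obtain ⟨e0⟩ := ‹Nonempty (P ≃ Q)›
  set n := Fintype.card P with hn
  let eP : P ≃ Fin n := Fintype.equivFin P
  let Φ : Equiv.Perm (Fin n) ≃ (P ≃ Q) := Equiv.equivCongr eP.symm (eP.symm.trans e0)
  have hΦ : ∀ σ x, Φ σ x = e0 (eP.symm (σ (eP x))) := fun σ x => rfl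
  have hcard : Fintype.card (P ≃ Q) = n ! := by
    rw [Fintype.card_equiv e0]
  have h1 := E.fin_case n (fun σ => g (Φ σ)) c hc (fun σ a b => by
    have : Φ ((Equiv.swap a b).trans σ) =
        (Equiv.swap (eP.symm a) (eP.symm b)).trans (Φ σ) := by
      ext x
      rw [hΦ]
      simp only [Equiv.trans_apply, hΦ]
      congr 3
      rw [Equiv.swap_apply_def, Equiv.swap_apply_def]
      simp only [Equiv.eq_symm_apply]
      split_ifs <;> simp
    rw [this]
    exact hg _ _ _) t
  rw [Equiv.sum_comp Φ g] at h1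
  rw [hcard]
  rw [← Equiv.sum_comp Φ]
  exact h1

namespace E

/-- the upper tail -/
lemma upper {P Q : Type*} [Fintype P] [Fintype Q] [Nonempty P] [Nonempty (P ≃ Q)]
    (g : (P ≃ Q) → ℝ) (c : ℝ) (hc : 0 < c)
    (hg : ∀ f p p', |g ((Equiv.swap p p').trans f) - g f| ≤ c) (s : ℝ) (hs : 0 < s) :
    ((univ.filter (fun f => (∑ f', g f') / Fintype.card (P ≃ Q) + s ≤ g f)).card : ℝ) ≤
      Real.exp (-(s ^ 2 / (16 * c ^ 2 * Fintype.card P))) * Fintype.card (P ≃ Q) := by
  have hP : (0 : ℝ) < Fintype.card P := by exact_mod_cast Fintype.card_pos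
  set M := (∑ f', g f') / (Fintype.card (P ≃ Q) : ℝ) with hM
  set t : ℝ := s / (8 * c ^ 2 * Fintype.card P) with ht
  have ht0 : 0 < t := by positivity
  have h1 := E1 g c hc.le hg t
  rw [← hM] at h1
  have h2 : ((univ.filter (fun f => M + s ≤ g f)).card : ℝ) * Real.exp (t * s) ≤
      ∑ f, Real.exp (t * (g f - M)) := by
    calc ((univ.filter (fun f => M + s ≤ g f)).card : ℝ) * Real.exp (t * s)
        = ∑ _f ∈ univ.filter (fun f => M + s ≤ g f), Real.exp (t * s) := by
          rw [Finset.sum_const, nsmul_eq_mul]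
      _ ≤ ∑ f ∈ univ.filter (fun f => M + s ≤ g f), Real.exp (t * (g f - M)) := by
          refine Finset.sum_le_sum fun f hf => Real.exp_le_exp.mpr ?_
          rw [Finset.mem_filter] at hf
          exact mul_le_mul_of_nonneg_left (by linarith [hf.2]) ht0.le
      _ ≤ ∑ f, Real.exp (t * (g f - M)) :=
          Finset.sum_le_sum_of_subset_of_nonneg (Finset.filter_subset _ _)
            fun f _ _ => (Real.exp_pos _).le
  have h3 := h2.trans h1
  have h4 : -(s ^ 2 / (16 * c ^ 2 * Fintype.card P)) =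
      4 * c ^ 2 * t ^ 2 * Fintype.card P - t * s := by
    rw [ht]
    field_simp
    ring
  rw [h4, Real.exp_sub, div_mul_eq_mul_div, le_div_iff₀ (Real.exp_pos _)]
  exact h3

/-- the lower tail -/
lemma lower {P Q : Type*} [Fintype P] [Fintype Q] [Nonempty P] [Nonempty (P ≃ Q)]
    (g : (P ≃ Q) → ℝ) (c : ℝ) (hc : 0 < c)
    (hg : ∀ f p p', |g ((Equiv.swap p p').trans f) - g f| ≤ c) (s : ℝ) (hs : 0 < s) :
    ((univ.filter (fun f => g f ≤ (∑ f', g f') / Fintype.card (P ≃ Q) - s)).card : ℝ) ≤
      Real.exp (-(s ^ 2 / (16 * c ^ 2 * Fintype.card P))) * Fintype.card (P ≃ Q) := by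
  have h := upper (fun f => - g f) c hc (fun f p p' => by
    have := hg f p p'
    rw [abs_le] at this ⊢
    constructor <;> linarith [this.1, this.2]) s hs
  have h2 : (univ.filter (fun f : P ≃ Q => g f ≤ (∑ f', g f') / Fintype.card (P ≃ Q) - s)) =
      univ.filter (fun f : P ≃ Q => (∑ f', - g f') / Fintype.card (P ≃ Q) + s ≤ - g f) := by
    refine Finset.filter_congr fun f _ => ?_
    rw [Finset.sum_neg_distrib, neg_div]
    constructor <;> intro h <;> linarith
  rw [h2]
  exact h

end E

theorem E2 {P Q : Type*} [Fintype P] [Fintype Q] [Nonempty P] [Nonempty (P ≃ Q)]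
    (g : (P ≃ Q) → ℝ) (c : ℝ) (hc : 0 < c)
    (hg : ∀ f p p', |g ((Equiv.swap p p').trans f) - g f| ≤ c) (a s A : ℝ) (hs : 0 < s)
    (hA : 0 < A) (h1 : (Fintype.card (P ≃ Q) : ℝ) ≤ A * (univ.filter (fun f => g f ≤ a)).card)
    (h2 : A * Real.exp (-(s ^ 2 / (16 * c ^ 2 * Fintype.card P))) < 1) :
    ((univ.filter (fun f => a + 2 * s < g f)).card : ℝ) ≤
      Real.exp (-(s ^ 2 / (16 * c ^ 2 * Fintype.card P))) * Fintype.card (P ≃ Q) := by
  have hN : (0 : ℝ) < Fintype.card (P ≃ Q) := by exact_mod_cast Fintype.card_pos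
  set M := (∑ f', g f') / (Fintype.card (P ≃ Q) : ℝ) with hM
  have hMa : M < a + s := by
    by_contra hcon
    push Not at hcon
    have h3 : ((univ.filter (fun f => g f ≤ a)).card : ℝ) ≤
        ((univ.filter (fun f => g f ≤ M - s)).card : ℝ) := by
      exact_mod_cast Finset.card_le_card
        (Finset.monotone_filter_right _ fun f _ hf => by linarith)
    have h4 := h3.trans (E.lower g c hc hg s hs)
    have h5 := h1.trans (mul_le_mul_of_nonneg_left h4 hA.le)
    rw [← mul_assoc] at h5
    have h6 := mul_lt_mul_of_pos_right h2 hN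
    linarith
  refine le_trans ?_ (E.upper g c hc hg s hs)
  exact_mod_cast Finset.card_le_card
    (Finset.monotone_filter_right _ fun f _ hf => by linarith)

theorem E3 {P Q : Type*} [Fintype P] [Fintype Q] [Nonempty P] [Nonempty (P ≃ Q)]
    (g : (P ≃ Q) → ℝ) (c : ℝ) (hc : 0 < c)
    (hg : ∀ f p p', |g ((Equiv.swap p p').trans f) - g f| ≤ c) (a s : ℝ) (hs : 0 < s)
    (h1 : ∑ f, g f ≤ a * Fintype.card (P ≃ Q)) :
    ((univ.filter (fun f => a + s < g f)).card : ℝ) ≤
      Real.exp (-(s ^ 2 / (16 * c ^ 2 * Fintype.card P))) * Fintype.card (P ≃ Q) := by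
  have hN : (0 : ℝ) < Fintype.card (P ≃ Q) := by exact_mod_cast Fintype.card_pos
  have hM : (∑ f', g f') / (Fintype.card (P ≃ Q) : ℝ) ≤ a := by
    rw [div_le_iff₀ hN]
    exact h1
  refine le_trans ?_ (E.upper g c hc hg s hs)
  exact_mod_cast Finset.card_le_card
    (Finset.monotone_filter_right _ fun f _ hf => by linarith)

/-- `E2` for arbitrary instances (to be used for concrete types) -/
theorem E2' {P Q : Type*} [Fintype P] [Fintype Q] [Nonempty P] [inst : Fintype (P ≃ Q)]
    [dP : DecidableEq P] [Nonempty (P ≃ Q)] (g : (P ≃ Q) → ℝ) (c : ℝ) (hc : 0 < c)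
    (hg : ∀ f p p', |g ((Equiv.swap p p').trans f) - g f| ≤ c) (a s A : ℝ) (hs : 0 < s)
    (hA : 0 < A) (h1 : (Fintype.card (P ≃ Q) : ℝ) ≤ A * (univ.filter (fun f => g f ≤ a)).card)
    (h2 : A * Real.exp (-(s ^ 2 / (16 * c ^ 2 * Fintype.card P))) < 1) :
    ((univ.filter (fun f => a + 2 * s < g f)).card : ℝ) ≤
      Real.exp (-(s ^ 2 / (16 * c ^ 2 * Fintype.card P))) * Fintype.card (P ≃ Q) := by
  have hd : dP = fun a b => Classical.propDecidable (a = b) := Subsingleton.elim _ _
  subst hd
  have h : inst = Equiv.instFintype := Subsingleton.elim _ _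
  subst h
  exact E2 g c hc hg a s A hs hA h1 h2

/-- `E3` for arbitrary instances (to be used for concrete types) -/
theorem E3' {P Q : Type*} [Fintype P] [Fintype Q] [Nonempty P] [inst : Fintype (P ≃ Q)]
    [dP : DecidableEq P] [Nonempty (P ≃ Q)] (g : (P ≃ Q) → ℝ) (c : ℝ) (hc : 0 < c)
    (hg : ∀ f p p', |g ((Equiv.swap p p').trans f) - g f| ≤ c) (a s : ℝ) (hs : 0 < s)
    (h1 : ∑ f, g f ≤ a * Fintype.card (P ≃ Q)) :
    ((univ.filter (fun f => a + s < g f)).card : ℝ) ≤
      Real.exp (-(s ^ 2 / (16 * c ^ 2 * Fintype.card P))) * Fintype.card (P ≃ Q) := by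
  have hd : dP = fun a b => Classical.propDecidable (a = b) := Subsingleton.elim _ _
  subst hd
  have h : inst = Equiv.instFintype := Subsingleton.elim _ _
  subst h
  exact E3 g c hc hg a s hs h1

end Pool.H98.Sud
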