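import Pool.Agent.helper98.SUD.A6
import Pool.Agent.helper98.SUD.B2
import Pool.Agent.helper98.SUD.B3
import Pool.Agent.helper98.SUD.C1

/-!
# The second moment method
-/

namespace Pool.H98.Sud

open Finset Filter
open scoped Classical Topology Nat

lemma cnt_eq {E V K : Type*} [Fintype E] [Fintype K] (σ : K → K)
    (L : V → (Fin 3 → K) → Prop) (f : Conf E V) :
    cnt σ L f = Nat.card {l : E → K // ∀ v, L v (state f σ l v)} := by
  rw [Nat.card_eq_fintype_card]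
  unfold cnt
  convert (Fintype.card_subtype _).symm

theorem M1 {E V : Type*} [Fintype E] [Fintype V] (L : V → (Fin 3 → Ty) → Prop) (f : Conf E V) :
    (cnt flip L f) ^ 2 =
      cnt flip2 (fun v s => L v (fun k => (s k).1) ∧ L v (fun k => (s k).2)) f := by
  have hst : ∀ (l1 l2 : E → Ty) v, state f flip2 (fun e => (l1 e, l2 e)) v =
      fun k => (state f flip l1 v k, state f flip l2 v k) := by
    intro l1 l2 v
    funext k
    unfold state ty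
    rcases (f.symm (v, k)).2 with _ | _ <;> rfl
  rw [cnt_eq, cnt_eq, pow_two, ← Nat.card_prod]
  refine Nat.card_congr ⟨fun p => ⟨fun e => (p.1.1 e, p.2.1 e), fun v => ?_⟩,
    fun l => (⟨fun e => (l.1 e).1, fun v => ?_⟩, ⟨fun e => (l.1 e).2, fun v => ?_⟩),
    fun p => rfl, fun l => rfl⟩
  · rw [hst]
    exact ⟨p.1.2 v, p.2.2 v⟩
  · have h1 := (l.2 v).1
    rw [show l.1 = (fun e => ((l.1 e).1, (l.1 e).2)) from rfl,
      hst (fun e => (l.1 e).1) (fun e => (l.1 e).2) v] at h1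
    exact h1
  · have h1 := (l.2 v).2
    rw [show l.1 = (fun e => ((l.1 e).1, (l.1 e).2)) from rfl,
      hst (fun e => (l.1 e).1) (fun e => (l.1 e).2) v] at h1
    exact h1

namespace Mm

lemma gg_pos (t : Ty × Ty) : 0 < gg t := by
  unfold gg
  split_ifs <;> positivity

lemma gg_le (t : Ty × Ty) : gg t ≤ 3 / 2 := by
  have h2 : √2 ≤ 3 / 2 := by
    rw [Real.sqrt_le_left (by norm_num)]
    norm_num
  have h1 : 1 ≤ √2 := by
    rw [Real.one_le_sqrt]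
    norm_num
  unfold gg
  split_ifs
  · exact h2
  · have : 1 / √2 ≤ 1 := by
      rw [div_le_one (by positivity)]
      exact h1
    linarith
  · norm_num

lemma gg_mul (t : Ty × Ty) : gg t * gg (flip2 t) = 1 := by
  obtain ⟨⟨a, i⟩, ⟨b, j⟩⟩ := t
  have h : √2 ≠ 0 := by positivity
  cases a <;> cases b <;> simp [gg, flip2, flip, h]

lemma free_bound (x : Ty × Ty → ℝ) (h0 : ∀ t, 0 ≤ x t) (h1 : ∑ t, x t ^ 2 = 1)
    (L : (Fin 3 → Ty × Ty) → Prop) :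
    ∑ s ∈ univ.filter (fun s => L s), ∏ k, (gg (s k) * x (s k)) ≤ 60 ^ 3 := by
  have h2 : ∑ s ∈ univ.filter (fun s => L s), ∏ k, (gg (s k) * x (s k)) ≤
      ∑ s : Fin 3 → Ty × Ty, ∏ k, (gg (s k) * x (s k)) := by
    apply sum_le_sum_of_subset_of_nonneg (filter_subset _ _)
    intro s _ _
    exact prod_nonneg (fun k _ => mul_nonneg (gg_pos _).le (h0 _))
  refine h2.trans ?_
  rw [← Fintype.sum_pow (fun t => gg t * x t) 3]
  have hx : ∀ t, x t ≤ 1 := by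
    intro t
    have h3 : x t ^ 2 ≤ 1 := by
      rw [← h1]
      exact single_le_sum (f := fun t => x t ^ 2) (fun t _ => by positivity) (mem_univ t)
    have := h0 t
    nlinarith
  have h4 : ∑ t : Ty × Ty, gg t * x t ≤ ∑ _t : Ty × Ty, (3 / 2 : ℝ) := by
    apply sum_le_sum
    intro t _
    calc gg t * x t ≤ (3 / 2) * 1 :=
          mul_le_mul (gg_le t) (hx t) (h0 t) (by norm_num)
      _ = 3 / 2 := by norm_num
  have h5 : ∑ _t : Ty × Ty, (3 / 2 : ℝ) = 54 := by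
    rw [sum_const, card_univ]
    simp [Fintype.card_prod]
    norm_num
  have h6 : 0 ≤ ∑ t : Ty × Ty, gg t * x t := sum_nonneg (fun t _ => mul_nonneg (gg_pos _).le (h0 _))
  rw [h5] at h4
  calc (∑ t : Ty × Ty, gg t * x t) ^ 3 ≤ 54 ^ 3 := pow_le_pow_left₀ h6 h4 3
    _ ≤ 60 ^ 3 := by norm_num

lemma card_lt (N n : ℕ) (h : n ≤ N) :
    (univ.filter (fun v : Fin N => (v : ℕ) < n)).card = n := by
  have h1 : (univ.filter (fun v : Fin N => (v : ℕ) < n)) =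
      univ.image (fun i : Fin n => (⟨i, lt_of_lt_of_le i.2 h⟩ : Fin N)) := by
    ext v
    rw [mem_filter, mem_image]
    constructor
    · rintro ⟨_, hv⟩
      exact ⟨⟨v, hv⟩, mem_univ _, rfl⟩
    · rintro ⟨i, _, rfl⟩
      exact ⟨mem_univ _, i.2⟩
  rw [h1, card_image_of_injective]
  · simp
  · intro i j hij
    have := congrArg Fin.val hij
    exact Fin.ext this

end Mm

/-- from `A6`, `B2`, `M1` -/
theorem M2 : ∃ A : ℕ, ∀ m : ℕ, 1 ≤ m →
    ∑ f : Conf (Fin (3 * m)) (Fin (2 * m)), ((cnt flip (L1 (24 * (m / 12))) f : ℕ) : ℝ) ^ 2 ≤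
      A * ((m : ℝ) + 1) ^ A * (4 * √2 / 3) ^ (24 * (m / 12)) * ((6 * m)! : ℝ) := by
  obtain ⟨A0, hA0⟩ := exists_nat_ge ((108 : ℝ) ^ 36 * (60 ^ 3) ^ 22)
  refine ⟨max A0 72, fun m hm => ?_⟩
  set n := 24 * (m / 12) with hn
  have hn2 : n ≤ 2 * m := by omega
  have hn3 : 2 * m - n ≤ 22 := by omega
  set B : Fin (2 * m) → ℝ := fun v => if (v : ℕ) < n then 4 * √2 / 3 else 60 ^ 3 with hB
  have hmr : (1 : ℝ) ≤ m := by exact_mod_cast hm
  have key := B2 (E := Fin (3 * m)) (V := Fin (2 * m)) flip2 flip2_flip2 gg Mm.gg_pos Mm.gg_mul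
    (by rw [Fintype.card_fin]; omega) (by rw [Fintype.card_fin, Fintype.card_fin]; ring)
    (fun v s => L1 n v (fun k => (s k).1) ∧ L1 n v (fun k => (s k).2)) B
    (by
      intro x h0 hx h1 v
      by_cases hv : (v : ℕ) < n
      · simp only [hB, if_pos hv]
        refine le_trans (le_of_eq ?_) (A6 x h0 hx h1)
        refine sum_congr ?_ (fun _ _ => rfl)
        ext s
        simp only [mem_filter, mem_univ, true_and]
        unfold L1 LL
        constructor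
        · rintro ⟨h3, h4⟩
          exact ⟨h3 hv, h4 hv⟩
        · rintro ⟨h3, h4⟩
          exact ⟨fun _ => h3, fun _ => h4⟩
      · simp only [hB, if_neg hv]
        exact Mm.free_bound x h0 h1 _)
  have hprod : ∏ v, B v = (4 * √2 / 3) ^ n * (60 ^ 3) ^ (2 * m - n) := by
    rw [hB, prod_ite, prod_const, prod_const, Mm.card_lt _ _ hn2]
    congr 2
    have h1 := card_filter_add_card_filter_not (s := (univ : Finset (Fin (2 * m))))
      (p := fun v => (v : ℕ) < n)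
    rw [Mm.card_lt _ _ hn2, card_univ, Fintype.card_fin] at h1
    omega
  have hsum : ∑ f : Conf (Fin (3 * m)) (Fin (2 * m)), ((cnt flip (L1 n) f : ℕ) : ℝ) ^ 2 =
      ∑ f : Conf (Fin (3 * m)) (Fin (2 * m)),
        (cnt flip2 (fun v s => L1 n v (fun k => (s k).1) ∧ L1 n v (fun k => (s k).2)) f : ℝ) := by
    apply sum_congr rfl
    intro f _
    rw [← M1]
    push_cast
    rfl
  rw [hsum]
  refine le_trans (le_of_eq ?_) (key.trans ?_)
  · refine sum_congr (by ext f; simp only [mem_univ]) fun f _ => ?_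
    exact congrArg Nat.cast rfl
  rw [hprod, Fintype.card_fin]
  have hcardK : Fintype.card (Ty × Ty) = 36 := by simp [Fintype.card_prod]
  rw [hcardK]
  have h6 : 2 * (3 * m) = 6 * m := by ring
  rw [h6]
  have hp : (0 : ℝ) ≤ (4 * √2 / 3) ^ n := by positivity
  have hf : (0 : ℝ) ≤ ((6 * m)! : ℝ) := by positivity
  have h7 : (3 * (2 * (((3 * m : ℕ) : ℝ)) + 1) ^ 2) ^ 36 ≤ 108 ^ 36 * ((m : ℝ) + 1) ^ 72 := by
    have h8 : 3 * (2 * (((3 * m : ℕ) : ℝ)) + 1) ^ 2 ≤ 108 * ((m : ℝ) + 1) ^ 2 := by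
      push_cast
      nlinarith
    calc (3 * (2 * (((3 * m : ℕ) : ℝ)) + 1) ^ 2) ^ 36 ≤ (108 * ((m : ℝ) + 1) ^ 2) ^ 36 :=
          pow_le_pow_left₀ (by positivity) h8 36
      _ = 108 ^ 36 * ((m : ℝ) + 1) ^ 72 := by rw [mul_pow, ← pow_mul]
  have h9 : ((60 : ℝ) ^ 3) ^ (2 * m - n) ≤ (60 ^ 3) ^ 22 :=
    pow_le_pow_right₀ (by norm_num) hn3
  have h10 : ((m : ℝ) + 1) ^ 72 ≤ ((m : ℝ) + 1) ^ (max A0 72) :=
    pow_le_pow_right₀ (by linarith) (le_max_right _ _)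
  have h11 : ((A0 : ℕ) : ℝ) ≤ ((max A0 72 : ℕ) : ℝ) := by exact_mod_cast le_max_left _ _
  have h12 : (3 * (2 * (((3 * m : ℕ) : ℝ)) + 1) ^ 2) ^ 36 * ((60 : ℝ) ^ 3) ^ (2 * m - n) ≤
      ((max A0 72 : ℕ) : ℝ) * ((m : ℝ) + 1) ^ (max A0 72) := by
    calc (3 * (2 * (((3 * m : ℕ) : ℝ)) + 1) ^ 2) ^ 36 * ((60 : ℝ) ^ 3) ^ (2 * m - n) ≤
          (108 ^ 36 * ((m : ℝ) + 1) ^ 72) * (60 ^ 3) ^ 22 :=
          mul_le_mul h7 h9 (by positivity) (by positivity)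
      _ = (108 ^ 36 * (60 ^ 3) ^ 22) * ((m : ℝ) + 1) ^ 72 := by ring
      _ ≤ ((max A0 72 : ℕ) : ℝ) * ((m : ℝ) + 1) ^ (max A0 72) :=
          mul_le_mul (hA0.trans h11) h10 (by positivity) (by positivity)
  calc ((6 * m)! : ℝ) * (3 * (2 * (((3 * m : ℕ) : ℝ)) + 1) ^ 2) ^ 36 *
        ((4 * √2 / 3) ^ n * (60 ^ 3) ^ (2 * m - n)) =
        ((3 * (2 * (((3 * m : ℕ) : ℝ)) + 1) ^ 2) ^ 36 * ((60 : ℝ) ^ 3) ^ (2 * m - n)) *
          ((4 * √2 / 3) ^ n * ((6 * m)! : ℝ)) := by ring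
    _ ≤ (((max A0 72 : ℕ) : ℝ) * ((m : ℝ) + 1) ^ (max A0 72)) *
          ((4 * √2 / 3) ^ n * ((6 * m)! : ℝ)) :=
        mul_le_mul_of_nonneg_right h12 (by positivity)
    _ = ((max A0 72 : ℕ) : ℝ) * ((m : ℝ) + 1) ^ (max A0 72) * (4 * √2 / 3) ^ n *
          ((6 * m)! : ℝ) := by ring


namespace Mm

lemma X_le {m : ℕ} (f : Conf (Fin (3 * m)) (Fin (2 * m))) (q : ℕ) (hq : q = m / 12)
    (h : cnt flip (L1 (24 * q)) f ≠ 0) : X f ≤ 24 := by
  rw [cnt_eq] at h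
  have hne : Nonempty {l : Fin (3 * m) → Ty // ∀ v, L1 (24 * q) v (state f flip l v)} := by
    by_contra hcon
    rw [not_nonempty_iff] at hcon
    exact h (Nat.card_of_isEmpty)
  obtain ⟨l, hl⟩ := hne
  have h1 : X f ≤ (badSet f l).card := Nat.sInf_le ⟨l, rfl⟩
  refine h1.trans ?_
  have h2 : badSet f l ⊆ (univ.filter (fun v : Fin (2 * m) => (v : ℕ) < 24 * q))ᶜ := by
    intro v hv
    rw [mem_compl, mem_filter]
    rintro ⟨_, h3⟩
    have h4 := hl v h3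
    unfold badSet at hv
    simp only [mem_filter, mem_univ, true_and] at hv
    exact hv h4
  refine (card_le_card h2).trans ?_
  rw [card_compl, card_lt _ _ (by omega), Fintype.card_fin]
  omega

end Mm

/-- from `C1`, `C2`, `M2` -/
theorem M3 : ∃ A : ℕ, ∀ m : ℕ, 1 ≤ m →
    ((6 * m)! : ℝ) ≤ A * ((m : ℝ) + 1) ^ A *
      ((univ.filter (fun f : Conf (Fin (3 * m)) (Fin (2 * m)) => X f ≤ 24)).card : ℝ) := by
  obtain ⟨A1, hA1⟩ := C2
  obtain ⟨A2, hA2⟩ := M2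
  refine ⟨max (A1 ^ 2 * A2) (2 * A1 + A2), fun m hm => ?_⟩
  obtain ⟨q, r, hr, rfl⟩ : ∃ q r, r < 12 ∧ m = 12 * q + r :=
    ⟨m / 12, m % 12, Nat.mod_lt _ (by norm_num), by omega⟩
  have hq : (12 * q + r) / 12 = q := by omega
  have h2 := hA2 (12 * q + r) hm
  rw [hq] at h2
  have h1 := hA1 q r hr
  have h0 := C1 q r
  set Fs : ℕ := ∑ f : Conf (Fin (3 * (12 * q + r))) (Fin (2 * (12 * q + r))),
    cnt flip (L1 (24 * q)) f with hFs
  set S := univ.filter (fun f : Conf (Fin (3 * (12 * q + r))) (Fin (2 * (12 * q + r))) =>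
    X f ≤ 24) with hS
  have e6 : 72 * q + 6 * r = 6 * (12 * q + r) := by ring
  rw [e6] at h1
  set N : ℝ := ((6 * (12 * q + r))! : ℝ) with hN
  have hNpos : 0 < N := by
    rw [hN]
    exact_mod_cast Nat.factorial_pos _
  set w : ℝ := (2 ^ 30 / 3 ^ 12 : ℝ) ^ q with hw
  have hwpos : 0 < w := by positivity
  set D : ℝ := ((2 * q)! : ℝ) ^ 3 * (q ! : ℝ) ^ 18 with hD
  have hDpos : 0 < D := by
    have h3 : (0 : ℝ) < ((2 * q)! : ℝ) := by exact_mod_cast Nat.factorial_pos _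
    have h4 : (0 : ℝ) < (q ! : ℝ) := by exact_mod_cast Nat.factorial_pos _
    positivity
  have h0' : (((24 * q)! : ℝ) * 2 ^ (36 * q + 3 * r) * ((36 * q + 3 * r)! : ℝ) *
        ((12 * q)! : ℝ) ^ 2 * ((12 * q + 3 * r)! : ℝ)) ≤ D * (Fs : ℝ) := by
    rw [hD]
    exact_mod_cast h0
  have h3 : w * N ≤ A1 * ((q : ℝ) + 1) ^ A1 * (Fs : ℝ) := by
    have h4 : w * N * D ≤ (A1 * ((q : ℝ) + 1) ^ A1 * (Fs : ℝ)) * D := by
      calc w * N * D = w * N * ((2 * q)! : ℝ) ^ 3 * (q ! : ℝ) ^ 18 := by rw [hD]; ring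
        _ ≤ _ := h1
        _ ≤ A1 * ((q : ℝ) + 1) ^ A1 * (D * (Fs : ℝ)) :=
            mul_le_mul_of_nonneg_left h0' (by positivity)
        _ = (A1 * ((q : ℝ) + 1) ^ A1 * (Fs : ℝ)) * D := by ring
    exact le_of_mul_le_mul_right h4 hDpos
  -- Cauchy-Schwarz
  have h5 : (Fs : ℝ) = ∑ f ∈ S, (cnt flip (L1 (24 * q)) f : ℝ) := by
    rw [hFs]
    push_cast
    symm
    apply sum_subset (subset_univ _)
    intro f _ hf
    by_contra hcon
    apply hf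
    rw [hS]
    simp only [mem_filter, mem_univ, true_and]
    exact Mm.X_le f q hq.symm (by exact_mod_cast hcon)
  have h6 : (Fs : ℝ) ^ 2 ≤ (S.card : ℝ) * ∑ f ∈ S, (cnt flip (L1 (24 * q)) f : ℝ) ^ 2 := by
    rw [h5]
    exact sq_sum_le_card_mul_sum_sq
  have h7 : ∑ f ∈ S, (cnt flip (L1 (24 * q)) f : ℝ) ^ 2 ≤
      ∑ f : Conf (Fin (3 * (12 * q + r))) (Fin (2 * (12 * q + r))),
        ((cnt flip (L1 (24 * q)) f : ℕ) : ℝ) ^ 2 :=
    sum_le_sum_of_subset_of_nonneg (subset_univ _) (fun _ _ _ => by positivity)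
  set M : ℝ := ((12 * q + r : ℕ) : ℝ) + 1 with hMdef
  have hM1 : 1 ≤ M := by
    rw [hMdef]
    have : (0 : ℝ) ≤ ((12 * q + r : ℕ) : ℝ) := Nat.cast_nonneg _
    linarith
  have hqM : (q : ℝ) + 1 ≤ M := by
    rw [hMdef]
    have : q ≤ 12 * q + r := by omega
    have : (q : ℝ) ≤ ((12 * q + r : ℕ) : ℝ) := by exact_mod_cast this
    linarith
  have hww : (4 * √2 / 3) ^ (24 * q) = w ^ 2 := by
    have e7 : ((2 ^ 30 / 3 ^ 12 : ℝ) ^ q) ^ 2 = ((2 ^ 30 / 3 ^ 12 : ℝ) ^ 2) ^ q := by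
      rw [← pow_mul, ← pow_mul, mul_comm]
    rw [hw, e7, pow_mul]
    congr 1
    have h8 : √2 ^ 2 = 2 := Real.sq_sqrt (by norm_num)
    have h9 : (4 * √2 / 3) ^ 24 = (16 * √2 ^ 2 / 9) ^ 12 := by
      rw [show (24 : ℕ) = 2 * 12 from rfl, pow_mul]
      congr 1
      ring
    rw [h9, h8]
    norm_num
  rw [hww] at h2
  have hScard : (0 : ℝ) ≤ (S.card : ℝ) := Nat.cast_nonneg _
  -- combine
  have h10 : (w * N) ^ 2 ≤ (A1 * M ^ A1) ^ 2 * ((S.card : ℝ) * (A2 * M ^ A2 * w ^ 2 * N)) := by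
    have h11 : w * N ≤ A1 * M ^ A1 * (Fs : ℝ) := by
      refine h3.trans ?_
      apply mul_le_mul_of_nonneg_right _ (Nat.cast_nonneg _)
      apply mul_le_mul_of_nonneg_left _ (Nat.cast_nonneg _)
      exact pow_le_pow_left₀ (by positivity) hqM _
    calc (w * N) ^ 2 ≤ (A1 * M ^ A1 * (Fs : ℝ)) ^ 2 :=
          pow_le_pow_left₀ (by positivity) h11 2
      _ = (A1 * M ^ A1) ^ 2 * (Fs : ℝ) ^ 2 := by ring
      _ ≤ (A1 * M ^ A1) ^ 2 * ((S.card : ℝ) * (A2 * M ^ A2 * w ^ 2 * N)) := by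
          apply mul_le_mul_of_nonneg_left _ (by positivity)
          refine h6.trans ?_
          exact mul_le_mul_of_nonneg_left (h7.trans h2) hScard
  have h12 : N * (w ^ 2 * N) ≤ ((A1 : ℝ) ^ 2 * A2 * M ^ (2 * A1 + A2) * (S.card : ℝ)) *
      (w ^ 2 * N) := by
    calc N * (w ^ 2 * N) = (w * N) ^ 2 := by ring
      _ ≤ _ := h10
      _ = ((A1 : ℝ) ^ 2 * A2 * M ^ (2 * A1 + A2) * (S.card : ℝ)) * (w ^ 2 * N) := by
          rw [pow_add, pow_mul']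
          ring
  have h13 := le_of_mul_le_mul_right h12 (by positivity)
  refine h13.trans ?_
  apply mul_le_mul_of_nonneg_right _ hScard
  apply mul_le_mul
  · have : A1 ^ 2 * A2 ≤ max (A1 ^ 2 * A2) (2 * A1 + A2) := le_max_left _ _
    exact_mod_cast this
  · exact pow_le_pow_right₀ hM1 (le_max_right _ _)
  · positivity
  · exact Nat.cast_nonneg _

end Pool.H98.Sud
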