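import Pool.Agent.helper98.SUD.Defs2

set_option autoImplicit false

/-!
# T2: inserting an edge into a simple configuration
-/

namespace Pool.H98.Sud

open Finset
open scoped Classical Nat

namespace T2aux

/-- number of simple configurations -/
noncomputable def S (E V : Type*) [Fintype E] [Fintype V] : ℕ :=
  (univ.filter (fun f : Conf E V => Simp f)).card

theorem S_eq (E V : Type*) [Fintype E] [Fintype V] (i1 : Fintype (Conf E V))
    (i2 : DecidablePred (fun f : Conf E V => Simp f)) :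
    (@Finset.filter (Conf E V) (fun f => Simp f) i2 (@Finset.univ _ i1)).card = S E V := by
  unfold S
  refine congrArg card ?_
  ext f
  simp only [mem_filter, mem_univ, true_and]

theorem simp_trans {E E' V V' : Type*} (π : E' × Bool ≃ E × Bool) (ρ : V × Fin 3 ≃ V' × Fin 3)
    (πE : E' → E) (hπE : Function.Injective πE) (hπ : ∀ e b, (π (e, b)).1 = πE e)
    (hπ' : ∀ e b, (π (e, !b)).2 = !(π (e, b)).2) (ρV : V → V') (hρV : Function.Injective ρV)
    (hρ : ∀ h, (ρ h).1 = ρV h.1) (f : Conf E V) (hf : Simp f) :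
    Simp ((π.trans f).trans ρ : Conf E' V') := by
  have hend : ∀ e b, (((π.trans f).trans ρ : Conf E' V') (e, b)).1 =
      ρV (f (πE e, (π (e, b)).2)).1 := by
    intro e b
    rw [Equiv.trans_apply, Equiv.trans_apply, hρ]
    congr 2
    rw [← hπ e b]
  constructor
  · intro e h
    rw [hend, hend] at h
    have h1 := hρV h
    have h2 : (π (e, true)).2 = !(π (e, false)).2 := hπ' e false
    rw [h2] at h1
    cases h3 : (π (e, false)).2 with
    | false => rw [h3] at h1; exact hf.1 _ h1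
    | true => rw [h3] at h1; exact hf.1 _ h1.symm
  · intro e e' b b' h1 h2
    rw [hend, hend] at h1 h2
    have h3 := hρV h1
    have h4 := hρV h2
    rw [hπ', hπ'] at h4
    exact hπE (hf.2 _ _ _ _ h3 h4)

theorem S_congr {E E' V V' : Type*} [Fintype E] [Fintype V] [Fintype E'] [Fintype V']
    (eE : E ≃ E') (eV : V ≃ V') : S E V ≤ S E' V' := by
  unfold S
  refine Finset.card_le_card_of_injOn
    (fun f => (((eE.symm.prodCongr (Equiv.refl Bool)).trans f).trans
      (eV.prodCongr (Equiv.refl (Fin 3))) : Conf E' V')) ?_ ?_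
  · intro f hf
    have hf' : Simp f := (mem_filter.1 (mem_coe.1 hf)).2
    refine mem_coe.2 (mem_filter.2 ⟨mem_univ _, ?_⟩)
    exact simp_trans _ _ (fun e => eE.symm e) eE.symm.injective (fun e b => rfl) (fun e b => rfl)
      (fun v => eV v) eV.injective (fun h => rfl) f hf'
  · intro f _ f' _ h
    have h1 : ∀ p, f p = f' p := by
      intro p
      have h2 := DFunLike.congr_fun h ((eE.prodCongr (Equiv.refl Bool)) p)
      simp only [Equiv.trans_apply] at h2
      have h3 := (eV.prodCongr (Equiv.refl (Fin 3))).injective h2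
      have e1 : (eE.symm.prodCongr (Equiv.refl Bool)) ((eE.prodCongr (Equiv.refl Bool)) p) = p :=
        Prod.ext (eE.symm_apply_apply p.1) rfl
      rwa [e1] at h3
    exact Equiv.ext h1

/-! ### the insertion -/

/-- the six new positions -/
def tau : Fin 3 × Bool ≃ Fin 2 × Fin 3 where
  toFun p := match p with
    | (0, false) => (0, 0)
    | (0, true) => (1, 0)
    | (1, true) => (0, 1)
    | (1, false) => (0, 2)
    | (2, true) => (1, 1)
    | (2, false) => (1, 2)
  invFun p := match p with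
    | (0, 0) => (0, false)
    | (1, 0) => (0, true)
    | (0, 1) => (1, true)
    | (0, 2) => (1, false)
    | (1, 1) => (2, true)
    | (1, 2) => (2, false)
  left_inv := by decide
  right_inv := by decide

variable {E V : Type*}

/-- disjoint union with the six new positions -/
def base (f : Conf E V) : Conf (E ⊕ Fin 3) (V ⊕ Fin 2) :=
  ((Equiv.sumProdDistrib E (Fin 3) Bool).trans (Equiv.sumCongr f tau)).trans
    (Equiv.sumProdDistrib V (Fin 2) (Fin 3)).symm

noncomputable def kappa (e1 e2 : E) : Equiv.Perm ((E ⊕ Fin 3) × Bool) :=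
  (Equiv.swap (Sum.inl e1, true) (Sum.inr 1, true)).trans
    (Equiv.swap (Sum.inl e2, true) (Sum.inr 2, true))

noncomputable def ins (e1 e2 : E) (f : Conf E V) : Conf (E ⊕ Fin 3) (V ⊕ Fin 2) :=
  (kappa e1 e2).trans (base f)

theorem ins_inj (e1 e2 : E) : Function.Injective (ins e1 e2 : Conf E V → _) := by
  intro f f' h
  have h1 : base f = base f' := by
    ext1 p
    have := DFunLike.congr_fun h ((kappa e1 e2).symm p)
    simpa [ins] using this
  ext1 p
  have h2 := DFunLike.congr_fun h1 (Sum.inl p.1, p.2)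
  simp only [base, Equiv.trans_apply, Equiv.sumProdDistrib_apply_left, Equiv.sumCongr_apply,
    Sum.map_inl] at h2
  have h3 := (Equiv.sumProdDistrib V (Fin 2) (Fin 3)).symm.injective h2
  exact Sum.inl_injective h3

section values

variable (e1 e2 : E) (h12 : e1 ≠ e2) (f : Conf E V)

theorem base_inl (e : E) (b : Bool) : base f (Sum.inl e, b) = (Sum.inl (f (e, b)).1, (f (e, b)).2) :=
  rfl

theorem base_inr (i : Fin 3) (b : Bool) :
    base f (Sum.inr i, b) = (Sum.inr (tau (i, b)).1, (tau (i, b)).2) := rfl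

theorem kap_of (p : (E ⊕ Fin 3) × Bool) (h1 : p ≠ (Sum.inl e1, true)) (h2 : p ≠ (Sum.inr 1, true))
    (h3 : p ≠ (Sum.inl e2, true)) (h4 : p ≠ (Sum.inr 2, true)) : kappa e1 e2 p = p := by
  unfold kappa
  rw [Equiv.trans_apply, Equiv.swap_apply_of_ne_of_ne h1 h2, Equiv.swap_apply_of_ne_of_ne h3 h4]

theorem ins_false (e : E) : ins e1 e2 f (Sum.inl e, false) =
    (Sum.inl (f (e, false)).1, (f (e, false)).2) := by
  unfold ins
  rw [Equiv.trans_apply, kap_of e1 e2 _ (by simp) (by simp) (by simp) (by simp), base_inl]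

theorem ins_true (e : E) (h1 : e ≠ e1) (h2 : e ≠ e2) : ins e1 e2 f (Sum.inl e, true) =
    (Sum.inl (f (e, true)).1, (f (e, true)).2) := by
  unfold ins
  rw [Equiv.trans_apply, kap_of e1 e2 _ (by simp [h1]) (by simp) (by simp [h2]) (by simp),
    base_inl]

theorem ins_e1 : ins e1 e2 f (Sum.inl e1, true) = (Sum.inr 0, 1) := by
  unfold ins kappa
  rw [Equiv.trans_apply, Equiv.trans_apply, Equiv.swap_apply_left,
    Equiv.swap_apply_of_ne_of_ne (by simp) (by simp), base_inr]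
  rfl

include h12 in
theorem ins_e2 : ins e1 e2 f (Sum.inl e2, true) = (Sum.inr 1, 1) := by
  have h : Equiv.swap ((Sum.inl e1, true) : (E ⊕ Fin 3) × Bool) (Sum.inr 1, true)
      (Sum.inl e2, true) = (Sum.inl e2, true) :=
    Equiv.swap_apply_of_ne_of_ne (by simp [h12.symm]) (by simp)
  unfold ins kappa
  rw [Equiv.trans_apply, Equiv.trans_apply, h, Equiv.swap_apply_left, base_inr]
  rfl

include h12 in
theorem ins_x : ins e1 e2 f (Sum.inr 1, true) = (Sum.inl (f (e1, true)).1, (f (e1, true)).2) := by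
  unfold ins kappa
  rw [Equiv.trans_apply, Equiv.trans_apply, Equiv.swap_apply_right,
    Equiv.swap_apply_of_ne_of_ne (by simp [h12]) (by simp), base_inl]

theorem ins_y : ins e1 e2 f (Sum.inr 2, true) = (Sum.inl (f (e2, true)).1, (f (e2, true)).2) := by
  have h : Equiv.swap ((Sum.inl e1, true) : (E ⊕ Fin 3) × Bool) (Sum.inr 1, true)
      (Sum.inr 2, true) = (Sum.inr 2, true) :=
    Equiv.swap_apply_of_ne_of_ne (by simp) (by simp)
  unfold ins kappa
  rw [Equiv.trans_apply, Equiv.trans_apply, h, Equiv.swap_apply_right, base_inl]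

theorem ins_x' : ins e1 e2 f (Sum.inr 1, false) = (Sum.inr 0, 2) := by
  unfold ins
  rw [Equiv.trans_apply, kap_of e1 e2 _ (by simp) (by simp) (by simp) (by simp), base_inr]
  rfl

theorem ins_y' : ins e1 e2 f (Sum.inr 2, false) = (Sum.inr 1, 2) := by
  unfold ins
  rw [Equiv.trans_apply, kap_of e1 e2 _ (by simp) (by simp) (by simp) (by simp), base_inr]
  rfl

theorem ins_s : ins e1 e2 f (Sum.inr 0, false) = (Sum.inr 0, 0) := by
  unfold ins
  rw [Equiv.trans_apply, kap_of e1 e2 _ (by simp) (by simp) (by simp) (by simp), base_inr]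
  rfl

theorem ins_s' : ins e1 e2 f (Sum.inr 0, true) = (Sum.inr 1, 0) := by
  unfold ins
  rw [Equiv.trans_apply, kap_of e1 e2 _ (by simp) (by simp) (by simp) (by simp), base_inr]
  rfl

end values

/-- the six kinds of edges -/
theorem cases_edge (e1 e2 : E) (e : E ⊕ Fin 3) : e = Sum.inl e1 ∨ e = Sum.inl e2 ∨
    (∃ e', e' ≠ e1 ∧ e' ≠ e2 ∧ e = Sum.inl e') ∨ e = Sum.inr 0 ∨ e = Sum.inr 1 ∨ e = Sum.inr 2 := by
  rcases e with e | i
  · by_cases h1 : e = e1
    · exact Or.inl (by rw [h1])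
    · by_cases h2 : e = e2
      · exact Or.inr (Or.inl (by rw [h2]))
      · exact Or.inr (Or.inr (Or.inl ⟨e, h1, h2, rfl⟩))
  · fin_cases i
    · exact Or.inr (Or.inr (Or.inr (Or.inl rfl)))
    · exact Or.inr (Or.inr (Or.inr (Or.inr (Or.inl rfl))))
    · exact Or.inr (Or.inr (Or.inr (Or.inr (Or.inr rfl))))

theorem simp_ins (e1 e2 : E) (h12 : e1 ≠ e2) (f : Conf E V) (hf : Simp f) :
    Simp (ins e1 e2 f) := by
  have n1 := hf.1 e1
  have n2 := hf.1 e2
  constructor
  · intro e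
    rcases cases_edge e1 e2 e with rfl | rfl | ⟨e', h1, h2, rfl⟩ | rfl | rfl | rfl
    · rw [ins_false, ins_e1]; simp
    · rw [ins_false, ins_e2 _ _ h12]; simp
    · rw [ins_false, ins_true _ _ _ _ h1 h2]; simpa using hf.1 e'
    · rw [ins_s, ins_s']; simp
    · rw [ins_x', ins_x _ _ h12]; simp
    · rw [ins_y', ins_y]; simp
  · have g1 : ∀ e b, e ≠ e1 → e ≠ e2 → (ins e1 e2 f (Sum.inl e, b)).1 = Sum.inl (f (e, b)).1 := by
      intro e b h1 h2
      cases b
      · rw [ins_false]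
      · rw [ins_true _ _ _ _ h1 h2]
    have k1 := ins_e1 e1 e2 f
    have k2 := ins_e2 e1 e2 h12 f
    have k3 := ins_x e1 e2 h12 f
    have k4 := ins_y e1 e2 f
    have k5 := ins_x' e1 e2 f
    have k6 := ins_y' e1 e2 f
    have k7 := ins_s e1 e2 f
    have k8 := ins_s' e1 e2 f
    have k9 := ins_false e1 e2 f
    intro e e' b b' ha hb
    have c1 := cases_edge e1 e2 e
    have c2 := cases_edge e1 e2 e'
    rcases c1 with h | h | ⟨e₁, h1, h2, h⟩ | h | h | h <;>
    rcases c2 with h' | h' | ⟨e₂, h3, h4, h'⟩ | h' | h' | h' <;>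
    subst h <;> subst h' <;> first | rfl | skip
    all_goals
      cases b <;> cases b' <;>
      simp only [Bool.not_true, Bool.not_false, k1, k2, k3, k4, k5, k6, k7, k8, k9, reduceCtorEq,
        Sum.inl.injEq, Sum.inr.injEq] at ha hb
    all_goals first
      | exact absurd ha (by decide)
      | exact absurd hb (by decide)
      | exact absurd ha n1
      | exact absurd ha.symm n1
      | exact absurd hb n1
      | exact absurd hb.symm n1
      | exact absurd ha n2
      | exact absurd ha.symm n2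
      | exact absurd hb n2
      | exact absurd hb.symm n2
      | skip
    all_goals (try simp only [g1 _ _ h1 h2, reduceCtorEq, Sum.inl.injEq] at ha hb)
    all_goals (try simp only [g1 _ _ h3 h4, reduceCtorEq, Sum.inl.injEq] at ha hb)
    all_goals first
      | exact congrArg Sum.inl (hf.2 e₁ e₂ false false ha hb)
      | exact congrArg Sum.inl (hf.2 e₁ e₂ true true ha hb)
      | exact congrArg Sum.inl (hf.2 e₁ e₂ false true ha hb)
      | exact congrArg Sum.inl (hf.2 e₁ e₂ true false ha hb)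

/-! ### moving the configuration -/

/-- the five new edges -/
def edges (e1 e2 : E) : Fin 5 → E ⊕ Fin 3
  | 0 => Sum.inr 0
  | 1 => Sum.inl e1
  | 2 => Sum.inr 1
  | 3 => Sum.inl e2
  | 4 => Sum.inr 2

theorem edges_inj (e1 e2 : E) (h12 : e1 ≠ e2) : Function.Injective (edges e1 e2) := by
  intro i j h
  fin_cases i <;> fin_cases j <;> simp_all [edges]

/-- an injection extends to a permutation -/
theorem exists_perm {A : Type*} [Fintype A] {k : ℕ} (a b : Fin k ↪ A) :
    ∃ σ : Equiv.Perm A, ∀ i, σ (a i) = b i := by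
  have e : {x // x ∈ Set.range a} ≃ {x // x ∈ Set.range b} :=
    (Equiv.ofInjective a a.injective).symm.trans (Equiv.ofInjective b b.injective)
  set e' : {x // x ∈ Set.range a} ≃ {x // x ∈ Set.range b} :=
    (Equiv.ofInjective a a.injective).symm.trans (Equiv.ofInjective b b.injective) with he'
  refine ⟨e'.extendSubtype, fun i => ?_⟩
  rw [Equiv.extendSubtype_apply_of_mem e' (a i) ⟨i, rfl⟩, he', Equiv.trans_apply]
  have : (Equiv.ofInjective a a.injective).symm ⟨a i, ⟨i, rfl⟩⟩ = i := by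
    rw [Equiv.symm_apply_eq]
    rfl
  rw [this]
  rfl

noncomputable def pe (e1 e2 : E) (σ : Equiv.Perm (E ⊕ Fin 3)) (β : Fin 5 → Bool) :
    Equiv.Perm ((E ⊕ Fin 3) × Bool) :=
  Equiv.prodShear σ (fun e => if (∃ i, edges e1 e2 i = e ∧ β i = true) then Equiv.boolNot
    else Equiv.refl Bool)

theorem pe_edges (e1 e2 : E) (h12 : e1 ≠ e2) (σ : Equiv.Perm (E ⊕ Fin 3)) (β : Fin 5 → Bool)
    (i : Fin 5) (b : Bool) :
    pe e1 e2 σ β (edges e1 e2 i, b) = (σ (edges e1 e2 i), xor b (β i)) := by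
  unfold pe
  rw [Equiv.prodShear_apply]
  refine Prod.ext rfl ?_
  by_cases h : β i = true
  · have : ∃ j, edges e1 e2 j = edges e1 e2 i ∧ β j = true := ⟨i, rfl, h⟩
    simp only [this, if_true, h]
    cases b <;> rfl
  · have : ¬ ∃ j, edges e1 e2 j = edges e1 e2 i ∧ β j = true := by
      rintro ⟨j, h1, h2⟩
      rw [edges_inj e1 e2 h12 h1] at h2
      exact h h2
    simp only [this, if_false]
    have h' : β i = false := by simpa using h
    rw [h']
    cases b <;> rfl

theorem pe_symm_fst (e1 e2 : E) (σ : Equiv.Perm (E ⊕ Fin 3)) (β : Fin 5 → Bool) (e : E ⊕ Fin 3)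
    (b : Bool) : ((pe e1 e2 σ β).symm (e, b)).1 = σ.symm e := rfl

theorem pe_symm_snd (e1 e2 : E) (σ : Equiv.Perm (E ⊕ Fin 3)) (β : Fin 5 → Bool) (e : E ⊕ Fin 3)
    (b : Bool) : ((pe e1 e2 σ β).symm (e, !b)).2 = !((pe e1 e2 σ β).symm (e, b)).2 := by
  unfold pe
  rw [Equiv.prodShear_symm_apply]
  by_cases h : ∃ i, edges e1 e2 i = σ.symm e ∧ β i = true
  · simp only [h, if_true]
    cases b <;> rfl
  · simp only [h, if_false]
    cases b <;> rfl

noncomputable def rho (h : (V ⊕ Fin 2) × Fin 3) : Equiv.Perm ((V ⊕ Fin 2) × Fin 3) :=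
  Equiv.prodShear (Equiv.swap (Sum.inr 1) h.1)
    (fun z => if z = Sum.inr 1 then Equiv.swap 0 h.2 else Equiv.refl _)

theorem rho_fst (h z : (V ⊕ Fin 2) × Fin 3) : (rho h z).1 = Equiv.swap (Sum.inr 1) h.1 z.1 := rfl

theorem rho_u (h : (V ⊕ Fin 2) × Fin 3) (hh : h.1 ≠ Sum.inr 0) (j : Fin 3) :
    rho h (Sum.inr 0, j) = (Sum.inr 0, j) := by
  unfold rho
  rw [Equiv.prodShear_apply]
  refine Prod.ext ?_ ?_
  · exact Equiv.swap_apply_of_ne_of_ne (by simp) hh.symm
  · have : ¬ ((Sum.inr 0 : V ⊕ Fin 2) = Sum.inr 1) := by simp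
    simp only [this, if_false]
    rfl

theorem rho_v (h : (V ⊕ Fin 2) × Fin 3) : rho h (Sum.inr 1, 0) = h := by
  unfold rho
  rw [Equiv.prodShear_apply]
  refine Prod.ext ?_ ?_
  · exact Equiv.swap_apply_left _ _
  · simp only [if_true]
    exact Equiv.swap_apply_left _ _

noncomputable def Phi [Fintype E] (e1 e2 : E) (h12 : e1 ≠ e2) (ι : Fin 5 ↪ E ⊕ Fin 3)
    (β : Fin 5 → Bool) (h : (V ⊕ Fin 2) × Fin 3) (f : Conf E V) : Conf (E ⊕ Fin 3) (V ⊕ Fin 2) :=
  ((pe e1 e2 (Classical.choose (exists_perm ⟨edges e1 e2, edges_inj e1 e2 h12⟩ ι)) β).symm.trans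
    (ins e1 e2 f)).trans (rho h)

theorem Phi_pe [Fintype E] (e1 e2 : E) (h12 : e1 ≠ e2) (ι : Fin 5 ↪ E ⊕ Fin 3)
    (β : Fin 5 → Bool) (h : (V ⊕ Fin 2) × Fin 3) (f : Conf E V) (i : Fin 5) (b : Bool) :
    Phi e1 e2 h12 ι β h f (ι i, xor b (β i)) = rho h (ins e1 e2 f (edges e1 e2 i, b)) := by
  have hσ := Classical.choose_spec (exists_perm ⟨edges e1 e2, edges_inj e1 e2 h12⟩ ι) i
  have h1 := pe_edges e1 e2 h12
    (Classical.choose (exists_perm ⟨edges e1 e2, edges_inj e1 e2 h12⟩ ι)) β i b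
  have h2 : Classical.choose (exists_perm ⟨edges e1 e2, edges_inj e1 e2 h12⟩ ι) (edges e1 e2 i)
      = ι i := hσ
  rw [h2] at h1
  unfold Phi
  rw [Equiv.trans_apply, Equiv.trans_apply, ← h1, Equiv.symm_apply_apply]

theorem Phi_simp [Fintype E] (e1 e2 : E) (h12 : e1 ≠ e2) (ι : Fin 5 ↪ E ⊕ Fin 3)
    (β : Fin 5 → Bool) (h : (V ⊕ Fin 2) × Fin 3) (f : Conf E V) (hf : Simp f) :
    Simp (Phi e1 e2 h12 ι β h f) := by
  unfold Phi
  exact simp_trans _ _ (fun e => (Classical.choose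
    (exists_perm ⟨edges e1 e2, edges_inj e1 e2 h12⟩ ι)).symm e) (Equiv.injective _)
    (fun e b => pe_symm_fst _ _ _ _ _ _) (fun e b => pe_symm_snd _ _ _ _ _ _)
    (fun v => Equiv.swap (Sum.inr 1) h.1 v) (Equiv.injective _) (fun z => rho_fst h z) _
    (simp_ins e1 e2 h12 f hf)

theorem Phi_inj [Fintype E] (e1 e2 : E) (h12 : e1 ≠ e2) (ι ι' : Fin 5 ↪ E ⊕ Fin 3)
    (β β' : Fin 5 → Bool) (h h' : (V ⊕ Fin 2) × Fin 3) (hh : h.1 ≠ Sum.inr 0)
    (hh' : h'.1 ≠ Sum.inr 0) (f f' : Conf E V)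
    (heq : Phi e1 e2 h12 ι β h f = Phi e1 e2 h12 ι' β' h' f') :
    ι = ι' ∧ β = β' ∧ h = h' ∧ f = f' := by
  have key := Phi_pe e1 e2 h12 ι β h f
  have key' := Phi_pe e1 e2 h12 ι' β' h' f'
  rw [← heq] at key'
  set g := Phi e1 e2 h12 ι β h f with hg
  -- position of the half-edge `(u, 0)`
  have a0 : (ι 0, xor false (β 0)) = (ι' 0, xor false (β' 0)) := by
    apply g.injective
    rw [key, key']
    show rho h (ins e1 e2 f (Sum.inr 0, false)) = rho h' (ins e1 e2 f' (Sum.inr 0, false))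
    rw [ins_s, ins_s, rho_u h hh, rho_u h' hh']
  have b0 : ι 0 = ι' 0 := (Prod.ext_iff.1 a0).1
  have c0 : β 0 = β' 0 := by simpa using (Prod.ext_iff.1 a0).2
  have hhh : h = h' := by
    have k1 := key 0 true
    have k2 := key' 0 true
    rw [← b0, ← c0, k1] at k2
    have k3 : rho h (ins e1 e2 f (Sum.inr 0, true)) = rho h' (ins e1 e2 f' (Sum.inr 0, true)) := k2
    rw [ins_s', ins_s', rho_v, rho_v] at k3
    exact k3
  subst hhh
  have a1 : (ι 1, xor true (β 1)) = (ι' 1, xor true (β' 1)) := by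
    apply g.injective
    rw [key, key']
    show rho h (ins e1 e2 f (Sum.inl e1, true)) = rho h (ins e1 e2 f' (Sum.inl e1, true))
    rw [ins_e1, ins_e1]
  have a2 : (ι 2, xor false (β 2)) = (ι' 2, xor false (β' 2)) := by
    apply g.injective
    rw [key, key']
    show rho h (ins e1 e2 f (Sum.inr 1, false)) = rho h (ins e1 e2 f' (Sum.inr 1, false))
    rw [ins_x', ins_x']
  have a3 : (ι 3, xor true (β 3)) = (ι' 3, xor true (β' 3)) := by
    apply g.injective
    rw [key, key']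
    show rho h (ins e1 e2 f (Sum.inl e2, true)) = rho h (ins e1 e2 f' (Sum.inl e2, true))
    rw [ins_e2 _ _ h12, ins_e2 _ _ h12]
  have a4 : (ι 4, xor false (β 4)) = (ι' 4, xor false (β' 4)) := by
    apply g.injective
    rw [key, key']
    show rho h (ins e1 e2 f (Sum.inr 2, false)) = rho h (ins e1 e2 f' (Sum.inr 2, false))
    rw [ins_y', ins_y']
  have hι : ι = ι' := by
    ext1 i
    fin_cases i
    · exact b0
    · exact (Prod.ext_iff.1 a1).1
    · exact (Prod.ext_iff.1 a2).1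
    · exact (Prod.ext_iff.1 a3).1
    · exact (Prod.ext_iff.1 a4).1
  have hβ : β = β' := by
    ext1 i
    fin_cases i
    · exact c0
    · simpa using (Prod.ext_iff.1 a1).2
    · simpa using (Prod.ext_iff.1 a2).2
    · simpa using (Prod.ext_iff.1 a3).2
    · simpa using (Prod.ext_iff.1 a4).2
  subst hι
  subst hβ
  refine ⟨rfl, rfl, rfl, ?_⟩
  apply ins_inj e1 e2
  ext1 p
  rw [hg] at heq
  have h3 := DFunLike.congr_fun heq ((pe e1 e2
    (Classical.choose (exists_perm ⟨edges e1 e2, edges_inj e1 e2 h12⟩ ι)) β) p)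
  unfold Phi at h3
  simp only [Equiv.trans_apply, Equiv.symm_apply_apply] at h3
  exact (rho h).injective h3

theorem count (E V : Type) [Fintype E] [Fintype V] (e1 e2 : E) (h12 : e1 ≠ e2) :
    (Fintype.card E + 3).descFactorial 5 * (2 ^ 5 * ((3 * Fintype.card V + 3) * S E V)) ≤
      S (E ⊕ Fin 3) (V ⊕ Fin 2) := by
  have h1 : Function.Injective (fun x : (Fin 5 ↪ E ⊕ Fin 3) × (Fin 5 → Bool) ×
      {h : (V ⊕ Fin 2) × Fin 3 // h.1 ≠ Sum.inr 0} × {f : Conf E V // Simp f} =>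
      (⟨Phi e1 e2 h12 x.1 x.2.1 x.2.2.1.1 x.2.2.2.1,
        Phi_simp e1 e2 h12 _ _ _ _ x.2.2.2.2⟩ : {g : Conf (E ⊕ Fin 3) (V ⊕ Fin 2) // Simp g})) := by
    rintro ⟨ι, β, ⟨h, hh⟩, ⟨f, hf⟩⟩ ⟨ι', β', ⟨h', hh'⟩, ⟨f', hf'⟩⟩ heq
    have h2 := congrArg Subtype.val heq
    obtain ⟨a, b, c, d⟩ := Phi_inj e1 e2 h12 ι ι' β β' h h' hh hh' f f' h2
    subst a b c d
    rfl
  have h2 := Fintype.card_le_of_injective _ h1
  rw [Fintype.card_prod, Fintype.card_prod, Fintype.card_prod, Fintype.card_embedding_eq] at h2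
  have h3 : Fintype.card (E ⊕ Fin 3) = Fintype.card E + 3 := by simp
  have h4 : Fintype.card (Fin 5) = 5 := by simp
  have h5 : Fintype.card (Fin 5 → Bool) = 2 ^ 5 := by simp
  have h6 : Fintype.card {h : (V ⊕ Fin 2) × Fin 3 // h.1 ≠ Sum.inr 0} =
      3 * Fintype.card V + 3 := by
    have e : {h : (V ⊕ Fin 2) × Fin 3 // h.1 ≠ Sum.inr 0} ≃
        {z : V ⊕ Fin 2 // z ≠ Sum.inr 0} × Fin 3 := by
      refine ⟨fun h => (⟨h.1.1, h.2⟩, h.1.2), fun h => ⟨(h.1.1, h.2), h.1.2⟩, ?_, ?_⟩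
      · rintro ⟨⟨z, j⟩, hz⟩; rfl
      · rintro ⟨⟨z, hz⟩, j⟩; rfl
    rw [Fintype.card_congr e, Fintype.card_prod]
    have : Fintype.card {z : V ⊕ Fin 2 // z ≠ Sum.inr 0} = Fintype.card V + 1 := by
      rw [Fintype.card_subtype_compl, Fintype.card_subtype_eq]
      simp
    rw [this]
    simp
    ring
  rw [h3, h4, h5, h6, Fintype.card_subtype, Fintype.card_subtype] at h2
  unfold S
  refine le_trans (le_of_eq ?_) (h2.trans (le_of_eq ?_))
  · rw [S_eq E V]
  · refine congrArg card ?_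
    ext f
    simp only [mem_filter, mem_univ, true_and]

end T2aux

theorem T2 (m : ℕ) (hm : 1 ≤ m) :
    ((6 * m + 6) * (6 * m + 4) * (6 * m + 3) * (6 * m + 2) * (6 * m) * (6 * m - 2)) *
      (univ.filter (fun f : Conf (Fin (3 * m)) (Fin (2 * m)) => Simp f)).card ≤
    (univ.filter (fun f : Conf (Fin (3 * (m + 1))) (Fin (2 * (m + 1))) => Simp f)).card := by
  have h12 : (⟨0, by omega⟩ : Fin (3 * m)) ≠ ⟨1, by omega⟩ := by simp
  have h1 := T2aux.count (Fin (3 * m)) (Fin (2 * m)) _ _ h12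
  have h2 := T2aux.S_congr
    (finSumFinEquiv.trans (finCongr (by ring)) : Fin (3 * m) ⊕ Fin 3 ≃ Fin (3 * (m + 1)))
    (finSumFinEquiv.trans (finCongr (by ring)) : Fin (2 * m) ⊕ Fin 2 ≃ Fin (2 * (m + 1)))
  have h3 := h1.trans h2
  rw [Fintype.card_fin, Fintype.card_fin] at h3
  have e : (3 * m + 3).descFactorial 5 * 2 ^ 5 * (3 * (2 * m) + 3) =
      (6 * m + 6) * (6 * m + 4) * (6 * m + 3) * (6 * m + 2) * (6 * m) * (6 * m - 2) := by
    have e1 : (3 * m + 3).descFactorial 5 =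
        (3 * m - 1) * ((3 * m) * ((3 * m + 1) * ((3 * m + 2) * (3 * m + 3)))) := by
      rw [Nat.descFactorial_succ, Nat.descFactorial_succ, Nat.descFactorial_succ,
        Nat.descFactorial_succ, Nat.descFactorial_succ, Nat.descFactorial_zero, mul_one,
        show 3 * m + 3 - 4 = 3 * m - 1 by omega, show 3 * m + 3 - 3 = 3 * m by omega,
        show 3 * m + 3 - 2 = 3 * m + 1 by omega, show 3 * m + 3 - 1 = 3 * m + 2 by omega,
        show 3 * m + 3 - 0 = 3 * m + 3 by omega]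
    obtain ⟨k, hk⟩ : ∃ k, 3 * m = k + 1 := ⟨3 * m - 1, by omega⟩
    rw [e1, show 6 * m - 2 = 2 * (3 * m - 1) by omega, show 6 * m = 2 * (3 * m) by ring,
      show 3 * (2 * m) = 2 * (3 * m) by ring, hk, Nat.add_sub_cancel]
    ring
  rw [← e, T2aux.S_eq, T2aux.S_eq]
  calc _ = (3 * m + 3).descFactorial 5 * (2 ^ 5 * ((3 * (2 * m) + 3) *
        T2aux.S (Fin (3 * m)) (Fin (2 * m)))) := by
        ring
    _ ≤ _ := h3

end Pool.H98.Sud
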